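import Pool.Agent.LKI.B1

/-!
B2: limits of jets along a free ultrafilter on `ℕ`.

PROOF of `jet_limit`.  For `t ∈ S`, `j < n`, the sequence `F i j t` is, for almost all `i` (along `U`), in `[-B, B]`,
so it converges along the ultrafilter `U` to some `G j t` (compactness of `[-B, B]`:
`isCompact_iff_ultrafilter_le_nhds`); for other `t` or `j` put `G j t = 0`.
Lipschitz: `|G (n-1) s - G (n-1) t| ≤ |s - t|` passes to the limit.
Derivative: let `j + 1 < n`, `s, t ∈ S`.  For almost all `i`, `s, t ∈ Si i` and, by `jet_lip` (constant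
`B' = max B 1`), `F i (j+1)` is `B'`-Lipschitz on `Si i`, so
`|F i j t - F i j s - (t - s) F i (j+1) s| ≤ B' |t - s|^2` (mean value theorem:
the function `F i j t - (t) F i (j+1) s` has derivative bounded by `B' |t - s|` on the segment).  Passing to
the limit, `|G j t - G j s - (t - s) G (j+1) s| ≤ B' |t - s|^2` for all `s, t ∈ S`, which implies
`HasDerivWithinAt (G j) (G (j+1) s) S s`.
`tendsto_moving`: equi-Lipschitz.
-/

open Set Filter Topology

namespace Pool.Agent.LKI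

/-- The free ultrafilter used for all limits. -/
noncomputable abbrev U : Filter ℕ := (hyperfilter ℕ : Filter ℕ)

private theorem exists_tendsto_aux {x : ℕ → ℝ} {a b : ℝ} (hx : ∀ᶠ i in U, x i ∈ Icc a b) :
    ∃ x₀ ∈ Icc a b, Tendsto x U (𝓝 x₀) := by
  have h1 : ((Ultrafilter.map x (hyperfilter ℕ) : Ultrafilter ℝ) : Filter ℝ) ≤ 𝓟 (Icc a b) := by
    rw [Ultrafilter.coe_map]
    exact tendsto_principal.mpr hx
  obtain ⟨x₀, h2, h3⟩ := (isCompact_Icc (a := a) (b := b)).ultrafilter_le_nhds _ h1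
  refine ⟨x₀, h2, ?_⟩
  rw [Ultrafilter.coe_map] at h3
  exact h3

private theorem taylor_two {n : ℕ} (hn : 1 ≤ n) {S : Set ℝ} (hS : S.OrdConnected)
    {F : ℕ → ℝ → ℝ} (h : IsJet n 1 S F) {B : ℝ} (hB1 : 1 ≤ B)
    (hB : ∀ j, j < n → ∀ t ∈ S, |F j t| ≤ B) {j : ℕ} (hj : j + 1 < n) {s t : ℝ} (hs : s ∈ S)
    (ht : t ∈ S) : |F j t - F j s - (t - s) * F (j + 1) s| ≤ B * |t - s| * |t - s| := by
  have hT : uIcc s t ⊆ S := hS.uIcc_subset hs ht
  have hl := jet_lip hn hS h hB1 hB (j + 1) hj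
  have h1 : ∀ u ∈ uIcc s t, HasDerivWithinAt (fun u => F j u - u * F (j + 1) s)
      (F (j + 1) u - 1 * F (j + 1) s) (uIcc s t) u := by
    intro u hu
    have h2 := (h.hasDeriv j hj u (hT hu)).mono hT
    exact h2.sub ((hasDerivWithinAt_id u _).mul_const _)
  have h2 : ∀ u ∈ uIcc s t, ‖F (j + 1) u - 1 * F (j + 1) s‖ ≤ B * |t - s| := by
    intro u hu
    rw [one_mul, Real.norm_eq_abs]
    refine (hl u (hT hu) s hs).trans ?_
    have h3 : |u - s| ≤ |t - s| := abs_sub_left_of_mem_uIcc hu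
    exact mul_le_mul_of_nonneg_left h3 (by linarith)
  have h3 := Convex.norm_image_sub_le_of_norm_hasDerivWithin_le h1 h2 (convex_uIcc s t)
    left_mem_uIcc right_mem_uIcc
  rw [Real.norm_eq_abs, Real.norm_eq_abs] at h3
  refine le_trans (le_of_eq ?_) h3
  congr 1
  ring

theorem jet_limit {n : ℕ} (hn : 1 ≤ n) (S : Set ℝ) (hS : S.OrdConnected) (Si : ℕ → Set ℝ)
    (hSi : ∀ i, (Si i).OrdConnected) (hsub : ∀ t ∈ S, ∀ᶠ i in U, t ∈ Si i)
    (F : ℕ → ℕ → ℝ → ℝ) (hF : ∀ i, IsJet n 1 (Si i) (F i))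
    (B : ℝ) (hB : ∀ i, ∀ j, j < n → ∀ t ∈ Si i, |F i j t| ≤ B) :
    ∃ G : ℕ → ℝ → ℝ, IsJet n 1 S G ∧
      ∀ j, j < n → ∀ t ∈ S, Tendsto (fun i => F i j t) U (𝓝 (G j t)) := by
  have hlim : ∀ j, j < n → ∀ t ∈ S, ∃ g, Tendsto (fun i => F i j t) U (𝓝 g) := by
    intro j hj t ht
    have h1 : ∀ᶠ i in U, F i j t ∈ Icc (-B) B := by
      filter_upwards [hsub t ht] with i hi
      exact abs_le.mp (hB i j hj t hi)
    obtain ⟨g, _, hg⟩ := exists_tendsto_aux h1
    exact ⟨g, hg⟩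
  classical
  choose g hg using hlim
  have hdef : ∃ G : ℕ → ℝ → ℝ, ∀ j (hj : j < n) t (ht : t ∈ S), G j t = g j hj t ht := by
    refine ⟨fun j t => if h : j < n ∧ t ∈ S then g j h.1 t h.2 else 0, ?_⟩
    intro j hj t ht
    simp only [hj, ht, and_self, dite_true]
  obtain ⟨G, hG⟩ := hdef
  have hGt : ∀ j, j < n → ∀ t ∈ S, Tendsto (fun i => F i j t) U (𝓝 (G j t)) := by
    intro j hj t ht
    rw [hG j hj t ht]
    exact hg j hj t ht
  refine ⟨G, ⟨?_, ?_⟩, hGt⟩
  · intro j hj s hs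
    have key : ∀ t ∈ S, |G j t - G j s - (t - s) * G (j + 1) s| ≤
        max B 1 * |t - s| * |t - s| := by
      intro t ht
      have h1 := ((hGt j (by omega) t ht).sub (hGt j (by omega) s hs)).sub
        ((hGt (j + 1) hj s hs).const_mul (t - s))
      refine le_of_tendsto h1.abs ?_
      filter_upwards [hsub t ht, hsub s hs] with i hi1 hi2
      exact taylor_two hn (hSi i) (hF i) (le_max_right B 1)
        (fun j hj t ht => (hB i j hj t ht).trans (le_max_left B 1)) hj hi2 hi1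
    rw [hasDerivWithinAt_iff_isLittleO, Asymptotics.isLittleO_iff]
    intro c hc
    have hB' : 0 < max B 1 := lt_of_lt_of_le one_pos (le_max_right B 1)
    have h1 : ∀ᶠ t in 𝓝[S] s, |t - s| < c / max B 1 := by
      apply eventually_nhdsWithin_of_eventually_nhds
      have h2 := Metric.ball_mem_nhds s (div_pos hc hB')
      filter_upwards [h2] with t ht
      rw [Metric.mem_ball, Real.dist_eq] at ht
      exact ht
    filter_upwards [h1, self_mem_nhdsWithin] with t ht htS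
    have h2 := key t htS
    rw [smul_eq_mul, Real.norm_eq_abs, Real.norm_eq_abs]
    refine h2.trans ?_
    apply mul_le_mul_of_nonneg_right _ (abs_nonneg _)
    rw [lt_div_iff₀ hB'] at ht
    linarith
  · intro s hs t ht
    have h1 := (hGt (n - 1) (by omega) s hs).sub (hGt (n - 1) (by omega) t ht)
    refine le_of_tendsto h1.abs ?_
    filter_upwards [hsub t ht, hsub s hs] with i hi1 hi2
    exact (hF i).lip s hi2 t hi1

/-- Convergence at moving points, for equi-Lipschitz sequences. -/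
theorem tendsto_moving {f : ℕ → ℝ → ℝ} {B : ℝ} {Si : ℕ → Set ℝ} {x : ℕ → ℝ} {x₀ y : ℝ}
    (hlip : ∀ i, ∀ s ∈ Si i, ∀ t ∈ Si i, |f i s - f i t| ≤ B * |s - t|)
    (hx : ∀ᶠ i in U, x i ∈ Si i) (hx₀ : ∀ᶠ i in U, x₀ ∈ Si i) (hlim : Tendsto x U (𝓝 x₀))
    (hf : Tendsto (fun i => f i x₀) U (𝓝 y)) : Tendsto (fun i => f i (x i)) U (𝓝 y) := by
  have h1 : Tendsto (fun i => B * |x i - x₀|) U (𝓝 0) := by
    have h2 := (hlim.sub_const x₀).abs.const_mul B
    simpa using h2
  have h2 : Tendsto (fun i => f i (x i) - f i x₀) U (𝓝 0) := by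
    apply squeeze_zero_norm' _ h1
    filter_upwards [hx, hx₀] with i hi1 hi2
    rw [Real.norm_eq_abs]
    exact hlip i _ hi1 _ hi2
  have h3 := hf.add h2
  simpa using h3

/-- A real sequence which is bounded along `U` converges along `U`. -/
theorem exists_tendsto {x : ℕ → ℝ} {a b : ℝ} (hx : ∀ᶠ i in U, x i ∈ Icc a b) :
    ∃ x₀ ∈ Icc a b, Tendsto x U (𝓝 x₀) := by
  exact exists_tendsto_aux hx

/-- A sequence of natural numbers which is bounded along `U` is constant along `U`. -/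
theorem exists_const {P : ℕ → ℕ} {b : ℕ} (hP : ∀ᶠ i in U, P i ≤ b) : ∃ p, ∀ᶠ i in U, P i = p := by
  have h1 : (⋃ p ∈ Iic b, {i | P i = p}) ∈ hyperfilter ℕ := by
    have h2 : ∀ᶠ i in (hyperfilter ℕ : Filter ℕ), i ∈ (⋃ p ∈ Iic b, {i | P i = p}) := by
      filter_upwards [hP] with i hi
      simp only [mem_iUnion, mem_Iic, mem_setOf_eq]
      exact ⟨P i, hi, rfl⟩
    exact h2
  rw [Ultrafilter.finite_biUnion_mem_iff (finite_Iic b)] at h1
  obtain ⟨p, _, hp⟩ := h1
  exact ⟨p, hp⟩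

end Pool.Agent.LKI
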