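import Pool.Agent.LKI.A9
import Pool.Agent.LKI.B2

/-!
B3: existence of the perfect spline on `[0, L]`.

PROOF.  For `i ∈ ℕ` let `C_i = i + n + N₀`, `h_i = L / C_i` with `N₀` so large that `h_i ≤ h₀` (`mesh_bound`), and let
`F_i, P_i, ξ_i, τ_i` be given by `mesh_exists` (`C_i h_i = L`).  `|F_i j t| ≤ B` (`mesh_bound`), so all `F_i j` are
`B`-Lipschitz (`jet_lip`).  Since `F_i 0` takes the values `(-1)^a` at `τ_i a`, `2 ≤ B (τ_i (a+1) - τ_i a)`, hence
`(P_i + n - 1) * 2 / B ≤ L`, so `P_i` is bounded; by `exists_const` it is a constant `P` along `U`.  Let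
`T` be the limit jet (`jet_limit`, `S = Si i = [0, L]`), `ξ a = lim_U ξ_i a` (`a ≤ P + 1`), `τ a = lim_U τ_i a`
(`a < P + n`), all in `[0, L]` (`exists_tendsto`); extend `ξ, τ` arbitrarily.
* `|T 0 t| ≤ 1`: for `t ∈ [0, L]` there is a mesh point `x_i` with `|x_i - t| ≤ h_i → 0`, and `|F_i 0 x_i| ≤ 1`; use
  `tendsto_moving`.
* `ξ 0 = 0`, monotonicity and `ξ (P+1) ≤ L`, `τ (P+n-1) ≤ ξ (P+1)` pass to the limit; `τ (a+1) - τ a ≥ 2 / B > 0`.
* `T 0 (τ a) = (-1)^a` by `tendsto_moving`.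
* slopes: let `a ≤ P` and `s, t ∈ [ξ a, ξ (a+1)]`.  If `ξ a < s, t < ξ (a+1)` then `s, t ∈ [ξ_i a, ξ_i (a+1)]` for almost
  all `i`, so `|F_i (n-1) t - F_i (n-1) s - (-1)^(n+a) (t - s)| ≤ 4 h_i`, and the claim for `s, t` follows in the limit;
  then for all `s, t ∈ [ξ a, ξ (a+1)]` by continuity of `T (n-1)` (if `ξ a = ξ (a+1)`, `s = t` and there is nothing
  to prove).
-/

open Set Filter Topology

namespace Pool.Agent.LKI

theorem b3_U_le : U ≤ atTop := by
  have := Nat.hyperfilter_le_atTop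
  exact this

/-- the mesh sequence -/
theorem b3_seq {n : ℕ} (hn : 2 ≤ n) {L : ℝ} (hL : 0 < L) :
    ∃ B ≥ 1, ∃ (h : ℕ → ℝ) (C : ℕ → ℕ), (∀ i, 0 < h i) ∧ (∀ i, (C i : ℝ) * h i = L) ∧
      Tendsto h U (𝓝 0) ∧
      ∀ i, ∃ (F : ℕ → ℝ → ℝ) (P : ℕ) (ξ τ : ℕ → ℝ), IsJet n 1 (Icc 0 L) F ∧
      (∀ k : ℕ, k ≤ C i → |F 0 ((k : ℝ) * h i)| ≤ 1) ∧
      ξ 0 = 0 ∧ (∀ a, a ≤ P → ξ a ≤ ξ (a + 1)) ∧ ξ (P + 1) ≤ L ∧
      (∀ a, a ≤ P → ∀ s ∈ Icc (ξ a) (ξ (a + 1)), ∀ t ∈ Icc (ξ a) (ξ (a + 1)),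
        |F (n - 1) t - F (n - 1) s - (-1) ^ (n + a) * (t - s)| ≤ 4 * h i) ∧
      0 ≤ τ 0 ∧ (∀ a, a + 1 < P + n → τ a < τ (a + 1)) ∧ τ (P + n - 1) ≤ ξ (P + 1) ∧
      (∀ a, a < P + n → F 0 (τ a) = (-1) ^ a) ∧
      ∀ j, j < n → ∀ t ∈ Icc 0 L, |F j t| ≤ B := by
  obtain ⟨h₀, hh₀, B, hB1, hB⟩ := mesh_bound hn hL
  obtain ⟨N₀, hN₀⟩ := exists_nat_ge (L / h₀)
  have hCpos : ∀ i : ℕ, (0 : ℝ) < ((i + n + N₀ : ℕ) : ℝ) := by
    intro i
    have : 0 < i + n + N₀ := by omega
    exact_mod_cast this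
  refine ⟨B, hB1, fun i => L / ((i + n + N₀ : ℕ) : ℝ), fun i => i + n + N₀, ?_, ?_, ?_, ?_⟩
  · intro i
    exact div_pos hL (hCpos i)
  · intro i
    exact mul_div_cancel₀ _ (hCpos i).ne'
  · have h1 : Tendsto (fun i : ℕ => L / ((i + n + N₀ : ℕ) : ℝ)) atTop (𝓝 0) := by
      refine Tendsto.div_atTop tendsto_const_nhds ?_
      refine tendsto_natCast_atTop_atTop.comp ?_
      refine tendsto_atTop_mono (fun i => ?_) tendsto_id
      show i ≤ i + n + N₀
      omega
    exact h1.mono_left b3_U_le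
  · intro i
    have hpos : 0 < L / ((i + n + N₀ : ℕ) : ℝ) := div_pos hL (hCpos i)
    have hmul : ((i + n + N₀ : ℕ) : ℝ) * (L / ((i + n + N₀ : ℕ) : ℝ)) = L :=
      mul_div_cancel₀ _ (hCpos i).ne'
    have hle : L / ((i + n + N₀ : ℕ) : ℝ) ≤ h₀ := by
      rw [div_le_iff₀ (hCpos i)]
      rw [div_le_iff₀ hh₀] at hN₀
      have : (N₀ : ℝ) ≤ ((i + n + N₀ : ℕ) : ℝ) := by
        exact_mod_cast (by omega : N₀ ≤ i + n + N₀)
      nlinarith
    obtain ⟨F, P, ξ, τ, h1, h2, h3, h4, h5, h6, h7, h8, h9, h10⟩ :=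
      mesh_exists (n := n) (C := i + n + N₀) hn (by omega) hpos
    rw [hmul] at h1 h5
    exact ⟨F, P, ξ, τ, h1, h2, h3, h4, h5, h6, h7, h8, h9, h10,
      hB _ _ hpos hle hmul F h1 h2⟩

/-- a set of consecutive monotone values -/
theorem b3_mono {x : ℕ → ℝ} {N : ℕ} (h : ∀ a, a + 1 ≤ N → x a ≤ x (a + 1)) :
    ∀ a b, a ≤ b → b ≤ N → x a ≤ x b := by
  intro a b hab hb
  induction b, hab using Nat.le_induction with
  | base => exact le_rfl
  | succ c hac ih => exact (ih (by omega)).trans (h c hb)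

theorem exists_KSpline {n : ℕ} (hn : 2 ≤ n) {L : ℝ} (hL : 0 < L) :
    ∃ (T : ℕ → ℝ → ℝ) (P : ℕ) (ξ τ : ℕ → ℝ), KSpline n L T P ξ τ := by
  obtain ⟨B, hB1, h, C, hpos, hCh, hlim, hex⟩ := b3_seq hn hL
  choose F P ξ τ hF hmesh hξ0 hξm hξl hslope hτ0 hτm hτl hcon hFB using hex
  have hB0 : 0 < B := by linarith
  have hOC : (Icc (0 : ℝ) L).OrdConnected := ordConnected_Icc
  have hlip : ∀ i j, j < n → ∀ s ∈ Icc 0 L, ∀ t ∈ Icc 0 L, |F i j s - F i j t| ≤ B * |s - t| :=
    fun i => jet_lip (by omega) hOC (hF i) hB1 (hFB i)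
  -- memberships
  have hξI : ∀ i a, a ≤ P i + 1 → ξ i a ∈ Icc 0 L := by
    intro i a ha
    have hm : ∀ a b, a ≤ b → b ≤ P i + 1 → ξ i a ≤ ξ i b :=
      b3_mono fun a ha => hξm i a (by omega)
    refine ⟨?_, (hm a _ ha le_rfl).trans (hξl i)⟩
    rw [← hξ0 i]
    exact hm 0 a (Nat.zero_le _) ha
  have hτI : ∀ i a, a < P i + n → τ i a ∈ Icc 0 L := by
    intro i a ha
    have hm : ∀ a b, a ≤ b → b ≤ P i + n - 1 → τ i a ≤ τ i b :=
      b3_mono fun a ha => (hτm i a (by omega)).le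
    exact ⟨(hτ0 i).trans (hm 0 a (Nat.zero_le _) (by omega)),
      (hm a _ (by omega) le_rfl).trans ((hτl i).trans (hξl i))⟩
  -- gaps
  have hgap : ∀ i a, a + 1 < P i + n → 2 ≤ B * (τ i (a + 1) - τ i a) := by
    intro i a ha
    have h1 := hlip i 0 (by omega) _ (hτI i (a + 1) ha) _ (hτI i a (by omega))
    rw [hcon i (a + 1) ha, hcon i a (by omega), abs_of_pos (sub_pos.2 (hτm i a ha))] at h1
    have h2 : |(-1 : ℝ) ^ (a + 1) - (-1) ^ a| = 2 := by
      rw [pow_succ, show (-1 : ℝ) ^ a * -1 - (-1) ^ a = -2 * (-1) ^ a by ring, abs_mul, abs_pow]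
      norm_num
    rwa [h2] at h1
  have hτge : ∀ i a, a < P i + n → (a : ℝ) * 2 ≤ B * τ i a := by
    intro i a
    induction a with
    | zero =>
      intro _
      have := hτ0 i
      simp only [Nat.cast_zero, zero_mul]
      positivity
    | succ a ih =>
      intro ha
      have h1 := ih (by omega)
      have h2 := hgap i a ha
      push_cast
      nlinarith
  have hPb : ∀ i, P i ≤ ⌈B * L⌉₊ := by
    intro i
    have h1 := hτge i (P i + n - 1) (by omega)
    have h2 := (hτI i (P i + n - 1) (by omega)).2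
    have h3 : (P i : ℝ) ≤ ((P i + n - 1 : ℕ) : ℝ) := by
      exact_mod_cast (by omega : P i ≤ P i + n - 1)
    have h4 : (P i : ℝ) ≤ B * L := by
      have h5 : B * τ i (P i + n - 1) ≤ B * L := mul_le_mul_of_nonneg_left h2 hB0.le
      have h6 : (0 : ℝ) ≤ (P i : ℝ) := Nat.cast_nonneg _
      linarith
    have h5 := Nat.le_ceil (B * L)
    exact_mod_cast h4.trans h5
  obtain ⟨p, hp⟩ := exists_const (Eventually.of_forall hPb : ∀ᶠ i in U, P i ≤ ⌈B * L⌉₊)
  -- limits
  obtain ⟨T, hT, hTl⟩ := jet_limit (by omega : 1 ≤ n) (Icc 0 L) hOC (fun _ => Icc 0 L)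
    (fun _ => hOC) (fun t ht => Eventually.of_forall fun _ => ht) F hF B hFB
  have hξex : ∀ a, ∃ x₀, a ≤ p + 1 → x₀ ∈ Icc 0 L ∧ Tendsto (fun i => ξ i a) U (𝓝 x₀) := by
    intro a
    by_cases ha : a ≤ p + 1
    · obtain ⟨x₀, h1, h2⟩ := exists_tendsto (x := fun i => ξ i a) (a := 0) (b := L) (by
        filter_upwards [hp] with i hi
        exact hξI i a (by omega))
      exact ⟨x₀, fun _ => ⟨h1, h2⟩⟩
    · exact ⟨0, fun h => absurd h ha⟩
  have hτex : ∀ a, ∃ x₀, a < p + n → x₀ ∈ Icc 0 L ∧ Tendsto (fun i => τ i a) U (𝓝 x₀) := by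
    intro a
    by_cases ha : a < p + n
    · obtain ⟨x₀, h1, h2⟩ := exists_tendsto (x := fun i => τ i a) (a := 0) (b := L) (by
        filter_upwards [hp] with i hi
        exact hτI i a (by omega))
      exact ⟨x₀, fun _ => ⟨h1, h2⟩⟩
    · exact ⟨0, fun h => absurd h ha⟩
  choose ξ' hξ' using hξex
  choose τ' hτ' using hτex
  refine ⟨T, p, ξ', τ', ?_⟩
  refine
    { inW := ⟨hT, ?_⟩
      ξ0 := ?_
      ξmono := ?_
      ξlast := (hξ' (p + 1) le_rfl).1.2
      slope := ?_
      τ0 := (hτ' 0 (by omega)).1.1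
      τmono := ?_
      τlast := ?_
      contact := ?_ }
  · -- bound
    intro t ht
    set x : ℕ → ℝ := fun i => (⌊t / h i⌋₊ : ℝ) * h i with hx
    have hq : ∀ i, 0 ≤ t / h i := fun i => div_nonneg ht.1 (hpos i).le
    have hx1 : ∀ i, x i ≤ t := by
      intro i
      have := Nat.floor_le (hq i)
      rwa [le_div_iff₀ (hpos i)] at this
    have hx2 : ∀ i, t ≤ x i + h i := by
      intro i
      have := (Nat.lt_floor_add_one (t / h i)).le
      rw [div_le_iff₀ (hpos i)] at this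
      linarith
    have hx0 : ∀ i, 0 ≤ x i := fun i => mul_nonneg (Nat.cast_nonneg _) (hpos i).le
    have hxI : ∀ i, x i ∈ Icc 0 L := fun i => ⟨hx0 i, (hx1 i).trans ht.2⟩
    have hxl : Tendsto x U (𝓝 t) := by
      have h1 : Tendsto (fun i => t - h i) U (𝓝 t) := by
        have := hlim.const_sub t
        rwa [sub_zero] at this
      exact tendsto_of_tendsto_of_tendsto_of_le_of_le h1 tendsto_const_nhds
        (fun i => by have := hx2 i; show t - h i ≤ x i; linarith) hx1
    have h1 := tendsto_moving (f := fun i => F i 0) (Si := fun _ => Icc 0 L) (B := B)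
      (fun i => hlip i 0 (by omega)) (Eventually.of_forall hxI)
      (Eventually.of_forall fun _ => ht) hxl (hTl 0 (by omega) t ht)
    refine le_of_tendsto h1.abs (Eventually.of_forall fun i => ?_)
    refine hmesh i _ ?_
    have h2 : t / h i ≤ (C i : ℝ) := by
      rw [div_le_iff₀ (hpos i), hCh i]
      exact ht.2
    have h3 := Nat.floor_le_floor h2
    rwa [Nat.floor_natCast] at h3
  · -- ξ0
    have h1 := (hξ' 0 (Nat.zero_le _)).2
    have h2 : Tendsto (fun i => ξ i 0) U (𝓝 0) := by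
      simp only [hξ0]
      exact tendsto_const_nhds
    exact tendsto_nhds_unique h1 h2
  · intro a ha
    refine le_of_tendsto_of_tendsto (hξ' a (by omega)).2 (hξ' (a + 1) (by omega)).2 ?_
    filter_upwards [hp] with i hi
    exact hξm i a (by omega)
  · -- slopes
    intro a ha s hs t ht
    have hIa := (hξ' a (by omega)).1
    have hIb := (hξ' (a + 1) (by omega)).1
    have hsub : Icc (ξ' a) (ξ' (a + 1)) ⊆ Icc 0 L := Icc_subset_Icc hIa.1 hIb.2
    have hint : ∀ s ∈ Ioo (ξ' a) (ξ' (a + 1)), ∀ t ∈ Ioo (ξ' a) (ξ' (a + 1)),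
        T (n - 1) t - T (n - 1) s = (-1) ^ (n + a) * (t - s) := by
      intro s hs t ht
      have hl : Tendsto (fun i => |F i (n - 1) t - F i (n - 1) s - (-1) ^ (n + a) * (t - s)|) U
          (𝓝 |T (n - 1) t - T (n - 1) s - (-1) ^ (n + a) * (t - s)|) :=
        (((hTl (n - 1) (by omega) t (hsub (Ioo_subset_Icc_self ht))).sub
          (hTl (n - 1) (by omega) s (hsub (Ioo_subset_Icc_self hs)))).sub_const _).abs
      have hr : Tendsto (fun i => 4 * h i) U (𝓝 0) := by
        have := hlim.const_mul 4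
        rwa [mul_zero] at this
      have hle : |T (n - 1) t - T (n - 1) s - (-1) ^ (n + a) * (t - s)| ≤ 0 := by
        refine le_of_tendsto_of_tendsto hl hr ?_
        have e1 := (hξ' a (by omega)).2
        have e2 := (hξ' (a + 1) (by omega)).2
        filter_upwards [hp, e1.eventually_lt_const hs.1, e1.eventually_lt_const ht.1,
          e2.eventually_const_lt hs.2, e2.eventually_const_lt ht.2] with i hi k1 k2 k3 k4
        exact hslope i a (by omega) s ⟨k1.le, k3.le⟩ t ⟨k2.le, k4.le⟩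
      have := abs_nonpos_iff.1 hle
      linarith
    rcases (hs.1.trans hs.2).lt_or_eq with hlt | heq
    · set m := (ξ' a + ξ' (a + 1)) / 2 with hm
      have hmI : m ∈ Ioo (ξ' a) (ξ' (a + 1)) := ⟨by rw [hm]; linarith, by rw [hm]; linarith⟩
      have key : ∀ s ∈ Icc (ξ' a) (ξ' (a + 1)),
          T (n - 1) m - T (n - 1) s = (-1) ^ (n + a) * (m - s) := by
        intro s hs
        have h1 : ∀ k : ℕ, |T (n - 1) m - T (n - 1) s - (-1) ^ (n + a) * (m - s)| ≤
            2 * |m - s| * (1 / ((k : ℝ) + 1)) := by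
          intro k
          set l : ℝ := 1 / ((k : ℝ) + 1) with hl
          have hl0 : 0 < l := by positivity
          have hl1 : l ≤ 1 := by
            rw [hl, div_le_one (by positivity)]
            have : (0 : ℝ) ≤ k := Nat.cast_nonneg _
            linarith
          set z := s + l * (m - s) with hz
          have hzI : z ∈ Ioo (ξ' a) (ξ' (a + 1)) := by
            constructor
            · rw [hz]
              nlinarith [hs.1, hmI.1]
            · rw [hz]
              nlinarith [hs.2, hmI.2]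
          have h2 := hint z hzI m hmI
          have h3 := hT.lip z (hsub (Ioo_subset_Icc_self hzI)) s (hsub hs)
          have h4 : T (n - 1) m - T (n - 1) s - (-1) ^ (n + a) * (m - s) =
              (T (n - 1) z - T (n - 1) s) - (-1) ^ (n + a) * (z - s) := by
            linear_combination h2
          rw [h4]
          refine (abs_sub _ _).trans ?_
          rw [abs_mul, abs_pow, abs_neg, abs_one, one_pow, one_mul]
          have h5 : |z - s| = |m - s| * l := by
            rw [hz, add_sub_cancel_left, abs_mul, abs_of_pos hl0, mul_comm]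
          rw [h5] at h3 ⊢
          linarith
        have h2 : Tendsto (fun k : ℕ => 2 * |m - s| * (1 / ((k : ℝ) + 1))) atTop (𝓝 0) := by
          have := (tendsto_one_div_add_atTop_nhds_zero_nat (𝕜 := ℝ)).const_mul (2 * |m - s|)
          rwa [mul_zero] at this
        have h3 := ge_of_tendsto' h2 h1
        have := abs_nonpos_iff.1 h3
        linarith
      have k1 := key s hs
      have k2 := key t ht
      linear_combination k1 - k2
    · have e1 : s = t := by
        have := hs.1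
        have := hs.2
        have := ht.1
        have := ht.2
        linarith
      rw [e1]; ring
  · -- τmono
    intro a ha
    have e1 := (hτ' a (by omega)).2
    have e2 := (hτ' (a + 1) ha).2
    have h1 : Tendsto (fun i => B * (τ i (a + 1) - τ i a)) U (𝓝 (B * (τ' (a + 1) - τ' a))) :=
      (e2.sub e1).const_mul B
    have h2 : 2 ≤ B * (τ' (a + 1) - τ' a) := by
      refine ge_of_tendsto h1 ?_
      filter_upwards [hp] with i hi
      exact hgap i a (by omega)
    by_contra hcon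
    push Not at hcon
    nlinarith
  · refine le_of_tendsto_of_tendsto (hτ' (p + n - 1) (by omega)).2 (hξ' (p + 1) le_rfl).2 ?_
    filter_upwards [hp] with i hi
    have := hτl i
    rwa [hi] at this
  · intro a ha
    obtain ⟨hI, hl⟩ := hτ' a ha
    have h1 := tendsto_moving (f := fun i => F i 0) (Si := fun _ => Icc 0 L) (B := B)
      (x := fun i => τ i a) (fun i => hlip i 0 (by omega))
      (by
        filter_upwards [hp] with i hi
        exact hτI i a (by omega))
      (Eventually.of_forall fun _ => hI) hl (hTl 0 (by omega) _ hI)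
    have h2 : Tendsto (fun i => F i 0 (τ i a)) U (𝓝 ((-1) ^ a)) := by
      refine tendsto_const_nhds.congr' ?_
      filter_upwards [hp] with i hi
      exact (hcon i a (by omega)).symm
    exact tendsto_nhds_unique h1 h2

end Pool.Agent.LKI
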