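import Pool.Agent.LKI.A7

/-!
B1: bounds for intermediate derivatives, and consequences.

`jet_bound`.  PROOF.  (1) Point lemma: for all `j < n` there is a constant `c_j` (depending on `j`, `ℓ`) such that
for every jet on `[a, a + ℓ]` with `|F 0| ≤ A` there is `x ∈ [a, a+ℓ]` with `|F j x| ≤ c_j A`: prove it by induction
on `j` for all intervals of length `ℓ` simultaneously (constants depending on the length): for `j + 1`
take points `x₁`, `x₂` in the left and right third of the interval with `|F j x_i| ≤ c_j(ℓ/3) A`; the mean value theorem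
gives `x ∈ (x₁, x₂)` with `|F (j+1) x| ≤ 2 c_j(ℓ/3) A / (ℓ/3)` (`j + 1 < n`, so `F j` is differentiable with
derivative `F (j+1)`; in the interior of the interval `HasDerivWithinAt` gives `HasDerivAt`).
(2) `|F (n-1) t| ≤ c_{n-1} A + ℓ` for all `t` (Lipschitz).  (3) Downward: if `|F (j+1)| ≤ B` on the interval then
`|F j t| ≤ c_j A + B ℓ`.

`jet_lip`: if `|F (j+1)| ≤ B` on an interval `S` (order connected) then `F j` is `B`-Lipschitz on `S`; the top one is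
`1`-Lipschitz.

`mesh_bound`: `S = [0, L]`, `C h = L`, `|F 0| ≤ 1` at the mesh points.  Let `A` be the maximum of `|F 0|` on `[0, L]`
(continuous).  By `jet_bound` (`ℓ = L`) `|F 1| ≤ c (1 + A)` (`n ≥ 2`), so `|F 0 t| ≤ 1 + h c (1 + A)` (nearest mesh point),
hence `A ≤ 1 + h c (1 + A)`; if `h c ≤ 1/2`, `A ≤ 3`.  Then `jet_bound` again.

`W_bound`: for every `t ∈ S` (`S = [0, L]` with `L ≥ 1`, or `[0, ∞)`) there is an interval of length `1` in `S`
containing `t`; apply `jet_bound` with `ℓ = 1`, `A = 1`.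
-/

open Set

namespace Pool.Agent.LKI

private theorem jet_mono' {n : ℕ} {σ : ℝ} {S S' : Set ℝ} {F : ℕ → ℝ → ℝ} (h : IsJet n σ S F) (hS : S' ⊆ S) :
    IsJet n σ S' F :=
  ⟨fun j hj t ht => (h.hasDeriv j hj t (hS ht)).mono hS, fun s hs t ht => h.lip s (hS hs) t (hS ht)⟩

private theorem jet_hasDerivAt {n : ℕ} {σ a b : ℝ} {F : ℕ → ℝ → ℝ} (h : IsJet n σ (Icc a b) F)
    {j : ℕ} (hj : j + 1 < n) {x : ℝ} (hx : x ∈ Ioo a b) : HasDerivAt (F j) (F (j + 1) x) x :=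
  (h.hasDeriv j hj x (Ioo_subset_Icc_self hx)).hasDerivAt (Icc_mem_nhds hx.1 hx.2)

private theorem jet_slope {n : ℕ} {σ a b : ℝ} {F : ℕ → ℝ → ℝ} (h : IsJet n σ (Icc a b) F)
    {j : ℕ} (hj : j + 1 < n) {s t : ℝ} (has : a ≤ s) (hst : s < t) (htb : t ≤ b) :
    ∃ x ∈ Ioo s t, F (j + 1) x = (F j t - F j s) / (t - s) := by
  have hsub : Icc s t ⊆ Icc a b := Icc_subset_Icc has htb
  refine exists_hasDerivAt_eq_slope (F j) (F (j + 1)) hst ?_ ?_
  · intro x hx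
    exact ((h.hasDeriv j hj x (hsub hx)).continuousWithinAt).mono hsub
  · intro x hx
    exact jet_hasDerivAt h hj ⟨lt_of_le_of_lt has hx.1, lt_of_lt_of_le hx.2 htb⟩

private theorem point_lemma (j : ℕ) : ∀ ℓ : ℝ, 0 < ℓ → ∃ c : ℝ, 0 ≤ c ∧
    ∀ (n : ℕ) (a A : ℝ) (F : ℕ → ℝ → ℝ), j < n → 0 ≤ A → IsJet n 1 (Icc a (a + ℓ)) F →
      (∀ t ∈ Icc a (a + ℓ), |F 0 t| ≤ A) → ∃ x ∈ Icc a (a + ℓ), |F j x| ≤ c * A := by
  induction j with
  | zero =>
    intro ℓ hℓ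
    refine ⟨1, zero_le_one, fun n a A F _ _ _ hb => ⟨a, ⟨le_rfl, by linarith⟩, ?_⟩⟩
    rw [one_mul]
    exact hb a ⟨le_rfl, by linarith⟩
  | succ j ih =>
    intro ℓ hℓ
    obtain ⟨c, hc, hcc⟩ := ih (ℓ / 3) (by positivity)
    refine ⟨6 * c / ℓ, by positivity, fun n a A F hjn hA hF hb => ?_⟩
    have hs1 : Icc a (a + ℓ / 3) ⊆ Icc a (a + ℓ) := Icc_subset_Icc le_rfl (by linarith)
    have hs2 : Icc (a + 2 * ℓ / 3) (a + 2 * ℓ / 3 + ℓ / 3) ⊆ Icc a (a + ℓ) :=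
      Icc_subset_Icc (by linarith) (by linarith)
    obtain ⟨x1, hx1, h1⟩ := hcc n a A F (by omega) hA (jet_mono' hF hs1) fun t ht => hb t (hs1 ht)
    obtain ⟨x2, hx2, h2⟩ := hcc n (a + 2 * ℓ / 3) A F (by omega) hA (jet_mono' hF hs2)
      fun t ht => hb t (hs2 ht)
    have hx12 : ℓ / 3 ≤ x2 - x1 := by
      have := hx1.2; have := hx2.1; linarith
    have hlt : x1 < x2 := by linarith
    obtain ⟨x, hx, hxe⟩ := jet_slope hF (by omega : j + 1 < n) (hs1 hx1).1 hlt (hs2 hx2).2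
    refine ⟨x, ⟨by have := (hs1 hx1).1; have := hx.1; linarith,
      by have := (hs2 hx2).2; have := hx.2; linarith⟩, ?_⟩
    rw [hxe, abs_div, abs_of_pos (by linarith : 0 < x2 - x1), div_le_iff₀ (by linarith)]
    have h3 : |F j x2 - F j x1| ≤ 2 * (c * A) := by
      have := abs_sub (F j x2) (F j x1)
      linarith
    have h4 : 2 * (c * A) = 6 * c / ℓ * A * (ℓ / 3) := by
      field_simp; ring
    have h5 : 0 ≤ 6 * c / ℓ * A := by positivity
    calc |F j x2 - F j x1| ≤ 2 * (c * A) := h3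
      _ = 6 * c / ℓ * A * (ℓ / 3) := h4
      _ ≤ 6 * c / ℓ * A * (x2 - x1) := mul_le_mul_of_nonneg_left hx12 h5

private theorem down_lemma (n : ℕ) (hn : 1 ≤ n) (ℓ : ℝ) (hℓ : 0 < ℓ) : ∀ k, k < n →
    ∃ C > 0, ∀ (a A : ℝ) (F : ℕ → ℝ → ℝ), 0 ≤ A → IsJet n 1 (Icc a (a + ℓ)) F →
      (∀ t ∈ Icc a (a + ℓ), |F 0 t| ≤ A) →
      ∀ t ∈ Icc a (a + ℓ), |F (n - 1 - k) t| ≤ C * (1 + A) := by
  intro k
  induction k with
  | zero =>
    intro _
    obtain ⟨c, hc, hcc⟩ := point_lemma (n - 1) ℓ hℓ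
    refine ⟨c + ℓ, by positivity, fun a A F hA hF hb t ht => ?_⟩
    obtain ⟨x, hx, hxe⟩ := hcc n a A F (by omega) hA hF hb
    have h1 := hF.lip t ht x hx
    have h2 : |t - x| ≤ ℓ := by
      rw [abs_le]; constructor <;> [have := ht.1; have := ht.2] <;>
        [have := hx.2; have := hx.1] <;> linarith
    have h3 : |F (n - 1) t| ≤ |F (n - 1) t - F (n - 1) x| + |F (n - 1) x| := by
      have := abs_add_le (F (n - 1) t - F (n - 1) x) (F (n - 1) x)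
      simpa using this
    rw [Nat.sub_zero]
    nlinarith
  | succ k ih =>
    intro hk
    obtain ⟨C, hC, hCC⟩ := ih (by omega)
    obtain ⟨c, hc, hcc⟩ := point_lemma (n - 1 - (k + 1)) ℓ hℓ
    refine ⟨c + C * ℓ, by positivity, fun a A F hA hF hb t ht => ?_⟩
    obtain ⟨x, hx, hxe⟩ := hcc n a A F (by omega) hA hF hb
    have hB := hCC a A F hA hF hb
    obtain ⟨j, hj1, hj2, hj3⟩ : ∃ j, n - 1 - (k + 1) = j ∧ n - 1 - k = j + 1 ∧ j + 1 < n :=
      ⟨n - 1 - (k + 1), rfl, by omega, by omega⟩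
    rw [hj1] at hxe ⊢
    rw [hj2] at hB
    have h1 := (convex_Icc a (a + ℓ)).norm_image_sub_le_of_norm_hasDerivWithin_le
      (f := F j) (f' := F (j + 1)) (C := C * (1 + A))
      (fun y hy => hF.hasDeriv j hj3 y hy) (fun y hy => hB y hy) hx ht
    rw [Real.norm_eq_abs, Real.norm_eq_abs] at h1
    have h2 : |t - x| ≤ ℓ := by
      rw [abs_le]; constructor <;> [have := ht.1; have := ht.2] <;>
        [have := hx.2; have := hx.1] <;> linarith
    have h3 : |F j t| ≤ |F j t - F j x| + |F j x| := by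
      have := abs_add_le (F j t - F j x) (F j x)
      simpa using this
    have h4 : C * (1 + A) * |t - x| ≤ C * (1 + A) * ℓ :=
      mul_le_mul_of_nonneg_left h2 (by positivity)
    nlinarith

theorem jet_bound (n : ℕ) (hn : 1 ≤ n) (ℓ : ℝ) (hℓ : 0 < ℓ) :
    ∃ C > 0, ∀ (a A : ℝ) (F : ℕ → ℝ → ℝ), 0 ≤ A → IsJet n 1 (Icc a (a + ℓ)) F →
      (∀ t ∈ Icc a (a + ℓ), |F 0 t| ≤ A) →
      ∀ j, j < n → ∀ t ∈ Icc a (a + ℓ), |F j t| ≤ C * (1 + A) := by
  choose! C hC0 hC using down_lemma n hn ℓ hℓ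
  refine ⟨∑ k ∈ Finset.range n, C k, ?_, ?_⟩
  · refine Finset.sum_pos (fun k hk => hC0 k (Finset.mem_range.mp hk)) ?_
    exact ⟨0, Finset.mem_range.mpr (by omega)⟩
  · intro a A F hA hF hb j hj t ht
    have h1 := hC (n - 1 - j) (by omega) a A F hA hF hb t ht
    rw [show n - 1 - (n - 1 - j) = j by omega] at h1
    have h2 : C (n - 1 - j) ≤ ∑ k ∈ Finset.range n, C k :=
      Finset.single_le_sum (f := C) (fun k hk => (hC0 k (Finset.mem_range.mp hk)).le)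
        (Finset.mem_range.mpr (by omega))
    calc |F j t| ≤ C (n - 1 - j) * (1 + A) := h1
      _ ≤ _ := mul_le_mul_of_nonneg_right h2 (by linarith)

theorem jet_mono {n : ℕ} {σ : ℝ} {S S' : Set ℝ} {F : ℕ → ℝ → ℝ} (h : IsJet n σ S F) (hS : S' ⊆ S) :
    IsJet n σ S' F :=
  ⟨fun j hj t ht => (h.hasDeriv j hj t (hS ht)).mono hS, fun s hs t ht => h.lip s (hS hs) t (hS ht)⟩

theorem InW.mono {n : ℕ} {S S' : Set ℝ} {F : ℕ → ℝ → ℝ} (h : InW n S F) (hS : S' ⊆ S) :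
    InW n S' F :=
  ⟨jet_mono h.jet hS, fun t ht => h.bdd t (hS ht)⟩

/-- Lipschitz bounds for all derivatives of a jet which is bounded by `B ≥ 1`. -/
theorem jet_lip {n : ℕ} (hn : 1 ≤ n) {S : Set ℝ} (hS : S.OrdConnected) {F : ℕ → ℝ → ℝ}
    (h : IsJet n 1 S F) {B : ℝ} (hB1 : 1 ≤ B) (hB : ∀ j, j < n → ∀ t ∈ S, |F j t| ≤ B) :
    ∀ j, j < n → ∀ s ∈ S, ∀ t ∈ S, |F j s - F j t| ≤ B * |s - t| := by
  intro j hj s hs t ht
  by_cases hjn : j + 1 < n
  · have h1 := hS.convex.norm_image_sub_le_of_norm_hasDerivWithin_le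
      (f := F j) (f' := F (j + 1)) (C := B)
      (fun y hy => h.hasDeriv j hjn y hy) (fun y hy => hB (j + 1) hjn y hy) ht hs
    simpa only [Real.norm_eq_abs] using h1
  · obtain rfl : j = n - 1 := by omega
    refine (h.lip s hs t ht).trans ?_
    exact mul_le_mul_of_nonneg_right hB1 (abs_nonneg _)

theorem mesh_bound {n : ℕ} (hn : 2 ≤ n) {L : ℝ} (hL : 0 < L) :
    ∃ h₀ > 0, ∃ B ≥ 1, ∀ (C : ℕ) (h : ℝ), 0 < h → h ≤ h₀ → (C : ℝ) * h = L →
      ∀ F : ℕ → ℝ → ℝ, IsJet n 1 (Icc 0 L) F → (∀ i : ℕ, i ≤ C → |F 0 ((i : ℝ) * h)| ≤ 1) →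
      ∀ j, j < n → ∀ t ∈ Icc 0 L, |F j t| ≤ B := by
  obtain ⟨c, hc, hcc⟩ := jet_bound n (by omega) L hL
  refine ⟨1 / (2 * c), by positivity, max 1 (c * (1 + 3)), le_max_left _ _, ?_⟩
  intro C h hh hh0 hCh F hF hm j hj t ht
  have hF' : IsJet n 1 (Icc 0 (0 + L)) F := by rwa [zero_add]
  have hcont : ContinuousOn (F 0) (Icc 0 L) := fun x hx =>
    (hF.hasDeriv 0 (by omega) x hx).continuousWithinAt
  obtain ⟨t0, ht0, hmax⟩ := isCompact_Icc.exists_isMaxOn (nonempty_Icc.mpr hL.le) hcont.abs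
  have hmax' : ∀ x ∈ Icc 0 L, |F 0 x| ≤ |F 0 t0| := fun x hx => hmax hx
  have hbd := hcc 0 (|F 0 t0|) F (abs_nonneg _) hF' (by rw [zero_add]; exact hmax')
  rw [zero_add] at hbd
  have hA3 : |F 0 t0| ≤ 3 := by
    have hi0 : 0 ≤ t0 / h := div_nonneg ht0.1 hh.le
    have hfl := Nat.floor_le hi0
    have hfl2 := Nat.lt_floor_add_one (t0 / h)
    set i := ⌊t0 / h⌋₊ with hi
    have h1 : (i : ℝ) * h ≤ t0 := by rwa [← le_div_iff₀ hh]
    have h2 : t0 < ((i : ℝ) + 1) * h := by rwa [← div_lt_iff₀ hh]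
    have hiC : i ≤ C := by
      have h3 : (i : ℝ) * h ≤ (C : ℝ) * h := by rw [hCh]; exact h1.trans ht0.2
      have := le_of_mul_le_mul_right h3 hh
      exact_mod_cast this
    have hiL : (i : ℝ) * h ∈ Icc 0 L := ⟨by positivity, h1.trans ht0.2⟩
    have h4 := (convex_Icc 0 L).norm_image_sub_le_of_norm_hasDerivWithin_le
      (f := F 0) (f' := F (0 + 1)) (C := c * (1 + |F 0 t0|))
      (fun y hy => hF.hasDeriv 0 (by omega) y hy) (fun y hy => hbd (0 + 1) (by omega) y hy) hiL ht0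
    rw [Real.norm_eq_abs, Real.norm_eq_abs] at h4
    have h5 : |t0 - (i : ℝ) * h| ≤ h := by
      rw [abs_of_nonneg (by linarith)]; linarith
    have h6 := hm i hiC
    have h7 : |F 0 t0| ≤ |F 0 t0 - F 0 ((i : ℝ) * h)| + |F 0 ((i : ℝ) * h)| := by
      have := abs_add_le (F 0 t0 - F 0 ((i : ℝ) * h)) (F 0 ((i : ℝ) * h))
      simpa using this
    have hA0 := abs_nonneg (F 0 t0)
    have h8 : c * (1 + |F 0 t0|) * |t0 - (i : ℝ) * h| ≤ c * (1 + |F 0 t0|) * (1 / (2 * c)) :=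
      mul_le_mul_of_nonneg_left (h5.trans hh0) (by positivity)
    have h9 : c * (1 + |F 0 t0|) * (1 / (2 * c)) = (1 + |F 0 t0|) / 2 := by
      field_simp
    linarith
  refine (hbd j hj t ht).trans ((?_ : _ ≤ c * (1 + 3)).trans (le_max_right _ _))
  exact mul_le_mul_of_nonneg_left (by linarith) hc.le

theorem W_bound (n : ℕ) (hn : 1 ≤ n) : ∃ B ≥ 1, (∀ L : ℝ, 1 ≤ L → ∀ F : ℕ → ℝ → ℝ,
      InW n (Icc 0 L) F → ∀ j, j < n → ∀ t ∈ Icc 0 L, |F j t| ≤ B) ∧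
    ∀ F : ℕ → ℝ → ℝ, InW n (Ici 0) F → ∀ j, j < n → ∀ t ∈ Ici (0 : ℝ), |F j t| ≤ B := by
  obtain ⟨c, hc, hcc⟩ := jet_bound n hn 1 one_pos
  refine ⟨max 1 (c * (1 + 1)), le_max_left _ _, ?_, ?_⟩
  · intro L hL F hF j hj t ht
    have hsub : Icc (min t (L - 1)) (min t (L - 1) + 1) ⊆ Icc 0 L := by
      refine Icc_subset_Icc (le_min ht.1 (by linarith)) ?_
      have := min_le_right t (L - 1)
      linarith
    have hF' := hF.mono hsub
    refine (hcc (min t (L - 1)) 1 F zero_le_one hF'.jet hF'.bdd j hj t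
      ⟨min_le_left _ _, ?_⟩).trans (le_max_right _ _)
    rcases min_choice t (L - 1) with h | h
    · rw [h]; linarith
    · rw [h]; have := ht.2; linarith
  · intro F hF j hj t ht
    have hsub : Icc t (t + 1) ⊆ Ici (0 : ℝ) := fun x hx => le_trans ht hx.1
    have hF' := hF.mono hsub
    exact (hcc t 1 F zero_le_one hF'.jet hF'.bdd j hj t ⟨le_rfl, by linarith⟩).trans
      (le_max_right _ _)

/-- The chain of derivatives of a jet satisfies the sign form of the mean value theorem. -/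
theorem jet_mvt {n : ℕ} {σ a b : ℝ} {F : ℕ → ℝ → ℝ} (h : IsJet n σ (Icc a b) F) :
    ∀ j, j + 1 < n → Mvt (F j) (F (j + 1)) a b := by
  intro j hj s t has hst htb
  obtain ⟨x, hx, hxe⟩ := jet_slope h hj has hst htb
  refine ⟨fun hlt => ⟨x, hx, ?_⟩, fun hlt => ⟨x, hx, ?_⟩⟩
  · rw [hxe]; exact div_pos (by linarith) (by linarith)
  · rw [hxe]; exact div_neg_of_neg_of_pos (by linarith) (by linarith)

/-- Linear combinations of jets. -/
theorem jet_comb {n : ℕ} {σ₁ σ₂ a₁ a₂ : ℝ} {S : Set ℝ} {F G : ℕ → ℝ → ℝ} (hF : IsJet n σ₁ S F)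
    (hG : IsJet n σ₂ S G) :
    IsJet n (|a₁| * σ₁ + |a₂| * σ₂) S (fun j t => a₁ * F j t + a₂ * G j t) := by
  refine ⟨fun j hj t ht => ((hF.hasDeriv j hj t ht).const_mul a₁).add
    ((hG.hasDeriv j hj t ht).const_mul a₂), fun s hs t ht => ?_⟩
  have h1 := hF.lip s hs t ht
  have h2 := hG.lip s hs t ht
  have h3 : a₁ * F (n - 1) s + a₂ * G (n - 1) s - (a₁ * F (n - 1) t + a₂ * G (n - 1) t) =
      a₁ * (F (n - 1) s - F (n - 1) t) + a₂ * (G (n - 1) s - G (n - 1) t) := by ring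
  show |a₁ * F (n - 1) s + a₂ * G (n - 1) s - (a₁ * F (n - 1) t + a₂ * G (n - 1) t)| ≤ _
  rw [h3]
  refine (abs_add_le _ _).trans ?_
  rw [abs_mul, abs_mul]
  have h4 := mul_le_mul_of_nonneg_left h1 (abs_nonneg a₁)
  have h5 := mul_le_mul_of_nonneg_left h2 (abs_nonneg a₂)
  linarith

end Pool.Agent.LKI
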