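import Pool.Agent.LKI.A2
import Pool.Agent.LKI.B2

/-!
B4: extremality of perfect splines, and the half-line.

`KSpline.extremal`.  PROOF.  Let `G` be in the class and `0 ≤ λ < 1`, `d j = T j - λ G j`, `b = ξ (P+1)`
(`0 ≤ b ≤ L`).  `Mvt (d j) (d (j+1)) 0 b` for `j + 1 < n` (mean value theorem; `jet_comb`, `jet_mono` and
`jet_mvt` of B1).  On `[ξ i, ξ (i+1)]`, for `s < t`:
`(-1)^(n+i) (d (n-1) t - d (n-1) s) = (t - s) - (-1)^(n+i) λ (G (n-1) t - G (n-1) s) ≥ (1 - λ)(t - s) > 0`.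
`Alt (d 0) [0,b] (P+n-1) 1` with the points `τ i` (`i ≤ P + n - 1`): `(-1)^i d 0 (τ i) = 1 - (-1)^i λ G 0 (τ i) ≥ 1 - λ > 0`.
`chain_pos` gives `0 < (-1)^j d j 0 = (-1)^j T j 0 - λ (-1)^j G j 0`.  Let `λ → 1`: `(-1)^j G j 0 ≤ (-1)^j T j 0`.
The same for `-G` (also in the class; `jet_comb`).  So `|G j 0| ≤ (-1)^j T j 0`.

`KSpline.ge_one`: take `G j t = (-1)^j exp (-t)`: all `|G j| ≤ 1` on `[0, ∞)` and `G (n-1)` is `1`-Lipschitz.

`exists_half`.  PROOF.  For `i ∈ ℕ` let `T_i` be a perfect spline on `[0, i + 1]` (hypothesis `hex`), bounded by `B`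
(`W_bound`).  By `jet_limit` (`Si i = [0, i+1]`, `S = [0, ∞)`) there is a limit jet `T` on `[0, ∞)`; `|T 0| ≤ 1` passes
to the limit.  If `G` is in the class on `[0, ∞)` then its restriction to `[0, i+1]` is in the class there, so
`|G j 0| ≤ (-1)^j T_i j 0`, and the same for `T`.  `ge_one` passes to the limit.
-/

set_option linter.all false

open Set

namespace Pool.Agent.LKI

private theorem xi_bounds {n : ℕ} {L : ℝ} {T : ℕ → ℝ → ℝ} {P : ℕ} {ξ τ : ℕ → ℝ}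
    (hT : KSpline n L T P ξ τ) : ∀ i, i ≤ P + 1 → 0 ≤ ξ i ∧ ξ i ≤ ξ (P + 1) := by
  have h1 : ∀ i, i ≤ P + 1 → 0 ≤ ξ i := by
    intro i
    induction i with
    | zero => intro _; rw [hT.ξ0]
    | succ i ih => intro hi; exact (ih (by omega)).trans (hT.ξmono i (by omega))
  have h2 : ∀ k, k ≤ P + 1 → ξ (P + 1 - k) ≤ ξ (P + 1) := by
    intro k
    induction k with
    | zero => intro _; simp
    | succ k ih =>
      intro hk
      refine le_trans ?_ (ih (by omega))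
      have h := hT.ξmono (P + 1 - (k + 1)) (by omega)
      rwa [show P + 1 - (k + 1) + 1 = P + 1 - k by omega] at h
  intro i hi
  refine ⟨h1 i hi, ?_⟩
  have h := h2 (P + 1 - i) (by omega)
  rwa [show P + 1 - (P + 1 - i) = i by omega] at h

private theorem tau_bounds {n : ℕ} (hn : 2 ≤ n) {L : ℝ} {T : ℕ → ℝ → ℝ} {P : ℕ} {ξ τ : ℕ → ℝ}
    (hT : KSpline n L T P ξ τ) : ∀ i, i ≤ P + n - 1 → 0 ≤ τ i ∧ τ i ≤ ξ (P + 1) := by
  have h1 : ∀ i, i ≤ P + n - 1 → 0 ≤ τ i := by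
    intro i
    induction i with
    | zero => intro _; exact hT.τ0
    | succ i ih => intro hi; exact (ih (by omega)).trans (hT.τmono i (by omega)).le
  have h2 : ∀ k, k ≤ P + n - 1 → τ (P + n - 1 - k) ≤ ξ (P + 1) := by
    intro k
    induction k with
    | zero => intro _; exact hT.τlast
    | succ k ih =>
      intro hk
      refine le_trans ?_ (ih (by omega))
      have h := (hT.τmono (P + n - 1 - (k + 1)) (by omega)).le
      rwa [show P + n - 1 - (k + 1) + 1 = P + n - 1 - k by omega] at h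
  intro i hi
  refine ⟨h1 i hi, ?_⟩
  have h := h2 (P + n - 1 - i) (by omega)
  rwa [show P + n - 1 - (P + n - 1 - i) = i by omega] at h

private theorem chain_aux {n : ℕ} (hn : 2 ≤ n) {L : ℝ} {T : ℕ → ℝ → ℝ} {P : ℕ} {ξ τ : ℕ → ℝ}
    (hT : KSpline n L T P ξ τ) {G : ℕ → ℝ → ℝ} (hG : InW n (Icc 0 L) G) {l : ℝ} (hl0 : 0 ≤ l)
    (hl1 : l < 1) : ∀ j, j < n → 0 < (-1) ^ j * (1 * T j 0 + (-l) * G j 0) := by
  have hxi := xi_bounds hT
  have htau := tau_bounds hn hT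
  have hsub : Icc 0 (ξ (P + 1)) ⊆ Icc 0 L := Icc_subset_Icc le_rfl hT.ξlast
  have hjet : IsJet n (|(1 : ℝ)| * 1 + |(-l)| * 1) (Icc 0 (ξ (P + 1)))
      (fun j t => 1 * T j t + (-l) * G j t) := jet_mono (jet_comb hT.inW.jet hG.jet) hsub
  refine chain_pos (d := fun j t => 1 * T j t + (-l) * G j t) (by omega) (jet_mvt hjet) hT.ξ0
    rfl hT.ξmono ?_ ?_
  · intro i hi s hs t ht hst
    have hsl := hT.slope i hi s hs t ht
    have hs' : s ∈ Icc 0 L := ⟨(hxi i (by omega)).1.trans hs.1,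
      hs.2.trans ((hxi (i + 1) (by omega)).2.trans hT.ξlast)⟩
    have ht' : t ∈ Icc 0 L := ⟨(hxi i (by omega)).1.trans ht.1,
      ht.2.trans ((hxi (i + 1) (by omega)).2.trans hT.ξlast)⟩
    have hlip := hG.jet.lip t ht' s hs'
    rw [one_mul, abs_of_pos (sub_pos.2 hst)] at hlip
    have habs := abs_le.1 hlip
    rcases neg_one_pow_eq_or ℝ (n + i) with he | he
    · rw [he] at hsl ⊢
      show 0 < 1 * ((1 * T (n - 1) t + (-l) * G (n - 1) t) -
        (1 * T (n - 1) s + (-l) * G (n - 1) s))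
      have h1 : l * (G (n - 1) t - G (n - 1) s) ≤ l * (t - s) :=
        mul_le_mul_of_nonneg_left habs.2 hl0
      have h2 : l * (t - s) < 1 * (t - s) := mul_lt_mul_of_pos_right hl1 (sub_pos.2 hst)
      linarith
    · rw [he] at hsl ⊢
      show 0 < -1 * ((1 * T (n - 1) t + (-l) * G (n - 1) t) -
        (1 * T (n - 1) s + (-l) * G (n - 1) s))
      have h1 : l * (-(t - s)) ≤ l * (G (n - 1) t - G (n - 1) s) :=
        mul_le_mul_of_nonneg_left habs.1 hl0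
      have h2 : l * (t - s) < 1 * (t - s) := mul_lt_mul_of_pos_right hl1 (sub_pos.2 hst)
      linarith
  · refine ⟨τ, fun i hi => htau i hi, fun i hi => hT.τmono i (by omega), ?_⟩
    intro i hi
    have hc := hT.contact i (by omega)
    have hb := abs_le.1 (hG.bdd (τ i) (hsub (htau i hi)))
    show 0 < 1 * (-1) ^ i * (1 * T 0 (τ i) + (-l) * G 0 (τ i))
    rw [hc]
    rcases neg_one_pow_eq_or ℝ i with he | he
    · rw [he]
      have h1 : l * G 0 (τ i) ≤ l * 1 := mul_le_mul_of_nonneg_left hb.2 hl0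
      linarith
    · rw [he]
      have h1 : l * (-1) ≤ l * G 0 (τ i) := mul_le_mul_of_nonneg_left hb.1 hl0
      linarith

private theorem ext_aux {n : ℕ} (hn : 2 ≤ n) {L : ℝ} {T : ℕ → ℝ → ℝ} {P : ℕ} {ξ τ : ℕ → ℝ}
    (hT : KSpline n L T P ξ τ) {G : ℕ → ℝ → ℝ} (hG : InW n (Icc 0 L) G) :
    ∀ j, j < n → (-1) ^ j * G j 0 ≤ (-1) ^ j * T j 0 := by
  intro j hj
  by_contra hlt
  push Not at hlt
  have h0 := chain_aux hn hT hG le_rfl one_pos j hj
  have hpos : 0 < (-1) ^ j * T j 0 := by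
    have : (-1 : ℝ) ^ j * (1 * T j 0 + -0 * G j 0) = (-1) ^ j * T j 0 := by ring
    rwa [this] at h0
  have hg : 0 < (-1) ^ j * G j 0 := hpos.trans hlt
  have h1 := chain_aux hn hT hG (l := ((-1) ^ j * T j 0) / ((-1) ^ j * G j 0))
    (div_nonneg hpos.le hg.le) ((div_lt_one hg).2 hlt) j hj
  have h2 : (-1 : ℝ) ^ j * (1 * T j 0 + -(((-1) ^ j * T j 0) / ((-1) ^ j * G j 0)) * G j 0) =
      (-1) ^ j * T j 0 - (((-1) ^ j * T j 0) / ((-1) ^ j * G j 0)) * ((-1) ^ j * G j 0) := by ring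
  rw [h2, div_mul_cancel₀ _ hg.ne', sub_self] at h1
  exact lt_irrefl 0 h1

private theorem InW.neg {n : ℕ} {S : Set ℝ} {G : ℕ → ℝ → ℝ} (hG : InW n S G) :
    InW n S (fun j t => - G j t) := by
  refine ⟨⟨fun j hj t ht => (hG.jet.hasDeriv j hj t ht).neg, fun s hs t ht => ?_⟩,
    fun t ht => ?_⟩
  · have h := hG.jet.lip s hs t ht
    show |(-G (n - 1) s) - (-G (n - 1) t)| ≤ 1 * |s - t|
    rw [show (-G (n - 1) s) - (-G (n - 1) t) = -(G (n - 1) s - G (n - 1) t) by ring, abs_neg]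
    exact h
  · show |(-G 0 t)| ≤ 1
    rw [abs_neg]
    exact hG.bdd t ht

theorem KSpline.extremal {n : ℕ} (hn : 2 ≤ n) {L : ℝ} {T : ℕ → ℝ → ℝ} {P : ℕ} {ξ τ : ℕ → ℝ}
    (hT : KSpline n L T P ξ τ) {G : ℕ → ℝ → ℝ} (hG : InW n (Icc 0 L) G) :
    ∀ j, j < n → |G j 0| ≤ (-1) ^ j * T j 0 := by
  intro j hj
  have h1 := ext_aux hn hT hG j hj
  have h2 : (-1) ^ j * (- G j 0) ≤ (-1) ^ j * T j 0 := ext_aux hn hT hG.neg j hj
  have h3 : |G j 0| = |(-1) ^ j * G j 0| := by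
    rw [abs_mul, abs_pow, abs_neg, abs_one, one_pow, one_mul]
  rw [h3, abs_le]
  constructor
  · linarith
  · exact h1

theorem inW_exp (n : ℕ) (S : Set ℝ) (hS : S ⊆ Ici 0) :
    InW n S (fun j t => (-1) ^ j * Real.exp (-t)) := by
  have hkey : ∀ s t : ℝ, 0 ≤ s → s ≤ t → |Real.exp (-s) - Real.exp (-t)| ≤ |s - t| := by
    intro s t hs hst
    have h1 : Real.exp (-t) ≤ Real.exp (-s) := Real.exp_le_exp.2 (by linarith)
    rw [abs_of_nonneg (by linarith), abs_of_nonpos (by linarith)]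
    have h2 : Real.exp (-t) = Real.exp (-s) * Real.exp (-(t - s)) := by
      rw [← Real.exp_add]
      congr 1
      ring
    have h3 : -(t - s) + 1 ≤ Real.exp (-(t - s)) := Real.add_one_le_exp _
    have h4 : Real.exp (-s) ≤ 1 := Real.exp_le_one_iff.2 (by linarith)
    have h5 : 0 < Real.exp (-s) := Real.exp_pos _
    have h6 : Real.exp (-s) * (1 - Real.exp (-(t - s))) ≤ 1 * (t - s) := by
      have h7 : 1 - Real.exp (-(t - s)) ≤ t - s := by linarith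
      have h8 : 0 ≤ 1 - Real.exp (-(t - s)) := by
        have : Real.exp (-(t - s)) ≤ 1 := Real.exp_le_one_iff.2 (by linarith)
        linarith
      exact mul_le_mul h4 h7 h8 zero_le_one
    rw [h2]
    linarith
  refine ⟨⟨?_, ?_⟩, ?_⟩
  · intro j hj t ht
    have h1 : HasDerivAt (fun t : ℝ => (-1) ^ j * Real.exp (-t)) ((-1) ^ j * (Real.exp (-t) * (-1)))
        t := ((Real.hasDerivAt_exp (-t)).comp t (hasDerivAt_neg t)).const_mul _
    have h2 : (-1 : ℝ) ^ j * (Real.exp (-t) * (-1)) = (-1) ^ (j + 1) * Real.exp (-t) := by ring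
    rw [h2] at h1
    exact h1.hasDerivWithinAt
  · intro s hs t ht
    show |(-1) ^ (n - 1) * Real.exp (-s) - (-1) ^ (n - 1) * Real.exp (-t)| ≤ 1 * |s - t|
    rw [← mul_sub, abs_mul, abs_pow, abs_neg, abs_one, one_pow, one_mul, one_mul]
    rcases le_total s t with hst | hst
    · exact hkey s t (hS hs) hst
    · rw [abs_sub_comm, abs_sub_comm s t]
      exact hkey t s (hS ht) hst
  · intro t ht
    show |(-1) ^ 0 * Real.exp (-t)| ≤ 1
    rw [pow_zero, one_mul, abs_of_pos (Real.exp_pos _)]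
    have h0 : (0 : ℝ) ≤ t := hS ht
    exact Real.exp_le_one_iff.2 (by linarith)

theorem KSpline.ge_one {n : ℕ} (hn : 2 ≤ n) {L : ℝ} {T : ℕ → ℝ → ℝ} {P : ℕ} {ξ τ : ℕ → ℝ}
    (hT : KSpline n L T P ξ τ) : ∀ j, j < n → 1 ≤ (-1) ^ j * T j 0 := by
  intro j hj
  have h := hT.extremal hn (inW_exp n (Icc 0 L) (fun t ht => ht.1)) j hj
  have h1 : |(-1 : ℝ) ^ j * Real.exp (-0)| = 1 := by
    rw [abs_mul, abs_pow, abs_neg, abs_one, one_pow, one_mul]
    simp
  have h2 : |(-1 : ℝ) ^ j * Real.exp (-0)| ≤ (-1) ^ j * T j 0 := h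
  rwa [h1] at h2

theorem exists_half {n : ℕ} (hn : 2 ≤ n)
    (hex : ∀ L : ℝ, 0 < L → ∃ (T : ℕ → ℝ → ℝ) (P : ℕ) (ξ τ : ℕ → ℝ), KSpline n L T P ξ τ) :
    ∃ T, HalfExt n T := by
  have hex' : ∀ i : ℕ, ∃ (T : ℕ → ℝ → ℝ) (P : ℕ) (ξ τ : ℕ → ℝ),
      KSpline n ((i : ℝ) + 1) T P ξ τ := fun i => hex _ (by positivity)
  choose F P ξ τ hF using hex'
  obtain ⟨B, hB1, hB, _⟩ := W_bound n (by omega)
  haveI : Filter.NeBot U := inferInstanceAs (Filter.NeBot ((Filter.hyperfilter ℕ : Ultrafilter ℕ) : Filter ℕ))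
  have hev : ∀ t ∈ Ici (0 : ℝ), ∀ᶠ i : ℕ in U, t ∈ Icc (0 : ℝ) ((i : ℝ) + 1) := by
    intro t ht
    have h1 : ∀ᶠ i : ℕ in Filter.atTop, t ∈ Icc (0 : ℝ) ((i : ℝ) + 1) := by
      obtain ⟨N, hN⟩ := exists_nat_ge t
      filter_upwards [Filter.eventually_ge_atTop N] with i hi
      refine ⟨ht, ?_⟩
      have h2 : (N : ℝ) ≤ (i : ℝ) := by exact_mod_cast hi
      linarith
    exact Nat.hyperfilter_le_atTop h1
  obtain ⟨T, hTjet, hlim⟩ := jet_limit (n := n) (by omega) (Ici 0) ordConnected_Ici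
    (fun i : ℕ => Icc (0 : ℝ) ((i : ℝ) + 1)) (fun i => ordConnected_Icc) hev F
    (fun i => (hF i).inW.jet) B (fun i j hj t ht => by
      have h1 : (1 : ℝ) ≤ (i : ℝ) + 1 := by
        have : (0 : ℝ) ≤ (i : ℝ) := Nat.cast_nonneg i
        linarith
      exact hB _ h1 (F i) (hF i).inW j hj t ht)
  have h0 : (0 : ℝ) ∈ Ici (0 : ℝ) := mem_Ici.2 le_rfl
  refine ⟨T, ⟨hTjet, ?_⟩, ?_, ?_⟩
  · intro t ht
    have h1 := (hlim 0 (by omega) t ht).abs
    refine le_of_tendsto h1 ?_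
    filter_upwards [hev t ht] with i hi
    exact (hF i).inW.bdd t hi
  · intro G hG j hj
    have h1 := (hlim j hj 0 h0).const_mul ((-1 : ℝ) ^ j)
    refine ge_of_tendsto h1 ?_
    filter_upwards with i
    exact (hF i).extremal hn (hG.mono (fun t ht => ht.1)) j hj
  · intro j hj
    have h1 := (hlim j hj 0 h0).const_mul ((-1 : ℝ) ^ j)
    refine ge_of_tendsto h1 ?_
    filter_upwards with i
    exact (hF i).ge_one hn j hj

end Pool.Agent.LKI
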