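import Mathlib

/-!
Project LKI (problem MP_0732f2_an): Karlin's conjecture on the Landau-Kolmogorov problem on a finite
interval for all sufficiently large `σ`.

Conventions.  A function of the class `W` on a set `S` (always `S = [0, L]` or `S = [0, ∞)`) is given by
the sequence `F 0, F 1, ..., F (n-1)` of its derivatives of order `< n`; the top one is Lipschitz.
Values of `F j` with `j ≥ n` and values outside `S` play no role.
-/

open Set

namespace Pool.Agent.LKI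

/-- `F 0, ..., F (n-1)` are successive derivatives on `S`, and `F (n-1)` is `σ`-Lipschitz on `S`. -/
structure IsJet (n : ℕ) (σ : ℝ) (S : Set ℝ) (F : ℕ → ℝ → ℝ) : Prop where
  hasDeriv : ∀ j, j + 1 < n → ∀ t ∈ S, HasDerivWithinAt (F j) (F (j + 1) t) S t
  lip : ∀ s ∈ S, ∀ t ∈ S, |F (n - 1) s - F (n - 1) t| ≤ σ * |s - t|

/-- The class `W`: `|f| ≤ 1` and `f^(n-1)` is `1`-Lipschitz. -/
structure InW (n : ℕ) (S : Set ℝ) (F : ℕ → ℝ → ℝ) : Prop where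
  jet : IsJet n 1 S F
  bdd : ∀ t ∈ S, |F 0 t| ≤ 1

/-- `g'` has the signs of a derivative of `g` on `[a, b]` (sign form of the mean value theorem). -/
def Mvt (g g' : ℝ → ℝ) (a b : ℝ) : Prop :=
  ∀ s t, a ≤ s → s < t → t ≤ b →
    (g s < g t → ∃ x ∈ Ioo s t, 0 < g' x) ∧ (g t < g s → ∃ x ∈ Ioo s t, g' x < 0)

/-- `g` has `q` sign alternations on `S`, the first sign being the sign of `ρ` (`ρ = 1` or `-1`). -/
def Alt (g : ℝ → ℝ) (S : Set ℝ) (q : ℕ) (ρ : ℝ) : Prop :=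
  ∃ x : ℕ → ℝ, (∀ i, i ≤ q → x i ∈ S) ∧ (∀ i, i < q → x i < x (i + 1)) ∧
    ∀ i, i ≤ q → 0 < ρ * (-1) ^ i * g (x i)

/-- Truncated power `x_+^l / l!` (for `l = 0`: the indicator function of `x > 0`). -/
noncomputable def pw (l : ℕ) (x : ℝ) : ℝ := if 0 < x then x ^ l / (l.factorial : ℝ) else 0

/-- The `j`-th derivative of the polynomial `∑_{i < n} y i * t^i / i!`. -/
noncomputable def tay (n : ℕ) (y : ℕ → ℝ) (j : ℕ) (t : ℝ) : ℝ :=
  ∑ i ∈ Finset.range (n - j), y (j + i) * t ^ i / (i.factorial : ℝ)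

/-- `∑_{i ≤ m} μ i * pw l (i h - s)`. -/
noncomputable def Hf (h : ℝ) (m : ℕ) (μ : ℕ → ℝ) (l : ℕ) (s : ℝ) : ℝ :=
  ∑ i ∈ Finset.range (m + 1), μ i * pw l ((i : ℝ) * h - s)

/-- The function with Taylor coefficients `y` at `0` whose `n`-th derivative is the constant `u c` on
the cell `[c h, (c+1) h]`, `c < C`; `spl ... j` is its `j`-th derivative. -/
noncomputable def spl (n C : ℕ) (h : ℝ) (y u : ℕ → ℝ) (j : ℕ) (t : ℝ) : ℝ :=
  tay n y j t + ∑ c ∈ Finset.range C,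
    u c * (pw (n - j) (t - (c : ℝ) * h) - pw (n - j) (t - ((c : ℝ) + 1) * h))

/-- Zolotarev-Chebyshev perfect spline on `[0, L]`: an element of the class whose `n`-th derivative is
`(-1)^(n+i)` on `[ξ i, ξ (i+1)]`, `i = 0, ..., P`, `0 = ξ 0 ≤ ... ≤ ξ (P+1) ≤ L`, and which takes the
values `(-1)^i` at `P + n` points `0 ≤ τ 0 < ... < τ (P+n-1) ≤ ξ (P+1)`. -/
structure KSpline (n : ℕ) (L : ℝ) (T : ℕ → ℝ → ℝ) (P : ℕ) (ξ τ : ℕ → ℝ) : Prop where
  inW : InW n (Icc 0 L) T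
  ξ0 : ξ 0 = 0
  ξmono : ∀ i, i ≤ P → ξ i ≤ ξ (i + 1)
  ξlast : ξ (P + 1) ≤ L
  slope : ∀ i, i ≤ P → ∀ s ∈ Icc (ξ i) (ξ (i + 1)), ∀ t ∈ Icc (ξ i) (ξ (i + 1)),
    T (n - 1) t - T (n - 1) s = (-1) ^ (n + i) * (t - s)
  τ0 : 0 ≤ τ 0
  τmono : ∀ i, i + 1 < P + n → τ i < τ (i + 1)
  τlast : τ (P + n - 1) ≤ ξ (P + 1)
  contact : ∀ i, i < P + n → T 0 (τ i) = (-1) ^ i

/-- Extremal function of the half-line problem, for all derivatives simultaneously. -/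
structure HalfExt (n : ℕ) (T : ℕ → ℝ → ℝ) : Prop where
  inW : InW n (Ici 0) T
  ext : ∀ G, InW n (Ici 0) G → ∀ j, j < n → |G j 0| ≤ (-1) ^ j * T j 0
  ge_one : ∀ j, j < n → 1 ≤ (-1) ^ j * T j 0

/-- The cut of a jet at `s`: `D` minus its Taylor polynomial at `s`, to the left of `s`; `0` to the
right of `s`. -/
noncomputable def cut (n : ℕ) (D : ℕ → ℝ → ℝ) (s : ℝ) (j : ℕ) (t : ℝ) : ℝ :=
  if t ≤ s then D j t - tay n (fun i => D i s) j (t - s) else 0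

end Pool.Agent.LKI
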