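import Pool.Agent.LKI.E1
import Pool.Agent.LKI.B1

/-!
E4b: two further improvement lemmas.

`improve_poly`: `S = [0, L]`, contact set `⊆ Z`, `Z.card < n`: add `ε tay n c` (whose top derivative is constant) with
`c` from `poly_dir`; same bound argument (5).

`improve_scale`: `S = [0, ∞)`, `|F 0| ≤ 1 - δ` everywhere, `0 < δ < 1`: `F' j t = α β^j F j (β t)`, `α = 1 / (1 - δ)`,
`β = α^(-1/n)`, so `α β^n = 1`; `F'` is in the class and `F' k 0 = α β^k F k 0 = β^(k-n) F k 0` with `β^(k - n) > 1`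
(`k < n`).
(Bound argument (5) of E4: let `h = tay n c 0`, with `F 0 z * h z < 0` for all contact points `z ∈ Z` of `F 0`; the set
`{t ∈ [0,L] | F 0 t * h t ≥ 0}` is compact and `|F 0| < 1` on it, so `|F 0| ≤ 1 - κ` there for some `κ > 0`; choose
`ε > 0` with `ε |h| ≤ min κ 1` on `[0, L]`; then `|F 0 + ε h| ≤ 1`.)
-/

open Set

namespace Pool.Agent.LKI

theorem improve_poly {n k : ℕ} (hk : 1 ≤ k) (hkn : k < n) {L : ℝ} (hL : 0 < L)
    {F : ℕ → ℝ → ℝ} (hF : InW n (Icc 0 L) F) (Z : Finset ℝ) (hZ : Z.card < n)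
    (hZmem : ∀ t ∈ Icc 0 L, |F 0 t| = 1 → t ∈ Z) (s : ℝ) (hs : s = 1 ∨ s = -1) :
    ∃ F', InW n (Icc 0 L) F' ∧ s * F k 0 < s * F' k 0 := by
  classical
  have hn : 1 ≤ n := by omega
  set Z' : Finset ℝ := Z.filter (fun t => t ∈ Icc 0 L ∧ |F 0 t| = 1) with hZ'
  have hmem : ∀ z, z ∈ Z' ↔ z ∈ Z ∧ z ∈ Icc 0 L ∧ |F 0 z| = 1 := fun z => by
    rw [hZ', Finset.mem_filter]
  obtain ⟨c, hc, hcz⟩ := poly_dir hk hkn Z' (fun z hz => ((hmem z).1 hz).2.1.1)
    ((Finset.card_le_card (Finset.filter_subset _ _)).trans_lt hZ) (F 0)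
    (fun z hz h0 => by
      have := ((hmem z).1 hz).2.2
      rw [h0, abs_zero] at this
      exact zero_ne_one this) s hs
  set h : ℝ → ℝ := tay n c 0 with hh
  have hhc : Continuous h :=
    continuous_iff_continuousAt.2 fun t => (tay_hasDeriv n c 0 hn t).continuousAt
  have hFc : ContinuousOn (F 0) (Icc 0 L) := fun t ht =>
    (hF.jet.hasDeriv 0 (by omega) t ht).continuousWithinAt
  -- the compact set on which the signs agree
  set K : Set ℝ := {t ∈ Icc 0 L | 0 ≤ F 0 t * h t} with hK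
  have hKc : IsCompact K := by
    have h1 : ContinuousOn (fun t => F 0 t * h t) (Icc 0 L) := hFc.mul hhc.continuousOn
    have h2 : IsClosed (Icc 0 L ∩ (fun t => F 0 t * h t) ⁻¹' Ici 0) :=
      h1.preimage_isClosed_of_isClosed isClosed_Icc isClosed_Ici
    exact isCompact_Icc.of_isClosed_subset h2 inter_subset_left
  have hKlt : ∀ t ∈ K, |F 0 t| < 1 := by
    rintro t ⟨ht1, ht2⟩
    refine lt_of_le_of_ne (hF.bdd t ht1) fun h1 => ?_
    have := hcz t ((hmem t).2 ⟨hZmem t ht1 h1, ht1, h1⟩)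
    linarith
  obtain ⟨κ, hκ, hκb⟩ : ∃ κ > 0, ∀ t ∈ K, |F 0 t| ≤ 1 - κ := by
    rcases K.eq_empty_or_nonempty with hemp | hne
    · exact ⟨1, one_pos, fun t ht => by rw [hemp] at ht; exact ht.elim⟩
    · obtain ⟨t₀, ht₀, hmax⟩ := hKc.exists_isMaxOn hne
        ((hFc.mono fun t ht => ht.1).abs)
      refine ⟨1 - |F 0 t₀|, by linarith [hKlt t₀ ht₀], fun t ht => ?_⟩
      have hm : |F 0 t| ≤ |F 0 t₀| := hmax ht
      linarith
  obtain ⟨H, hH⟩ : ∃ H, ∀ t ∈ Icc 0 L, |h t| ≤ H := by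
    obtain ⟨H, hH⟩ := isCompact_Icc.exists_bound_of_continuousOn (s := Icc 0 L)
      hhc.continuousOn
    exact ⟨H, fun t ht => by simpa using hH t ht⟩
  have hH0 : 0 ≤ H := (abs_nonneg _).trans (hH 0 ⟨le_rfl, hL.le⟩)
  set ε : ℝ := min κ 1 / (H + 1) with hε
  have hmin : 0 < min κ 1 := lt_min hκ one_pos
  have hε0 : 0 < ε := div_pos hmin (by linarith)
  have hεh : ∀ t ∈ Icc 0 L, ε * |h t| ≤ min κ 1 := by
    intro t ht
    rw [hε, div_mul_eq_mul_div, div_le_iff₀ (by linarith)]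
    exact mul_le_mul_of_nonneg_left ((hH t ht).trans (by linarith)) hmin.le
  refine ⟨fun j t => F j t + ε * tay n c j t, ⟨⟨?_, ?_⟩, ?_⟩, ?_⟩
  · intro j hj t ht
    exact (hF.jet.hasDeriv j hj t ht).add
      (((tay_hasDeriv n c j (by omega) t).const_mul ε).hasDerivWithinAt)
  · intro a ha b hb
    simp only [tay_top n c hn]
    rw [add_sub_add_right_eq_sub]
    exact hF.jet.lip a ha b hb
  · intro t ht
    change |F 0 t + ε * h t| ≤ 1
    have h1 := hF.bdd t ht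
    have h2 := hεh t ht
    have h3 : ε * |h t| ≤ κ := h2.trans (min_le_left _ _)
    have h4 : ε * |h t| ≤ 1 := h2.trans (min_le_right _ _)
    have h5 : |ε * h t| = ε * |h t| := by rw [abs_mul, abs_of_pos hε0]
    by_cases hsg : 0 ≤ F 0 t * h t
    · have h6 := hκb t ⟨ht, hsg⟩
      have h7 := abs_add_le (F 0 t) (ε * h t)
      rw [h5] at h7
      linarith
    · push Not at hsg
      rcases mul_neg_iff.1 hsg with ⟨h6, h7⟩ | ⟨h6, h7⟩
      · have h8 : ε * h t < 0 := mul_neg_of_pos_of_neg hε0 h7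
        rw [abs_of_neg h8] at h5
        rw [abs_of_pos h6] at h1
        rw [abs_le]
        constructor <;> linarith
      · have h8 : 0 < ε * h t := mul_pos hε0 h7
        rw [abs_of_pos h8] at h5
        rw [abs_of_neg h6] at h1
        rw [abs_le]
        constructor <;> linarith
  · change s * F k 0 < s * (F k 0 + ε * tay n c k 0)
    rw [tay_zero n c k hkn]
    have : 0 < ε * (s * c k) := mul_pos hε0 hc
    linarith

theorem improve_scale {n k : ℕ} (hkn : k < n) {F : ℕ → ℝ → ℝ} (hF : InW n (Ici 0) F)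
    {δ : ℝ} (hδ : 0 < δ) (hb : ∀ t ∈ Ici (0 : ℝ), |F 0 t| ≤ 1 - δ) (s : ℝ) (hpos : 0 < s * F k 0) :
    ∃ F', InW n (Ici 0) F' ∧ s * F k 0 < s * F' k 0 := by
  have hn : n ≠ 0 := by omega
  set δ' : ℝ := min δ (1 / 2) with hδ'
  have hδ'0 : 0 < δ' := lt_min hδ (by norm_num)
  have hδ'1 : δ' ≤ 1 / 2 := min_le_right _ _
  have hδδ : δ' ≤ δ := min_le_left _ _
  set β : ℝ := (1 - δ') ^ ((n : ℝ)⁻¹) with hβ
  have hβn : β ^ n = 1 - δ' := Real.rpow_inv_natCast_pow (by linarith) hn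
  have hβ0 : 0 < β := Real.rpow_pos_of_pos (by linarith) _
  have hβn0 : 0 < β ^ n := pow_pos hβ0 n
  have hβ1 : β < 1 := by
    by_contra hcon
    push Not at hcon
    have := one_le_pow₀ (n := n) hcon
    rw [hβn] at this
    linarith
  have hmaps : MapsTo (fun t : ℝ => β * t) (Ici 0) (Ici 0) := fun t ht =>
    mul_nonneg hβ0.le ht
  refine ⟨fun j t => β ^ j / β ^ n * F j (β * t), ⟨⟨?_, ?_⟩, ?_⟩, ?_⟩
  · intro j hj t ht
    have h1 := hF.jet.hasDeriv j hj (β * t) (hmaps ht)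
    have h2 : HasDerivWithinAt (fun t : ℝ => β * t) β (Ici 0) t := by
      simpa using ((hasDerivAt_id t).const_mul β).hasDerivWithinAt
    have h3 := (h1.comp t h2 hmaps).const_mul (β ^ j / β ^ n)
    have heq : β ^ (j + 1) / β ^ n * F (j + 1) (β * t) =
        β ^ j / β ^ n * (F (j + 1) (β * t) * β) := by
      rw [pow_succ]
      ring
    change HasDerivWithinAt _ (β ^ (j + 1) / β ^ n * F (j + 1) (β * t)) (Ici 0) t
    rw [heq]
    exact h3
  · intro a ha b hb'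
    have h1 := hF.jet.lip (β * a) (hmaps ha) (β * b) (hmaps hb')
    change |β ^ (n - 1) / β ^ n * F (n - 1) (β * a) - β ^ (n - 1) / β ^ n * F (n - 1) (β * b)| ≤ _
    rw [← mul_sub, abs_mul, abs_of_pos (div_pos (pow_pos hβ0 _) hβn0)]
    rw [← mul_sub, abs_mul, abs_of_pos hβ0] at h1
    have h2 : β ^ (n - 1) * β = β ^ n := by
      rw [← pow_succ, Nat.sub_add_cancel (by omega)]
    calc β ^ (n - 1) / β ^ n * |F (n - 1) (β * a) - F (n - 1) (β * b)|
        ≤ β ^ (n - 1) / β ^ n * (1 * (β * |a - b|)) :=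
          mul_le_mul_of_nonneg_left h1 (div_pos (pow_pos hβ0 _) hβn0).le
      _ = (β ^ (n - 1) * β) / β ^ n * |a - b| := by ring
      _ = 1 * |a - b| := by rw [h2, div_self hβn0.ne']
  · intro t ht
    change |β ^ 0 / β ^ n * F 0 (β * t)| ≤ 1
    have h1 := hb (β * t) (hmaps ht)
    rw [pow_zero, abs_mul, abs_of_pos (div_pos one_pos hβn0), div_mul_eq_mul_div, one_mul,
      div_le_one hβn0, hβn]
    linarith
  · change s * F k 0 < s * (β ^ k / β ^ n * F k (β * 0))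
    rw [mul_zero]
    have h1 : β ^ n < β ^ k := pow_lt_pow_right_of_lt_one₀ hβ0 hβ1 hkn
    have h2 : 1 < β ^ k / β ^ n := (one_lt_div hβn0).2 h1
    have h3 : s * (β ^ k / β ^ n * F k 0) = β ^ k / β ^ n * (s * F k 0) := by ring
    rw [h3]
    exact lt_mul_of_one_lt_left hpos h2

end Pool.Agent.LKI
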