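import Pool.Agent.LKI.E4
import Pool.Agent.LKI.E4b

/-!
E6: uniqueness for the end point problem on `[0, L]`.

`fin_unique`.  PROOF.  `D j = T j - f j`, `w`, `p` as follows: `D` is a jet with constant `2`.  `A = {t ∈ [0, L] : w constant on [0, t]}`, `b = max A`.
`f k 0 = T k 0`.  Let `s = (-1)^k`.  By `hext` every `G` in the class has `s G k 0 ≤ s T k 0 = s (mean) k 0`.
Case 1: `p ≠ 0` (some `p j ≠ 0`, `j < n`).  As above the contact points of the mean in `[0, b]` lie in a finite set `Z` with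
`< n` elements.  If `b = L`: `improve_poly`.  If `b < L`: as above no contact points in `(b, b + η]` for a small `η`,
and `improve`.  Contradiction.
Case 2: `p = 0`: `D 0 = 0` on `[0, b]`, in particular `f 0 = T 0` on `[0, b]`.  If `b ≥ c` we are done.  If
`b < c ≤ L`: contact points of the mean are contact points of `T`; those in `[0, b] ⊆ [0, c)` lie in `Z`
(`Z.card < n`), and since `T` has only finitely many contact points in `[0, c]` (`hfin`) there are none in
`(b, b + η]` for small `η` (`b + η ≤ c ≤ L`).  `w` is not constant on `[b, b + η]`.  `improve`: contradiction.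

The facts used in case 1, as in E5 (`half_unique`): on `[0, b]` `D j t = tay n p j t`; a contact point `t` of the mean has
`T 0 t = f 0 t = ± 1`, so it is a root of the nonzero polynomial `tay n p 0`, which has `≤ n - 1` roots; (for `b = 0` use
`Z = {0}`); if contact points of the mean decreased to `b`, Rolle would give `D j b = 0` for all `j < n`, hence `p = 0`.
-/

open Set

namespace Pool.Agent.LKI

/-- a jet with constant top derivative on `[0,b]` is its Taylor polynomial -/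
theorem e6_poly {n : ℕ} {σ : ℝ} {S : Set ℝ} {D : ℕ → ℝ → ℝ} (hD : IsJet n σ S D) {b : ℝ}
    (hS : Icc 0 b ⊆ S) (hc : ∀ t ∈ Icc 0 b, D (n - 1) t = D (n - 1) 0) :
    ∀ i j, j < n → n - 1 - j = i → ∀ t ∈ Icc 0 b, D j t = tay n (fun i => D i 0) j t := by
  intro i
  induction i with
  | zero =>
    intro j hj hi t ht
    have hj' : j = n - 1 := by omega
    subst hj'
    rw [tay_top n _ (by omega) t]
    exact hc t ht
  | succ i ih =>
    intro j hj hi t ht
    have ih' := ih (j + 1) (by omega) (by omega)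
    have hder : ∀ x ∈ Icc 0 b, HasDerivWithinAt
        (fun x => D j x - tay n (fun i => D i 0) j x) 0 (Icc 0 b) x := by
      intro x hx
      have h1 := (hD.hasDeriv j (by omega) x (hS hx)).mono hS
      have h2 := (tay_hasDeriv n (fun i => D i 0) j (by omega) x).hasDerivWithinAt (s := Icc 0 b)
      have h3 := h1.sub h2
      rw [ih' x hx, sub_self] at h3
      exact h3
    have hcont : ContinuousOn (fun x => D j x - tay n (fun i => D i 0) j x) (Icc 0 b) :=
      fun x hx => (hder x hx).continuousWithinAt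
    have hr : ∀ x ∈ Ico 0 b, HasDerivWithinAt
        (fun x => D j x - tay n (fun i => D i 0) j x) 0 (Ici x) x := by
      intro x hx
      refine (hder x ⟨hx.1, hx.2.le⟩).mono_of_mem_nhdsWithin ?_
      exact Filter.mem_of_superset (Icc_mem_nhdsGE hx.2) (Icc_subset_Icc_left hx.1)
    have h0 := constant_of_has_deriv_right_zero hcont hr t ht
    rw [tay_zero n (fun i => D i 0) j (by omega)] at h0
    simp only [sub_self] at h0
    linarith

/-- the polynomial behind `tay n p 0` -/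
noncomputable def e6Pol (n : ℕ) (p : ℕ → ℝ) : Polynomial ℝ :=
  ∑ i ∈ Finset.range n, Polynomial.monomial i (p i / (i.factorial : ℝ))

theorem e6_eval (n : ℕ) (p : ℕ → ℝ) (t : ℝ) : (e6Pol n p).eval t = tay n p 0 t := by
  unfold e6Pol tay
  rw [Polynomial.eval_finsetSum]
  simp only [Nat.sub_zero, Nat.zero_add, Polynomial.eval_monomial]
  refine Finset.sum_congr rfl fun i _ => ?_
  ring

theorem e6_coeff (n : ℕ) (p : ℕ → ℝ) (j : ℕ) (hj : j < n) :
    (e6Pol n p).coeff j = p j / (j.factorial : ℝ) := by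
  unfold e6Pol
  rw [Polynomial.finsetSum_coeff]
  simp only [Polynomial.coeff_monomial]
  rw [Finset.sum_ite_eq' (Finset.range n) j]
  simp [hj]

theorem e6_degree (n : ℕ) (p : ℕ → ℝ) : (e6Pol n p).degree < n := by
  unfold e6Pol
  refine (Polynomial.degree_sum_le _ _).trans_lt ?_
  refine (Finset.sup_lt_iff (WithBot.bot_lt_coe n)).2 ?_
  intro i hi
  exact (Polynomial.degree_monomial_le _ _).trans_lt
    (WithBot.coe_lt_coe.2 (Finset.mem_range.1 hi))

/-- a nonzero polynomial of degree `< n` has fewer than `n` roots -/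
theorem e6_card {n : ℕ} {p : ℕ → ℝ} {j : ℕ} (hj : j < n) (hp : p j ≠ 0) :
    ∃ Z : Finset ℝ, Z.card < n ∧ ∀ t, tay n p 0 t = 0 → t ∈ Z := by
  have hne : e6Pol n p ≠ 0 := by
    intro h0
    have h1 := e6_coeff n p j hj
    rw [h0, Polynomial.coeff_zero] at h1
    have h2 : (j.factorial : ℝ) ≠ 0 := by exact_mod_cast j.factorial_ne_zero
    exact hp (by
      field_simp at h1
      linarith)
  refine ⟨(e6Pol n p).roots.toFinset, ?_, ?_⟩
  · have h1 := (Multiset.toFinset_card_le (e6Pol n p).roots).trans (Polynomial.card_roots' _)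
    have h2 := (Polynomial.natDegree_lt_iff_degree_lt hne).2 (e6_degree n p)
    omega
  · intro t ht
    rw [Multiset.mem_toFinset, Polynomial.mem_roots hne, Polynomial.IsRoot.def, e6_eval]
    exact ht

theorem e6_cont {n : ℕ} (hn : 1 ≤ n) {σ : ℝ} {S : Set ℝ} {D : ℕ → ℝ → ℝ}
    (hD : IsJet n σ S D) (j : ℕ) (hj : j < n) : ContinuousOn (D j) S := by
  by_cases h : j + 1 < n
  · exact fun x hx => (hD.hasDeriv j h x hx).continuousWithinAt
  · have hj' : j = n - 1 := by omega
    subst hj'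
    have : LipschitzOnWith (Real.toNNReal σ) (D (n - 1)) S := by
      refine LipschitzOnWith.of_dist_le_mul fun x hx y hy => ?_
      rw [Real.dist_eq, Real.dist_eq]
      refine (hD.lip x hx y hy).trans ?_
      gcongr
      exact Real.le_coe_toNNReal σ
    exact this.continuousOn

/-- zeros accumulating at `b` from the right kill the jet at `b` -/
theorem e6_gap {n : ℕ} {σ : ℝ} {b b' : ℝ} {D : ℕ → ℝ → ℝ} (hb : b < b')
    (hD : IsJet n σ (Icc b b') D) {j₀ : ℕ} (hj₀ : j₀ < n) (hne : D j₀ b ≠ 0) :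
    ∃ η > 0, b + η ≤ b' ∧ ∀ t ∈ Ioc b (b + η), D 0 t ≠ 0 := by
  by_contra hcon
  have key : ∀ j, j < n → ∀ η > 0, b + η ≤ b' → ∃ t ∈ Ioc b (b + η), D j t = 0 := by
    intro j
    induction j with
    | zero =>
      intro _ η hη hle
      by_contra h
      refine hcon ⟨η, hη, hle, fun t ht h0 => h ⟨t, ht, h0⟩⟩
    | succ j ih =>
      intro hj η hη hle
      obtain ⟨t1, ht1, h1⟩ := ih (by omega) η hη hle
      obtain ⟨t2, ht2, h2⟩ := ih (by omega) ((t1 - b) / 2) (by linarith [ht1.1])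
        (by linarith [ht1.1, ht1.2])
      have h21 : t2 < t1 := by linarith [ht2.2, ht1.1]
      have hsub : Icc t2 t1 ⊆ Icc b b' := Icc_subset_Icc ht2.1.le (ht1.2.trans hle)
      have hc : ContinuousOn (D j) (Icc t2 t1) :=
        (e6_cont (by omega) hD j (by omega)).mono hsub
      obtain ⟨x, hx, hx0⟩ := exists_hasDerivAt_eq_zero (f := D j) (f' := D (j + 1)) h21 hc
        (by rw [h1, h2]) (fun x hx => (hD.hasDeriv j (by omega) x
          (hsub ⟨hx.1.le, hx.2.le⟩)).hasDerivAt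
            (Icc_mem_nhds (lt_of_lt_of_le ht2.1 hx.1.le)
              (lt_of_lt_of_le hx.2 (ht1.2.trans hle))))
      exact ⟨x, ⟨ht2.1.trans hx.1, hx.2.le.trans ht1.2⟩, hx0⟩
  apply hne
  have hc : ContinuousWithinAt (D j₀) (Icc b b') b :=
    e6_cont (by omega) hD j₀ hj₀ b ⟨le_rfl, hb.le⟩
  by_contra hne'
  rw [Metric.continuousWithinAt_iff] at hc
  obtain ⟨δ, hδ, hd⟩ := hc |D j₀ b| (abs_pos.2 hne')
  obtain ⟨t, ht, h0⟩ := key j₀ hj₀ (min (δ / 2) (b' - b)) (lt_min (by linarith) (by linarith))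
    (by linarith [min_le_right (δ / 2) (b' - b)])
  have h1 : t ≤ b' := by linarith [ht.2, min_le_right (δ / 2) (b' - b)]
  have h2 : dist t b < δ := by
    rw [Real.dist_eq, abs_of_pos (by linarith [ht.1])]
    linarith [ht.2, min_le_left (δ / 2) (b' - b)]
  have h3 := hd ⟨ht.1.le, h1⟩ h2
  rw [h0, Real.dist_eq, zero_sub, abs_neg] at h3
  exact lt_irrefl _ h3

/-- maximal interval of constancy -/
theorem e6_sup {w : ℝ → ℝ} {L : ℝ} (_hL : 0 < L) (hw : ContinuousOn w (Icc 0 L))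
    (hnc : ¬ ∀ t ∈ Icc 0 L, w t = w 0) :
    ∃ b, 0 ≤ b ∧ b < L ∧ (∀ t ∈ Icc 0 b, w t = w 0) ∧
      ∀ η > 0, b + η ≤ L → ¬ ∀ t ∈ Icc b (b + η), w t = w b := by
  set A : Set ℝ := {t | t ∈ Icc 0 L ∧ w t ≠ w 0} with hA
  have hAne : A.Nonempty := by
    by_contra h
    apply hnc
    intro t ht
    by_contra h'
    exact h ⟨t, ht, h'⟩
  have hbdd : BddBelow A := ⟨0, fun t ht => ht.1.1⟩
  have hb0 : 0 ≤ sInf A := le_csInf hAne fun t ht => ht.1.1
  have hbL : sInf A ≤ L := by
    obtain ⟨t, ht⟩ := hAne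
    exact (csInf_le hbdd ht).trans ht.1.2
  have hlt : ∀ t, 0 ≤ t → t < sInf A → w t = w 0 := by
    intro t h0 h1
    by_contra h'
    exact absurd (csInf_le hbdd (a := t) ⟨⟨h0, h1.le.trans hbL⟩, h'⟩) (not_le.2 h1)
  have hb : w (sInf A) = w 0 := by
    rcases hb0.eq_or_lt with h | h
    · rw [← h]
    · have hcl : sInf A ∈ closure (Ico 0 (sInf A)) := by
        rw [closure_Ico h.ne]
        exact ⟨hb0, le_rfl⟩
      have hcw : ContinuousWithinAt w (Ico 0 (sInf A)) (sInf A) :=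
        (hw (sInf A) ⟨hb0, hbL⟩).mono fun x hx => ⟨hx.1, hx.2.le.trans hbL⟩
      have : (nhdsWithin (sInf A) (Ico 0 (sInf A))).NeBot := mem_closure_iff_nhdsWithin_neBot.1 hcl
      have h1 : Filter.Tendsto w (nhdsWithin (sInf A) (Ico 0 (sInf A))) (nhds (w 0)) := by
        refine tendsto_const_nhds.congr' ?_
        filter_upwards [self_mem_nhdsWithin] with x hx
        exact (hlt x hx.1 hx.2).symm
      exact tendsto_nhds_unique hcw h1
  have hle : ∀ t ∈ Icc 0 (sInf A), w t = w 0 := by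
    intro t ht
    rcases ht.2.eq_or_lt with h | h
    · rw [h, hb]
    · exact hlt t ht.1 h
  have hno : ∀ η > 0, sInf A + η ≤ L → ¬ ∀ t ∈ Icc (sInf A) (sInf A + η), w t = w (sInf A) := by
    intro η hη _ hc
    have h1 : sInf A + η ≤ sInf A := by
      refine le_csInf hAne fun t ht => ?_
      by_contra h'
      rw [not_le] at h'
      apply ht.2
      rcases le_total t (sInf A) with h2 | h2
      · exact hle t ⟨ht.1.1, h2⟩
      · rw [hc t ⟨h2, h'.le⟩, hb]
    linarith
  refine ⟨sInf A, hb0, ?_, hle, hno⟩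
  rcases hbL.eq_or_lt with h | h
  · exfalso
    rw [h] at hle
    exact hnc hle
  · exact h

/-- at a contact point of the mean the functions agree -/
theorem e6_contact {a b : ℝ} (ha : |a| ≤ 1) (hb : |b| ≤ 1) (h : |(a + b) / 2| = 1) : a = b := by
  rw [abs_le] at ha hb
  rcases abs_cases ((a + b) / 2) with h1 | h1 <;> linarith [ha.1, ha.2, hb.1, hb.2, h1.1]

/-- difference of two elements of the class -/
theorem e6_diff {n : ℕ} {S : Set ℝ} {F1 F2 : ℕ → ℝ → ℝ} (h1 : InW n S F1) (h2 : InW n S F2) :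
    IsJet n 2 S (fun j t => F1 j t - F2 j t) := by
  have h := jet_comb (a₁ := 1) (a₂ := -1) h1.jet h2.jet
  have e1 : (|(1 : ℝ)| * 1 + |(-1 : ℝ)| * 1) = 2 := by
    rw [abs_neg, abs_one]; norm_num
  rw [e1] at h
  have e2 : (fun (j : ℕ) (t : ℝ) => (1 : ℝ) * F1 j t + (-1) * F2 j t) =
      fun j t => F1 j t - F2 j t := by
    funext j t; ring
  rw [e2] at h
  exact h

/-- the mean of two elements of the class -/
theorem e6_mean {n : ℕ} {S : Set ℝ} {F1 F2 : ℕ → ℝ → ℝ} (h1 : InW n S F1) (h2 : InW n S F2) :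
    InW n S (fun j t => (F1 j t + F2 j t) / 2) := by
  have h := jet_comb (a₁ := 1 / 2) (a₂ := 1 / 2) h1.jet h2.jet
  have e1 : (|(1 / 2 : ℝ)| * 1 + |(1 / 2 : ℝ)| * 1) = 1 := by
    rw [abs_of_pos (by norm_num : (0 : ℝ) < 1 / 2)]; norm_num
  rw [e1] at h
  have e2 : (fun (j : ℕ) (t : ℝ) => (1 / 2 : ℝ) * F1 j t + (1 / 2) * F2 j t) =
      fun j t => (F1 j t + F2 j t) / 2 := by
    funext j t; ring
  rw [e2] at h
  refine ⟨h, fun t ht => ?_⟩
  have a1 := abs_le.1 (h1.bdd t ht)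
  have a2 := abs_le.1 (h2.bdd t ht)
  rw [abs_le]
  constructor <;> linarith [a1.1, a1.2, a2.1, a2.2]

/-- the improvement when the difference is not flat at `0` and not polynomial beyond `b` -/
theorem e6_improve {n k : ℕ} (hk : 1 ≤ k) (hkn : k < n) {S : Set ℝ} (hS : IsDom S)
    {F1 F2 : ℕ → ℝ → ℝ} (h1 : InW n S F1) (h2 : InW n S F2) {b b' : ℝ} (hb0 : 0 ≤ b)
    (hbb : b < b') (hb' : Icc 0 b' ⊆ S)
    (hconst : ∀ t ∈ Icc 0 b, F1 (n - 1) t - F2 (n - 1) t = F1 (n - 1) 0 - F2 (n - 1) 0)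
    (hnc : ∀ η > 0, b + η ≤ b' → ¬ ∀ t ∈ Icc b (b + η),
      F1 (n - 1) t - F2 (n - 1) t = F1 (n - 1) b - F2 (n - 1) b)
    {j₀ : ℕ} (hj₀ : j₀ < n) (hne : F1 j₀ 0 - F2 j₀ 0 ≠ 0)
    (s : ℝ) (hs : s = 1 ∨ s = -1) :
    ∃ F, InW n S F ∧ s * ((F1 k 0 + F2 k 0) / 2) < s * F k 0 := by
  have hD := e6_diff h1 h2
  have hpoly := e6_poly hD (b := b) (fun x hx => hb' ⟨hx.1, hx.2.trans hbb.le⟩) hconst
  obtain ⟨Z, hZc, hZ⟩ := e6_card (n := n) (p := fun i => F1 i 0 - F2 i 0) hj₀ hne
  -- the jet at b is not zero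
  have hbne : ∃ j, j < n ∧ F1 j b - F2 j b ≠ 0 := by
    by_contra hcon
    have hall : ∀ j, j < n → F1 j b - F2 j b = 0 := by
      intro j hj
      by_contra h
      exact hcon ⟨j, hj, h⟩
    -- all Taylor values vanish at `b`
    have hv : ∀ j, j < n → tay n (fun i => F1 i 0 - F2 i 0) j b = 0 := by
      intro j hj
      rw [← hpoly (n - 1 - j) j hj rfl b ⟨hb0, le_rfl⟩]
      exact hall j hj
    -- downward induction: the coefficients vanish
    have hcoef : ∀ i j, j < n → n - 1 - j = i → F1 j 0 - F2 j 0 = 0 := by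
      intro i
      induction i using Nat.strong_induction_on with
      | _ i ih =>
        intro j hj hi
        have h3 := hv j hj
        unfold tay at h3
        rw [show n - j = (n - j - 1) + 1 by omega, Finset.sum_range_succ'] at h3
        rw [Finset.sum_eq_zero] at h3
        · simpa using h3
        · intro m hm
          rw [Finset.mem_range] at hm
          have h4 := ih (n - 1 - (j + (m + 1))) (by omega) (j + (m + 1)) (by omega) rfl
          simp only
          rw [h4]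
          ring
    exact hne (hcoef (n - 1 - j₀) j₀ hj₀ rfl)
  obtain ⟨j₁, hj₁, hne₁⟩ := hbne
  obtain ⟨η, hη, hηb, hgap⟩ := e6_gap hbb
    (jet_mono hD (S' := Icc b b') (fun x hx => hb' ⟨hb0.trans hx.1, hx.2⟩)) hj₁ hne₁
  refine improve hk hkn hS h1 h2 hb0 hη (hb' ⟨by linarith, hηb⟩) hconst (hnc η hη hηb) Z hZc ?_ s hs
  intro t ht habs
  have htS : t ∈ S := hb' ⟨ht.1, ht.2.trans hηb⟩
  have hct := e6_contact (h1.bdd t htS) (h2.bdd t htS) habs
  have htb : t ≤ b := by
    by_contra h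
    rw [not_le] at h
    exact hgap t ⟨h, ht.2⟩ (sub_eq_zero.2 hct)
  refine ⟨hZ t ?_, htb⟩
  rw [← hpoly (n - 1 - 0) 0 (by omega) rfl t ⟨ht.1, htb⟩]
  exact sub_eq_zero.2 hct

/-- a finite set has no points just to the right of `b` -/
theorem e6_fin {K : Set ℝ} (hK : K.Finite) {b c : ℝ} (hbc : b < c) :
    ∃ η > 0, b + η ≤ c ∧ ∀ t ∈ Ioc b (b + η), t ∉ K := by
  classical
  have hopen : IsOpen (K \ {b})ᶜ := (hK.subset sdiff_subset).isClosed.isOpen_compl
  obtain ⟨δ, hδ, hball⟩ := Metric.isOpen_iff.1 hopen b (by simp)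
  refine ⟨min (δ / 2) (c - b), lt_min (by linarith) (by linarith),
    by linarith [min_le_right (δ / 2) (c - b)], ?_⟩
  intro t ht hmem
  have h1 : t ∈ Metric.ball b δ := by
    rw [Metric.mem_ball, Real.dist_eq, abs_of_pos (by linarith [ht.1])]
    linarith [ht.2, min_le_left (δ / 2) (c - b)]
  exact hball h1 ⟨hmem, fun h => by
    rw [mem_singleton_iff] at h
    linarith [ht.1]⟩

theorem fin_unique {n k : ℕ} (hk : 1 ≤ k) (hkn : k < n) {L : ℝ} (hL : 0 < L) {T f : ℕ → ℝ → ℝ}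
    (hT : InW n (Icc 0 L) T)
    (hext : ∀ G, InW n (Icc 0 L) G → (-1) ^ k * G k 0 ≤ (-1) ^ k * T k 0)
    {c : ℝ} (hc : 0 < c) (hcL : c ≤ L)
    (hfin : {t ∈ Icc 0 c | |T 0 t| = 1}.Finite)
    (Z : Finset ℝ) (hZ : Z.card < n) (hZc : ∀ t ∈ Ico 0 c, |T 0 t| = 1 → t ∈ Z)
    (hf : InW n (Icc 0 L) f) (hfk : f k 0 = T k 0) :
    ∀ t ∈ Icc 0 c, f 0 t = T 0 t := by
  have hs : ((-1 : ℝ) ^ k = 1) ∨ ((-1 : ℝ) ^ k = -1) := neg_one_pow_eq_or ℝ k
  have hmean : (-1 : ℝ) ^ k * ((T k 0 + f k 0) / 2) = (-1) ^ k * T k 0 := by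
    rw [hfk]; ring
  have hD := e6_diff hT hf
  have hno : ∀ F, InW n (Icc 0 L) F →
      ¬ (-1 : ℝ) ^ k * ((T k 0 + f k 0) / 2) < (-1) ^ k * F k 0 := by
    intro F hF hlt
    rw [hmean] at hlt
    exact absurd (hext F hF) (not_le.2 hlt)
  by_cases hp : ∃ j, j < n ∧ T j 0 - f j 0 ≠ 0
  · exfalso
    obtain ⟨j₀, hj₀, hne⟩ := hp
    by_cases hall : ∀ t ∈ Icc 0 L, T (n - 1) t - f (n - 1) t = T (n - 1) 0 - f (n - 1) 0
    · have hpoly := e6_poly hD (b := L) subset_rfl hall
      obtain ⟨Z', hZc', hZ'⟩ := e6_card (n := n) (p := fun i => T i 0 - f i 0) hj₀ hne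
      obtain ⟨F', hF', hlt⟩ := improve_poly hk hkn hL (e6_mean hT hf) Z' hZc' (by
        intro t ht habs
        apply hZ' t
        rw [← hpoly (n - 1 - 0) 0 (by omega) rfl t ht]
        exact sub_eq_zero.2 (e6_contact (hT.bdd t ht) (hf.bdd t ht) habs)) _ hs
      exact hno F' hF' hlt
    · have hcw : ContinuousOn (fun t => T (n - 1) t - f (n - 1) t) (Icc 0 L) :=
        e6_cont (by omega) hD (n - 1) (by omega)
      obtain ⟨b, hb0, hbL, hc1, hc2⟩ := e6_sup hL hcw hall
      obtain ⟨F, hF, hlt⟩ := e6_improve hk hkn (Or.inr ⟨L, hL, rfl⟩) hT hf hb0 hbL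
        subset_rfl hc1 hc2 hj₀ hne _ hs
      exact hno F hF hlt
  · have hp0 : ∀ j, j < n → T j 0 - f j 0 = 0 := by
      intro j hj
      by_contra h
      exact hp ⟨j, hj, h⟩
    -- on an interval `[0,b]` of constancy the functions agree
    have hagree : ∀ b, b ≤ L → (∀ t ∈ Icc 0 b, T (n - 1) t - f (n - 1) t =
        T (n - 1) 0 - f (n - 1) 0) → ∀ t ∈ Icc 0 b, f 0 t = T 0 t := by
      intro b hbL hcb t ht
      have h1 := e6_poly hD (b := b) (Icc_subset_Icc_right hbL) hcb (n - 1 - 0) 0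
        (by omega) rfl t ht
      have h2 : tay n (fun i => T i 0 - f i 0) 0 t = 0 := by
        unfold tay
        refine Finset.sum_eq_zero fun i hi => ?_
        rw [Finset.mem_range] at hi
        have h3 := hp0 (0 + i) (by omega)
        simp only
        rw [h3]
        ring
      rw [h2] at h1
      linarith
    by_cases hall : ∀ t ∈ Icc 0 L, T (n - 1) t - f (n - 1) t = T (n - 1) 0 - f (n - 1) 0
    · intro t ht
      exact hagree L le_rfl hall t ⟨ht.1, ht.2.trans hcL⟩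
    · have hcw : ContinuousOn (fun t => T (n - 1) t - f (n - 1) t) (Icc 0 L) :=
        e6_cont (by omega) hD (n - 1) (by omega)
      obtain ⟨b, hb0, hbL, hc1, hc2⟩ := e6_sup hL hcw hall
      rcases le_or_gt c b with hcb | hbc
      · intro t ht
        exact hagree b hbL.le hc1 t ⟨ht.1, ht.2.trans hcb⟩
      · exfalso
        obtain ⟨η, hη, hηc, hK⟩ := e6_fin hfin hbc
        have hcon : ∀ t ∈ Icc 0 (b + η), |(T 0 t + f 0 t) / 2| = 1 → t ∈ Z ∧ t ≤ b := by
          intro t ht habs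
          have htL : t ∈ Icc 0 L := ⟨ht.1, ht.2.trans (hηc.trans hcL)⟩
          have hct := e6_contact (hT.bdd t htL) (hf.bdd t htL) habs
          have hT1 : |T 0 t| = 1 := by
            rw [← hct] at habs
            rwa [add_self_div_two] at habs
          have htb : t ≤ b := by
            by_contra h
            rw [not_le] at h
            exact hK t ⟨h, ht.2⟩ ⟨⟨ht.1, ht.2.trans hηc⟩, hT1⟩
          exact ⟨hZc t ⟨ht.1, lt_of_le_of_lt htb hbc⟩ hT1, htb⟩
        obtain ⟨F, hF, hlt⟩ := improve hk hkn (Or.inr ⟨L, hL, rfl⟩) hT hf hb0 hη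
          ⟨by linarith, hηc.trans hcL⟩ hc1 (hc2 η hη (hηc.trans hcL)) Z hZ hcon _ hs
        exact hno F hF hlt

end Pool.Agent.LKI
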