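import Pool.Agent.LKI.B1

/-!
E7: the contact set of a perfect spline is finite.

PROOF.  `[0, ξ (P+1)]` is the union of the `P + 1` intervals `[ξ i, ξ (i+1)]`.  On such an interval (if
`ξ i < ξ (i+1)`; otherwise it is a point) `T (n-1)` is affine with slope `δ = ± 1`, so by downward induction
`T j t = tay n y j (t - ξ i) + δ (t - ξ i)^(n-j) / (n-j)!` with `y j = T j (ξ i)` (`j < n`), i.e. `T 0` is a polynomial of
degree exactly `n ≥ 1`; `T 0 = 1` and `T 0 = -1` have at most `n` solutions each.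
-/

open Set

namespace Pool.Agent.LKI

/-- a Rolle step: if the zeros of `g'` are finitely many, then so are the solutions of `g = c` -/
private theorem finite_step {g g' : ℝ → ℝ} {a b : ℝ}
    (hR : ∀ s ∈ Icc a b, ∀ t ∈ Icc a b, s < t → g s = g t → ∃ z ∈ Ioo s t, g' z = 0)
    (hf : {t ∈ Icc a b | g' t = 0}.Finite) (c : ℝ) : {t ∈ Icc a b | g t = c}.Finite := by
  classical
  have hlt : ∀ s ∈ {t ∈ Icc a b | g t = c}, ∀ t ∈ {t ∈ Icc a b | g t = c}, s < t →
      (hf.toFinset.filter (· < s)).card < (hf.toFinset.filter (· < t)).card := by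
    intro s hs t ht hst
    obtain ⟨z, hz, hz0⟩ := hR s hs.1 t ht.1 hst (hs.2.trans ht.2.symm)
    refine Finset.card_lt_card ⟨fun x hx => ?_, fun hsub => ?_⟩
    · rw [Finset.mem_filter] at hx ⊢
      exact ⟨hx.1, hx.2.trans hst⟩
    · have hzm : z ∈ hf.toFinset.filter (· < t) := by
        rw [Finset.mem_filter, Set.Finite.mem_toFinset]
        exact ⟨⟨⟨hs.1.1.trans hz.1.le, hz.2.le.trans ht.1.2⟩, hz0⟩, hz.2⟩
      have := (Finset.mem_filter.1 (hsub hzm)).2
      exact absurd this (not_lt.2 hz.1.le)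
  refine Set.Finite.of_finite_image (f := fun s => (hf.toFinset.filter (· < s)).card)
    ((Finset.range (hf.toFinset.card + 1)).finite_toSet.subset ?_) ?_
  · rintro _ ⟨s, _, rfl⟩
    rw [Finset.mem_coe, Finset.mem_range]
    exact Nat.lt_succ_of_le (Finset.card_filter_le _ _)
  · intro s hs t ht hst
    rcases lt_trichotomy s t with h | h | h
    · exact absurd hst (ne_of_lt (hlt s hs t ht h))
    · exact h
    · exact absurd hst (ne_of_gt (hlt t ht s hs h))

/-- The contact set of a perfect spline in `[0, ξ (P+1)]` is finite: on every piece `T 0` is a polynomial of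
degree exactly `n`. -/
theorem KSpline.finite_contact {n : ℕ} (hn : 1 ≤ n) {L : ℝ} {T : ℕ → ℝ → ℝ} {P : ℕ} {ξ τ : ℕ → ℝ}
    (hT : KSpline n L T P ξ τ) : {t ∈ Icc 0 (ξ (P + 1)) | |T 0 t| = 1}.Finite := by
  have hξ0 : ∀ i, i ≤ P + 1 → 0 ≤ ξ i := by
    intro i
    induction i with
    | zero => intro _; rw [hT.ξ0]
    | succ i ih => intro hi; exact (ih (by omega)).trans (hT.ξmono i (by omega))
  have hξL : ∀ k, k ≤ P + 1 → ξ (P + 1 - k) ≤ L := by
    intro k
    induction k with
    | zero => intro _; exact hT.ξlast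
    | succ k ih =>
      intro hk
      have h1 := hT.ξmono (P + 1 - (k + 1)) (by omega)
      have h2 : P + 1 - (k + 1) + 1 = P + 1 - k := by omega
      rw [h2] at h1
      exact h1.trans (ih (by omega))
  have hcover : ∀ t, 0 ≤ t → ∀ p, p ≤ P → t ≤ ξ (p + 1) →
      ∃ i, i ≤ p ∧ t ∈ Icc (ξ i) (ξ (i + 1)) := by
    intro t ht p
    induction p with
    | zero => intro _ h1; exact ⟨0, le_rfl, by rw [hT.ξ0]; exact ht, h1⟩
    | succ p ih =>
      intro hp h1
      rcases le_total (ξ (p + 1)) t with h2 | h2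
      · exact ⟨p + 1, le_rfl, h2, h1⟩
      · obtain ⟨i, hi, h3⟩ := ih (by omega) h2
        exact ⟨i, by omega, h3⟩
  -- Rolle
  have hRolle : ∀ j, j + 1 < n → ∀ s ∈ Icc 0 L, ∀ t ∈ Icc 0 L, s < t → T j s = T j t →
      ∃ z ∈ Ioo s t, T (j + 1) z = 0 := by
    intro j hj s hs t ht hst heq
    have hsub : Icc s t ⊆ Icc 0 L := Icc_subset_Icc hs.1 ht.2
    refine exists_hasDerivAt_eq_zero hst (fun x hx => ?_) heq (fun x hx => ?_)
    · exact ((hT.inW.jet.hasDeriv j hj x (hsub hx)).continuousWithinAt).mono hsub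
    · exact (hT.inW.jet.hasDeriv j hj x (hsub ⟨hx.1.le, hx.2.le⟩)).hasDerivAt
        (Icc_mem_nhds (hs.1.trans_lt hx.1) (hx.2.trans_le ht.2))
  -- the pieces
  have hpiece : ∀ i, i ≤ P → ∀ k, k + 1 ≤ n → ∀ c : ℝ,
      {t ∈ Icc (ξ i) (ξ (i + 1)) | T (n - 1 - k) t = c}.Finite := by
    intro i hi k
    have hsub : Icc (ξ i) (ξ (i + 1)) ⊆ Icc 0 L := by
      refine Icc_subset_Icc (hξ0 i (by omega)) ?_
      have h1 := hξL (P + 1 - (i + 1)) (by omega)
      have h2 : P + 1 - (P + 1 - (i + 1)) = i + 1 := by omega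
      rwa [h2] at h1
    induction k with
    | zero =>
      intro _ c
      refine Set.Subsingleton.finite fun s hs t ht => ?_
      have h1 := hT.slope i hi s hs.1 t ht.1
      rw [Nat.sub_zero] at hs ht
      rw [hs.2, ht.2, sub_self] at h1
      rcases mul_eq_zero.1 h1.symm with h2 | h2
      · exact absurd h2 (pow_ne_zero _ (by norm_num))
      · linarith
    | succ k ih =>
      intro hk c
      have h1 : n - 1 - (k + 1) + 1 = n - 1 - k := by omega
      refine finite_step (g' := T (n - 1 - k)) ?_ (ih (by omega) 0) c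
      intro s hs t ht hst heq
      have h2 := hRolle (n - 1 - (k + 1)) (by omega) s (hsub hs) t (hsub ht) hst heq
      rwa [h1] at h2
  have hfin : (⋃ i ∈ Finset.range (P + 1),
      ({t ∈ Icc (ξ i) (ξ (i + 1)) | T 0 t = 1} ∪
        {t ∈ Icc (ξ i) (ξ (i + 1)) | T 0 t = -1})).Finite := by
    refine Set.Finite.biUnion (Finset.range (P + 1)).finite_toSet fun i hi => ?_
    have hi' : i ≤ P := by
      have := Finset.mem_range.1 hi
      omega
    have h1 := hpiece i hi' (n - 1) (by omega)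
    have h2 : n - 1 - (n - 1) = 0 := by omega
    rw [h2] at h1
    exact (h1 1).union (h1 (-1))
  refine hfin.subset ?_
  rintro t ⟨ht, habs⟩
  obtain ⟨i, hi, hti⟩ := hcover t ht.1 P le_rfl ht.2
  refine Set.mem_biUnion (show i ∈ ((Finset.range (P + 1) : Finset ℕ) : Set ℕ) from
    Finset.mem_coe.2 (Finset.mem_range.2 (by omega))) ?_
  rcases eq_or_eq_neg_of_abs_eq habs with h | h
  · exact Or.inl ⟨hti, h⟩
  · exact Or.inr ⟨hti, h⟩

end Pool.Agent.LKI
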