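import Pool.Agent.LKI.F3
import Pool.Agent.LKI.B3
import Pool.Agent.LKI.E6
import Pool.Agent.LKI.E7

/-!
F4: the theorem on `[0, L]` for long intervals.

PROOF of `large_L`.  Let `T∞` be given by `exists_half` and `exists_KSpline`.  Suppose the claim fails.  Then for every
`i ∈ ℕ` there are `L i ≥ i + 2`, a perfect spline `T_i` on `[0, L i]`, `k_i` with `1 ≤ k_i < n`, `G i` in the class on
`[0, L i]` and `x i ∈ (0, L i)` with `|G i k_i (x i)| ≥ (-1)^k_i T_i k_i 0`.  Replacing `G i` by its reflection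
(`inW_refl`) and `x i` by `L i - x i` if necessary, `x i ≤ L i / 2`.  Along `U`, `k_i = k` is constant
(`exists_const`).  The restriction of `T∞` to `[0, L i]` is in the class, so by `KSpline.extremal`
`(-1)^k T∞ k 0 ≤ (-1)^k T_i k 0 ≤ |G i k (x i)|`, and `|G i k 0| ≤ (-1)^k T_i k 0 ≤ |G i k (x i)|`.
If `x i` does not tend to `0` along `U`, there is `a > 0` with `x i ≥ a` for almost all `i` (ultrafilter), and
`far_case` applies.  So `x i → 0`.  If `k + 1 < n`: `near_case`.  If `k = n - 1`: let `B` be the bound of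
`W_bound`; `E' = (-1)^k T_i k 0 ≤ B`; `top_case` (`S = [0, L i]`, by `KSpline.extremal`) for `x i ≤ δ`:
`|G i k (x i)| < E'`, contradiction.
-/

open Set Filter Topology

namespace Pool.Agent.LKI

private theorem nth_smallest (Q : Finset ℝ) {n : ℕ} (hn : 1 ≤ n) (hQ : n ≤ Q.card) :
    ∃ c ∈ Q, (Q.filter (fun t => t ≤ c)).card = n := by
  let e := Q.orderEmbOfFin rfl
  let i : Fin Q.card := ⟨n - 1, by omega⟩
  refine ⟨e i, Finset.orderEmbOfFin_mem Q rfl i, ?_⟩
  have h1 : Q.filter (fun t => t ≤ e i) = (Finset.Iic i).map e.toEmbedding := by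
    ext t
    simp only [Finset.mem_filter, Finset.mem_map, Finset.mem_Iic]
    constructor
    · rintro ⟨ht, hti⟩
      have : t ∈ Set.range (Q.orderEmbOfFin rfl) := by
        rw [Finset.range_orderEmbOfFin]; exact ht
      obtain ⟨j, hj⟩ := this
      refine ⟨j, ?_, hj⟩
      have : e j ≤ e i := by
        have : e j = t := hj
        rw [this]; exact hti
      exact e.le_iff_le.1 this
    · rintro ⟨j, hj, hjt⟩
      have hjt' : e j = t := hjt
      refine ⟨?_, ?_⟩
      · rw [← hjt']; exact Finset.orderEmbOfFin_mem Q rfl j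
      · rw [← hjt']; exact e.le_iff_le.2 hj
  rw [h1, Finset.card_map, Fin.card_Iic]
  simp only [i]
  omega

private theorem sgn_abs (k : ℕ) (a : ℝ) : |(-1) ^ k * a| = |a| := by
  rw [abs_mul, abs_pow, abs_neg, abs_one, one_pow, one_mul]

theorem large_L {n : ℕ} (hn : 2 ≤ n) : ∃ L₀ > 0, ∀ L : ℝ, L₀ ≤ L →
    ∀ (T : ℕ → ℝ → ℝ) (P : ℕ) (ξ τ : ℕ → ℝ), KSpline n L T P ξ τ →
    ∀ k, 1 ≤ k → k < n → ∀ G, InW n (Icc 0 L) G → ∀ x ∈ Ioo 0 L,
      |G k x| < (-1) ^ k * T k 0 := by
  by_contra hcon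
  -- one counterexample for every `i`, with `x ≤ L / 2`
  have key : ∀ i : ℕ, ∃ (L : ℝ) (T : ℕ → ℝ → ℝ) (k : ℕ) (G : ℕ → ℝ → ℝ) (x : ℝ),
      (i : ℝ) + 2 ≤ L ∧ InW n (Icc 0 L) T ∧
      (∀ F, InW n (Icc 0 L) F → ∀ j, j < n → |F j 0| ≤ (-1) ^ j * T j 0) ∧
      1 ≤ k ∧ k < n ∧ InW n (Icc 0 L) G ∧ 0 < x ∧ x ≤ L / 2 ∧
      (-1) ^ k * T k 0 ≤ |G k x| := by
    intro i
    by_contra hno
    apply hcon
    refine ⟨(i : ℝ) + 2, by positivity, ?_⟩
    intro L hL T P ξ τ hT k hk hkn G hG x hx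
    by_contra hlt
    have hlt' : (-1) ^ k * T k 0 ≤ |G k x| := not_lt.1 hlt
    apply hno
    rcases le_total x (L / 2) with hxl | hxl
    · exact ⟨L, T, k, G, x, hL, hT.inW, fun F hF j hj => hT.extremal hn hF j hj, hk, hkn, hG,
        hx.1, hxl, hlt'⟩
    · refine ⟨L, T, k, _, L - x, hL, hT.inW, fun F hF j hj => hT.extremal hn hF j hj, hk, hkn,
        inW_refl hG, by linarith [hx.2], by linarith, ?_⟩
      simp only [sub_sub_cancel]
      rw [sgn_abs]
      exact hlt'
  choose L T k G x hL hT hext hk1 hkn hG hx0 hx2 hbig using key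
  obtain ⟨Th, hTh⟩ := exists_half hn (fun L hL => exists_KSpline hn hL)
  have hUa : (U : Filter ℕ) ≤ atTop := by
    rw [← Nat.cofinite_eq_atTop]
    exact hyperfilter_le_cofinite
  have hLt : Tendsto L U atTop := by
    have h1 : Tendsto (fun i : ℕ => (i : ℝ)) U atTop := tendsto_natCast_atTop_atTop.mono_left hUa
    exact tendsto_atTop_mono (fun i => by linarith [hL i]) h1
  obtain ⟨κ, hκ⟩ := exists_const (P := k) (b := n) (Eventually.of_forall (fun i => (hkn i).le))
  have hκ1 : 1 ≤ κ ∧ κ < n := by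
    obtain ⟨i, hi⟩ := hκ.exists
    rw [← hi]
    exact ⟨hk1 i, hkn i⟩
  have hcomp : ∀ i, ∀ j, j < n → (-1) ^ j * Th j 0 ≤ (-1) ^ j * T i j 0 := by
    intro i j hj
    have h1 : InW n (Icc 0 (L i)) Th := hTh.inW.mono (fun t ht => ht.1)
    have h2 := hext i Th h1 j hj
    have h3 := le_abs_self ((-1) ^ j * Th j 0)
    rw [sgn_abs] at h3
    exact h3.trans h2
  have hbig' : ∀ᶠ i in U, (-1) ^ κ * Th κ 0 ≤ |G i κ (x i)| := by
    filter_upwards [hκ] with i hi
    have h1 := hbig i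
    rw [hi] at h1
    exact (hcomp i κ hκ1.2).trans h1
  have hle' : ∀ᶠ i in U, |G i κ 0| ≤ |G i κ (x i)| := by
    filter_upwards [hκ] with i hi
    have h1 := hbig i
    rw [hi] at h1
    exact (hext i (G i) (hG i) κ hκ1.2).trans h1
  by_cases hx : Tendsto x U (𝓝 0)
  · rcases Nat.lt_or_ge (κ + 1) n with hκn | hκn
    · exact near_case hκ1.1 hκn hTh hLt hG hx0 hx hbig' hle'
    · have hκe : κ = n - 1 := by omega
      obtain ⟨B, hB1, hB, -⟩ := W_bound n (by omega)
      obtain ⟨δ, hδ, htop⟩ := top_case hn hB1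
      have hev : ∀ᶠ i in U, x i ≤ δ := hx.eventually (Iic_mem_nhds hδ)
      obtain ⟨i, hi1, hi2⟩ := (hκ.and hev).exists
      have hL1 : (1 : ℝ) ≤ L i := by
        have : (0 : ℝ) ≤ (i : ℝ) := Nat.cast_nonneg i
        linarith [hL i]
      have hE : (-1) ^ κ * T i κ 0 ≤ B := by
        have h1 := le_abs_self ((-1) ^ κ * T i κ 0)
        rw [sgn_abs] at h1
        exact h1.trans (hB (L i) hL1 (T i) (hT i) κ hκ1.2 0 ⟨le_rfl, by linarith⟩)
      have h2 := htop (Icc 0 (L i)) ((-1) ^ κ * T i κ 0) (Or.inr ⟨L i, by linarith, rfl⟩) hE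
        (fun F hF => by
          have := hext i F hF κ hκ1.2
          rw [hκe] at this ⊢
          exact this) (G i) (hG i) (x i) (hx0 i) hi2
        ⟨(hx0 i).le, by linarith [hx2 i]⟩
      rw [← hκe] at h2
      have h3 := hbig i
      rw [hi1] at h3
      linarith
  · have : ∃ a > 0, ∀ᶠ i in U, a ≤ x i := by
      rw [Metric.tendsto_nhds] at hx
      push Not at hx
      obtain ⟨a, ha, h⟩ := hx
      refine ⟨a, ha, ?_⟩
      filter_upwards [h] with i hi
      rw [Real.dist_eq, sub_zero, abs_of_pos (hx0 i)] at hi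
      exact hi
    obtain ⟨a, ha, hax⟩ := this
    refine far_case hκ1.1 hκ1.2 hTh hLt hG ha ?_ hbig'
    filter_upwards [hax] with i hi
    exact ⟨hi, hx2 i⟩

/-- Description of the extremal functions at the end point, for every `L`: there is `c > 0` such that `T` has exactly
`n` contact points in `[0, c]`, `c` being one of them, and every `G` in the class with
`|G k 0| = (-1)^k T k 0` for some `1 ≤ k < n` coincides with `T` or `-T` on `[0, c]`.

PROOF.  `KSpline.finite_contact`: the contact set `Q` in `[0, ξ (P+1)]` is finite and contains the `P + n ≥ n` points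
`τ i`.  Let `c` be its `n`-th smallest element; `c > 0` since `n ≥ 2`.  With `Z` the set of the `n - 1` smallest
elements of `Q`, `fin_unique` applies to `f = s G`, `s = ±1`, `s G k 0 = T k 0` (`hext` from `KSpline.extremal`). -/
theorem end_unique {n : ℕ} (hn : 2 ≤ n) {L : ℝ} (hL : 0 < L) {T : ℕ → ℝ → ℝ} {P : ℕ}
    {ξ τ : ℕ → ℝ} (hT : KSpline n L T P ξ τ) :
    ∃ c : ℝ, 0 < c ∧ c ≤ L ∧ |T 0 c| = 1 ∧ {t ∈ Icc 0 c | |T 0 t| = 1}.ncard = n ∧
      ∀ k, 1 ≤ k → k < n → ∀ G, InW n (Icc 0 L) G → |G k 0| = (-1) ^ k * T k 0 →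
        ∃ s : ℝ, (s = 1 ∨ s = -1) ∧ ∀ t ∈ Icc 0 c, G 0 t = s * T 0 t := by
  have hfin := hT.finite_contact (by omega : 1 ≤ n)
  set Q : Finset ℝ := hfin.toFinset with hQ
  have hmemQ : ∀ t, t ∈ Q ↔ t ∈ Icc 0 (ξ (P + 1)) ∧ |T 0 t| = 1 := by
    intro t
    rw [hQ, Set.Finite.mem_toFinset]
    rfl
  have hτm : ∀ i j, i < j → j < P + n → τ i < τ j := by
    intro i j hij
    induction j with
    | zero => omega
    | succ j ih =>
      intro hj
      have h1 := hT.τmono j hj
      rcases Nat.lt_or_ge i j with h | h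
      · exact (ih h (by omega)).trans h1
      · have : i = j := by omega
        rw [this]; exact h1
  have hτ0 : ∀ i, i < P + n → 0 ≤ τ i := by
    intro i hi
    rcases Nat.eq_zero_or_pos i with h | h
    · rw [h]; exact hT.τ0
    · exact hT.τ0.trans (hτm 0 i h hi).le
  have hτl : ∀ i, i < P + n → τ i ≤ ξ (P + 1) := by
    intro i hi
    refine le_trans ?_ hT.τlast
    rcases Nat.lt_or_ge i (P + n - 1) with h | h
    · exact (hτm i _ h (by omega)).le
    · have : i = P + n - 1 := by omega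
      rw [this]
  have hcard : n ≤ Q.card := by
    have h1 : ((Finset.range (P + n)).image τ).card = P + n := by
      rw [Finset.card_image_of_injOn, Finset.card_range]
      intro i hi j hj hij
      simp only [Finset.coe_range, Set.mem_Iio] at hi hj
      rcases lt_trichotomy i j with h | h | h
      · exact absurd hij (hτm i j h hj).ne
      · exact h
      · exact absurd hij (hτm j i h hi).ne'
    have h2 : (Finset.range (P + n)).image τ ⊆ Q := by
      intro t ht
      rw [Finset.mem_image] at ht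
      obtain ⟨i, hi, rfl⟩ := ht
      rw [Finset.mem_range] at hi
      rw [hmemQ]
      refine ⟨⟨hτ0 i hi, hτl i hi⟩, ?_⟩
      rw [hT.contact i hi, abs_pow, abs_neg, abs_one, one_pow]
    have h3 := Finset.card_le_card h2
    omega
  obtain ⟨c, hcQ, hc⟩ := nth_smallest Q (by omega : 1 ≤ n) hcard
  have hcQ' := (hmemQ c).1 hcQ
  have hc0 : 0 < c := by
    rcases hcQ'.1.1.lt_or_eq with h | h
    · exact h
    · exfalso
      have h1 : Q.filter (fun t => t ≤ c) ⊆ {0} := by
        intro t ht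
        rw [Finset.mem_filter] at ht
        have h2 := ((hmemQ t).1 ht.1).1.1
        rw [Finset.mem_singleton]
        linarith [ht.2]
      have h3 := Finset.card_le_card h1
      rw [hc, Finset.card_singleton] at h3
      omega
  have hcL : c ≤ L := hcQ'.1.2.trans hT.ξlast
  have hset : {t ∈ Icc 0 c | |T 0 t| = 1} = ↑(Q.filter (fun t => t ≤ c)) := by
    ext t
    simp only [Set.mem_setOf_eq, Finset.coe_filter, hmemQ]
    constructor
    · rintro ⟨ht, h1⟩
      exact ⟨⟨⟨ht.1, ht.2.trans hcQ'.1.2⟩, h1⟩, ht.2⟩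
    · rintro ⟨⟨ht, h1⟩, h2⟩
      exact ⟨⟨ht.1, h2⟩, h1⟩
  refine ⟨c, hc0, hcL, hcQ'.2, ?_, ?_⟩
  · rw [hset, Set.ncard_coe_finset, hc]
  · intro k hk hkn G hG hGk
    have hTk : |G k 0| = |T k 0| := by
      have h1 : 0 ≤ (-1) ^ k * T k 0 := by rw [← hGk]; exact abs_nonneg _
      rw [hGk, ← abs_of_nonneg h1, sgn_abs]
    have hs : ∃ s : ℝ, (s = 1 ∨ s = -1) ∧ s * G k 0 = T k 0 := by
      rcases abs_eq_abs.1 hTk with h | h
      · exact ⟨1, Or.inl rfl, by rw [one_mul, h]⟩
      · exact ⟨-1, Or.inr rfl, by rw [h]; ring⟩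
    obtain ⟨s, hs1, hs2⟩ := hs
    have hss : s * s = 1 := by
      rcases hs1 with h | h <;> rw [h] <;> norm_num
    refine ⟨s, hs1, ?_⟩
    have hfin' : {t ∈ Icc 0 c | |T 0 t| = 1}.Finite := by
      rw [hset]; exact Finset.finite_toSet _
    have hZ : (Q.filter (fun t => t < c)).card < n := by
      rw [← hc]
      apply Finset.card_lt_card
      rw [Finset.ssubset_iff_of_subset]
      · refine ⟨c, ?_, ?_⟩
        · rw [Finset.mem_filter]; exact ⟨hcQ, le_rfl⟩
        · rw [Finset.mem_filter]; exact fun h => lt_irrefl _ h.2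
      · intro t ht
        rw [Finset.mem_filter] at ht ⊢
        exact ⟨ht.1, ht.2.le⟩
    have h := fin_unique (f := fun j t => s * G j t) hk hkn hL hT.inW
      (fun F hF => by
        have h1 := hT.extremal hn hF k hkn
        have h2 := le_abs_self ((-1) ^ k * F k 0)
        rw [sgn_abs] at h2
        exact h2.trans h1) hc0 hcL hfin' (Q.filter (fun t => t < c)) hZ
      (fun t ht h1 => by
        rw [Finset.mem_filter, hmemQ]
        exact ⟨⟨⟨ht.1, ht.2.le.trans hcQ'.1.2⟩, h1⟩, ht.2⟩)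
      (inW_neg hG hs1) hs2
    intro t ht
    have h1 := h t ht
    calc G 0 t = (s * s) * G 0 t := by rw [hss, one_mul]
      _ = s * (s * G 0 t) := by ring
      _ = s * T 0 t := by rw [h1]

end Pool.Agent.LKI
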