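import Pool.Agent.LKI.G2
import Pool.Agent.LKI.F4

/-!
G3: the final theorem.

PROOF.  `q = σ^(1/n) > 0`, `q^n = σ`, `L = 2 q`.
Existence of Zolotarev splines for every `σ > 0`: `exists_KSpline` for `L = 2q` and `kspline_to_zol`.
Let `L₀` be given by `large_L`, `σ₀ = max 1 (L₀ / 2)^n`; for `σ ≥ σ₀`, `2 q ≥ L₀`.
Let `T` be a Zolotarev spline, `TT j t = (-1/q)^j D T j (1 - t/q)` the corresponding `KSpline` (`zol_to_kspline`).
For `f ∈ Cls n σ` let `F j t = (-1/q)^j D f j (1 - t/q)` (`cls_to_W`), so for `x ∈ [-1,1]`, `t = q (1-x) ∈ [0, 2q]`: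
`|D f k x| = q^k |F k t|`, and `D T k 1 = (-q)^k TT k 0 = q^k (-1)^k TT k 0 ≥ q^k > 0` (`KSpline.ge_one`).
* `x = 1` (`t = 0`): `|D f k 1| ≤ D T k 1` (`KSpline.extremal`); `x = -1` (`t = 2 q`): apply this to `f(-x)`
  (`cls_refl`).  `x ∈ (-1, 1)`: `|D f k x| < D T k 1` (`large_L`).
So `M n k σ = D T k 1` (the set is bounded above by it and `D T k 1 = |D T k 1|` belongs to it), attained only
at the end points.
* characterisation: `end_unique` gives `c' ∈ (0, 2 q]`; put `c = 1 - c'/q`.  If `|D f k x| = M` then `x = ± 1`.  If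
  `x = 1`, `|F k 0| = (-1)^k TT k 0`, so `F 0 = s TT 0` on `[0, c']`, i.e. `f = s T` on `[c, 1]`.  If `x = -1`
  apply this to `f(-x)`.  Conversely if `f = s T` on `[c, 1]` then `D f k 1 = s D T k 1` (`D_congr`), of absolute
  value `M`; if `f(-x) = s T x` on `[c, 1]`, the same for `f(-x)`, and `|D f k (-1)| = |D (f(-·)) k 1|` (`cls_refl`).
* the contact points: `t ↦ 1 - t/q` maps the contact set of `TT 0` in `[0, c']` bijectively to that of `T` in `[c, 1]`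
  (`Set.ncard_image_of_injective`).
-/

open Set

namespace Pool.Agent.LKI

section aux

variable {n : ℕ} {σ q : ℝ}

/-- the factor `(-1/q)^k` has absolute value `(q^k)⁻¹` -/
private theorem abs_fac (hq : 0 < q) (k : ℕ) (y : ℝ) :
    |(-1 / q) ^ k * y| = (q ^ k)⁻¹ * |y| := by
  rw [abs_mul, abs_pow, abs_div, abs_neg, abs_one, abs_of_pos hq, one_div, inv_pow]

private theorem sgn_fac (k : ℕ) (y : ℝ) :
    (-1) ^ k * ((-1 / q) ^ k * y) = (q ^ k)⁻¹ * y := by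
  rw [← mul_assoc, ← mul_pow]
  congr 1
  rw [← inv_pow]
  congr 1
  ring

private theorem D_zero (f : ℝ → ℝ) (x : ℝ) : D f 0 x = f x := by
  unfold D
  rw [iteratedDerivWithin_zero]

private theorem back (hq : 0 < q) (x : ℝ) : 1 - q * (1 - x) / q = x := by
  field_simp
  ring

/-- the estimate at the right end point -/
private theorem le_right (hn : 2 ≤ n) (hq : 0 < q) (hσ : q ^ n = σ) {T : ℝ → ℝ}
    (hT : IsZolotarev n σ T) {f : ℝ → ℝ} (hf : f ∈ Cls n σ) {k : ℕ} (hk : k < n) :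
    |D f k 1| ≤ D T k 1 := by
  obtain ⟨P, ξ, τ, hK⟩ := zol_to_kspline (by omega) hq hσ hT
  have h := hK.extremal hn (cls_to_W (by omega) hq hσ hf) k hk
  simp only [zero_div, sub_zero] at h
  rw [abs_fac hq, sgn_fac] at h
  have hpos : 0 < (q ^ k)⁻¹ := by positivity
  exact le_of_mul_le_mul_left h hpos

private theorem pos_right (hn : 2 ≤ n) (hq : 0 < q) (hσ : q ^ n = σ) {T : ℝ → ℝ}
    (hT : IsZolotarev n σ T) {k : ℕ} (hk : k < n) : 0 < D T k 1 := by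
  obtain ⟨P, ξ, τ, hK⟩ := zol_to_kspline (by omega) hq hσ hT
  have h := hK.ge_one hn k hk
  simp only [zero_div, sub_zero] at h
  rw [sgn_fac] at h
  have hpos : 0 < (q ^ k)⁻¹ := by positivity
  by_contra hc
  have := mul_nonpos_of_nonneg_of_nonpos hpos.le (not_lt.mp hc)
  linarith

private theorem refl_abs (hn : 2 ≤ n) {f : ℝ → ℝ} (hf : f ∈ Cls n σ) {k : ℕ} (hk : k < n) :
    |D (fun x => f (-x)) k 1| = |D f k (-1)| := by
  rw [(cls_refl (by omega) hf).2 k hk 1 (by norm_num), abs_mul, abs_pow, abs_neg, abs_one, one_pow,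
    one_mul]

private theorem le_left (hn : 2 ≤ n) (hq : 0 < q) (hσ : q ^ n = σ) {T : ℝ → ℝ}
    (hT : IsZolotarev n σ T) {f : ℝ → ℝ} (hf : f ∈ Cls n σ) {k : ℕ} (hk : k < n) :
    |D f k (-1)| ≤ D T k 1 := by
  rw [← refl_abs hn hf hk]
  exact le_right hn hq hσ hT (cls_refl (by omega) hf).1 hk

private theorem lt_mid (hq : 0 < q) (hσ : q ^ n = σ) (hn : 2 ≤ n) {T : ℝ → ℝ}
    (hT : IsZolotarev n σ T)
    (hL : ∀ (T : ℕ → ℝ → ℝ) (P : ℕ) (ξ τ : ℕ → ℝ), KSpline n (2 * q) T P ξ τ →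
      ∀ k, 1 ≤ k → k < n → ∀ G, InW n (Icc 0 (2 * q)) G → ∀ x ∈ Ioo 0 (2 * q),
        |G k x| < (-1) ^ k * T k 0)
    {f : ℝ → ℝ} (hf : f ∈ Cls n σ) {k : ℕ} (hk1 : 1 ≤ k) (hk : k < n) {x : ℝ}
    (hx : x ∈ Ioo (-1 : ℝ) 1) : |D f k x| < D T k 1 := by
  obtain ⟨P, ξ, τ, hK⟩ := zol_to_kspline (by omega) hq hσ hT
  have h := hL _ P ξ τ hK k hk1 hk _ (cls_to_W (by omega) hq hσ hf) (q * (1 - x))
    ⟨mul_pos hq (by linarith [hx.2]), by nlinarith [hx.1]⟩
  simp only [zero_div, sub_zero] at h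
  rw [back hq, abs_fac hq, sgn_fac] at h
  have hpos : 0 < (q ^ k)⁻¹ := by positivity
  exact lt_of_mul_lt_mul_left h hpos.le

end aux

theorem main (n : ℕ) (hn : 2 ≤ n) :
    (∀ σ : ℝ, 0 < σ → ∃ T, IsZolotarev n σ T) ∧
    ∃ σ₀ : ℝ, 0 < σ₀ ∧ ∀ σ : ℝ, σ₀ ≤ σ → ∀ T, IsZolotarev n σ T →
      (∀ k, 1 ≤ k → k < n → M n k σ = D T k 1 ∧
        ∀ f ∈ Cls n σ, ∀ x ∈ Ioo (-1 : ℝ) 1, |D f k x| < M n k σ) ∧
      ∃ c : ℝ, -1 ≤ c ∧ c < 1 ∧ |T c| = 1 ∧ {x ∈ Icc c 1 | |T x| = 1}.ncard = n ∧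
        ∀ k, 1 ≤ k → k < n → ∀ f ∈ Cls n σ,
          ((∃ x ∈ Icc (-1 : ℝ) 1, |D f k x| = M n k σ) ↔
            ∃ s : ℝ, (s = 1 ∨ s = -1) ∧
              ((∀ x ∈ Icc c 1, f x = s * T x) ∨ ∀ x ∈ Icc c 1, f (-x) = s * T x)) := by
  have hroot : ∀ σ : ℝ, 0 < σ → ∃ q : ℝ, 0 < q ∧ q ^ n = σ := fun σ hσ =>
    ⟨σ ^ ((n : ℝ)⁻¹), Real.rpow_pos_of_pos hσ _, Real.rpow_inv_natCast_pow hσ.le (by omega)⟩
  refine ⟨fun σ hσ => ?_, ?_⟩
  · obtain ⟨q, hq, hqn⟩ := hroot σ hσ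
    obtain ⟨F, P, ξ, τ, hF⟩ := exists_KSpline hn (L := 2 * q) (by positivity)
    exact ⟨_, kspline_to_zol (by omega) hq hqn hF⟩
  obtain ⟨L₀, hL₀, hLL⟩ := large_L hn
  refine ⟨max 1 ((L₀ / 2) ^ n), by positivity, fun σ hσ T hT => ?_⟩
  have hσ0 : 0 < σ := lt_of_lt_of_le one_pos ((le_max_left _ _).trans hσ)
  obtain ⟨q, hq, hqn⟩ := hroot σ hσ0
  have hq2 : L₀ ≤ 2 * q := by
    have h1 : (L₀ / 2) ^ n ≤ q ^ n := by rw [hqn]; exact (le_max_right _ _).trans hσ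
    have h2 : L₀ / 2 ≤ q := le_of_pow_le_pow_left₀ (by omega) hq.le h1
    linarith
  have hL := hLL (2 * q) hq2
  have hTC : T ∈ Cls n σ := hT.1
  have hle : ∀ k, 1 ≤ k → k < n → ∀ f ∈ Cls n σ, ∀ x ∈ Icc (-1 : ℝ) 1, |D f k x| ≤ D T k 1 := by
    intro k hk1 hk f hf x hx
    rcases eq_or_lt_of_le hx.1 with h1 | h1
    · rw [← h1]; exact le_left hn hq hqn hT hf hk
    rcases eq_or_lt_of_le hx.2 with h2 | h2
    · rw [h2]; exact le_right hn hq hqn hT hf hk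
    exact (lt_mid hq hqn hn hT hL hf hk1 hk ⟨h1, h2⟩).le
  have hM : ∀ k, 1 ≤ k → k < n → M n k σ = D T k 1 := by
    intro k hk1 hk
    unfold M
    apply le_antisymm
    · refine csSup_le ?_ ?_
      · exact ⟨|D T k 1|, T, hTC, 1, by norm_num, rfl⟩
      · rintro y ⟨f, hf, x, hx, rfl⟩
        exact hle k hk1 hk f hf x hx
    · have habs : |D T k 1| = D T k 1 := abs_of_pos (pos_right hn hq hqn hT hk)
      refine le_csSup ?_ ?_
      · refine ⟨D T k 1, ?_⟩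
        rintro y ⟨f, hf, x, hx, rfl⟩
        exact hle k hk1 hk f hf x hx
      · exact ⟨T, hTC, 1, by norm_num, habs.symm⟩
  refine ⟨fun k hk1 hk => ⟨hM k hk1 hk, fun f hf x hx => ?_⟩, ?_⟩
  · rw [hM k hk1 hk]
    exact lt_mid hq hqn hn hT hL hf hk1 hk hx
  obtain ⟨P, ξ, τ, hK⟩ := zol_to_kspline (by omega) hq hqn hT
  obtain ⟨c', hc0, hcL, hc1, hcard, huni⟩ := end_unique hn (L := 2 * q) (by positivity) hK
  have hcq : c' / q ≤ 2 := by rw [div_le_iff₀ hq]; exact hcL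
  have hcq0 : 0 < c' / q := div_pos hc0 hq
  have himg : {x ∈ Icc (1 - c' / q) 1 | |T x| = 1} =
      (fun t => 1 - t / q) '' {t ∈ Icc 0 c' | |(-1 / q) ^ 0 * D T 0 (1 - t / q)| = 1} := by
    ext x
    simp only [mem_Icc, mem_image, pow_zero, one_mul, D_zero]
    constructor
    · rintro ⟨⟨h1, h2⟩, h3⟩
      have hx0 : q * (1 - x) ≤ c' := by
        have : 1 - x ≤ c' / q := by linarith
        rw [le_div_iff₀ hq] at this
        linarith
      exact ⟨q * (1 - x), ⟨⟨mul_nonneg hq.le (by linarith), hx0⟩, by rw [back hq]; exact h3⟩,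
        back hq x⟩
    · rintro ⟨t, ⟨⟨h1, h2⟩, h3⟩, rfl⟩
      refine ⟨⟨?_, ?_⟩, h3⟩
      · have := (div_le_div_iff_of_pos_right hq).mpr h2
        linarith
      · have := div_nonneg h1 hq.le
        linarith
  -- the characterisation at the right end point
  have hright : ∀ k, 1 ≤ k → k < n → ∀ f ∈ Cls n σ, |D f k 1| = D T k 1 →
      ∃ s : ℝ, (s = 1 ∨ s = -1) ∧ ∀ x ∈ Icc (1 - c' / q) 1, f x = s * T x := by
    intro k hk1 hk f hf hfe
    have h := huni k hk1 hk _ (cls_to_W (by omega) hq hqn hf) (by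
      simp only [zero_div, sub_zero]
      rw [abs_fac hq, sgn_fac, hfe])
    obtain ⟨s, hs, h⟩ := h
    refine ⟨s, hs, fun x hx => ?_⟩
    have hx0 : q * (1 - x) ≤ c' := by
      have : 1 - x ≤ c' / q := by linarith [hx.1]
      rw [le_div_iff₀ hq] at this
      linarith
    have h' := h (q * (1 - x)) ⟨mul_nonneg hq.le (by linarith [hx.2]), hx0⟩
    simpa only [back hq, pow_zero, one_mul, D_zero] using h'
  have habs1 : ∀ s : ℝ, (s = 1 ∨ s = -1) → |s| = 1 := by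
    rintro s (rfl | rfl) <;> simp
  refine ⟨1 - c' / q, by linarith, by linarith, ?_, ?_, ?_⟩
  · simpa only [pow_zero, one_mul, D_zero] using hc1
  · rw [himg, Set.ncard_image_of_injective]
    · exact hcard
    · intro a b hab
      simp only [sub_right_inj] at hab
      exact (div_left_inj' hq.ne').mp hab
  · intro k hk1 hk f hf
    rw [hM k hk1 hk]
    have hTpos := pos_right hn hq hqn hT hk
    constructor
    · rintro ⟨x, hx, hxe⟩
      rcases eq_or_lt_of_le hx.1 with h1 | h1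
      · -- `x = -1`
        rw [← h1, ← refl_abs hn hf hk] at hxe
        obtain ⟨s, hs, h⟩ := hright k hk1 hk _ (cls_refl (by omega) hf).1 hxe
        exact ⟨s, hs, Or.inr h⟩
      rcases eq_or_lt_of_le hx.2 with h2 | h2
      · rw [h2] at hxe
        obtain ⟨s, hs, h⟩ := hright k hk1 hk f hf hxe
        exact ⟨s, hs, Or.inl h⟩
      · exact absurd hxe (lt_mid hq hqn hn hT hL hf hk1 hk ⟨h1, h2⟩).ne
    · rintro ⟨s, hs, h | h⟩
      · refine ⟨1, by norm_num, ?_⟩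
        rw [D_congr (by omega) hf hTC (by linarith) (by linarith) h k hk, abs_mul, habs1 s hs,
          one_mul, abs_of_pos hTpos]
      · refine ⟨-1, by norm_num, ?_⟩
        rw [← refl_abs hn hf hk, D_congr (by omega) (cls_refl (by omega) hf).1 hTC (by linarith)
          (by linarith) h k hk, abs_mul, habs1 s hs, one_mul, abs_of_pos hTpos]

end Pool.Agent.LKI
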