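import Pool.Agent.LKI.B1

/-!
E3: cutting the difference of two jets.

(a) `cut_jet`: `cut n D s` is a jet: for `t < s` its `j`-th entry is `D j t - tay n (D · s) j (t - s)`, with derivative
the `(j+1)`-st entry; for `t > s` all entries are `0`; at `t = s` all entries `j < n` vanish
(`tay n y j 0 = y j`), and the one-sided derivatives of the `j`-th entry, `j + 1 < n`, are
`D (j+1) s - tay n (D · s) (j+1) 0 = 0` from the left and `0` from the right.  The top entry is
`D (n-1) t - D (n-1) s` for `t ≤ s` and `0` for `t ≥ s`.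
(b) `perturb_jet`: the derivative part is linear (`HasDerivWithinAt` of sums; use (a)).  Lipschitz: put
`g₁ = F1 (n-1)`, `g₂ = F2 (n-1)`, and let `H` be the top entry of the perturbed jet.  For `t ≤ t'` in `S`:
the top entry of `cut` at `s` changes between `t` and `t'` by
`(g₁ - g₂)(min t' s) - (g₁ - g₂)(min t s)`.
Sort the points: claim: for `t ≤ t'`, `|H t' - H t| ≤ t' - t`.  Induct on the number `N` of indices `r < m`
with `t < s r < t'`.  If `N = 0`, every index has `s r ≤ t` or `s r ≥ t'`, so with `κ = ε ∑_{s r ≥ t'} a r`,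
`H t' - H t = (1/2 + κ)(g₁ t' - g₁ t) + (1/2 - κ)(g₂ t' - g₂ t)` and `|κ| ≤ 1/2`; so the absolute value is
`≤ (1/2 + κ) (t' - t) + (1/2 - κ)(t' - t) = t' - t`.  If `N > 0` split at one of the points `s r` (which lies in `S`).
-/

open Set

namespace Pool.Agent.LKI

open Filter Topology in
private theorem e3_cut_deriv {n : ℕ} {S : Set ℝ} {D : ℕ → ℝ → ℝ}
    (hD : ∀ j, j + 1 < n → ∀ t ∈ S, HasDerivWithinAt (D j) (D (j + 1) t) S t) {s : ℝ}
    (j : ℕ) (hj : j + 1 < n) (t : ℝ) (ht : t ∈ S) :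
    HasDerivWithinAt (cut n D s j) (cut n D s (j + 1) t) S t := by
  have hA : HasDerivWithinAt (fun t => D j t - tay n (fun i => D i s) j (t - s))
      (D (j + 1) t - tay n (fun i => D i s) (j + 1) (t - s)) S t := by
    have h1 := (tay_hasDeriv n (fun i => D i s) j (by omega) (t - s)).comp_sub_const t s
    exact (hD j hj t ht).sub h1.hasDerivWithinAt
  rcases lt_trichotomy t s with hlt | heq | hgt
  · have e1 : cut n D s (j + 1) t = D (j + 1) t - tay n (fun i => D i s) (j + 1) (t - s) := by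
      unfold cut
      rw [if_pos hlt.le]
    rw [e1]
    refine hA.congr_of_eventuallyEq ?_ ?_
    · filter_upwards [mem_nhdsWithin_of_mem_nhds (Iio_mem_nhds hlt)] with x hx
      unfold cut
      rw [if_pos (le_of_lt hx)]
    · unfold cut
      rw [if_pos hlt.le]
  · subst heq
    have e1 : cut n D t (j + 1) t = 0 := by
      unfold cut
      rw [if_pos le_rfl, sub_self, tay_zero _ _ _ hj, sub_self]
    have e0 : cut n D t j t = 0 := by
      unfold cut
      rw [if_pos le_rfl, sub_self, tay_zero _ _ _ (by omega), sub_self]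
    have e2 : D (j + 1) t - tay n (fun i => D i t) (j + 1) (t - t) = 0 := by
      rw [sub_self, tay_zero _ _ _ hj, sub_self]
    rw [e2] at hA
    rw [e1]
    have hl : HasDerivWithinAt (cut n D t j) 0 (S ∩ Iic t) t := by
      refine (hA.mono inter_subset_left).congr ?_ ?_
      · intro x hx
        unfold cut
        rw [if_pos (mem_Iic.mp hx.2)]
      · unfold cut
        rw [if_pos le_rfl]
    have hr : HasDerivWithinAt (cut n D t j) 0 (S ∩ Ici t) t := by
      refine (hasDerivWithinAt_const t (S ∩ Ici t) (0 : ℝ)).congr ?_ e0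
      intro x hx
      rcases (mem_Ici.mp hx.2).eq_or_lt with h | h
      · rw [← h]
        exact e0
      · unfold cut
        rw [if_neg (not_le.mpr h)]
    have hu := hl.union hr
    have e3 : S ∩ Iic t ∪ S ∩ Ici t = S := by
      rw [← inter_union_distrib_left, Iic_union_Ici, inter_univ]
    rwa [e3] at hu
  · have e1 : cut n D s (j + 1) t = 0 := by
      unfold cut
      rw [if_neg (not_le.mpr hgt)]
    rw [e1]
    refine (hasDerivWithinAt_const t S (0 : ℝ)).congr_of_eventuallyEq ?_ ?_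
    · filter_upwards [mem_nhdsWithin_of_mem_nhds (Ioi_mem_nhds hgt)] with x hx
      unfold cut
      rw [if_neg (not_le.mpr hx)]
    · unfold cut
      rw [if_neg (not_le.mpr hgt)]

private theorem e3_cut_top {n : ℕ} (hn : 1 ≤ n) (D : ℕ → ℝ → ℝ) (s t : ℝ) :
    cut n D s (n - 1) t = D (n - 1) (min t s) - D (n - 1) s := by
  unfold cut
  rcases le_or_gt t s with h | h
  · rw [if_pos h, tay_top _ _ hn, min_eq_left h]
  · rw [if_neg (not_le.mpr h), min_eq_right h.le, sub_self]

theorem cut_jet {n : ℕ} (hn : 1 ≤ n) {σ : ℝ} (hσ : 0 ≤ σ) {S : Set ℝ} (hS : S.OrdConnected)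
    {D : ℕ → ℝ → ℝ} (hD : IsJet n σ S D) {s : ℝ} (hs : s ∈ S) : IsJet n σ S (cut n D s) := by
  refine ⟨fun j hj t ht => e3_cut_deriv hD.hasDeriv j hj t ht, fun t ht t' ht' => ?_⟩
  rw [e3_cut_top hn, e3_cut_top hn]
  have hm : ∀ x ∈ S, min x s ∈ S := by
    intro x hx
    rcases le_total x s with h | h
    · rwa [min_eq_left h]
    · rwa [min_eq_right h]
  have h1 := hD.lip (min t s) (hm t ht) (min t' s) (hm t' ht')
  have h2 : |min t s - min t' s| ≤ |t - t'| := by
    have := abs_min_sub_min_le_max t s t' s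
    rwa [sub_self, abs_zero, max_eq_left (abs_nonneg _)] at this
  have h3 : D (n - 1) (min t s) - D (n - 1) s - (D (n - 1) (min t' s) - D (n - 1) s) =
      D (n - 1) (min t s) - D (n - 1) (min t' s) := by ring
  rw [h3]
  exact h1.trans (mul_le_mul_of_nonneg_left h2 hσ)

private theorem e3_lip {S : Set ℝ} {g1 g2 : ℝ → ℝ}
    (h1 : ∀ x ∈ S, ∀ y ∈ S, |g1 x - g1 y| ≤ 1 * |x - y|)
    (h2 : ∀ x ∈ S, ∀ y ∈ S, |g2 x - g2 y| ≤ 1 * |x - y|) (s a : ℕ → ℝ) (ε : ℝ) (m : ℕ) :
    (∀ r, r < m → s r ∈ S) → ∀ κ : ℝ, |κ| + |ε| * ∑ r ∈ Finset.range m, |a r| ≤ 1 / 2 →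
    ∀ t ∈ S, ∀ t' ∈ S, t ≤ t' →
      |((1 / 2 + κ) * g1 t + (1 / 2 - κ) * g2 t +
          ε * ∑ r ∈ Finset.range m, a r * (g1 (min t (s r)) - g2 (min t (s r)))) -
        ((1 / 2 + κ) * g1 t' + (1 / 2 - κ) * g2 t' +
          ε * ∑ r ∈ Finset.range m, a r * (g1 (min t' (s r)) - g2 (min t' (s r))))| ≤ t' - t := by
  induction m with
  | zero =>
    intro _ κ hκ t ht t' ht' htt
    simp only [Finset.range_zero, Finset.sum_empty, mul_zero, add_zero] at hκ ⊢
    have k1 := abs_le.mp hκ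
    have a1 := h1 t ht t' ht'
    have a2 := h2 t ht t' ht'
    rw [abs_sub_comm t t', abs_of_nonneg (by linarith : 0 ≤ t' - t), one_mul] at a1 a2
    have b1 := abs_le.mp a1
    have b2 := abs_le.mp a2
    have c1 : 0 ≤ 1 / 2 + κ := by linarith [k1.1]
    have c2 : 0 ≤ 1 / 2 - κ := by linarith [k1.2]
    rw [abs_le]
    constructor
    · nlinarith [mul_le_mul_of_nonneg_left b1.1 c1, mul_le_mul_of_nonneg_left b2.1 c2]
    · nlinarith [mul_le_mul_of_nonneg_left b1.2 c1, mul_le_mul_of_nonneg_left b2.2 c2]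
  | succ m ih =>
    intro hs κ hκ
    have hs' : ∀ r, r < m → s r ∈ S := fun r hr => hs r (by omega)
    have hsm : s m ∈ S := hs m (by omega)
    rw [Finset.sum_range_succ] at hκ
    have hε0 := abs_nonneg ε
    have ham := abs_nonneg (a m)
    have hpr : 0 ≤ |ε| * |a m| := mul_nonneg hε0 ham
    have hκ1 : |κ| + |ε| * ∑ r ∈ Finset.range m, |a r| ≤ 1 / 2 := by
      rw [mul_add] at hκ
      linarith
    have hκ2 : |κ + ε * a m| + |ε| * ∑ r ∈ Finset.range m, |a r| ≤ 1 / 2 := by
      have := abs_add_le κ (ε * a m)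
      rw [abs_mul] at this
      rw [mul_add] at hκ
      linarith
    have hlow : ∀ t ∈ S, ∀ t' ∈ S, t ≤ t' → t' ≤ s m →
        |((1 / 2 + κ) * g1 t + (1 / 2 - κ) * g2 t +
          ε * ∑ r ∈ Finset.range (m + 1), a r * (g1 (min t (s r)) - g2 (min t (s r)))) -
        ((1 / 2 + κ) * g1 t' + (1 / 2 - κ) * g2 t' +
          ε * ∑ r ∈ Finset.range (m + 1), a r * (g1 (min t' (s r)) - g2 (min t' (s r))))| ≤
        t' - t := by
      intro t ht t' ht' htt hts
      have h := ih hs' (κ + ε * a m) hκ2 t ht t' ht' htt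
      rw [Finset.sum_range_succ, Finset.sum_range_succ, min_eq_left (htt.trans hts),
        min_eq_left hts]
      refine le_trans (le_of_eq ?_) h
      congr 1
      ring
    have hhigh : ∀ t ∈ S, ∀ t' ∈ S, t ≤ t' → s m ≤ t →
        |((1 / 2 + κ) * g1 t + (1 / 2 - κ) * g2 t +
          ε * ∑ r ∈ Finset.range (m + 1), a r * (g1 (min t (s r)) - g2 (min t (s r)))) -
        ((1 / 2 + κ) * g1 t' + (1 / 2 - κ) * g2 t' +
          ε * ∑ r ∈ Finset.range (m + 1), a r * (g1 (min t' (s r)) - g2 (min t' (s r))))| ≤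
        t' - t := by
      intro t ht t' ht' htt hts
      have h := ih hs' κ hκ1 t ht t' ht' htt
      rw [Finset.sum_range_succ, Finset.sum_range_succ, min_eq_right hts,
        min_eq_right (hts.trans htt)]
      refine le_trans (le_of_eq ?_) h
      congr 1
      ring
    intro t ht t' ht' htt
    rcases le_total t' (s m) with h | h
    · exact hlow t ht t' ht' htt h
    · rcases le_total (s m) t with h' | h'
      · exact hhigh t ht t' ht' htt h'
      · have u1 := hlow t ht (s m) hsm h' le_rfl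
        have u2 := hhigh (s m) hsm t' ht' h le_rfl
        refine (abs_sub_le _ _ _).trans ((add_le_add u1 u2).trans (le_of_eq ?_))
        ring

theorem perturb_jet {n : ℕ} (hn : 1 ≤ n) {S : Set ℝ} (hS : S.OrdConnected) {F1 F2 : ℕ → ℝ → ℝ}
    (h1 : IsJet n 1 S F1) (h2 : IsJet n 1 S F2) (m : ℕ) (s a : ℕ → ℝ) (hs : ∀ r, r < m → s r ∈ S)
    (ε : ℝ) (hε : 2 * |ε| * ∑ r ∈ Finset.range m, |a r| ≤ 1) :
    IsJet n 1 S (fun j t => (F1 j t + F2 j t) / 2 +
      ε * ∑ r ∈ Finset.range m, a r * cut n (fun i x => F1 i x - F2 i x) (s r) j t) := by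
  have hdD : ∀ j, j + 1 < n → ∀ t ∈ S, HasDerivWithinAt (fun x => F1 j x - F2 j x)
      (F1 (j + 1) t - F2 (j + 1) t) S t := fun j hj t ht =>
    (h1.hasDeriv j hj t ht).sub (h2.hasDeriv j hj t ht)
  refine ⟨fun j hj t ht => ?_, ?_⟩
  · have d1 : HasDerivWithinAt (fun t => (F1 j t + F2 j t) / 2) ((F1 (j + 1) t + F2 (j + 1) t) / 2)
        S t := ((h1.hasDeriv j hj t ht).add (h2.hasDeriv j hj t ht)).div_const 2
    have d2 : HasDerivWithinAt (fun t => ε * ∑ r ∈ Finset.range m,
        a r * cut n (fun i x => F1 i x - F2 i x) (s r) j t)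
        (ε * ∑ r ∈ Finset.range m, a r * cut n (fun i x => F1 i x - F2 i x) (s r) (j + 1) t)
        S t := by
      refine HasDerivWithinAt.const_mul ε ?_
      refine HasDerivWithinAt.fun_sum fun r _ => ?_
      exact (e3_cut_deriv (D := fun i x => F1 i x - F2 i x) hdD j hj t ht).const_mul (a r)
    exact d1.add d2
  · have hκ : |(0 : ℝ)| + |ε| * ∑ r ∈ Finset.range m, |a r| ≤ 1 / 2 := by
      rw [abs_zero]
      linarith
    have key := e3_lip (g1 := F1 (n - 1)) (g2 := F2 (n - 1)) h1.lip h2.lip s a ε m hs 0 hκ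
    have hform : ∀ t, (F1 (n - 1) t + F2 (n - 1) t) / 2 + ε * ∑ r ∈ Finset.range m,
        a r * cut n (fun i x => F1 i x - F2 i x) (s r) (n - 1) t =
        ((1 / 2 + 0) * F1 (n - 1) t + (1 / 2 - 0) * F2 (n - 1) t +
          ε * ∑ r ∈ Finset.range m,
            a r * (F1 (n - 1) (min t (s r)) - F2 (n - 1) (min t (s r)))) -
        ε * ∑ r ∈ Finset.range m, a r * (F1 (n - 1) (s r) - F2 (n - 1) (s r)) := by
      intro t
      have e1 : ∑ r ∈ Finset.range m, a r * cut n (fun i x => F1 i x - F2 i x) (s r) (n - 1) t =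
          ∑ r ∈ Finset.range m, a r * (F1 (n - 1) (min t (s r)) - F2 (n - 1) (min t (s r))) -
          ∑ r ∈ Finset.range m, a r * (F1 (n - 1) (s r) - F2 (n - 1) (s r)) := by
        rw [← Finset.sum_sub_distrib]
        refine Finset.sum_congr rfl fun r _ => ?_
        rw [e3_cut_top hn]
        ring
      rw [e1]
      ring
    have key2 : ∀ t ∈ S, ∀ t' ∈ S, t ≤ t' →
        |((F1 (n - 1) t + F2 (n - 1) t) / 2 + ε * ∑ r ∈ Finset.range m,
          a r * cut n (fun i x => F1 i x - F2 i x) (s r) (n - 1) t) -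
        ((F1 (n - 1) t' + F2 (n - 1) t') / 2 + ε * ∑ r ∈ Finset.range m,
          a r * cut n (fun i x => F1 i x - F2 i x) (s r) (n - 1) t')| ≤ t' - t := by
      intro t ht t' ht' htt
      refine le_trans (le_of_eq ?_) (key t ht t' ht' htt)
      rw [hform t, hform t']
      congr 1
      ring
    intro t ht t' ht'
    show |((F1 (n - 1) t + F2 (n - 1) t) / 2 + ε * ∑ r ∈ Finset.range m,
          a r * cut n (fun i x => F1 i x - F2 i x) (s r) (n - 1) t) -
        ((F1 (n - 1) t' + F2 (n - 1) t') / 2 + ε * ∑ r ∈ Finset.range m,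
          a r * cut n (fun i x => F1 i x - F2 i x) (s r) (n - 1) t')| ≤ 1 * |t - t'|
    rw [one_mul]
    rcases le_total t t' with h | h
    · rw [abs_sub_comm t t', abs_of_nonneg (by linarith : 0 ≤ t' - t)]
      exact key2 t ht t' ht' h
    · rw [abs_of_nonneg (by linarith : 0 ≤ t - t'), abs_sub_comm]
      exact key2 t' ht' t ht h

end Pool.Agent.LKI
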