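import Pool.Agent.LKI.A1

/-!
A3: the functions `Hf`.

`pw (l+1)` has derivative `pw l` everywhere if `l ≥ 1`, and `pw 1 x = max x 0`.

(a) `pw_hasDeriv`: for `x > 0` and `x < 0` clear; at `x = 0` the difference quotient is `≤ |x|^l / (l+1)! → 0`.
(b) `Hf_cont`: `Hf h m μ l` is continuous for `l ≥ 1`; `Hf_mvt`: `Mvt (Hf ... (l+1)) (- Hf ... l)`:
    for `l ≥ 1` this is the mean value theorem (`exists_deriv_eq_slope` or `exists_hasDerivAt_eq_slope`) for
    `s ↦ pw (l+1) (i h - s)`, whose derivative is `- pw l (i h - s)`.  For `l = 0`: the function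
    `Hf 1` is continuous and piecewise affine: at every `x` it has the right derivative `- Hf 0 x`
    (for an atom with `i h > x` the summand has derivative `-1` near `x`; for `i h ≤ x` it vanishes on `[x, ∞)`).
    If `g s < g t` and no `x ∈ (s,t)` had `g' x > 0`, then the right derivative is `≤ 0` on `(s,t)`, so
    `g` is antitone on `[s,t]` (e.g. `image_le_of_liminf_slope_right_lt_deriv_boundary'` or
    `image_le_of_deriv_right_le_deriv_boundary`, or use that between two consecutive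
    nodes `g` is affine with slope `- Hf 0`), contradiction.
(c) `first_sign`: if `Hf 1 0 = -1` and `Hf l 0 = 0` for `2 ≤ l < n`, then `(-1)^l Hf l s > 0` for
    `s ∈ (0, δ_l)`, all `1 ≤ l < n`: for `l = 1` by continuity; if `(-1)^l Hf l > 0` on `(0, δ)` then, as
    `(-1)^(l+1) Hf (l+1)` vanishes at `0` and has derivative `(-1)^l Hf l` (`l ≥ 1`), it is positive
    on `(0, δ)`.  For `l = n - 1`: `(-1)^n (- Hf (n-1) s) > 0`.
-/

open Set

namespace Pool.Agent.LKI

private theorem pow_div_hasDeriv (l : ℕ) (x : ℝ) :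
    HasDerivAt (fun y : ℝ => y ^ (l + 1) / ((l + 1).factorial : ℝ)) (x ^ l / (l.factorial : ℝ)) x := by
  have h1 := (hasDerivAt_pow (l + 1) x).div_const ((l + 1).factorial : ℝ)
  have h2 : ((l + 1 : ℕ) : ℝ) * x ^ (l + 1 - 1) / ((l + 1).factorial : ℝ) =
      x ^ l / (l.factorial : ℝ) := by
    rw [Nat.factorial_succ, Nat.add_sub_cancel]
    push_cast
    have h3 : ((l : ℝ) + 1) ≠ 0 := by positivity
    have h4 : (l.factorial : ℝ) ≠ 0 := by positivity
    field_simp
  rwa [h2] at h1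

private theorem pw_pos {l : ℕ} {x : ℝ} (hx : 0 < x) : pw l x = x ^ l / (l.factorial : ℝ) :=
  if_pos hx

private theorem pw_nonpos {l : ℕ} {x : ℝ} (hx : x ≤ 0) : pw l x = 0 :=
  if_neg (not_lt.2 hx)

theorem pw_hasDeriv (l : ℕ) (hl : 1 ≤ l) (x : ℝ) : HasDerivAt (pw (l + 1)) (pw l x) x := by
  rcases lt_trichotomy x 0 with hx | hx | hx
  · have h1 : pw (l + 1) =ᶠ[nhds x] fun _ => (0 : ℝ) := by
      filter_upwards [Iio_mem_nhds hx] with y hy
      exact pw_nonpos (le_of_lt hy)
    rw [pw_nonpos hx.le]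
    exact (hasDerivAt_const x (0 : ℝ)).congr_of_eventuallyEq h1
  · subst hx
    rw [pw_nonpos le_rfl]
    have h1 : HasDerivWithinAt (pw (l + 1)) 0 (Iic 0) 0 :=
      (hasDerivWithinAt_const (0 : ℝ) (Iic 0) (0 : ℝ)).congr
        (fun y hy => pw_nonpos hy) (pw_nonpos le_rfl)
    have h2 : HasDerivWithinAt (pw (l + 1)) 0 (Ici 0) 0 := by
      have h3 := (pow_div_hasDeriv l 0).hasDerivWithinAt (s := Ici (0 : ℝ))
      rw [zero_pow (by omega), zero_div] at h3
      refine h3.congr (fun y hy => ?_) ?_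
      · rcases (show (0 : ℝ) ≤ y from hy).eq_or_lt with h4 | h4
        · rw [← h4, pw_nonpos le_rfl, zero_pow (by omega), zero_div]
        · exact pw_pos h4
      · rw [pw_nonpos le_rfl, zero_pow (by omega), zero_div]
    have h3 := h1.union h2
    rw [Iic_union_Ici] at h3
    exact hasDerivWithinAt_univ.1 h3
  · have h1 : pw (l + 1) =ᶠ[nhds x] fun y => y ^ (l + 1) / ((l + 1).factorial : ℝ) := by
      filter_upwards [Ioi_mem_nhds hx] with y hy
      exact pw_pos hy
    rw [pw_pos hx]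
    exact (pow_div_hasDeriv l x).congr_of_eventuallyEq h1

theorem pw_cont (l : ℕ) (hl : 1 ≤ l) : Continuous (pw l) := by
  have h1 : pw l = fun x : ℝ => (max x 0) ^ l / (l.factorial : ℝ) := by
    funext x
    rcases le_or_gt x 0 with hx | hx
    · rw [pw_nonpos hx, max_eq_right hx, zero_pow (by omega), zero_div]
    · rw [pw_pos hx, max_eq_left hx.le]
  rw [h1]
  exact ((continuous_id.max continuous_const).pow l).div_const _

theorem Hf_cont (h : ℝ) (m : ℕ) (μ : ℕ → ℝ) (l : ℕ) (hl : 1 ≤ l) : Continuous (Hf h m μ l) := by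
  exact continuous_finset_sum _ fun i _ =>
    continuous_const.mul ((pw_cont l hl).comp (continuous_const.sub continuous_id))

private theorem pw_right (l : ℕ) (c x : ℝ) :
    HasDerivWithinAt (fun s => pw (l + 1) (c - s)) (-pw l (c - x)) (Ici x) x := by
  rcases le_or_gt (c - x) 0 with hx | hx
  · rw [pw_nonpos hx, neg_zero]
    exact (hasDerivWithinAt_const x (Ici x) (0 : ℝ)).congr
      (fun y hy => pw_nonpos (by have : x ≤ y := hy; linarith)) (pw_nonpos hx)
  · have h1 : (fun s => pw (l + 1) (c - s)) =ᶠ[nhds x]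
        fun s => (c - s) ^ (l + 1) / ((l + 1).factorial : ℝ) := by
      filter_upwards [Iio_mem_nhds (show x < c by linarith)] with y hy
      exact pw_pos (by have : y < c := hy; linarith)
    have h2 : HasDerivAt (fun s => (c - s) ^ (l + 1) / ((l + 1).factorial : ℝ))
        ((c - x) ^ l / (l.factorial : ℝ) * (-1)) x := by
      have h3 : HasDerivAt (fun s : ℝ => c - s) (-1) x := (hasDerivAt_id' x).const_sub c
      exact HasDerivAt.comp x (pow_div_hasDeriv l (c - x)) h3
    rw [pw_pos hx]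
    have h4 := (h2.congr_of_eventuallyEq h1).hasDerivWithinAt (s := Ici x)
    rwa [mul_neg_one] at h4

private theorem Hf_right (h : ℝ) (m : ℕ) (μ : ℕ → ℝ) (l : ℕ) (x : ℝ) :
    HasDerivWithinAt (Hf h m μ (l + 1)) (- Hf h m μ l x) (Ici x) x := by
  have h1 : HasDerivWithinAt
      (fun s => ∑ i ∈ Finset.range (m + 1), μ i * pw (l + 1) ((i : ℝ) * h - s))
      (∑ i ∈ Finset.range (m + 1), μ i * (-pw l ((i : ℝ) * h - x))) (Ici x) x :=
    HasDerivWithinAt.fun_sum fun i _ => (pw_right l _ x).const_mul (μ i)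
  have h2 : ∑ i ∈ Finset.range (m + 1), μ i * (-pw l ((i : ℝ) * h - x)) = - Hf h m μ l x := by
    unfold Hf
    rw [← Finset.sum_neg_distrib]
    exact Finset.sum_congr rfl fun i _ => by ring
  rw [h2] at h1
  exact h1

private theorem le_of_right {g g' : ℝ → ℝ} (hc : Continuous g)
    (hd : ∀ x, HasDerivWithinAt g (g' x) (Ici x) x) {s t : ℝ} (hst : s < t)
    (hle : ∀ x ∈ Ioo s t, g' x ≤ 0) : g t ≤ g s := by
  have h1 : ∀ s' ∈ Ioo s t, g t ≤ g s' := by
    intro s' hs'
    exact image_le_of_deriv_right_le_deriv_boundary (f := g) (f' := g') (a := s') (b := t)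
      (B := fun _ => g s') (B' := fun _ => 0) hc.continuousOn (fun x _ => hd x) le_rfl
      continuousOn_const (fun x _ => hasDerivWithinAt_const x (Ici x) (g s'))
      (fun x hx => hle x ⟨hs'.1.trans_le hx.1, hx.2⟩) (right_mem_Icc.2 hs'.2.le)
  have h2 : Filter.Tendsto g (nhdsWithin s (Ioi s)) (nhds (g s)) :=
    hc.continuousWithinAt
  refine ge_of_tendsto h2 ?_
  filter_upwards [Ioo_mem_nhdsGT hst] with s' hs'
  exact h1 s' hs'

theorem Hf_mvt (h : ℝ) (m : ℕ) (μ : ℕ → ℝ) (l : ℕ) (a b : ℝ) :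
    Mvt (Hf h m μ (l + 1)) (fun s => - Hf h m μ l s) a b := by
  intro s t _ hst _
  have hc := Hf_cont h m μ (l + 1) (by omega)
  constructor
  · intro hlt
    by_contra hcon
    push Not at hcon
    exact absurd hlt (not_lt.2 (le_of_right hc (Hf_right h m μ l) hst hcon))
  · intro hlt
    by_contra hcon
    push Not at hcon
    have h1 := le_of_right (g := fun x => -Hf h m μ (l + 1) x)
      (g' := fun x => -(-Hf h m μ l x)) hc.neg (fun x => (Hf_right h m μ l x).fun_neg) hst
      (fun x hx => by have := hcon x hx; linarith)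
    linarith

private theorem Hf_hasDeriv (h : ℝ) (m : ℕ) (μ : ℕ → ℝ) (l : ℕ) (hl : 1 ≤ l) (x : ℝ) :
    HasDerivAt (Hf h m μ (l + 1)) (- Hf h m μ l x) x := by
  have h0 : ∀ c : ℝ, HasDerivAt (fun s => pw (l + 1) (c - s)) (-pw l (c - x)) x := by
    intro c
    have h3 : HasDerivAt (fun s : ℝ => c - s) (-1) x := (hasDerivAt_id' x).const_sub c
    have h4 := HasDerivAt.comp x (pw_hasDeriv l hl (c - x)) h3
    rw [mul_neg_one] at h4
    exact h4
  have h1 : HasDerivAt
      (fun s => ∑ i ∈ Finset.range (m + 1), μ i * pw (l + 1) ((i : ℝ) * h - s))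
      (∑ i ∈ Finset.range (m + 1), μ i * (-pw l ((i : ℝ) * h - x))) x :=
    HasDerivAt.fun_sum fun i _ => (h0 _).const_mul (μ i)
  have h2 : ∑ i ∈ Finset.range (m + 1), μ i * (-pw l ((i : ℝ) * h - x)) = - Hf h m μ l x := by
    unfold Hf
    rw [← Finset.sum_neg_distrib]
    exact Finset.sum_congr rfl fun i _ => by ring
  rw [h2] at h1
  exact h1

theorem first_sign {n m : ℕ} {h : ℝ} {μ : ℕ → ℝ} (hn : 2 ≤ n)
    (h1 : Hf h m μ 1 0 = -1) (hl : ∀ l, 2 ≤ l → l < n → Hf h m μ l 0 = 0) :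
    ∃ δ > 0, ∀ s ∈ Ioo (0 : ℝ) δ, 0 < (-1) ^ n * (- Hf h m μ (n - 1) s) := by
  have hc1 := Hf_cont h m μ 1 le_rfl
  have h2 : ∀ᶠ s in nhds (0 : ℝ), Hf h m μ 1 s < 0 :=
    hc1.continuousAt.eventually (gt_mem_nhds (by rw [h1]; norm_num))
  obtain ⟨δ, hδ, hball⟩ := Metric.eventually_nhds_iff.1 h2
  have key : ∀ l, 1 ≤ l → l < n → ∀ s ∈ Ioo (0 : ℝ) δ, 0 < (-1) ^ l * Hf h m μ l s := by
    intro l hl1
    induction l, hl1 using Nat.le_induction with
    | base =>
      intro _ s hs
      have h3 : Hf h m μ 1 s < 0 := hball (by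
        rw [Real.dist_eq, sub_zero, abs_of_pos hs.1]
        exact hs.2)
      linarith
    | succ l hl1 ih =>
      intro hln s hs
      obtain ⟨c, hc, hslope⟩ := exists_hasDerivAt_eq_slope (Hf h m μ (l + 1))
        (fun x => - Hf h m μ l x) hs.1 (Hf_cont h m μ (l + 1) (by omega)).continuousOn
        (fun x _ => Hf_hasDeriv h m μ l hl1 x)
      have h4 := ih (by omega) c ⟨hc.1, hc.2.trans hs.2⟩
      rw [hl (l + 1) (by omega) hln, sub_zero, sub_zero, eq_div_iff hs.1.ne'] at hslope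
      rw [← hslope, pow_succ]
      have h5 : (-1 : ℝ) ^ l * -1 * (-Hf h m μ l c * s) = (-1) ^ l * Hf h m μ l c * s := by ring
      rw [h5]
      exact mul_pos h4 hs.1
  refine ⟨δ, hδ, fun s hs => ?_⟩
  have h3 := key (n - 1) (by omega) (by omega) s hs
  have h4 : (-1 : ℝ) ^ n = (-1) ^ (n - 1) * (-1) := by
    rw [← pow_succ]
    congr 1
    omega
  rw [h4]
  linarith

end Pool.Agent.LKI
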