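import Pool.Agent.LKI.Defs

/-!
A1: one Rolle step for sign alternations, with and without boundary gains.

All proofs are the same: if `ρ (-1)^i g (x i) > 0` and `ρ (-1)^(i+1) g (x (i+1)) > 0` with `x i < x (i+1)` then
`g (x i) < g (x (i+1))` or `>`, so by `Mvt` there is a point `z i` in `(x i, x (i+1))` where `g'` has
the sign of `-ρ (-1)^i`.

`alt_none`: use the points `z 0 < ... < z q` (`z i ∈ (x i, x (i+1))`, `i ≤ q`).
`alt_left`: `ρ g a ≤ 0 < ρ g (x 0)`, hence `a < x 0` and there is `z ∈ (a, x 0)` with `ρ g' z > 0`; put it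
in front of `z 0 < ... < z (q-1)`.
`alt_right`: symmetric at `b`.
`alt_both`: both.

The sign `ρ` is an arbitrary real (only its sign matters; `Alt g S q ρ` forces `ρ ≠ 0`).
It is convenient to prove first the auxiliary statement: if `0 < c * g t` and `c * g s ≤ 0`, `s < t`, then
some `z ∈ (s, t)` has `0 < c * g' z`; and if `0 < c * g s`, `c * g t ≤ 0`, then some `z ∈ (s,t)` has `c * g' z < 0`.
-/

open Set

namespace Pool.Agent.LKI

theorem Alt.mono {g : ℝ → ℝ} {S S' : Set ℝ} {q : ℕ} {ρ : ℝ} (h : Alt g S q ρ) (hS : S ⊆ S') :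
    Alt g S' q ρ := by
  obtain ⟨x, h1, h2, h3⟩ := h
  exact ⟨x, fun i hi => hS (h1 i hi), h2, h3⟩

/-- change of `ρ` by a positive factor -/
theorem Alt.congr_sign {g : ℝ → ℝ} {S : Set ℝ} {q : ℕ} {ρ ρ' : ℝ} (h : Alt g S q ρ)
    (hρ : 0 < ρ * ρ') : Alt g S q ρ' := by
  obtain ⟨x, h1, h2, h3⟩ := h
  refine ⟨x, h1, h2, fun i hi => ?_⟩
  have h4 := h3 i hi
  have h5 : 0 < ρ ^ 2 * (ρ' * (-1) ^ i * g (x i)) := by
    calc 0 < (ρ * (-1) ^ i * g (x i)) * (ρ * ρ') := mul_pos h4 hρ
      _ = _ := by ring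
  exact pos_of_mul_pos_right h5 (sq_nonneg ρ)

theorem mvt_up {g g' : ℝ → ℝ} {a b c s t : ℝ} (hm : Mvt g g' a b) (hs : a ≤ s) (hst : s < t)
    (ht : t ≤ b) (h : c * g s < c * g t) : ∃ z ∈ Ioo s t, 0 < c * g' z := by
  rcases lt_trichotomy c 0 with hc | hc | hc
  · obtain ⟨z, hz, h1⟩ := (hm s t hs hst ht).2 (by nlinarith)
    exact ⟨z, hz, mul_pos_of_neg_of_neg hc h1⟩
  · rw [hc] at h
    simp at h
  · obtain ⟨z, hz, h1⟩ := (hm s t hs hst ht).1 (lt_of_mul_lt_mul_left h hc.le)
    exact ⟨z, hz, mul_pos hc h1⟩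

theorem alt_step {g g' : ℝ → ℝ} {a b : ℝ} {p : ℕ} {σ : ℝ} {w : ℕ → ℝ} (hm : Mvt g g' a b)
    (hw : ∀ i, i ≤ p + 1 → w i ∈ Icc a b) (hmono : ∀ i, i ≤ p → w i < w (i + 1))
    (hs : ∀ i, i ≤ p → σ * (-1) ^ i * g (w i) < σ * (-1) ^ i * g (w (i + 1))) :
    Alt g' (Ioo a b) p σ := by
  have h1 : ∀ i : ℕ, ∃ z : ℝ, i ≤ p → z ∈ Ioo (w i) (w (i + 1)) ∧ 0 < σ * (-1) ^ i * g' z := by
    intro i
    by_cases hi : i ≤ p
    · obtain ⟨z, hz, h2⟩ := mvt_up hm (hw i (by omega)).1 (hmono i hi) (hw (i + 1) (by omega)).2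
        (hs i hi)
      exact ⟨z, fun _ => ⟨hz, h2⟩⟩
    · exact ⟨0, fun h => absurd h hi⟩
  choose z hz using h1
  refine ⟨z, fun i hi => ⟨?_, ?_⟩, fun i hi => ?_, fun i hi => (hz i hi).2⟩
  · exact lt_of_le_of_lt (hw i (by omega)).1 (hz i hi).1.1
  · exact lt_of_lt_of_le (hz i hi).1.2 (hw (i + 1) (by omega)).2
  · exact (hz i hi.le).1.2.trans (hz (i + 1) hi).1.1

theorem alt_none {g g' : ℝ → ℝ} {a b : ℝ} {q : ℕ} {ρ : ℝ} (hm : Mvt g g' a b)
    (h : Alt g (Icc a b) (q + 1) ρ) : Alt g' (Ioo a b) q (-ρ) := by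
  obtain ⟨x, h1, h2, h3⟩ := h
  refine alt_step hm h1 (fun i hi => h2 i (by omega)) fun i hi => ?_
  have e1 := h3 i (by omega)
  have e2 := h3 (i + 1) (by omega)
  rw [pow_succ] at e2
  nlinarith

theorem alt_left {g g' : ℝ → ℝ} {a b : ℝ} {q : ℕ} {ρ : ℝ} (hm : Mvt g g' a b)
    (h : Alt g (Icc a b) q ρ) (ha : ρ * g a ≤ 0) : Alt g' (Ioo a b) q ρ := by
  obtain ⟨x, h1, h2, h3⟩ := h
  have h0 : a < x 0 := by
    refine lt_of_le_of_ne (h1 0 (by omega)).1 fun he => ?_
    have := h3 0 (by omega)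
    rw [← he, pow_zero, mul_one] at this
    linarith
  have hab : a ≤ b := (h1 0 (by omega)).1.trans (h1 0 (by omega)).2
  refine alt_step (w := fun i => if i = 0 then a else x (i - 1)) hm ?_ ?_ ?_
  · intro i hi
    rcases Nat.eq_zero_or_pos i with rfl | hp
    · exact ⟨le_rfl, hab⟩
    · simp only [hp.ne', if_false]
      exact h1 _ (by omega)
  · intro i hi
    rcases Nat.eq_zero_or_pos i with rfl | hp
    · simpa using h0
    · obtain ⟨k, rfl⟩ : ∃ k, i = k + 1 := ⟨i - 1, by omega⟩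
      simpa using h2 k (by omega)
  · intro i hi
    rcases Nat.eq_zero_or_pos i with rfl | hp
    · have := h3 0 (by omega)
      simp only [pow_zero, mul_one] at this
      simp
      linarith
    · obtain ⟨k, rfl⟩ : ∃ k, i = k + 1 := ⟨i - 1, by omega⟩
      have e1 := h3 k (by omega)
      have e2 := h3 (k + 1) (by omega)
      simp only [Nat.add_one_ne_zero, if_false, Nat.add_sub_cancel]
      rw [pow_succ] at e2 ⊢
      nlinarith

theorem alt_right {g g' : ℝ → ℝ} {a b : ℝ} {q : ℕ} {ρ : ℝ} (hm : Mvt g g' a b)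
    (h : Alt g (Icc a b) q ρ) (hb : ρ * (-1) ^ q * g b ≤ 0) : Alt g' (Ioo a b) q (-ρ) := by
  obtain ⟨x, h1, h2, h3⟩ := h
  have h0 : x q < b := by
    refine lt_of_le_of_ne (h1 q le_rfl).2 fun he => ?_
    have := h3 q le_rfl
    rw [he] at this
    linarith
  have hab : a ≤ b := (h1 0 (by omega)).1.trans (h1 0 (by omega)).2
  refine alt_step (w := fun i => if i ≤ q then x i else b) hm ?_ ?_ ?_
  · intro i hi
    by_cases hq : i ≤ q
    · simp only [hq, if_true]
      exact h1 i hq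
    · simp only [hq, if_false]
      exact ⟨hab, le_rfl⟩
  · intro i hi
    rcases Nat.lt_or_ge i q with hq | hq
    · simp only [hi, if_true, show i + 1 ≤ q from hq]
      exact h2 i hq
    · have : i = q := le_antisymm hi hq
      subst this
      simpa using h0
  · intro i hi
    rcases Nat.lt_or_ge i q with hq | hq
    · simp only [hi, if_true, show i + 1 ≤ q from hq]
      have e1 := h3 i hi
      have e2 := h3 (i + 1) hq
      rw [pow_succ] at e2
      nlinarith
    · have : i = q := le_antisymm hi hq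
      subst this
      have e1 := h3 i hi
      simp
      nlinarith

theorem alt_both {g g' : ℝ → ℝ} {a b : ℝ} {q : ℕ} {ρ : ℝ} (hm : Mvt g g' a b)
    (h : Alt g (Icc a b) q ρ) (ha : ρ * g a ≤ 0) (hb : ρ * (-1) ^ q * g b ≤ 0) :
    Alt g' (Ioo a b) (q + 1) ρ := by
  obtain ⟨x, h1, h2, h3⟩ := h
  have h0 : a < x 0 := by
    refine lt_of_le_of_ne (h1 0 (by omega)).1 fun he => ?_
    have := h3 0 (by omega)
    rw [← he, pow_zero, mul_one] at this
    linarith
  have h0' : x q < b := by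
    refine lt_of_le_of_ne (h1 q le_rfl).2 fun he => ?_
    have := h3 q le_rfl
    rw [he] at this
    linarith
  have hab : a ≤ b := (h1 0 (by omega)).1.trans (h1 0 (by omega)).2
  refine alt_step (w := fun i => if i = 0 then a else if i ≤ q + 1 then x (i - 1) else b) hm
    ?_ ?_ ?_
  · intro i hi
    rcases Nat.eq_zero_or_pos i with rfl | hp
    · exact ⟨le_rfl, hab⟩
    · simp only [hp.ne', if_false]
      by_cases hq : i ≤ q + 1
      · simp only [hq, if_true]
        exact h1 _ (by omega)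
      · simp only [hq, if_false]
        exact ⟨hab, le_rfl⟩
  · intro i hi
    rcases Nat.eq_zero_or_pos i with rfl | hp
    · simpa using h0
    · obtain ⟨k, rfl⟩ : ∃ k, i = k + 1 := ⟨i - 1, by omega⟩
      rcases Nat.lt_or_ge k q with hq | hq
      · simp only [Nat.add_one_ne_zero, if_false, Nat.add_sub_cancel, hi, if_true,
          show k + 1 + 1 ≤ q + 1 from by omega]
        exact h2 k hq
      · have : k = q := by omega
        subst this
        simpa using h0'
  · intro i hi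
    rcases Nat.eq_zero_or_pos i with rfl | hp
    · have := h3 0 (by omega)
      simp only [pow_zero, mul_one] at this
      simp
      linarith
    · obtain ⟨k, rfl⟩ : ∃ k, i = k + 1 := ⟨i - 1, by omega⟩
      rcases Nat.lt_or_ge k q with hq | hq
      · have e1 := h3 k (by omega)
        have e2 := h3 (k + 1) (by omega)
        simp only [Nat.add_one_ne_zero, if_false, Nat.add_sub_cancel, hi, if_true,
          show k + 1 + 1 ≤ q + 1 from by omega]
        rw [pow_succ] at e2 ⊢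
        nlinarith
      · have : k = q := by omega
        subst this
        have e1 := h3 k le_rfl
        simp
        rw [pow_succ]
        nlinarith

end Pool.Agent.LKI
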