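import Pool.Agent.LKI.A1

/-!
A2: the chain argument for a difference `d = T - λ f`.

`d 0, ..., d (n-1)` is a chain of derivatives in the sense of `Mvt` on `[0, b]`; `d (n-1)` is strictly
monotone on each of the `P + 1` pieces `[ξ i, ξ (i+1)]`, in the direction `(-1)^(n+i)`, and `d 0` has
`P + n - 1` alternations on `[0, b]` starting with a positive value.  Then `(-1)^j d j 0 > 0` for all
`j < n`.

PROOF.  (1) Lemma `pieces`: let `g` be strictly monotone on each piece `[ξ i, ξ (i+1)]` (`i ≤ P`) in the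
direction `δ (-1)^i` and let `y 0 < y 1 < ... < y (m+1)` be points of `[0, b]` with
`0 < -δ (-1)^i (g (y (i+1)) - g (y i))` for all `i ≤ m`.  Then `m + 1 ≤ P`.
Proof: by induction on `i ≤ m` one shows `ξ (i+1) < y (i+1)` and `i + 1 ≤ P`: assume `ξ i ≤ y i` (for
`i = 0`: `ξ 0 = 0 ≤ y 0`) and, for `i ≥ 1`, `ξ i < y i`.  If `i > P` then `y i > ξ i ≥ ξ (P+1) = b` (or
`i = P + 1`), impossible.  If `y (i+1) ≤ ξ (i+1)` then `y i, y (i+1) ∈ [ξ i, ξ (i+1)]`, where `g` is
monotone in the direction `δ (-1)^i`, so `δ (-1)^i (g (y (i+1)) - g (y i)) > 0`, contradiction.  Hence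
`ξ (i+1) < y (i+1) ≤ b = ξ (P+1)`, so `i + 1 ≤ P` (as `ξ` is monotone on `{0, ..., P+1}`).

(2) Suppose `(-1)^j₀ d j₀ 0 ≤ 0` for some `j₀ < n`.  By induction on `j ≤ j₀`, `Alt (d j) [0,b] (P+n-1-j) ((-1)^j)`
(`alt_none`, `Alt.mono`).  If `j₀ ≤ n - 2`: `alt_left` at `j₀` gives
`Alt (d (j₀+1)) [0,b] (P + n - 1 - j₀) ((-1)^j₀)`, and by induction on `j` from `j₀ + 1` to `n - 1`:
`Alt (d j) [0,b] (P + n - j) ((-1)^(j-1))` (`alt_none`).  For `j = n - 1`: `P + 1` alternations, the first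
sign being `(-1)^(n-2) = (-1)^n`.  Consecutive points `x 0 < ... < x (P+1)` have
`0 < -(-1)^n (-1)^i (d (n-1) (x (i+1)) - d (n-1) (x i))` for `i ≤ P`; by (1) with `m = P`, `δ = (-1)^n`:
`P + 1 ≤ P`, contradiction.
If `j₀ = n - 1`: `Alt (d (n-1)) [0,b] P ((-1)^(n-1))` and `(-1)^(n-1) d (n-1) 0 ≤ 0`, so `0 < x 0`; apply (1) to
the points `0 < x 0 < x 1 < ... < x P` (`m = P`), again a contradiction.
-/

open Set

namespace Pool.Agent.LKI

theorem pieces {P m : ℕ} {b δ : ℝ} {g : ℝ → ℝ} {ξ y : ℕ → ℝ}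
    (ξ0 : ξ 0 = 0) (ξb : ξ (P + 1) = b) (hξ : ∀ i, i ≤ P → ξ i ≤ ξ (i + 1))
    (hs : ∀ i, i ≤ P → ∀ s ∈ Icc (ξ i) (ξ (i + 1)), ∀ t ∈ Icc (ξ i) (ξ (i + 1)), s < t →
      0 < δ * (-1) ^ i * (g t - g s))
    (hy0 : 0 ≤ y 0) (hyb : ∀ i, i ≤ m + 1 → y i ≤ b) (hy : ∀ i, i ≤ m → y i < y (i + 1))
    (hg : ∀ i, i ≤ m → δ * (-1) ^ i * (g (y (i + 1)) - g (y i)) < 0) : m + 1 ≤ P := by
  have key : ∀ i, i ≤ m + 1 → i ≤ P ∧ ξ i ≤ y i := by
    intro i
    induction i with
    | zero => exact fun _ => ⟨Nat.zero_le _, by rw [ξ0]; exact hy0⟩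
    | succ i ih =>
      intro hi
      obtain ⟨h1, h2⟩ := ih (by omega)
      have hlt := hy i (by omega)
      have h3 : ξ (i + 1) < y (i + 1) := by
        by_contra hcon
        push Not at hcon
        have h4 := hs i h1 (y i) ⟨h2, hlt.le.trans hcon⟩ (y (i + 1)) ⟨h2.trans hlt.le, hcon⟩ hlt
        have h5 := hg i (by omega)
        linarith
      refine ⟨?_, h3.le⟩
      by_contra hcon
      have hiP : i = P := by omega
      subst hiP
      have h6 := hyb (i + 1) hi
      rw [ξb] at h3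
      linarith
  exact (key (m + 1) le_rfl).1

theorem chain_pos {n P : ℕ} {b : ℝ} {d : ℕ → ℝ → ℝ} {ξ : ℕ → ℝ} (hn : 1 ≤ n)
    (hm : ∀ j, j + 1 < n → Mvt (d j) (d (j + 1)) 0 b)
    (ξ0 : ξ 0 = 0) (ξb : ξ (P + 1) = b) (hξ : ∀ i, i ≤ P → ξ i ≤ ξ (i + 1))
    (hs : ∀ i, i ≤ P → ∀ s ∈ Icc (ξ i) (ξ (i + 1)), ∀ t ∈ Icc (ξ i) (ξ (i + 1)), s < t →
      0 < (-1) ^ (n + i) * (d (n - 1) t - d (n - 1) s))
    (ha : Alt (d 0) (Icc 0 b) (P + n - 1) 1) :
    ∀ j, j < n → 0 < (-1) ^ j * d j 0 := by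
  obtain ⟨N, rfl⟩ : ∃ N, n = N + 1 := ⟨n - 1, by omega⟩
  rw [show P + (N + 1) - 1 = P + N by omega] at ha
  rw [Nat.add_sub_cancel] at hs
  intro j₀ hj₀
  by_contra hcon
  push Not at hcon
  have hsub : Ioo (0 : ℝ) b ⊆ Icc 0 b := Ioo_subset_Icc_self
  have hb0 : 0 ≤ b := by
    have : ∀ i, i ≤ P + 1 → 0 ≤ ξ i := by
      intro i
      induction i with
      | zero => exact fun _ => ξ0.ge
      | succ i ih => exact fun hi => (ih (by omega)).trans (hξ i (by omega))
    rw [← ξb]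
    exact this _ le_rfl
  have hs' : ∀ i, i ≤ P → ∀ s ∈ Icc (ξ i) (ξ (i + 1)), ∀ t ∈ Icc (ξ i) (ξ (i + 1)), s < t →
      0 < (-1) ^ (N + 1) * (-1) ^ i * (d N t - d N s) := by
    intro i hi s hs1 t ht1 hst
    rw [← pow_add]
    exact hs i hi s hs1 t ht1 hst
  -- first part of the chain
  have stepA : ∀ j, j ≤ j₀ → Alt (d j) (Icc 0 b) (P + N - j) ((-1) ^ j) := by
    intro j
    induction j with
    | zero => intro _; simpa using ha
    | succ j ih =>
      intro hj
      have h1 := ih (by omega)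
      rw [show P + N - j = (P + N - (j + 1)) + 1 by omega] at h1
      have h2 := (alt_none (hm j (by omega)) h1).mono hsub
      rwa [show -(-1 : ℝ) ^ j = (-1) ^ (j + 1) by rw [pow_succ]; ring] at h2
  have hA := stepA j₀ le_rfl
  by_cases hlast : j₀ = N
  · -- the last derivative
    subst hlast
    rw [show P + j₀ - j₀ = P by omega] at hA
    obtain ⟨x, hx1, hx2, hx3⟩ := hA
    have hx0 : 0 < x 0 := by
      rcases (hx1 0 (Nat.zero_le _)).1.lt_or_eq with h | h
      · exact h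
      · have h1 := hx3 0 (Nat.zero_le _)
        rw [← h] at h1
        simp only [pow_zero, mul_one] at h1
        linarith
    have hfin := pieces (m := P) (δ := (-1) ^ (j₀ + 1)) (g := d j₀) (ξ := ξ)
      (y := fun i => if i = 0 then 0 else x (i - 1)) ξ0 ξb hξ hs' (by simp)
      (by
        intro i hi
        by_cases h0 : i = 0
        · simp [h0, hb0]
        · simp only [h0, if_false]
          exact (hx1 (i - 1) (by omega)).2)
      (by
        intro i hi
        by_cases h0 : i = 0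
        · simp [h0, hx0]
        · simp only [h0, if_false, Nat.add_eq_zero_iff, one_ne_zero, and_false,
            Nat.add_sub_cancel]
          have := hx2 (i - 1) (by omega)
          rwa [show i - 1 + 1 = i by omega] at this)
      (by
        intro i hi
        by_cases h0 : i = 0
        · subst h0
          have h1 := hx3 0 (Nat.zero_le _)
          simp only [pow_zero, mul_one, zero_add, one_ne_zero, if_false, Nat.sub_self,
            if_true] at h1 ⊢
          rw [pow_succ]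
          linarith
        · obtain ⟨k, rfl⟩ : ∃ k, i = k + 1 := ⟨i - 1, by omega⟩
          have h1 := hx3 k (by omega)
          have h2 := hx3 (k + 1) (by omega)
          simp only [Nat.add_eq_zero_iff, one_ne_zero, and_false, if_false,
            Nat.add_sub_cancel]
          have e1 : (-1 : ℝ) ^ (j₀ + 1) * (-1) ^ (k + 1) = (-1) ^ j₀ * (-1) ^ k := by
            rw [pow_succ, pow_succ]; ring
          have e2 : (-1 : ℝ) ^ j₀ * (-1) ^ (k + 1) = -((-1) ^ j₀ * (-1) ^ k) := by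
            rw [pow_succ]; ring
          rw [e1]
          rw [e2] at h2
          linarith)
    omega
  · -- gain at the left end point
    have hB := (alt_left (hm j₀ (by omega)) hA hcon).mono hsub
    have stepB : ∀ k, j₀ + 1 + k ≤ N →
        Alt (d (j₀ + 1 + k)) (Icc 0 b) (P + N - j₀ - k) ((-1) ^ (j₀ + k)) := by
      intro k
      induction k with
      | zero => intro _; simpa using hB
      | succ k ih =>
        intro hk
        have h1 := ih (by omega)
        rw [show P + N - j₀ - k = (P + N - j₀ - (k + 1)) + 1 by omega] at h1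
        have h2 := (alt_none (hm (j₀ + 1 + k) (by omega)) h1).mono hsub
        rwa [show -(-1 : ℝ) ^ (j₀ + k) = (-1) ^ (j₀ + (k + 1)) by
          rw [← add_assoc, pow_succ]; ring] at h2
    have hC := stepB (N - 1 - j₀) (by omega)
    rw [show j₀ + 1 + (N - 1 - j₀) = N by omega,
      show P + N - j₀ - (N - 1 - j₀) = P + 1 by omega] at hC
    have hsign : (-1 : ℝ) ^ (j₀ + (N - 1 - j₀)) = (-1) ^ (N + 1) := by
      rw [show N + 1 = (j₀ + (N - 1 - j₀)) + 2 by omega, pow_add _ _ 2]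
      simp
    rw [hsign] at hC
    obtain ⟨x, hx1, hx2, hx3⟩ := hC
    have hfin := pieces (m := P) (δ := (-1) ^ (N + 1)) (g := d N) (ξ := ξ) (y := x)
      ξ0 ξb hξ hs' (hx1 0 (Nat.zero_le _)).1 (fun i hi => (hx1 i hi).2)
      (fun i hi => hx2 i (by omega))
      (by
        intro i hi
        have h1 := hx3 i (by omega)
        have h2 := hx3 (i + 1) (by omega)
        have e2 : (-1 : ℝ) ^ (N + 1) * (-1) ^ (i + 1) = -((-1) ^ (N + 1) * (-1) ^ i) := by
          rw [pow_succ (-1 : ℝ) i]; ring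
        rw [e2] at h2
        linarith)
    omega

end Pool.Agent.LKI
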