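import Pool.Agent.LKI.A3

/-!
A4: the chain argument for the multipliers `μ`.

Put `K j = (-1)^(j+1) Hf (n-1-j)`, `j = 0, ..., n-1` and `b = e h`.  Then `Mvt (K j) (K (j+1)) 0 b` (from
`Hf_mvt` with `l = n-2-j`, multiplied by the sign `(-1)^(j+1)`), `K 0 = - Hf (n-1)` and
`K (n-1) = (-1)^n Hf 0`, `Hf 0 s = ∑_{i h > s} μ i`.
Boundary values: `K j b = 0` for all `j ≤ n - 1` (hypothesis `hb`); `K j 0 = 0` for `j ≤ n-2`, `j ≠ n-2`,
and `K (n-2) 0 = (-1)^(n-1) Hf 1 0 = (-1)^n`.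

Chain.  Start: `Alt (K 0) (0,b) P ((-1)^n)`.  For `j < n - 2`: if `Alt (K j) (0,b) (P+j) ((-1)^n)` then, `K j`
vanishing at `0` and `b`, `alt_both` gives `Alt (K (j+1)) (0,b) (P+j+1) ((-1)^n)`.  So
`Alt (K (n-2)) (0,b) (P+n-2) ((-1)^n)`, and `alt_right` gives
`Alt (K (n-1)) (0,b) (P+n-2) (-(-1)^n)`, i.e. there are points `0 < s 0 < ... < s q < b`, `q = P + n - 2`, with
`(-1)^i Hf 0 (s i) < 0` for `i ≤ q`.

Atoms.  `Hf 0 s = ∑_{i ≤ m, i h > s} μ i`.  For `s < s'`: `Hf 0 s - Hf 0 s' = ∑_{s < i h ≤ s'} μ i`.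
* `∑_{i ≤ m} μ i = 0` and `Hf 0 (s 0) < 0`, so `∑_{i h ≤ s 0} μ i > 0`: some `idx 0` with `idx 0 * h ≤ s 0`, `μ (idx 0) > 0`.
* for `0 ≤ i < q`: `(-1)^i (Hf 0 (s (i+1)) - Hf 0 (s i)) > 0`, so `(-1)^(i+1) ∑_{s i < j h ≤ s (i+1)} μ j > 0`:
  some `idx (i+1)` with `s i < idx (i+1) * h ≤ s (i+1)` and `(-1)^(i+1) μ (idx (i+1)) > 0`.
* `Hf 0 b = 0`, `(-1)^q Hf 0 (s q) < 0`, so `(-1)^(q+1) ∑_{s q < j h ≤ b} μ j > 0`: `idx (q+1)` with
  `s q < idx (q+1) * h ≤ b = e h`, so `idx (q+1) ≤ e`.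
Altogether `q + 2 = P + n` indices, strictly increasing (`h > 0`), all `≤ e`.
-/

open Set

namespace Pool.Agent.LKI

private theorem a4_mvt {g g' : ℝ → ℝ} {a b : ℝ} (hm : Mvt g g' a b) {c : ℝ}
    (hc : c = 1 ∨ c = -1) : Mvt (fun s => c * g s) (fun s => c * g' s) a b := by
  intro s t h1 h2 h3
  obtain ⟨h4, h5⟩ := hm s t h1 h2 h3
  rcases hc with rfl | rfl
  · refine ⟨fun h => ?_, fun h => ?_⟩
    · obtain ⟨x, hx, hx2⟩ := h4 (by linarith)
      exact ⟨x, hx, by linarith⟩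
    · obtain ⟨x, hx, hx2⟩ := h5 (by linarith)
      exact ⟨x, hx, by linarith⟩
  · refine ⟨fun h => ?_, fun h => ?_⟩
    · obtain ⟨x, hx, hx2⟩ := h5 (by linarith)
      exact ⟨x, hx, by linarith⟩
    · obtain ⟨x, hx, hx2⟩ := h4 (by linarith)
      exact ⟨x, hx, by linarith⟩

private theorem a4_atom {h : ℝ} {m : ℕ} {μ : ℕ → ℝ} {s s' c : ℝ} (hss : s < s')
    (hc : 0 < c * (Hf h m μ 0 s - Hf h m μ 0 s')) :
    ∃ i : ℕ, s < (i : ℝ) * h ∧ (i : ℝ) * h ≤ s' ∧ 0 < c * μ i := by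
  by_contra hno
  push Not at hno
  have h1 : c * (Hf h m μ 0 s - Hf h m μ 0 s') ≤ 0 := by
    unfold Hf
    rw [← Finset.sum_sub_distrib, Finset.mul_sum]
    refine Finset.sum_nonpos fun i _ => ?_
    by_cases h2 : s < (i : ℝ) * h
    · by_cases h3 : (i : ℝ) * h ≤ s'
      · have h4 := hno i h2 h3
        have e1 : pw 0 ((i : ℝ) * h - s) = 1 := by
          unfold pw
          rw [if_pos (by linarith)]
          simp
        have e2 : pw 0 ((i : ℝ) * h - s') = 0 := by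
          unfold pw
          rw [if_neg (by linarith)]
        rw [e1, e2]
        linarith
      · have e1 : pw 0 ((i : ℝ) * h - s) = 1 := by
          unfold pw
          rw [if_pos (by linarith)]
          simp
        have e2 : pw 0 ((i : ℝ) * h - s') = 1 := by
          unfold pw
          rw [if_pos (by linarith)]
          simp
        rw [e1, e2]
        linarith
    · have e1 : pw 0 ((i : ℝ) * h - s) = 0 := by
        unfold pw
        rw [if_neg (by linarith)]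
      have e2 : pw 0 ((i : ℝ) * h - s') = 0 := by
        unfold pw
        rw [if_neg (by linarith)]
      rw [e1, e2]
      linarith
  linarith

private theorem a4_total {h : ℝ} {m : ℕ} {μ : ℕ → ℝ} (hh : 0 < h) :
    Hf h m μ 0 (-1) = ∑ i ∈ Finset.range (m + 1), μ i := by
  unfold Hf
  refine Finset.sum_congr rfl fun i _ => ?_
  have h1 : (0 : ℝ) ≤ (i : ℝ) * h := by positivity
  have e1 : pw 0 ((i : ℝ) * h - -1) = 1 := by
    unfold pw
    rw [if_pos (by linarith)]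
    simp
  rw [e1, mul_one]

theorem chain_mu {n e m P : ℕ} {h : ℝ} {μ : ℕ → ℝ} (hh : 0 < h) (hn : 2 ≤ n) (he : 1 ≤ e)
    (hem : e ≤ m) (hsum : ∑ i ∈ Finset.range (m + 1), μ i = 0) (h1 : Hf h m μ 1 0 = -1)
    (hl : ∀ l, 2 ≤ l → l < n → Hf h m μ l 0 = 0)
    (hb : ∀ l, l < n → Hf h m μ l ((e : ℝ) * h) = 0)
    (hP : Alt (fun s => - Hf h m μ (n - 1) s) (Ioo 0 ((e : ℝ) * h)) P ((-1) ^ n)) :
    ∃ idx : ℕ → ℕ, (∀ i, i + 1 < P + n → idx i < idx (i + 1)) ∧
      ∀ i, i < P + n → idx i ≤ e ∧ 0 < (-1) ^ i * μ (idx i) := by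
  obtain ⟨b, hbdef⟩ : ∃ b : ℝ, b = (e : ℝ) * h := ⟨_, rfl⟩
  rw [← hbdef] at hb hP
  have he' : (1 : ℝ) ≤ e := by exact_mod_cast he
  have hb0 : 0 < b := by
    rw [hbdef]
    positivity
  have hsgn : ∀ j : ℕ, ((-1 : ℝ) ^ j = 1 ∨ (-1 : ℝ) ^ j = -1) := fun j =>
    neg_one_pow_eq_or ℝ j
  -- the chain
  have chain : ∀ j, j + 2 ≤ n →
      Alt (fun s => (-1) ^ (j + 1) * Hf h m μ (n - 1 - j) s) (Ioo 0 b) (P + j) ((-1) ^ n) := by
    intro j
    induction j with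
    | zero =>
      intro _
      have e1 : (fun s => (-1 : ℝ) ^ (0 + 1) * Hf h m μ (n - 1 - 0) s) =
          fun s => - Hf h m μ (n - 1) s := by
        funext s
        rw [Nat.sub_zero]
        ring
      rw [e1]
      exact hP
    | succ j ih =>
      intro hj
      have h2 := ih (by omega)
      have e1 : n - 1 - j = (n - 1 - (j + 1)) + 1 := by omega
      have h3 := a4_mvt (Hf_mvt h m μ (n - 1 - (j + 1)) 0 b) (hsgn (j + 1))
      rw [← e1] at h3
      have h4 := alt_both h3 (h2.mono Ioo_subset_Icc_self) (by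
        show (-1) ^ n * ((-1) ^ (j + 1) * Hf h m μ (n - 1 - j) 0) ≤ 0
        rw [hl _ (by omega) (by omega)]
        simp) (by
        show (-1) ^ n * (-1) ^ (P + j) * ((-1) ^ (j + 1) * Hf h m μ (n - 1 - j) b) ≤ 0
        rw [hb _ (by omega)]
        simp)
      have e2 : (fun s => (-1 : ℝ) ^ (j + 1) * -Hf h m μ (n - 1 - (j + 1)) s) =
          fun s => (-1) ^ (j + 1 + 1) * Hf h m μ (n - 1 - (j + 1)) s := by
        funext s
        ring
      rw [e2] at h4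
      exact h4
  have h2 := chain (n - 2) (by omega)
  have e1 : n - 1 - (n - 2) = 0 + 1 := by omega
  have e0 : n - 2 + 1 = n - 1 := by omega
  rw [e1, e0] at h2
  have h3 := a4_mvt (Hf_mvt h m μ 0 0 b) (hsgn (n - 1))
  have h4 := alt_right h3 (h2.mono Ioo_subset_Icc_self) (by
    show (-1) ^ n * (-1) ^ (P + (n - 2)) * ((-1) ^ (n - 1) * Hf h m μ (0 + 1) b) ≤ 0
    rw [hb _ (by omega)]
    simp)
  obtain ⟨s, hs1, hs2, hs3⟩ := h4
  obtain ⟨q, hq⟩ : ∃ q : ℕ, q = P + (n - 2) := ⟨_, rfl⟩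
  rw [← hq] at hs1 hs2 hs3
  have hs4 : ∀ i, i ≤ q → (-1) ^ i * Hf h m μ 0 (s i) < 0 := by
    intro i hi
    have h5 := hs3 i hi
    have h6 : -(-1 : ℝ) ^ n * (-1) ^ i * ((-1) ^ (n - 1) * -Hf h m μ 0 (s i)) =
        -((-1) ^ i * Hf h m μ 0 (s i)) := by
      have h7 : (-1 : ℝ) ^ n = (-1) ^ (n - 1) * (-1) := by
        rw [← pow_succ]
        congr 1
        omega
      have h8 : (-1 : ℝ) ^ (n - 1) * (-1) ^ (n - 1) = 1 := by
        rw [← mul_pow]
        simp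
      rw [h7]
      linear_combination (-((-1) ^ i * Hf h m μ 0 (s i))) * h8
    have h9 : 0 < -(-1 : ℝ) ^ n * (-1) ^ i * ((-1) ^ (n - 1) * -Hf h m μ 0 (s i)) := h5
    rw [h6] at h9
    linarith
  obtain ⟨t, ht⟩ : ∃ t : ℕ → ℝ, t = fun i => if i = 0 then -1 else if i ≤ q + 1 then s (i - 1)
    else b := ⟨_, rfl⟩
  have ht0 : t 0 = -1 := by rw [ht]; simp
  have ht1 : ∀ i, i ≤ q → t (i + 1) = s i := by
    intro i hi
    rw [ht]
    simp only [Nat.add_eq_zero_iff, one_ne_zero, and_false, if_false, Nat.add_sub_cancel]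
    rw [if_pos (by omega)]
  have ht2 : t (q + 2) = b := by
    rw [ht]
    simp only [Nat.add_eq_zero_iff, OfNat.ofNat_ne_zero, and_false, if_false]
    rw [if_neg (by omega)]
  have hG : ∀ i, i ≤ q + 1 → 0 < (-1) ^ i * (Hf h m μ 0 (t i) - Hf h m μ 0 (t (i + 1))) := by
    intro i hi
    rcases Nat.eq_zero_or_pos i with rfl | hi0
    · rw [ht0, ht1 0 (Nat.zero_le _), a4_total hh, hsum]
      have := hs4 0 (Nat.zero_le _)
      rw [pow_zero, one_mul] at this ⊢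
      linarith
    · obtain ⟨j, rfl⟩ : ∃ j, i = j + 1 := ⟨i - 1, by omega⟩
      have h5 := hs4 j (by omega)
      rw [ht1 j (by omega)]
      have h6 : (-1 : ℝ) ^ (j + 1) = -(-1) ^ j := by ring
      rcases Nat.lt_or_ge j q with hjq | hjq
      · rw [ht1 (j + 1) (by omega)]
        have h7 := hs4 (j + 1) (by omega)
        rw [h6] at h7 ⊢
        linarith
      · have : j = q := by omega
        subst this
        rw [ht2, hb 0 (by omega), h6]
        linarith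
  have htl : ∀ i, i ≤ q + 1 → t i < t (i + 1) := by
    intro i hi
    rcases Nat.eq_zero_or_pos i with rfl | hi0
    · rw [ht0, ht1 0 (Nat.zero_le _)]
      have := (hs1 0 (Nat.zero_le _)).1
      linarith
    · obtain ⟨j, rfl⟩ : ∃ j, i = j + 1 := ⟨i - 1, by omega⟩
      rw [ht1 j (by omega)]
      rcases Nat.lt_or_ge j q with hjq | hjq
      · rw [ht1 (j + 1) (by omega)]
        exact hs2 j hjq
      · have : j = q := by omega
        subst this
        rw [ht2]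
        exact (hs1 j le_rfl).2
  have htb : ∀ i, i ≤ q + 1 → t (i + 1) ≤ b := by
    intro i hi
    rcases Nat.lt_or_ge i (q + 1) with hlt | hge
    · rw [ht1 i (by omega)]
      exact (hs1 i (by omega)).2.le
    · have : i = q + 1 := by omega
      subst this
      exact ht2.le
  have hPn : P + n = q + 2 := by omega
  have key : ∀ i : ℕ, ∃ k : ℕ, i ≤ q + 1 →
      (t i < (k : ℝ) * h ∧ (k : ℝ) * h ≤ t (i + 1) ∧ 0 < (-1) ^ i * μ k) := by
    intro i
    by_cases hi : i ≤ q + 1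
    · obtain ⟨k, hk⟩ := a4_atom (htl i hi) (hG i hi)
      exact ⟨k, fun _ => hk⟩
    · exact ⟨0, fun h => absurd h hi⟩
  choose idx hidx using key
  rw [hPn]
  refine ⟨idx, fun i hi => ?_, fun i hi => ⟨?_, ?_⟩⟩
  · have h5 := (hidx i (by omega)).2.1
    have h6 := (hidx (i + 1) (by omega)).1
    have h7 : (idx i : ℝ) * h < (idx (i + 1) : ℝ) * h := lt_of_le_of_lt h5 h6
    have h8 : (idx i : ℝ) < (idx (i + 1) : ℝ) := lt_of_mul_lt_mul_right h7 hh.le
    exact_mod_cast h8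
  · have h5 := (hidx i (by omega)).2.1
    have h6 := htb i (by omega)
    have h7 : (idx i : ℝ) * h ≤ (e : ℝ) * h := by
      rw [← hbdef]
      exact h5.trans h6
    have h8 : (idx i : ℝ) ≤ (e : ℝ) := le_of_mul_le_mul_right h7 hh
    exact_mod_cast h8
  · exact (hidx i (by omega)).2.2

end Pool.Agent.LKI
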