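import Pool.Agent.LKI.Defs

/-!
A5: break points.  `K` is any function on `(0, b)`, positive (in the sense `ρ K > 0`) near `0`, with at most `P`
alternations starting with the sign `ρ`.  Then `(0,b)` splits into `P + 1` (possibly degenerate)
intervals on which `K` has the weak signs `ρ (-1)^i`.

PROOF.  For `1 ≤ i ≤ P` let `A i = {s ∈ (0,b) : Alt K (Ioc 0 s) i ρ}` (`i` alternations at points `≤ s`) and
`ξ i = sInf (A i)` if `A i` is nonempty, `ξ i = b` otherwise; `ξ 0 = 0`, `ξ (P+1) = b`.  `A (i+1) ⊆ A i` and all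
values lie in `[0,b]`, so `ξ` is monotone.  Let `s ∈ (ξ i, ξ (i+1))` and suppose `ρ (-1)^i K s < 0`, i.e.
`ρ (-1)^(i+1) K s > 0`.  If `i = 0`: take `s' < min(s, δ)` with `ρ K s' > 0`; then `s' < s` is a chain with `1`
alternation.  If `i ≥ 1`: since `s > ξ i` there is `s' ∈ A i`, `s' < s` (`ξ i < b` so `A i ≠ ∅`), hence a chain
with `i` alternations at points `≤ s' < s`; appending `s` we get `i + 1` alternations at points `≤ s`.
If `i < P` this says `s ∈ A (i+1)`, so `ξ (i+1) ≤ s`, contradiction.  If `i = P` it contradicts the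
hypothesis `hmax`.
-/

open Set

namespace Pool.Agent.LKI

private theorem a5_le {K : ℝ → ℝ} {S : Set ℝ} {q q' : ℕ} {ρ : ℝ} (h : Alt K S q ρ) (hq : q' ≤ q) :
    Alt K S q' ρ := by
  obtain ⟨x, h1, h2, h3⟩ := h
  exact ⟨x, fun i hi => h1 i (hi.trans hq), fun i hi => h2 i (lt_of_lt_of_le hi hq),
    fun i hi => h3 i (hi.trans hq)⟩

private theorem a5_mono {K : ℝ → ℝ} {S S' : Set ℝ} {q : ℕ} {ρ : ℝ} (h : Alt K S q ρ) (hS : S ⊆ S') :
    Alt K S' q ρ := by
  obtain ⟨x, h1, h2, h3⟩ := h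
  exact ⟨x, fun i hi => hS (h1 i hi), h2, h3⟩

/-- append a point on the right -/
private theorem a5_append {K : ℝ → ℝ} {q : ℕ} {ρ s' s : ℝ} (h : Alt K (Ioc 0 s') q ρ) (hs : s' < s)
    (hK : 0 < ρ * (-1) ^ (q + 1) * K s) : Alt K (Ioc 0 s) (q + 1) ρ := by
  obtain ⟨x, h1, h2, h3⟩ := h
  refine ⟨fun i => if i ≤ q then x i else s, ?_, ?_, ?_⟩
  · intro i hi
    by_cases hq : i ≤ q
    · simp only [hq, if_true]
      exact ⟨(h1 i hq).1, (h1 i hq).2.trans hs.le⟩
    · simp only [hq, if_false]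
      exact ⟨((h1 0 (Nat.zero_le _)).1.trans_le (h1 0 (Nat.zero_le _)).2).trans hs, le_rfl⟩
  · intro i hi
    by_cases hq : i + 1 ≤ q
    · have hq' : i ≤ q := by omega
      simp only [hq, hq', if_true]
      exact h2 i (by omega)
    · have hq' : i ≤ q := by omega
      simp only [hq, hq', if_true, if_false]
      exact (h1 i hq').2.trans_lt hs
  · intro i hi
    by_cases hq : i ≤ q
    · simp only [hq, if_true]
      exact h3 i hq
    · have : i = q + 1 := by omega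
      simp only [hq, if_false]
      rw [this]
      exact hK

theorem break_points {K : ℝ → ℝ} {b ρ : ℝ} {P : ℕ} (hb : 0 < b)
    (h0 : ∃ δ > 0, ∀ s ∈ Ioo (0 : ℝ) δ, 0 < ρ * K s)
    (hmax : ¬ Alt K (Ioo 0 b) (P + 1) ρ) :
    ∃ ξ : ℕ → ℝ, ξ 0 = 0 ∧ ξ (P + 1) = b ∧ (∀ i, i ≤ P → ξ i ≤ ξ (i + 1)) ∧
      ∀ i, i ≤ P → ∀ s ∈ Ioo (ξ i) (ξ (i + 1)), 0 ≤ ρ * (-1) ^ i * K s := by
  let A : ℕ → Set ℝ := fun i => {s | s ∈ Ioo 0 b ∧ Alt K (Ioc 0 s) i ρ}
  have hbdd : ∀ i, BddBelow (insert b (A i)) := by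
    intro i
    refine ⟨0, ?_⟩
    rintro x (rfl | hx)
    · exact hb.le
    · exact hx.1.1.le
  have hne : ∀ i, (insert b (A i)).Nonempty := fun i => ⟨b, mem_insert _ _⟩
  have hnn : ∀ i, 0 ≤ sInf (insert b (A i)) := by
    intro i
    refine le_csInf (hne i) ?_
    rintro x (rfl | hx)
    · exact hb.le
    · exact hx.1.1.le
  have hlb : ∀ i, sInf (insert b (A i)) ≤ b := fun i => csInf_le (hbdd i) (mem_insert _ _)
  refine ⟨fun i => sInf (insert b (A i)), ?_, ?_, ?_, ?_⟩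
  · have hA : A 0 = Ioo 0 b := by
      ext s
      refine ⟨fun h => h.1, fun h => ⟨h, ?_⟩⟩
      obtain ⟨δ, hδ, hδ'⟩ := h0
      refine ⟨fun _ => min s (δ / 2), fun i _ => ⟨lt_min h.1 (by positivity), min_le_left _ _⟩,
        fun i hi => absurd hi (by omega), ?_⟩
      intro i hi
      have : i = 0 := by omega
      rw [this, pow_zero, mul_one]
      exact hδ' _ ⟨lt_min h.1 (by positivity), (min_le_right _ _).trans_lt (by linarith)⟩
    show sInf (insert b (A 0)) = 0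
    rw [hA, Ioo_insert_right hb, csInf_Ioc hb]
  · have hA : A (P + 1) = ∅ := by
      ext s
      refine ⟨fun h => ?_, fun h => absurd h (by simp)⟩
      have hsub : Ioc 0 s ⊆ Ioo 0 b := fun x hx => ⟨hx.1, hx.2.trans_lt h.1.2⟩
      exact absurd (a5_mono h.2 hsub) hmax
    show sInf (insert b (A (P + 1))) = b
    rw [hA]
    simp
  · intro i _
    exact csInf_le_csInf (hbdd i) (hne (i + 1))
      (insert_subset_insert (fun s hs => ⟨hs.1, a5_le hs.2 (Nat.le_succ i)⟩))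
  · intro i _ s hs
    by_contra hneg
    push Not at hneg
    obtain ⟨s', hs', hlt⟩ := exists_lt_of_csInf_lt (hne i) hs.1
    have hsb : s < b := hs.2.trans_le (hlb (i + 1))
    have hs'A : s' ∈ A i := by
      rcases hs' with rfl | h
      · exact absurd hsb (not_lt.mpr hlt.le)
      · exact h
    have hmem : s ∈ A (i + 1) := by
      refine ⟨⟨hs'A.1.1.trans hlt, hsb⟩, a5_append hs'A.2 hlt ?_⟩
      rw [pow_succ]
      nlinarith [hneg]
    exact absurd (csInf_le (hbdd (i + 1)) (mem_insert_of_mem b hmem)) (not_le.mpr hs.2)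

end Pool.Agent.LKI
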