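import Pool.Agent.LKI.Defs

/-!
A6: finite dimensional linear programming duality in the form of the Hahn-Banach theorem.

PROOF.  Let `Φ : V → (ι → ℝ)` (sup norm), `Φ v i = φ i v`.  It is linear and injective; let `W` be its range, a
subspace of the normed space `ι → ℝ`, and `f : W → ℝ` the linear functional with `f (Φ v) = ℓ v` (it is
continuous, everything being finite dimensional).  By Hahn-Banach (`exists_extension_norm_eq` or
`Real.exists_extension_norm_eq`) there is a continuous linear `g` on `ι → ℝ` with `g = f` on `W` and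
`‖g‖ = ‖f‖`.  Put `c i = g (Pi.single i 1)`, so `g x = ∑ c i * x i` and `ℓ w = ∑ c i * φ i w`.
`∑ |c i| ≤ ‖g‖`: evaluate `g` at the vector `sign (c i)`, of norm `≤ 1`.
The set `{v | ∀ i, |φ i v| ≤ 1}` is compact (closed, and bounded because `Φ` is an injective linear map between
finite dimensional spaces; or: the set `W ∩ closedBall 0 1` is compact in `ι → ℝ`) and nonempty, so `ℓ`, that is
`f` on `W ∩ closedBall 0 1`, attains its maximum at some `v`; this maximum is `‖f‖` (unit ball of `W`,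
`ContinuousLinearMap` norm: `f w ≤ ‖f‖ ‖w‖` and `‖f‖ = sup`).  Therefore
`∑ |c i| ≤ ‖g‖ = ‖f‖ = ℓ v = ∑ c i * φ i v ≤ ∑ |c i|`, so `c i * φ i v = |c i|` for every `i`.
-/

open Set

namespace Pool.Agent.LKI

theorem lp_duality {ι V : Type} [Fintype ι] [AddCommGroup V] [Module ℝ V] [FiniteDimensional ℝ V]
    (φ : ι → V →ₗ[ℝ] ℝ) (hinj : ∀ v, (∀ i, φ i v = 0) → v = 0) (ℓ : V →ₗ[ℝ] ℝ) :
    ∃ v : V, (∀ i, |φ i v| ≤ 1) ∧ ∃ c : ι → ℝ, (∀ w, ℓ w = ∑ i, c i * φ i w) ∧
      ∀ i, c i * φ i v = |c i| := by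
  classical
  let Φ : V →ₗ[ℝ] (ι → ℝ) := LinearMap.pi φ
  have hΦ : Function.Injective Φ := by
    rw [← LinearMap.ker_eq_bot, LinearMap.ker_eq_bot']
    intro v hv
    exact hinj v (fun i => congrFun hv i)
  let e : V ≃ₗ[ℝ] LinearMap.range Φ := LinearEquiv.ofInjective Φ hΦ
  let f : LinearMap.range Φ →L[ℝ] ℝ :=
    LinearMap.toContinuousLinearMap (ℓ ∘ₗ e.symm.toLinearMap)
  have hf : ∀ w, f (e w) = ℓ w := by
    intro w
    simp [f]
  obtain ⟨g, hg, hgn⟩ := exists_extension_norm_eq (𝕜 := ℝ) (LinearMap.range Φ) f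
  -- the maximum
  obtain ⟨w, hw1, hwmax⟩ := (isCompact_closedBall (0 : LinearMap.range Φ) 1).exists_isMaxOn
    ⟨0, by simp⟩ f.continuous.continuousOn
  have hw1' : ‖w‖ ≤ 1 := by simpa using hw1
  have hmax : ∀ x : LinearMap.range Φ, ‖x‖ ≤ 1 → f x ≤ f w := by
    intro x hx
    exact hwmax (by simpa using hx)
  have hw0 : 0 ≤ f w := by
    have := hmax 0 (by simp)
    simpa using this
  have hfn : ‖f‖ ≤ f w := by
    refine ContinuousLinearMap.opNorm_le_bound f hw0 (fun x => ?_)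
    by_cases hx : x = 0
    · simp [hx]
    have hxn : 0 < ‖x‖ := norm_pos_iff.mpr hx
    have h1 : f (‖x‖⁻¹ • x) ≤ f w := by
      apply hmax
      rw [norm_smul, norm_inv, norm_norm, inv_mul_cancel₀ hxn.ne']
    have h2 : f (-(‖x‖⁻¹ • x)) ≤ f w := by
      apply hmax
      rw [norm_neg, norm_smul, norm_inv, norm_norm, inv_mul_cancel₀ hxn.ne']
    rw [map_neg, map_smul, smul_eq_mul] at h2
    rw [map_smul, smul_eq_mul] at h1
    have h3 : f x = ‖x‖ * (‖x‖⁻¹ * f x) := by
      field_simp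
    rw [Real.norm_eq_abs, abs_le]
    constructor
    · rw [h3]
      nlinarith
    · rw [h3]
      nlinarith
  let v : V := e.symm w
  have hev : e v = w := by simp [v]
  have hval : ∀ u i, ((e u : LinearMap.range Φ) : ι → ℝ) i = φ i u := by
    intro u i
    rfl
  have hφv : ∀ i, |φ i v| ≤ 1 := by
    intro i
    have h1 : |((w : LinearMap.range Φ) : ι → ℝ) i| ≤ ‖((w : LinearMap.range Φ) : ι → ℝ)‖ := by
      simpa using norm_le_pi_norm ((w : LinearMap.range Φ) : ι → ℝ) i
    rw [← hval v i, hev]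
    exact h1.trans hw1'
  let c : ι → ℝ := fun i => g (Pi.single i 1)
  have hgc : ∀ x : ι → ℝ, g x = ∑ i, c i * x i := by
    intro x
    have h1 : x = ∑ i, x i • (Pi.single i (1 : ℝ) : ι → ℝ) := by
      funext j
      simp [Finset.sum_apply, Pi.single_apply]
    conv_lhs => rw [h1]
    rw [map_sum]
    refine Finset.sum_congr rfl (fun i _ => ?_)
    rw [map_smul, smul_eq_mul, mul_comm]
  have hℓ : ∀ u, ℓ u = ∑ i, c i * φ i u := by
    intro u
    rw [← hf u, ← hg (e u), hgc]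
    exact Finset.sum_congr rfl (fun i _ => by rw [hval])
  have hsum : ∑ i, |c i| ≤ ‖g‖ := by
    have h1 : g (fun i => (SignType.sign (c i) : ℝ)) = ∑ i, |c i| := by
      rw [hgc]
      refine Finset.sum_congr rfl (fun i _ => ?_)
      rw [mul_comm, sign_mul_self]
    have h2 : ‖(fun i => (SignType.sign (c i) : ℝ) : ι → ℝ)‖ ≤ 1 := by
      rw [pi_norm_le_iff_of_nonneg zero_le_one]
      intro i
      rcases SignType.sign (c i) with _ | _ | _ <;> simp
    have h3 := g.le_opNorm (fun i => (SignType.sign (c i) : ℝ))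
    rw [h1, Real.norm_eq_abs] at h3
    have h4 : ‖g‖ * ‖(fun i => (SignType.sign (c i) : ℝ) : ι → ℝ)‖ ≤ ‖g‖ * 1 :=
      mul_le_mul_of_nonneg_left h2 (norm_nonneg g)
    have h5 := le_abs_self (∑ i, |c i|)
    linarith
  have hfw : f w = ∑ i, c i * φ i v := by
    rw [← hev, hf, hℓ]
  have hle : ∀ i ∈ (Finset.univ : Finset ι), c i * φ i v ≤ |c i| := by
    intro i _
    calc c i * φ i v ≤ |c i * φ i v| := le_abs_self _
      _ = |c i| * |φ i v| := abs_mul _ _
      _ ≤ |c i| * 1 := mul_le_mul_of_nonneg_left (hφv i) (abs_nonneg _)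
      _ = |c i| := mul_one _
  have hge : ∑ i, |c i| ≤ ∑ i, c i * φ i v := by
    rw [← hfw]
    linarith
  have heq : ∑ i, c i * φ i v = ∑ i, |c i| := le_antisymm (Finset.sum_le_sum hle) hge
  have hall := (Finset.sum_eq_sum_iff_of_le hle).mp heq
  exact ⟨v, hφv, c, hℓ, fun i => hall i (Finset.mem_univ i)⟩

end Pool.Agent.LKI
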