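import Pool.Agent.LKI.A3

/-!
A7: elementary facts on `tay` and `spl`.

`tay n y j` has derivative `tay n y (j+1)` for `j + 1 ≤ n`; `tay n y j 0 = y j` for `j < n`; `tay n y (n-1)` is the
constant `y (n-1)`.  `tay n y j t` only depends on `y i`, `i < n`, linearly.
`spl`: for `j + 1 < n` the exponent `n - j` is `≥ 2`, so `pw_hasDeriv` (`l + 1 = n - j`) gives the derivative
`spl (j+1)` everywhere.  `spl (n-1) t = y (n-1) + ∑_c u c (pw 1 (t - c h) - pw 1 (t - (c+1) h))`, and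
`pw 1 (t - c h) - pw 1 (t - (c+1)h)` is `0` for `t ≤ c h`, `t - c h` on the cell, `h` for `t ≥ (c+1) h`; so for
`s ≤ t` the difference `spl (n-1) t - spl (n-1) s` is `∑_c u c * |[s,t] ∩ cell c|`, of absolute value
`≤ t - s` if all `|u c| ≤ 1` (the functions `t ↦ pw 1 (t - c h) - pw 1 (t - (c+1) h)` are monotone and their
sum over `c < C` is `t` on `[0, C h]`).
-/

open Set

namespace Pool.Agent.LKI

theorem tay_hasDeriv (n : ℕ) (y : ℕ → ℝ) (j : ℕ) (hj : j + 1 ≤ n) (t : ℝ) :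
    HasDerivAt (tay n y j) (tay n y (j + 1) t) t := by
  obtain ⟨m, rfl⟩ : ∃ m, n = j + 1 + m := ⟨n - (j + 1), by omega⟩
  have h1 : tay (j + 1 + m) y j = fun t => (∑ i ∈ Finset.range m,
      y (j + (i + 1)) * t ^ (i + 1) / ((i + 1).factorial : ℝ)) + y j := by
    funext t
    unfold tay
    have h2 : j + 1 + m - j = m + 1 := by omega
    rw [h2, Finset.sum_range_succ']
    simp
  have h3 : tay (j + 1 + m) y (j + 1) t
      = ∑ i ∈ Finset.range m, y (j + 1 + i) * t ^ i / (i.factorial : ℝ) := by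
    unfold tay
    have h2 : j + 1 + m - (j + 1) = m := by omega
    rw [h2]
  rw [h1, h3]
  apply HasDerivAt.add_const
  apply HasDerivAt.fun_sum
  intro i _
  have h4 : HasDerivAt (fun t : ℝ => y (j + (i + 1)) * t ^ (i + 1) / ((i + 1).factorial : ℝ))
      (y (j + (i + 1)) * (((i + 1 : ℕ) : ℝ) * t ^ (i + 1 - 1)) / ((i + 1).factorial : ℝ)) t :=
    ((hasDerivAt_pow (i + 1) t).const_mul _).div_const _
  have h8 : y (j + 1 + i) * t ^ i / (i.factorial : ℝ)
      = y (j + (i + 1)) * (((i + 1 : ℕ) : ℝ) * t ^ (i + 1 - 1)) / ((i + 1).factorial : ℝ) := by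
    have h5 : j + (i + 1) = j + 1 + i := by omega
    rw [h5, Nat.add_sub_cancel, Nat.factorial_succ, Nat.cast_mul]
    have h6 : ((i + 1 : ℕ) : ℝ) ≠ 0 := Nat.cast_ne_zero.2 (Nat.succ_ne_zero i)
    have h7 : ((i.factorial : ℕ) : ℝ) ≠ 0 := Nat.cast_ne_zero.2 (Nat.factorial_ne_zero i)
    field_simp
  rw [h8]
  exact h4

theorem tay_zero (n : ℕ) (y : ℕ → ℝ) (j : ℕ) (hj : j < n) : tay n y j 0 = y j := by
  obtain ⟨m, hm⟩ : ∃ m, n - j = m + 1 := ⟨n - j - 1, by omega⟩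
  unfold tay
  rw [hm, Finset.sum_range_succ']
  simp

theorem tay_top (n : ℕ) (y : ℕ → ℝ) (hn : 1 ≤ n) (t : ℝ) : tay n y (n - 1) t = y (n - 1) := by
  have hm : n - (n - 1) = 1 := by omega
  unfold tay
  rw [hm]
  simp

theorem spl_hasDeriv (n C : ℕ) (h : ℝ) (y u : ℕ → ℝ) (j : ℕ) (hj : j + 1 < n) (t : ℝ) :
    HasDerivAt (spl n C h y u j) (spl n C h y u (j + 1) t) t := by
  obtain ⟨l, hl⟩ : ∃ l, n - (j + 1) = l := ⟨_, rfl⟩
  have hl1 : 1 ≤ l := by omega
  have hl2 : n - j = l + 1 := by omega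
  have h1 : spl n C h y u j = fun t => tay n y j t + ∑ c ∈ Finset.range C,
      u c * (pw (l + 1) (t - (c : ℝ) * h) - pw (l + 1) (t - ((c : ℝ) + 1) * h)) := by
    funext t
    unfold spl
    rw [hl2]
  have h2 : spl n C h y u (j + 1) t = tay n y (j + 1) t + ∑ c ∈ Finset.range C,
      u c * (pw l (t - (c : ℝ) * h) - pw l (t - ((c : ℝ) + 1) * h)) := by
    unfold spl
    rw [hl]
  rw [h1, h2]
  apply HasDerivAt.fun_add (tay_hasDeriv n y j hj.le t)
  apply HasDerivAt.fun_sum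
  intro c _
  apply HasDerivAt.const_mul
  exact (HasDerivAt.comp_sub_const t _ (pw_hasDeriv l hl1 _)).fun_sub
    (HasDerivAt.comp_sub_const t _ (pw_hasDeriv l hl1 _))

theorem spl_zero (n C : ℕ) (h : ℝ) (hh : 0 < h) (y u : ℕ → ℝ) (j : ℕ) (hj : j < n) :
    spl n C h y u j 0 = y j := by
  unfold spl
  rw [tay_zero n y j hj]
  have h1 : ∑ c ∈ Finset.range C,
      u c * (pw (n - j) (0 - (c : ℝ) * h) - pw (n - j) (0 - ((c : ℝ) + 1) * h)) = 0 := by
    apply Finset.sum_eq_zero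
    intro c _
    have h2 : ¬ (0 : ℝ) < 0 - (c : ℝ) * h := by
      have : (0 : ℝ) ≤ (c : ℝ) * h := by positivity
      linarith
    have h3 : ¬ (0 : ℝ) < 0 - ((c : ℝ) + 1) * h := by
      have : (0 : ℝ) ≤ ((c : ℝ) + 1) * h := by positivity
      linarith
    unfold pw
    rw [if_neg h2, if_neg h3]
    ring
  rw [h1, add_zero]

theorem a7_pw_one (x : ℝ) : pw 1 x = max x 0 := by
  unfold pw
  split_ifs with h
  · rw [max_eq_left h.le]
    simp
  · rw [max_eq_right (not_lt.1 h)]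

theorem a7_sub (n C : ℕ) (h : ℝ) (hn : 1 ≤ n) (y u : ℕ → ℝ) (s t : ℝ) :
    spl n C h y u (n - 1) t - spl n C h y u (n - 1) s = ∑ c ∈ Finset.range C,
      u c * ((max (t - (c : ℝ) * h) 0 - max (t - ((c : ℝ) + 1) * h) 0)
        - (max (s - (c : ℝ) * h) 0 - max (s - ((c : ℝ) + 1) * h) 0)) := by
  unfold spl
  rw [tay_top n y hn, tay_top n y hn]
  have hm : n - (n - 1) = 1 := by omega
  rw [hm]
  simp only [a7_pw_one]
  rw [add_sub_add_left_eq_sub, ← Finset.sum_sub_distrib]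
  apply Finset.sum_congr rfl
  intro c _
  ring

theorem spl_slope (n C : ℕ) (h : ℝ) (hh : 0 < h) (hn : 1 ≤ n) (y u : ℕ → ℝ) (c : ℕ) (hc : c < C)
    (s t : ℝ) (hs : s ∈ Icc ((c : ℝ) * h) (((c : ℝ) + 1) * h))
    (ht : t ∈ Icc ((c : ℝ) * h) (((c : ℝ) + 1) * h)) :
    spl n C h y u (n - 1) t - spl n C h y u (n - 1) s = u c * (t - s) := by
  rw [a7_sub n C h hn, Finset.sum_eq_single c]
  · rw [max_eq_left (sub_nonneg.2 ht.1), max_eq_left (sub_nonneg.2 hs.1),
      max_eq_right (sub_nonpos.2 ht.2), max_eq_right (sub_nonpos.2 hs.2)]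
    ring
  · intro d _ hd
    rcases lt_or_gt_of_ne hd with h1 | h1
    · have h2 : ((d : ℝ) + 1) ≤ c := by exact_mod_cast h1
      have h3 : ((d : ℝ) + 1) * h ≤ (c : ℝ) * h := mul_le_mul_of_nonneg_right h2 hh.le
      have h4 : (d : ℝ) * h ≤ ((d : ℝ) + 1) * h := by nlinarith
      rw [max_eq_left (by linarith [ht.1]), max_eq_left (by linarith [ht.1]),
        max_eq_left (by linarith [hs.1]), max_eq_left (by linarith [hs.1])]
      ring
    · have h2 : ((c : ℝ) + 1) ≤ d := by exact_mod_cast h1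
      have h3 : ((c : ℝ) + 1) * h ≤ (d : ℝ) * h := mul_le_mul_of_nonneg_right h2 hh.le
      have h4 : (d : ℝ) * h ≤ ((d : ℝ) + 1) * h := by nlinarith
      rw [max_eq_right (by linarith [ht.2]), max_eq_right (by linarith [ht.2]),
        max_eq_right (by linarith [hs.2]), max_eq_right (by linarith [hs.2])]
      ring
  · intro h1
    exact absurd (Finset.mem_range.2 hc) h1

theorem a7_mono (h : ℝ) (hh : 0 < h) (c : ℕ) {s t : ℝ} (hst : s ≤ t) :
    0 ≤ (max (t - (c : ℝ) * h) 0 - max (t - ((c : ℝ) + 1) * h) 0)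
        - (max (s - (c : ℝ) * h) 0 - max (s - ((c : ℝ) + 1) * h) 0) := by
  have h0 : ((c : ℝ) + 1) * h = (c : ℝ) * h + h := by ring
  rw [h0]
  rcases le_total (t - (c : ℝ) * h) 0 with h1 | h1
  · rw [max_eq_right h1, max_eq_right (by linarith : t - ((c : ℝ) * h + h) ≤ 0),
      max_eq_right (by linarith : s - (c : ℝ) * h ≤ 0),
      max_eq_right (by linarith : s - ((c : ℝ) * h + h) ≤ 0)]
    linarith
  · rcases le_total (t - ((c : ℝ) * h + h)) 0 with h2 | h2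
    · rw [max_eq_left h1, max_eq_right h2, max_eq_right (by linarith : s - ((c : ℝ) * h + h) ≤ 0)]
      have h3 : max (s - (c : ℝ) * h) 0 ≤ t - (c : ℝ) * h := max_le (by linarith) h1
      linarith
    · rw [max_eq_left h1, max_eq_left h2]
      have h3 : max (s - (c : ℝ) * h) 0 ≤ h + max (s - ((c : ℝ) * h + h)) 0 := by
        apply max_le
        · have := le_max_left (s - ((c : ℝ) * h + h)) 0
          linarith
        · have := le_max_right (s - ((c : ℝ) * h + h)) 0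
          linarith
      linarith

theorem a7_sum (C : ℕ) (h : ℝ) {t : ℝ} (ht : t ∈ Icc 0 ((C : ℝ) * h)) :
    ∑ c ∈ Finset.range C, (max (t - (c : ℝ) * h) 0 - max (t - ((c : ℝ) + 1) * h) 0) = t := by
  have h1 := Finset.sum_range_sub' (fun c : ℕ => max (t - (c : ℝ) * h) 0) C
  have h2 : ∑ c ∈ Finset.range C, (max (t - (c : ℝ) * h) 0 - max (t - ((c : ℝ) + 1) * h) 0)
      = ∑ i ∈ Finset.range C, (max (t - (i : ℝ) * h) 0 - max (t - ((i + 1 : ℕ) : ℝ) * h) 0) := by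
    apply Finset.sum_congr rfl
    intro c _
    push_cast
    rfl
  rw [h2, h1, max_eq_right (sub_nonpos.2 ht.2)]
  simp [ht.1]

theorem a7_lip (n C : ℕ) (h : ℝ) (hh : 0 < h) (hn : 1 ≤ n) (y u : ℕ → ℝ)
    (hu : ∀ c, c < C → |u c| ≤ 1) {s t : ℝ} (hs : s ∈ Icc 0 ((C : ℝ) * h))
    (ht : t ∈ Icc 0 ((C : ℝ) * h)) (hst : s ≤ t) :
    |spl n C h y u (n - 1) t - spl n C h y u (n - 1) s| ≤ t - s := by
  rw [a7_sub n C h hn]
  refine (Finset.abs_sum_le_sum_abs _ _).trans ?_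
  have h1 : ∑ c ∈ Finset.range C,
      |u c * ((max (t - (c : ℝ) * h) 0 - max (t - ((c : ℝ) + 1) * h) 0)
        - (max (s - (c : ℝ) * h) 0 - max (s - ((c : ℝ) + 1) * h) 0))|
      ≤ ∑ c ∈ Finset.range C,
      ((max (t - (c : ℝ) * h) 0 - max (t - ((c : ℝ) + 1) * h) 0)
        - (max (s - (c : ℝ) * h) 0 - max (s - ((c : ℝ) + 1) * h) 0)) := by
    apply Finset.sum_le_sum
    intro c hc
    have h2 := a7_mono h hh c hst
    rw [abs_mul, abs_of_nonneg h2]
    have h3 := hu c (Finset.mem_range.1 hc)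
    nlinarith
  refine h1.trans ?_
  rw [Finset.sum_sub_distrib, a7_sum C h ht, a7_sum C h hs]

theorem spl_jet (n C : ℕ) (h : ℝ) (hh : 0 < h) (hn : 1 ≤ n) (y u : ℕ → ℝ)
    (hu : ∀ c, c < C → |u c| ≤ 1) : IsJet n 1 (Icc 0 ((C : ℝ) * h)) (spl n C h y u) := by
  refine ⟨fun j hj t _ => (spl_hasDeriv n C h y u j hj t).hasDerivWithinAt, ?_⟩
  intro s hs t ht
  rw [one_mul]
  rcases le_total s t with hst | hst
  · rw [abs_sub_comm, abs_sub_comm s t, abs_of_nonneg (sub_nonneg.2 hst)]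
    exact a7_lip n C h hh hn y u hu hs ht hst
  · rw [abs_of_nonneg (sub_nonneg.2 hst)]
    exact a7_lip n C h hh hn y u hu ht hs hst

end Pool.Agent.LKI
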