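import Pool.Agent.LKI.A6
import Pool.Agent.LKI.A7

/-!
A8: the linear programme: maximise `- f'(0)` over the splines with mesh `h` and its certificate.

PROOF.  Apply `lp_duality` with `V = (Fin n → ℝ) × (Fin C → ℝ)` (pairs `(y, u)`, extended by `0` to functions on
`ℕ`), `ι = Fin (C+1) ⊕ Fin C`, `φ (inl i) (y,u) = spl n C h y u 0 (i h)`, `φ (inr c) (y,u) = u c` and
`ℓ (y,u) = - y 1` (`n ≥ 2`).  `spl` is linear in `(y,u)`.  Injectivity: if all `φ` vanish then `u = 0` and the
polynomial `∑_{i<n} y i t^i / i!` vanishes at the `C + 1 > n - 1` points `i h`, hence `y = 0`.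
Let `v = (y, u)` be the maximiser and `μ i`, `ν c` the coefficients.  Testing the identity
`- y' 1 = ∑_i μ i * spl y' u' 0 (i h) + ∑_c ν c * u' c` with
* `y' = e_l`, `u' = 0` (`l < n`): `-[l = 1] = ∑_i μ i (i h)^l / l!`; for `l = 0` this is `∑ μ i = 0`, and for
  `l ≥ 1` the right side is `Hf l 0` (the term `i = 0` vanishes, `pw l (i h) = (i h)^l / l!` for `i h > 0`);
* `y' = 0`, `u' = e_c`: `0 = ∑_i μ i (pw n (i h - c h) - pw n (i h - (c+1) h)) + ν c`, that is
  `ν c = Hf n ((c+1) h) - Hf n (c h)`.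
-/

open Set

namespace Pool.Agent.LKI

private noncomputable def extF (N : ℕ) (y : Fin N → ℝ) (i : ℕ) : ℝ := if hi : i < N then y ⟨i, hi⟩ else 0

private theorem extF_add (N : ℕ) (y z : Fin N → ℝ) (i : ℕ) :
    extF N (y + z) i = extF N y i + extF N z i := by
  unfold extF
  split_ifs <;> simp

private theorem extF_smul (N : ℕ) (a : ℝ) (y : Fin N → ℝ) (i : ℕ) :
    extF N (a • y) i = a * extF N y i := by
  unfold extF
  split_ifs <;> simp

private theorem spl_add' (n C : ℕ) (h : ℝ) (y y' u u' y'' u'' : ℕ → ℝ) (j : ℕ) (t : ℝ)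
    (hy : ∀ i, y'' i = y i + y' i) (hu : ∀ i, u'' i = u i + u' i) :
    spl n C h y'' u'' j t = spl n C h y u j t + spl n C h y' u' j t := by
  unfold spl tay
  have h1 : ∑ i ∈ Finset.range (n - j), y'' (j + i) * t ^ i / (i.factorial : ℝ) =
      ∑ i ∈ Finset.range (n - j), y (j + i) * t ^ i / (i.factorial : ℝ) +
      ∑ i ∈ Finset.range (n - j), y' (j + i) * t ^ i / (i.factorial : ℝ) := by
    rw [← Finset.sum_add_distrib]
    refine Finset.sum_congr rfl fun i _ => ?_
    rw [hy]; ring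
  have h2 : ∑ c ∈ Finset.range C,
      u'' c * (pw (n - j) (t - (c : ℝ) * h) - pw (n - j) (t - ((c : ℝ) + 1) * h)) =
      ∑ c ∈ Finset.range C,
      u c * (pw (n - j) (t - (c : ℝ) * h) - pw (n - j) (t - ((c : ℝ) + 1) * h)) +
      ∑ c ∈ Finset.range C,
      u' c * (pw (n - j) (t - (c : ℝ) * h) - pw (n - j) (t - ((c : ℝ) + 1) * h)) := by
    rw [← Finset.sum_add_distrib]
    refine Finset.sum_congr rfl fun i _ => ?_
    rw [hu]; ring
  rw [h1, h2]; ring

private theorem spl_smul' (n C : ℕ) (h : ℝ) (y u y'' u'' : ℕ → ℝ) (a : ℝ) (j : ℕ) (t : ℝ)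
    (hy : ∀ i, y'' i = a * y i) (hu : ∀ i, u'' i = a * u i) :
    spl n C h y'' u'' j t = a * spl n C h y u j t := by
  unfold spl tay
  rw [mul_add, Finset.mul_sum, Finset.mul_sum]
  congr 1
  · refine Finset.sum_congr rfl fun i _ => ?_
    rw [hy]; ring
  · refine Finset.sum_congr rfl fun i _ => ?_
    rw [hu]; ring

private noncomputable def phiL (n C : ℕ) (h : ℝ) (t : ℝ) :
    ((Fin n → ℝ) × (Fin C → ℝ)) →ₗ[ℝ] ℝ where
  toFun p := spl n C h (extF n p.1) (extF C p.2) 0 t
  map_add' p q := spl_add' n C h _ _ _ _ _ _ 0 t (fun i => extF_add n p.1 q.1 i)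
    (fun i => extF_add C p.2 q.2 i)
  map_smul' a p := spl_smul' n C h _ _ _ _ a 0 t (fun i => extF_smul n a p.1 i)
    (fun i => extF_smul C a p.2 i)

private theorem tay_inj {n C : ℕ} {h : ℝ} (hC : n ≤ C) (hh : 0 < h) (y : ℕ → ℝ)
    (hy : ∀ i : ℕ, i ≤ C → tay n y 0 ((i : ℝ) * h) = 0) : ∀ i, i < n → y i = 0 := by
  set p : Polynomial ℝ := ∑ i ∈ Finset.range n, Polynomial.monomial i (y i / (i.factorial : ℝ)) with hp
  have heval : ∀ t, p.eval t = tay n y 0 t := by
    intro t
    rw [hp, Polynomial.eval_finsetSum]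
    unfold tay
    rw [Nat.sub_zero]
    refine Finset.sum_congr rfl fun i _ => ?_
    rw [Polynomial.eval_monomial, zero_add]
    ring
  have hdeg : p.degree < n := by
    rw [hp]
    refine lt_of_le_of_lt (Polynomial.degree_sum_le _ _) ?_
    refine (Finset.sup_lt_iff (WithBot.bot_lt_coe n)).2 ?_
    intro i hi
    refine lt_of_le_of_lt (Polynomial.degree_monomial_le _ _) ?_
    exact WithBot.coe_lt_coe.2 (Finset.mem_range.mp hi)
  have hp0 : p = 0 := by
    refine Polynomial.eq_zero_of_degree_lt_of_eval_finset_eq_zero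
      ((Finset.range (C + 1)).image fun i : ℕ => (i : ℝ) * h) ?_ ?_
    · rw [Finset.card_image_of_injective]
      · refine lt_of_lt_of_le hdeg ?_
        rw [Finset.card_range]
        exact_mod_cast (by omega : n ≤ C + 1)
      · intro a b hab
        have : (a : ℝ) = b := mul_right_cancel₀ hh.ne' hab
        exact_mod_cast this
    · intro x hx
      obtain ⟨i, hi, rfl⟩ := Finset.mem_image.mp hx
      rw [heval]
      exact hy i (by have := Finset.mem_range.mp hi; omega)
  intro i hi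
  have hc : p.coeff i = 0 := by rw [hp0]; simp
  rw [hp, Polynomial.finsetSum_coeff] at hc
  rw [Finset.sum_eq_single i] at hc
  · rw [Polynomial.coeff_monomial, if_pos rfl] at hc
    have hf : ((i.factorial : ℕ) : ℝ) ≠ 0 := by exact_mod_cast Nat.factorial_ne_zero i
    exact (div_eq_zero_iff.mp hc).resolve_right hf
  · intro b _ hb
    rw [Polynomial.coeff_monomial, if_neg hb]
  · intro hni
    exact absurd (Finset.mem_range.mpr hi) hni

theorem certificate {n C : ℕ} {h : ℝ} (hn : 2 ≤ n) (hC : n ≤ C) (hh : 0 < h) :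
    ∃ y u μ ν : ℕ → ℝ, (∀ c, c < C → |u c| ≤ 1) ∧
      (∀ i, i ≤ C → |spl n C h y u 0 ((i : ℝ) * h)| ≤ 1) ∧
      ∑ i ∈ Finset.range (C + 1), μ i = 0 ∧ Hf h C μ 1 0 = -1 ∧
      (∀ l, 2 ≤ l → l < n → Hf h C μ l 0 = 0) ∧
      (∀ c, c < C → ν c = Hf h C μ n (((c : ℝ) + 1) * h) - Hf h C μ n ((c : ℝ) * h)) ∧
      (∀ i, i ≤ C → μ i * spl n C h y u 0 ((i : ℝ) * h) = |μ i|) ∧
      ∀ c, c < C → ν c * u c = |ν c| := by
  classical
  let φ : (Fin (C + 1) ⊕ Fin C) → ((Fin n → ℝ) × (Fin C → ℝ)) →ₗ[ℝ] ℝ :=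
    Sum.elim (fun i => phiL n C h ((i.1 : ℝ) * h)) (fun c => LinearMap.proj c ∘ₗ LinearMap.snd ℝ _ _)
  let ℓ : ((Fin n → ℝ) × (Fin C → ℝ)) →ₗ[ℝ] ℝ :=
    - (LinearMap.proj (⟨1, by omega⟩ : Fin n) ∘ₗ LinearMap.fst ℝ _ _)
  have hφl : ∀ (i : Fin (C + 1)) (p), φ (Sum.inl i) p =
      spl n C h (extF n p.1) (extF C p.2) 0 ((i.1 : ℝ) * h) := fun i p => rfl
  have hφr : ∀ (c : Fin C) (p), φ (Sum.inr c) p = p.2 c := fun c p => rfl
  have hℓ : ∀ p, ℓ p = - p.1 ⟨1, by omega⟩ := fun p => rfl
  have hinj : ∀ v, (∀ i, φ i v = 0) → v = 0 := by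
    intro v hv
    have hu : v.2 = 0 := by
      ext c
      exact hv (Sum.inr c)
    have hu' : ∀ c, extF C v.2 c = 0 := by
      intro c
      unfold extF
      split_ifs with hc
      · rw [hu]; rfl
      · rfl
    have ht : ∀ i : ℕ, i ≤ C → tay n (extF n v.1) 0 ((i : ℝ) * h) = 0 := by
      intro i hi
      have := hv (Sum.inl ⟨i, by omega⟩)
      rw [hφl] at this
      unfold spl at this
      rw [Finset.sum_eq_zero, add_zero] at this
      · exact this
      · intro c _
        rw [hu', zero_mul]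
    have hy := tay_inj hC hh _ ht
    refine Prod.ext ?_ hu
    ext i
    have := hy i.1 i.2
    unfold extF at this
    rw [dif_pos i.2] at this
    simpa using this
  obtain ⟨v, hv1, c, hc1, hc2⟩ := lp_duality φ hinj ℓ
  have extF_of : ∀ (N : ℕ) (y : Fin N → ℝ) (i : ℕ) (hi : i < N), extF N y i = y ⟨i, hi⟩ := by
    intro N y i hi
    unfold extF
    rw [dif_pos hi]
  set μ : ℕ → ℝ := extF (C + 1) (fun i => c (Sum.inl i)) with hμ
  set ν : ℕ → ℝ := extF C (fun i => c (Sum.inr i)) with hν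
  have key : ∀ (y' : Fin n → ℝ) (u' : Fin C → ℝ), - y' ⟨1, by omega⟩ =
      ∑ i ∈ Finset.range (C + 1), μ i * spl n C h (extF n y') (extF C u') 0 ((i : ℝ) * h) +
      ∑ k ∈ Finset.range C, ν k * extF C u' k := by
    intro y' u'
    have h1 := hc1 (y', u')
    rw [hℓ, Fintype.sum_sum_type] at h1
    rw [Finset.sum_range, Finset.sum_range]
    refine h1.trans ?_
    congr 1
    · refine Finset.sum_congr rfl fun i _ => ?_
      rw [hφl, hμ, extF_of (C + 1) _ i.1 i.2]
    · refine Finset.sum_congr rfl fun i _ => ?_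
      rw [hφr, hν, extF_of C _ i.1 i.2, extF_of C _ i.1 i.2]
  have ext0 : ∀ (N : ℕ) (i : ℕ), extF N 0 i = 0 := by
    intro N i
    unfold extF
    split_ifs <;> rfl
  have keyY : ∀ l (hl : l < n), -(if l = 1 then (1 : ℝ) else 0) =
      ∑ i ∈ Finset.range (C + 1), μ i * (((i : ℝ) * h) ^ l / (l.factorial : ℝ)) := by
    intro l hl
    have h1 := key (Pi.single ⟨l, hl⟩ 1) 0
    rw [Finset.sum_eq_zero (s := Finset.range C), add_zero] at h1
    · have h2 : (Pi.single (⟨l, hl⟩ : Fin n) (1 : ℝ) : Fin n → ℝ) ⟨1, by omega⟩ =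
          (if l = 1 then (1 : ℝ) else 0) := by
        rw [Pi.single_apply]
        simp only [Fin.mk.injEq]
        by_cases h : l = 1
        · rw [if_pos h, if_pos h.symm]
        · rw [if_neg h, if_neg (fun h' => h h'.symm)]
      rw [h2] at h1
      rw [h1]
      refine Finset.sum_congr rfl fun i _ => ?_
      congr 1
      unfold spl tay
      rw [Finset.sum_eq_zero (s := Finset.range C), add_zero, Nat.sub_zero,
        Finset.sum_eq_single l]
      · rw [zero_add, extF_of n _ l hl, Pi.single_eq_same, one_mul]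
      · intro b _ hbl
        have : extF n (Pi.single (⟨l, hl⟩ : Fin n) (1 : ℝ) : Fin n → ℝ) (0 + b) = 0 := by
          rw [zero_add]
          unfold extF
          split_ifs with hb
          · rw [Pi.single_apply, if_neg]
            intro h'
            exact hbl (by simpa using h')
          · rfl
        rw [this]; ring
      · intro h'
        exact absurd (Finset.mem_range.mpr hl) h'
      · intro k _
        rw [ext0, zero_mul]
    · intro k _
      rw [ext0, mul_zero]
  have hHf : ∀ l, 1 ≤ l → Hf h C μ l 0 =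
      ∑ i ∈ Finset.range (C + 1), μ i * (((i : ℝ) * h) ^ l / (l.factorial : ℝ)) := by
    intro l hl
    unfold Hf
    refine Finset.sum_congr rfl fun i _ => ?_
    congr 1
    unfold pw
    rw [sub_zero]
    split_ifs with hi
    · rfl
    · have hi0 : (i : ℝ) * h = 0 := by
        have : 0 ≤ (i : ℝ) * h := by positivity
        linarith
      rw [hi0, zero_pow (by omega), zero_div]
  refine ⟨extF n v.1, extF C v.2, μ, ν, ?_, ?_, ?_, ?_, ?_, ?_, ?_, ?_⟩
  · intro i hi
    have := hv1 (Sum.inr ⟨i, hi⟩)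
    rw [hφr] at this
    rw [extF_of C _ i hi]
    exact this
  · intro i hi
    have := hv1 (Sum.inl ⟨i, by omega⟩)
    rw [hφl] at this
    exact this
  · have h1 := keyY 0 (by omega)
    simp only [pow_zero, Nat.factorial_zero, Nat.cast_one, div_one, mul_one] at h1
    rw [← h1]; simp
  · rw [hHf 1 le_rfl, ← keyY 1 (by omega)]; simp
  · intro l hl hln
    rw [hHf l (by omega), ← keyY l hln, if_neg (by omega), neg_zero]
  · intro k hk
    have h1 := key 0 (Pi.single ⟨k, hk⟩ 1)
    have hz : ∀ i, extF C (Pi.single (⟨k, hk⟩ : Fin C) (1 : ℝ) : Fin C → ℝ) i =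
        if i = k then 1 else 0 := by
      intro i
      unfold extF
      split_ifs with h1 h2 h2
      · subst h2; exact Pi.single_eq_same _ _
      · rw [Pi.single_apply, if_neg]
        intro h'
        exact h2 (by simpa using h')
      · omega
      · rfl
    have h2 : ∑ i ∈ Finset.range C, ν i * extF C (Pi.single (⟨k, hk⟩ : Fin C) (1 : ℝ)) i = ν k := by
      rw [Finset.sum_eq_single k]
      · rw [hz, if_pos rfl, mul_one]
      · intro b _ hb
        rw [hz, if_neg hb, mul_zero]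
      · intro h'
        exact absurd (Finset.mem_range.mpr hk) h'
    rw [h2] at h1
    have h3 : ∑ i ∈ Finset.range (C + 1),
        μ i * spl n C h (extF n 0) (extF C (Pi.single (⟨k, hk⟩ : Fin C) (1 : ℝ))) 0 ((i : ℝ) * h) =
        Hf h C μ n ((k : ℝ) * h) - Hf h C μ n (((k : ℝ) + 1) * h) := by
      unfold Hf
      rw [← Finset.sum_sub_distrib]
      refine Finset.sum_congr rfl fun i _ => ?_
      rw [← mul_sub]
      congr 1
      unfold spl tay
      rw [Finset.sum_eq_zero (s := Finset.range (n - 0)), zero_add, Finset.sum_eq_single k]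
      · rw [hz, if_pos rfl, one_mul, Nat.sub_zero]
      · intro b _ hb
        rw [hz, if_neg hb, zero_mul]
      · intro h'
        exact absurd (Finset.mem_range.mpr hk) h'
      · intro b _
        rw [ext0, zero_mul, zero_div]
    rw [h3] at h1
    simp only [Pi.zero_apply, neg_zero] at h1
    linarith
  · intro i hi
    have := hc2 (Sum.inl ⟨i, by omega⟩)
    rw [hφl] at this
    rw [hμ, extF_of (C + 1) _ i (by omega)]
    exact this
  · intro k hk
    have := hc2 (Sum.inr ⟨k, hk⟩)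
    rw [hφr] at this
    rw [hν, extF_of C _ k hk, extF_of C _ k hk]
    exact this

end Pool.Agent.LKI
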