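import Pool.Agent.LKI.A3

/-!
A9a: vanishing of `Hf`.

`Hf_vanish`: if `Hf (n-1)` vanishes on the cell `[e h, (e+1) h]` then all `Hf l`, `l < n`, vanish at `e h`.
PROOF.  By downward induction on `l`, `Hf l = 0` on the half open cell `[e h, (e+1) h)`.  Step from `l + 1` to `l`
(`l + 1 ≤ n - 1`): if `l ≥ 1`, `Hf l` is continuous and `Hf (l+1)` has derivative `- Hf l`; if `Hf l x ≠ 0` for some `x`
in the half open cell, then `Hf l` has a constant strict sign on a small interval `[x, x']` inside the cell, on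
which `Hf (l+1)` would be strictly monotone (`Hf_mvt` or the mean value theorem), contradiction.
For `l = 0`: on the half open cell the set `{i : i h > s}` does not depend on `s` (it is `{i ≥ e+1}`), so `Hf 1` is affine
with slope `- Hf 0 (e h)` on `[e h, (e+1) h]`, and it vanishes there.

`Hf_last`: `Hf l (C h) = 0`: all `i h - C h ≤ 0`.
-/

open Set

namespace Pool.Agent.LKI

private theorem Hf_hasDeriv (h : ℝ) (m : ℕ) (μ : ℕ → ℝ) (l : ℕ) (hl : 1 ≤ l) (s : ℝ) :
    HasDerivAt (Hf h m μ (l + 1)) (- Hf h m μ l s) s := by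
  unfold Hf
  rw [← Finset.sum_neg_distrib]
  refine HasDerivAt.fun_sum fun i _ => ?_
  have h1 : HasDerivAt (fun s : ℝ => (i : ℝ) * h - s) (-1) s := by
    simpa using (hasDerivAt_id s).const_sub ((i : ℝ) * h)
  have h2 := ((pw_hasDeriv l hl ((i : ℝ) * h - s)).comp s h1).const_mul (μ i)
  refine h2.congr_deriv ?_
  ring

theorem Hf_vanish {n C e : ℕ} {h : ℝ} {μ : ℕ → ℝ} (hn : 2 ≤ n) (hh : 0 < h) (he : e < C)
    (h0 : ∀ s ∈ Icc ((e : ℝ) * h) (((e : ℝ) + 1) * h), Hf h C μ (n - 1) s = 0) :
    ∀ l, l < n → Hf h C μ l ((e : ℝ) * h) = 0 := by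
  have hlt : (e : ℝ) * h < ((e : ℝ) + 1) * h := by nlinarith
  have key : ∀ k, k ≤ n - 2 → ∀ s ∈ Icc ((e : ℝ) * h) (((e : ℝ) + 1) * h),
      Hf h C μ (n - 1 - k) s = 0 := by
    intro k
    induction k with
    | zero => intro _ s hs; simpa using h0 s hs
    | succ k ih =>
      intro hk s hs
      have ih' := ih (by omega)
      obtain ⟨l, hl⟩ : ∃ l, n - 1 - (k + 1) = l ∧ n - 1 - k = l + 1 ∧ 1 ≤ l :=
        ⟨n - 1 - (k + 1), rfl, by omega, by omega⟩
      rw [hl.2.1] at ih'
      rw [hl.1]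
      have hIoo : ∀ x ∈ Ioo ((e : ℝ) * h) (((e : ℝ) + 1) * h), Hf h C μ l x = 0 := by
        intro x hx
        have hd := Hf_hasDeriv h C μ l hl.2.2 x
        have hd' : HasDerivAt (Hf h C μ (l + 1)) 0 x := by
          refine (hasDerivAt_const x (0 : ℝ)).congr_of_eventuallyEq ?_
          filter_upwards [Ioo_mem_nhds hx.1 hx.2] with y hy
          exact ih' y (Ioo_subset_Icc_self hy)
        have := hd.unique hd'
        linarith
      have hcl : s ∈ closure (Ioo ((e : ℝ) * h) (((e : ℝ) + 1) * h)) := by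
        rw [closure_Ioo hlt.ne]; exact hs
      have hclosed : IsClosed {x | Hf h C μ l x = 0} :=
        isClosed_eq (Hf_cont h C μ l hl.2.2) continuous_const
      exact (closure_minimal (fun x hx => hIoo x hx) hclosed) hcl
  intro l hl
  rcases Nat.eq_zero_or_pos l with rfl | hl0
  · have h1 : ∀ s ∈ Icc ((e : ℝ) * h) (((e : ℝ) + 1) * h), Hf h C μ 1 s = 0 := by
      intro s hs
      have := key (n - 2) le_rfl s hs
      rwa [show n - 1 - (n - 2) = 1 by omega] at this
    have ha := h1 ((e : ℝ) * h) ⟨le_rfl, hlt.le⟩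
    have hb := h1 ((e : ℝ) * h + h / 2) ⟨by linarith, by nlinarith⟩
    have hdiff : Hf h C μ 1 ((e : ℝ) * h) - Hf h C μ 1 ((e : ℝ) * h + h / 2) =
        (h / 2) * Hf h C μ 0 ((e : ℝ) * h) := by
      unfold Hf
      rw [← Finset.sum_sub_distrib, Finset.mul_sum]
      refine Finset.sum_congr rfl fun i _ => ?_
      rw [← mul_sub]
      have : pw 1 ((i : ℝ) * h - (e : ℝ) * h) - pw 1 ((i : ℝ) * h - ((e : ℝ) * h + h / 2)) =
          (h / 2) * pw 0 ((i : ℝ) * h - (e : ℝ) * h) := by
        unfold pw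
        rcases Nat.lt_or_ge e i with hei | hei
        · have h3 : ((e : ℝ) + 1) ≤ i := by exact_mod_cast hei
          have h4 : ((e : ℝ) + 1) * h ≤ i * h := mul_le_mul_of_nonneg_right h3 hh.le
          have h5 : 0 < (i : ℝ) * h - (e : ℝ) * h := by linarith
          have h6 : 0 < (i : ℝ) * h - ((e : ℝ) * h + h / 2) := by linarith
          rw [if_pos h5, if_pos h6, if_pos h5]
          simp
        · have h3 : (i : ℝ) ≤ e := by exact_mod_cast hei
          have h4 : (i : ℝ) * h ≤ e * h := mul_le_mul_of_nonneg_right h3 hh.le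
          have h5 : ¬ 0 < (i : ℝ) * h - (e : ℝ) * h := by linarith
          have h6 : ¬ 0 < (i : ℝ) * h - ((e : ℝ) * h + h / 2) := by linarith
          rw [if_neg h5, if_neg h6, if_neg h5]
          simp
      rw [this]; ring
    rw [ha, hb, sub_self] at hdiff
    have h2 : h / 2 ≠ 0 := by positivity
    exact (mul_eq_zero.mp hdiff.symm).resolve_left h2
  · have := key (n - 1 - l) (by omega) ((e : ℝ) * h) ⟨le_rfl, hlt.le⟩
    rwa [show n - 1 - (n - 1 - l) = l by omega] at this

theorem Hf_last (C : ℕ) (h : ℝ) (hh : 0 < h) (μ : ℕ → ℝ) (l : ℕ) :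
    Hf h C μ l ((C : ℝ) * h) = 0 := by
  unfold Hf
  refine Finset.sum_eq_zero fun i hi => ?_
  have h3 : (i : ℝ) ≤ C := by
    exact_mod_cast Nat.lt_succ_iff.mp (Finset.mem_range.mp hi)
  have h4 : (i : ℝ) * h ≤ C * h := mul_le_mul_of_nonneg_right h3 hh.le
  unfold pw
  rw [if_neg (by linarith), mul_zero]

/-- `Hf n` is an antiderivative of `- Hf (n-1)`, and a weak sign of `- Hf (n-1)` on a cell which is not identically
zero gives a strict sign of the increment of `Hf n`. -/
theorem Hf_increment {n C : ℕ} {h : ℝ} {μ : ℕ → ℝ} (hn : 2 ≤ n) {a b δ : ℝ} (hab : a < b)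
    (hsign : ∀ s ∈ Ioo a b, 0 ≤ δ * (- Hf h C μ (n - 1) s))
    (hne : ∃ s ∈ Icc a b, Hf h C μ (n - 1) s ≠ 0) (hδ : δ ≠ 0) :
    0 < δ * (Hf h C μ n b - Hf h C μ n a) := by
  have hder : ∀ s, HasDerivAt (fun s => δ * Hf h C μ n s) (δ * (- Hf h C μ (n - 1) s)) s := by
    intro s
    have := Hf_hasDeriv h C μ (n - 1) (by omega) s
    rw [show n - 1 + 1 = n by omega] at this
    exact this.const_mul δ
  have hcont : Continuous (fun s => δ * Hf h C μ n s) :=
    continuous_iff_continuousAt.mpr fun s => (hder s).continuousAt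
  have hmono : MonotoneOn (fun s => δ * Hf h C μ n s) (Icc a b) := by
    refine monotoneOn_of_deriv_nonneg (convex_Icc a b) hcont.continuousOn
      (fun s _ => (hder s).differentiableAt.differentiableWithinAt) ?_
    intro s hs
    rw [interior_Icc] at hs
    rw [(hder s).deriv]
    exact hsign s hs
  have hab' := hmono (left_mem_Icc.mpr hab.le) (right_mem_Icc.mpr hab.le) hab.le
  simp only at hab'
  rcases hab'.lt_or_eq with hlt | heq
  · linarith
  · exfalso
    have hconst : ∀ x ∈ Icc a b, δ * Hf h C μ n x = δ * Hf h C μ n a := by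
      intro x hx
      have h1 := hmono (left_mem_Icc.mpr hab.le) hx hx.1
      have h2 := hmono hx (right_mem_Icc.mpr hab.le) hx.2
      simp only at h1 h2
      linarith
    have hIoo : ∀ x ∈ Ioo a b, Hf h C μ (n - 1) x = 0 := by
      intro x hx
      have hd' : HasDerivAt (fun s => δ * Hf h C μ n s) 0 x := by
        refine (hasDerivAt_const x (δ * Hf h C μ n a)).congr_of_eventuallyEq ?_
        filter_upwards [Ioo_mem_nhds hx.1 hx.2] with y hy
        exact hconst y (Ioo_subset_Icc_self hy)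
      have := (hder x).unique hd'
      have h3 := (mul_eq_zero.mp this).resolve_left hδ
      linarith
    obtain ⟨s, hs, hs0⟩ := hne
    apply hs0
    have hcl : s ∈ closure (Ioo a b) := by
      rw [closure_Ioo hab.ne]; exact hs
    have hclosed : IsClosed {x | Hf h C μ (n - 1) x = 0} :=
      isClosed_eq (Hf_cont h C μ (n - 1) (by omega)) continuous_const
    exact (closure_minimal (fun x hx => hIoo x hx) hclosed) hcl

end Pool.Agent.LKI
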