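import Pool.Agent.LKI.A4
import Pool.Agent.LKI.A5
import Pool.Agent.LKI.A8
import Pool.Agent.LKI.A9a

/-!
A9: approximate perfect splines on a mesh.

PROOF.  Take `y, u, μ, ν` from `certificate`, `F = spl n C h y u`, `K s = - Hf h C μ (n-1) s` (continuous).
(1) `e`: let `e` be the least integer `1 ≤ e ≤ C` such that `e = C` or `Hf (n-1) = 0` on `[e h, (e+1) h]`
(`Nat.find`).  Claim `Hf l (e h) = 0` for all `l < n`.  If `e = C` all `pw l (i h - C h)`, `i ≤ C`, vanish.
Otherwise, by downward induction on `l`, `Hf l = 0` on the half open cell `[e h, (e+1) h)`: for `l + 1 ≤ n - 1`, if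
`Hf (l+1) = 0` there, and `l ≥ 1`, its derivative `- Hf l` vanishes there (right derivative at `e h`; or
use `Hf_mvt`: if `Hf l x ≠ 0`, by continuity it has constant sign near `x` to the right, but `Hf (l+1)` is constant
there, while a function with derivative of constant sign is not constant); for `l = 0`:
`Hf 1` is affine on the cell with slope `- Hf 0`, `Hf 0` is constant on `[e h, (e+1) h)`.
(2) `b = e h`.  `first_sign`: `(-1)^n K > 0` on `(0, δ)`; so `Alt K (0,b) 0 ((-1)^n)`.  By `chain_mu` (with `m = C`),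
`Alt K (0,b) P ((-1)^n)` implies `P + n - 1 ≤ e` (strictly increasing indices).  Let `P` be the largest number with
`Alt K (0,b) P ((-1)^n)`, and `idx` the indices given by `chain_mu`; put `τ i = idx i * h`.  As
`(-1)^i μ (idx i) > 0` and `μ i * F 0 (i h) = |μ i|`, `F 0 (τ i) = (-1)^i`.
(3) `break_points` with `ρ = (-1)^n` gives `ξ` (`ξ (P+1) = b = e h ≤ C h`).
(4) Let `c < e` be a cell contained in `[ξ i, ξ (i+1)]`.  On the open cell `(-1)^(n+i) K ≥ 0`, and `K` is not
identically zero on the cell: for `c ≥ 1` by minimality of `e` (`c < e`, `c ≠ C`), for `c = 0` by `first_sign`.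
`Hf n` has derivative `- Hf (n-1) = K` (`n ≥ 2`), so `ν c = ∫_cell K` has the strict sign `(-1)^(n+i)`
(a nonneg continuous function with zero integral vanishes; or: `(-1)^(n+i) Hf n` is monotone on the cell, and not
constant), hence `u c = (-1)^(n+i)` because `ν c * u c = |ν c|`.
(5) Slopes: let `s ≤ t` in `[ξ i, ξ (i+1)]`.  Put `G t = F (n-1) t - (-1)^(n+i) t`.  On every cell contained in
`[ξ i, ξ (i+1)]` `G` is constant (`spl_slope`); the part of `[s,t]` not covered by such cells is contained in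
two cells (the cells containing `s` and `t`), and `G` is `2`-Lipschitz; so `|G t - G s| ≤ 4 h`.
Precisely: if `t - s ≤ 2 h` this is the Lipschitz bound; otherwise let `c₁ = ⌈s/h⌉`, `c₂ = ⌊t/h⌋`, `c₁ ≤ c₂`, and
`G (c₁ h) = G (c₂ h)`, `|G s - G (c₁ h)| ≤ 2 h`, `|G t - G (c₂ h)| ≤ 2 h`.  The case `t ≤ s` by symmetry.
-/

open Set

namespace Pool.Agent.LKI

private theorem neg_one_pow_sq' (k : ℕ) : ((-1 : ℝ) ^ k) * (-1) ^ k = 1 := by
  rw [← mul_pow]; simp

private theorem abs_neg_one_pow' (k : ℕ) : |(-1 : ℝ) ^ k| = 1 := by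
  rw [abs_pow, abs_neg, abs_one, one_pow]

/-- if `σ = (-1)^k`, `σ * x > 0` and `x * v = |x|` then `v = σ` -/
private theorem eq_sign {k : ℕ} {x v : ℝ} (hx : 0 < (-1) ^ k * x) (hv : x * v = |x|) :
    v = (-1) ^ k := by
  have h1 : |x| = (-1) ^ k * x := by
    rw [← abs_of_pos hx, abs_mul, abs_neg_one_pow', one_mul]
  have hx0 : x ≠ 0 := by
    rintro rfl; simp at hx
  rw [h1, mul_comm ((-1) ^ k) x] at hv
  exact mul_left_cancel₀ hx0 hv

private theorem idx_ge {idx : ℕ → ℕ} {N : ℕ} (h : ∀ i, i + 1 < N → idx i < idx (i + 1)) :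
    ∀ i, i < N → i ≤ idx i := by
  intro i
  induction i with
  | zero => intro _; exact Nat.zero_le _
  | succ i ih =>
    intro hi
    have := ih (by omega)
    have := h i hi
    omega

theorem mesh_exists {n C : ℕ} {h : ℝ} (hn : 2 ≤ n) (hC : n ≤ C) (hh : 0 < h) :
    ∃ (F : ℕ → ℝ → ℝ) (P : ℕ) (ξ τ : ℕ → ℝ), IsJet n 1 (Icc 0 ((C : ℝ) * h)) F ∧
      (∀ i : ℕ, i ≤ C → |F 0 ((i : ℝ) * h)| ≤ 1) ∧
      ξ 0 = 0 ∧ (∀ i, i ≤ P → ξ i ≤ ξ (i + 1)) ∧ ξ (P + 1) ≤ (C : ℝ) * h ∧
      (∀ i, i ≤ P → ∀ s ∈ Icc (ξ i) (ξ (i + 1)), ∀ t ∈ Icc (ξ i) (ξ (i + 1)),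
        |F (n - 1) t - F (n - 1) s - (-1) ^ (n + i) * (t - s)| ≤ 4 * h) ∧
      0 ≤ τ 0 ∧ (∀ i, i + 1 < P + n → τ i < τ (i + 1)) ∧ τ (P + n - 1) ≤ ξ (P + 1) ∧
      ∀ i, i < P + n → F 0 (τ i) = (-1) ^ i := by
  classical
  obtain ⟨y, u, μ, ν, hu, hF0, hsum, h1, hl, hν, hμF, hνu⟩ := certificate hn hC hh
  have hjet := spl_jet n C h hh (by omega) y u hu
  set F := spl n C h y u with hF
  obtain ⟨δ, hδ, hfirst⟩ := first_sign hn h1 hl
  -- the last cell
  have hex : ∃ e, 1 ≤ e ∧ (e = C ∨ (e < C ∧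
      ∀ s ∈ Icc ((e : ℝ) * h) (((e : ℝ) + 1) * h), Hf h C μ (n - 1) s = 0)) :=
    ⟨C, by omega, Or.inl rfl⟩
  obtain ⟨e, he1, heC, hevan, hmin⟩ : ∃ e, 1 ≤ e ∧ e ≤ C ∧
      (∀ l, l < n → Hf h C μ l ((e : ℝ) * h) = 0) ∧
      ∀ c, 1 ≤ c → c < e → ∃ s ∈ Icc ((c : ℝ) * h) (((c : ℝ) + 1) * h),
        Hf h C μ (n - 1) s ≠ 0 := by
    refine ⟨Nat.find hex, (Nat.find_spec hex).1, ?_, ?_, ?_⟩
    · rcases (Nat.find_spec hex).2 with h | h
      · exact h.le
      · exact h.1.le
    · rcases (Nat.find_spec hex).2 with h' | h'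
      · intro l _
        rw [h']
        exact Hf_last C h hh μ l
      · exact Hf_vanish hn hh h'.1 h'.2
    · intro c hc1 hce
      have hmin := Nat.find_min hex hce
      by_contra hcon
      push Not at hcon
      apply hmin
      refine ⟨hc1, ?_⟩
      rcases (Nat.find_spec hex).2 with h' | h'
      · exact Or.inr ⟨by omega, hcon⟩
      · exact Or.inr ⟨by omega, hcon⟩
  have he0 : (0 : ℝ) < e := by exact_mod_cast he1
  set b : ℝ := (e : ℝ) * h with hb
  have hb0 : 0 < b := mul_pos he0 hh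
  have hbC : b ≤ (C : ℝ) * h := mul_le_mul_of_nonneg_right (by exact_mod_cast heC) hh.le
  set K : ℝ → ℝ := fun s => - Hf h C μ (n - 1) s with hK
  have hchain : ∀ P, Alt K (Ioo 0 b) P ((-1) ^ n) → ∃ idx : ℕ → ℕ,
      (∀ i, i + 1 < P + n → idx i < idx (i + 1)) ∧
      ∀ i, i < P + n → idx i ≤ e ∧ 0 < (-1) ^ i * μ (idx i) := fun P hP =>
    chain_mu hh hn he1 heC hsum h1 hl hevan hP
  have hA0 : Alt K (Ioo 0 b) 0 ((-1) ^ n) := by
    have hm : 0 < min δ b := lt_min hδ hb0
    refine ⟨fun _ => min δ b / 2, fun i _ => ⟨by positivity, ?_⟩, fun i hi => by omega, ?_⟩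
    · have := min_le_right δ b; linarith
    · intro i hi
      obtain rfl : i = 0 := by omega
      rw [pow_zero, mul_one]
      exact hfirst _ ⟨by positivity, by have := min_le_left δ b; linarith⟩
  obtain ⟨P, hP, hP'⟩ : ∃ P, Alt K (Ioo 0 b) P ((-1) ^ n) ∧ ¬ Alt K (Ioo 0 b) (P + 1) ((-1) ^ n) := by
    by_contra hcon
    push Not at hcon
    have hall : ∀ P, Alt K (Ioo 0 b) P ((-1) ^ n) := by
      intro P
      induction P with
      | zero => exact hA0
      | succ P ih => exact hcon P ih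
    obtain ⟨idx, hi1, hi2⟩ := hchain (e + 1) (hall (e + 1))
    have h3 := idx_ge hi1 (e + 1) (by omega)
    have h4 := (hi2 (e + 1) (by omega)).1
    omega
  obtain ⟨idx, hi1, hi2⟩ := hchain P hP
  obtain ⟨ξ, hξ0, hξb, hξm, hξs⟩ := break_points (K := K) (ρ := (-1) ^ n) hb0 ⟨δ, hδ, hfirst⟩ hP'
  -- monotonicity of ξ
  have hξmono : ∀ k i, i + k ≤ P + 1 → ξ i ≤ ξ (i + k) := by
    intro k
    induction k with
    | zero => intro i _; exact le_rfl
    | succ k ih =>
      intro i hi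
      exact (ih i (by omega)).trans (by
        have := hξm (i + k) (by omega)
        simpa [add_assoc] using this)
  have hξnn : ∀ i, i ≤ P + 1 → 0 ≤ ξ i := by
    intro i hi
    have := hξmono i 0 (by omega)
    rw [hξ0, zero_add] at this
    exact this
  have hξle : ∀ i, i ≤ P + 1 → ξ i ≤ b := by
    intro i hi
    have := hξmono (P + 1 - i) i (by omega)
    rw [show i + (P + 1 - i) = P + 1 by omega, hξb] at this
    exact this
  -- the values u c
  have huc : ∀ i, i ≤ P → ∀ c : ℕ, ξ i ≤ (c : ℝ) * h → ((c : ℝ) + 1) * h ≤ ξ (i + 1) →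
      c < e ∧ u c = (-1) ^ (n + i) := by
    intro i hi c hc1 hc2
    have hce : c < e := by
      have h3 : ((c : ℝ) + 1) * h ≤ (e : ℝ) * h := hc2.trans (hξle (i + 1) (by omega))
      have h4 := le_of_mul_le_mul_right h3 hh
      have h5 : (c : ℝ) < e := by linarith
      exact_mod_cast h5
    refine ⟨hce, ?_⟩
    have hcell : (c : ℝ) * h < ((c : ℝ) + 1) * h := by nlinarith
    have hnz : ∃ s ∈ Icc ((c : ℝ) * h) (((c : ℝ) + 1) * h), Hf h C μ (n - 1) s ≠ 0 := by
      rcases Nat.eq_zero_or_pos c with rfl | hcpos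
      · have hm : 0 < min δ h := lt_min hδ hh
        refine ⟨min δ h / 2, ⟨by simp only [Nat.cast_zero, zero_mul]; positivity, ?_⟩, ?_⟩
        · have := min_le_right δ h
          simp only [Nat.cast_zero, zero_add, one_mul]
          linarith
        · have := hfirst (min δ h / 2) ⟨by positivity, by have := min_le_left δ h; linarith⟩
          intro h0
          rw [h0] at this
          simp at this
      · exact hmin c hcpos hce
    have hinc := Hf_increment (μ := μ) (C := C) (h := h) (δ := (-1) ^ (n + i)) hn hcell (by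
      intro s hs
      have := hξs i hi s ⟨lt_of_le_of_lt hc1 hs.1, lt_of_lt_of_le hs.2 hc2⟩
      rw [pow_add]
      exact this) hnz (by positivity)
    rw [← hν c (by omega)] at hinc
    exact eq_sign hinc (hνu c (by omega))
  -- slopes for s ≤ t
  have hslope : ∀ i, i ≤ P → ∀ s ∈ Icc (ξ i) (ξ (i + 1)), ∀ t ∈ Icc (ξ i) (ξ (i + 1)), s ≤ t →
      |F (n - 1) t - F (n - 1) s - (-1) ^ (n + i) * (t - s)| ≤ 4 * h := by
    intro i hi s hs t ht hst
    have hmem : ∀ x ∈ Icc (ξ i) (ξ (i + 1)), x ∈ Icc 0 ((C : ℝ) * h) := fun x hx =>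
      ⟨(hξnn i (by omega)).trans hx.1, hx.2.trans ((hξle (i + 1) (by omega)).trans hbC)⟩
    -- G is 2-Lipschitz
    have hG : ∀ x ∈ Icc (ξ i) (ξ (i + 1)), ∀ z ∈ Icc (ξ i) (ξ (i + 1)),
        |F (n - 1) x - F (n - 1) z - (-1) ^ (n + i) * (x - z)| ≤ 2 * |x - z| := by
      intro x hx z hz
      have h3 := hjet.lip x (hmem x hx) z (hmem z hz)
      rw [one_mul] at h3
      have h4 : |(-1) ^ (n + i) * (x - z)| = |x - z| := by
        rw [abs_mul, abs_neg_one_pow', one_mul]
      have h5 := abs_sub (F (n - 1) x - F (n - 1) z) ((-1) ^ (n + i) * (x - z))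
      rw [h4] at h5
      linarith
    by_cases hsmall : t - s ≤ 2 * h
    · refine (hG t ht s hs).trans ?_
      rw [abs_of_nonneg (by linarith)]
      linarith
    · push Not at hsmall
      have hs0 : 0 ≤ s := (hmem s hs).1
      have ht0 : 0 ≤ t := (hmem t ht).1
      have hc1 : s ≤ (⌈s / h⌉₊ : ℝ) * h := by
        rw [← div_le_iff₀ hh]; exact Nat.le_ceil _
      have hc1' : (⌈s / h⌉₊ : ℝ) * h < s + h := by
        have := Nat.ceil_lt_add_one (div_nonneg hs0 hh.le)
        rw [← lt_div_iff₀ hh]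
        calc (⌈s / h⌉₊ : ℝ) < s / h + 1 := this
          _ = (s + h) / h := by field_simp
      have hc2 : (⌊t / h⌋₊ : ℝ) * h ≤ t := by
        rw [← le_div_iff₀ hh]; exact Nat.floor_le (div_nonneg ht0 hh.le)
      have hc2' : t - h < (⌊t / h⌋₊ : ℝ) * h := by
        have := Nat.lt_floor_add_one (t / h)
        rw [div_lt_iff₀ hh] at this
        linarith
      set c₁ := ⌈s / h⌉₊ with hc₁
      set c₂ := ⌊t / h⌋₊ with hc₂
      have hc12 : c₁ ≤ c₂ := by
        have h3 : (c₁ : ℝ) * h < (c₂ : ℝ) * h := by linarith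
        have h4 := lt_of_mul_lt_mul_right h3 hh.le
        exact_mod_cast h4.le
      have hwalk : ∀ k : ℕ, c₁ + k ≤ c₂ →
          F (n - 1) (((c₁ + k : ℕ) : ℝ) * h) - F (n - 1) ((c₁ : ℝ) * h) =
            (-1) ^ (n + i) * ((k : ℝ) * h) := by
        intro k
        induction k with
        | zero => intro _; simp
        | succ k ih =>
          intro hk
          have ih' := ih (by omega)
          have ha : ξ i ≤ ((c₁ + k : ℕ) : ℝ) * h := by
            have h3 : (c₁ : ℝ) * h ≤ ((c₁ + k : ℕ) : ℝ) * h :=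
              mul_le_mul_of_nonneg_right (by push_cast; linarith [Nat.cast_nonneg (α := ℝ) k]) hh.le
            have := hs.1
            linarith
          have hb' : (((c₁ + k : ℕ) : ℝ) + 1) * h ≤ ξ (i + 1) := by
            have h3 : (((c₁ + k : ℕ) : ℝ) + 1) * h ≤ (c₂ : ℝ) * h := by
              refine mul_le_mul_of_nonneg_right ?_ hh.le
              exact_mod_cast (by omega : c₁ + k + 1 ≤ c₂)
            have := ht.2
            linarith
          obtain ⟨hce, hue⟩ := huc i hi (c₁ + k) ha hb'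
          have hcell : ((c₁ + k : ℕ) : ℝ) * h ≤ (((c₁ + k : ℕ) : ℝ) + 1) * h := by nlinarith
          have h5 := spl_slope n C h hh (by omega) y u (c₁ + k) (by omega)
            (((c₁ + k : ℕ) : ℝ) * h) ((((c₁ + k : ℕ) : ℝ) + 1) * h)
            ⟨le_rfl, hcell⟩ ⟨hcell, le_rfl⟩
          rw [hue] at h5
          have h6 : (((c₁ + (k + 1) : ℕ) : ℝ)) * h = (((c₁ + k : ℕ) : ℝ) + 1) * h := by
            push_cast; ring
          rw [h6]
          have h7 : F (n - 1) ((((c₁ + k : ℕ) : ℝ) + 1) * h) - F (n - 1) (((c₁ + k : ℕ) : ℝ) * h) =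
              (-1) ^ (n + i) * h := by
            rw [h5]; ring
          have h8 : F (n - 1) ((((c₁ + k : ℕ) : ℝ) + 1) * h) - F (n - 1) ((c₁ : ℝ) * h) =
              (-1) ^ (n + i) * h + (-1) ^ (n + i) * ((k : ℝ) * h) := by
            rw [← h7, ← ih']; ring
          rw [h8]; push_cast; ring
      have hw := hwalk (c₂ - c₁) (by omega)
      rw [show c₁ + (c₂ - c₁) = c₂ by omega, Nat.cast_sub hc12] at hw
      have hm1 : (c₁ : ℝ) * h ∈ Icc (ξ i) (ξ (i + 1)) :=
        ⟨hs.1.trans hc1, by have := ht.2; linarith⟩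
      have hm2 : (c₂ : ℝ) * h ∈ Icc (ξ i) (ξ (i + 1)) :=
        ⟨by have := hs.1; linarith, hc2.trans ht.2⟩
      have hg1 := hG ((c₁ : ℝ) * h) hm1 s hs
      have hg2 := hG t ht ((c₂ : ℝ) * h) hm2
      rw [abs_of_nonneg (by linarith : (0:ℝ) ≤ (c₁ : ℝ) * h - s)] at hg1
      rw [abs_of_nonneg (by linarith : (0:ℝ) ≤ t - (c₂ : ℝ) * h)] at hg2
      have hdec : F (n - 1) t - F (n - 1) s - (-1) ^ (n + i) * (t - s) =
          (F (n - 1) t - F (n - 1) ((c₂ : ℝ) * h) - (-1) ^ (n + i) * (t - (c₂ : ℝ) * h)) +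
          (F (n - 1) ((c₁ : ℝ) * h) - F (n - 1) s - (-1) ^ (n + i) * ((c₁ : ℝ) * h - s)) := by
        have : F (n - 1) ((c₂ : ℝ) * h) = F (n - 1) ((c₁ : ℝ) * h) +
            (-1) ^ (n + i) * (((c₂ : ℝ) - c₁) * h) := by linarith
        rw [this]; ring
      rw [hdec]
      refine (abs_add_le _ _).trans ?_
      linarith
  refine ⟨F, P, ξ, fun i => (idx i : ℝ) * h, hjet, hF0, hξ0, hξm, by rw [hξb]; exact hbC,
    ?_, ?_, ?_, ?_, ?_⟩
  · intro i hi s hs t ht
    rcases le_total s t with hst | hst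
    · exact hslope i hi s hs t ht hst
    · have := hslope i hi t ht s hs hst
      rw [← abs_neg] at this
      convert this using 2
      ring
  · positivity
  · intro i hi
    exact mul_lt_mul_of_pos_right (by exact_mod_cast hi1 i hi) hh
  · rw [hξb]
    exact mul_le_mul_of_nonneg_right (by exact_mod_cast (hi2 (P + n - 1) (by omega)).1) hh.le
  · intro i hi
    exact eq_sign (hi2 i hi).2 (hμF (idx i) ((hi2 i hi).1.trans heC))

end Pool.Agent.LKI
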