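import Pool.Agent.LKI.A7

/-!
E1: a polynomial direction.

`p t = tay n c 0 t = ∑_{i<n} c i t^i / i!` is the general polynomial of degree `< n`; `c k = p^(k)(0)`.

PROOF.  Let `m = Z.card ≤ n - 1`, `ω t = ∏_{z ∈ Z} (t - z)`.
If `m ≤ k` let `p₁ t = t^(k-m) ω t` (degree `k < n`); the coefficient of `t^k` is `1`.
If `m > k` let `p₁ = ω` (degree `m < n`); the coefficient of `t^k` is `(-1)^(m-k) e_{m-k}(Z)`, where `e_{m-k}`, the
elementary symmetric function of the nonnegative numbers `z ∈ Z`, is positive since at most one `z` is `0` and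
`m - k ≤ m - 1` (`k ≥ 1`): some product of `m - k` of the positive elements is positive and all products are
nonnegative.  (Alternative: all roots of `ω` are real and nonnegative, `ω(t) = ∏ (t - z)`; by induction on `Z` the
signs of the coefficients alternate.)
So the `k`-th derivative `A` of `p₁` at `0` is not `0` and `p₁` vanishes on `Z`.
Let `p₂` be the polynomial of degree `< m ≤ n - 1` with `p₂ z = - ε z` for `z ∈ Z` (Lagrange).
Put `p = (s / A) p₁ + ρ p₂` with `ρ > 0` so small that `ρ |p₂^(k)(0)| < 1` (`s = 1` or `-1`).  Then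
`s p^(k)(0) = 1 + ρ s p₂^(k)(0) > 0` and `ε z p z = - ρ (ε z)^2 < 0`.
-/

open Set

namespace Pool.Agent.LKI

private theorem coeff_sign (Z : Finset ℝ) : (∀ z ∈ Z, 0 < z) → ∀ k, k ≤ Z.card →
    0 < (-1 : ℝ) ^ (Z.card + k) * (∏ z ∈ Z, (Polynomial.X - Polynomial.C z)).coeff k := by
  classical
  induction Z using Finset.induction_on with
  | empty =>
    intro _ k hk
    simp at hk
    subst hk
    simp
  | insert a Z ha ih =>
    intro hpos k hk
    have hpos' : ∀ z ∈ Z, 0 < z := fun z hz => hpos z (Finset.mem_insert_of_mem hz)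
    have hapos : 0 < a := hpos a (Finset.mem_insert_self _ _)
    have ih' := ih hpos'
    rw [Finset.prod_insert ha]
    rw [Finset.card_insert_of_notMem ha] at hk ⊢
    set q := ∏ z ∈ Z, (Polynomial.X - Polynomial.C z) with hq
    have hdeg : q.natDegree = Z.card := by
      rw [hq]; exact Polynomial.natDegree_finsetProd_X_sub_C_eq_card Z (fun z : ℝ => z)
    rcases k with _ | k
    · have h0 := ih' 0 (Nat.zero_le _)
      have : ((Polynomial.X - Polynomial.C a) * q).coeff 0 = -a * q.coeff 0 := by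
        rw [Polynomial.mul_coeff_zero]; simp
      rw [this]
      have e : (-1 : ℝ) ^ (Z.card + 1 + 0) * (-a * q.coeff 0)
          = a * ((-1 : ℝ) ^ (Z.card + 0) * q.coeff 0) := by
        rw [Nat.add_zero, Nat.add_zero, pow_succ]; ring
      rw [e]; exact mul_pos hapos h0
    · have hc : ((Polynomial.X - Polynomial.C a) * q).coeff (k + 1)
          = q.coeff k - a * q.coeff (k + 1) := by
        rw [sub_mul, Polynomial.coeff_sub, Polynomial.coeff_X_mul, Polynomial.coeff_C_mul]
      rw [hc]
      have h1 := ih' k (by omega)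
      have e : (-1 : ℝ) ^ (Z.card + 1 + (k + 1)) * (q.coeff k - a * q.coeff (k + 1))
          = (-1 : ℝ) ^ (Z.card + k) * q.coeff k
            + a * ((-1 : ℝ) ^ (Z.card + (k + 1)) * q.coeff (k + 1)) := by
        have e1 : (-1 : ℝ) ^ (Z.card + 1 + (k + 1)) = (-1 : ℝ) ^ (Z.card + k) := by
          rw [show Z.card + 1 + (k + 1) = (Z.card + k) + 2 by ring, pow_add]; norm_num
        have e2 : (-1 : ℝ) ^ (Z.card + (k + 1)) = - (-1 : ℝ) ^ (Z.card + k) := by
          rw [show Z.card + (k + 1) = (Z.card + k) + 1 by ring, pow_succ]; ring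
        rw [e1, e2]; ring
      rw [e]
      rcases Nat.lt_or_ge Z.card (k + 1) with h | h
      · have : q.coeff (k + 1) = 0 := Polynomial.coeff_eq_zero_of_natDegree_lt (by omega)
        rw [this]; simpa using h1
      · exact add_pos h1 (mul_pos hapos (ih' (k + 1) h))

private theorem exists_p1 {n k : ℕ} (hk : 1 ≤ k) (hkn : k < n) (Z : Finset ℝ)
    (hZ0 : ∀ z ∈ Z, 0 ≤ z) (hZ : Z.card < n) :
    ∃ P : Polynomial ℝ, P.natDegree < n ∧ P.coeff k ≠ 0 ∧ ∀ z ∈ Z, P.eval z = 0 := by
  classical
  set ω : Polynomial ℝ := ∏ z ∈ Z, (Polynomial.X - Polynomial.C z) with hω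
  have hdeg : ω.natDegree = Z.card := by
    rw [hω]; exact Polynomial.natDegree_finsetProd_X_sub_C_eq_card Z (fun z : ℝ => z)
  have hmon : ω.Monic := by
    rw [hω]; exact Polynomial.monic_prod_of_monic _ _ (fun z _ => Polynomial.monic_X_sub_C z)
  have hev : ∀ z ∈ Z, ω.eval z = 0 := by
    intro z hz
    rw [hω, Polynomial.eval_prod]
    exact Finset.prod_eq_zero hz (by simp)
  rcases Nat.lt_or_ge k Z.card with h | h
  · refine ⟨ω, by omega, ?_, hev⟩
    by_cases h0 : (0 : ℝ) ∈ Z
    · set Z' := Z.erase 0 with hZ'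
      have hcard : Z'.card + 1 = Z.card := Finset.card_erase_add_one h0
      have hpos : ∀ z ∈ Z', 0 < z := fun z hz =>
        lt_of_le_of_ne (hZ0 z (Finset.mem_of_mem_erase hz)) (Ne.symm (Finset.ne_of_mem_erase hz))
      have e : ω = Polynomial.X * ∏ z ∈ Z', (Polynomial.X - Polynomial.C z) := by
        rw [hω, ← Finset.mul_prod_erase Z _ h0]; simp [hZ']
      obtain ⟨j, rfl⟩ : ∃ j, k = j + 1 := ⟨k - 1, by omega⟩
      rw [e, Polynomial.coeff_X_mul]
      have := coeff_sign Z' hpos j (by omega)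
      intro h0
      rw [h0, mul_zero] at this
      exact lt_irrefl _ this
    · have hpos : ∀ z ∈ Z, 0 < z := fun z hz =>
        lt_of_le_of_ne (hZ0 z hz) (fun e => h0 (e ▸ hz))
      have := coeff_sign Z hpos k h.le
      intro h0
      rw [← hω, h0, mul_zero] at this
      exact lt_irrefl _ this
  · refine ⟨Polynomial.X ^ (k - Z.card) * ω, ?_, ?_, ?_⟩
    · refine lt_of_le_of_lt Polynomial.natDegree_mul_le ?_
      rw [hdeg, Polynomial.natDegree_X_pow]; omega
    · have hk' : k = Z.card + (k - Z.card) := by omega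
      have : (Polynomial.X ^ (k - Z.card) * ω).coeff k = ω.coeff Z.card := by
        conv_lhs => rw [show k = Z.card + (k - Z.card) by omega]
        rw [show Z.card + (k - Z.card) - Z.card = k - Z.card by omega, Polynomial.coeff_X_pow_mul]
      rw [this, ← hdeg, hmon.coeff_natDegree]
      exact one_ne_zero
    · intro z hz
      rw [Polynomial.eval_mul, hev z hz, mul_zero]

theorem poly_dir {n k : ℕ} (hk : 1 ≤ k) (hkn : k < n) (Z : Finset ℝ) (hZ0 : ∀ z ∈ Z, 0 ≤ z)
    (hZ : Z.card < n) (ε : ℝ → ℝ) (hε : ∀ z ∈ Z, ε z ≠ 0) (s : ℝ) (hs : s = 1 ∨ s = -1) :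
    ∃ c : ℕ → ℝ, 0 < s * c k ∧ ∀ z ∈ Z, ε z * tay n c 0 z < 0 := by
  classical
  obtain ⟨p₁, hd1, hA, hz1⟩ := exists_p1 hk hkn Z hZ0 hZ
  set p₂ : Polynomial ℝ := Lagrange.interpolate Z id (fun z => - ε z) with hp2
  have hz2 : ∀ z ∈ Z, p₂.eval z = - ε z := by
    intro z hz
    have := Lagrange.eval_interpolate_at_node (s := Z) (v := (id : ℝ → ℝ)) (fun z => - ε z)
      (Function.injective_id.injOn) hz
    simpa [hp2] using this
  have hd2 : p₂.natDegree < n := by
    by_cases h0 : p₂ = 0
    · rw [h0]; simp; omega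
    · have hlt : p₂.degree < Z.card := by
        rw [hp2]; exact Lagrange.degree_interpolate_lt _ (Function.injective_id.injOn)
      have := (Polynomial.natDegree_lt_iff_degree_lt h0).mpr hlt
      omega
  set A := p₁.coeff k with hAdef
  set B := p₂.coeff k with hBdef
  set ρ : ℝ := 1 / (|B| + 1) with hρ
  have hB1 : 0 < |B| + 1 := by positivity
  have hρ0 : 0 < ρ := by rw [hρ]; positivity
  have hρB : ρ * |B| < 1 := by
    rw [hρ, one_div, inv_mul_lt_iff₀ hB1]; linarith
  set P : Polynomial ℝ := Polynomial.C (s / A) * p₁ + Polynomial.C ρ * p₂ with hP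
  have hdP : P.natDegree < n := by
    refine lt_of_le_of_lt (Polynomial.natDegree_add_le _ _) ?_
    rw [max_lt_iff]
    exact ⟨lt_of_le_of_lt (Polynomial.natDegree_C_mul_le _ _) hd1,
      lt_of_le_of_lt (Polynomial.natDegree_C_mul_le _ _) hd2⟩
  refine ⟨fun i => P.coeff i * (i.factorial : ℝ), ?_, ?_⟩
  · have hco : P.coeff k = s + ρ * B := by
      rw [hP, Polynomial.coeff_add, Polynomial.coeff_C_mul, Polynomial.coeff_C_mul, ← hAdef,
        ← hBdef, div_mul_cancel₀ _ hA]
    have hss : s * s = 1 := by rcases hs with h | h <;> rw [h] <;> norm_num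
    have habs : |s * (ρ * B)| < 1 := by
      rw [abs_mul, abs_mul, abs_of_pos hρ0]
      have : |s| = 1 := by rcases hs with h | h <;> rw [h] <;> norm_num
      rw [this, one_mul]; exact hρB
    have h1 : 0 < s * (s + ρ * B) := by
      have := (abs_lt.mp habs).1
      nlinarith
    have h2 : (0 : ℝ) < (k.factorial : ℝ) := by exact_mod_cast k.factorial_pos
    show 0 < s * (P.coeff k * (k.factorial : ℝ))
    rw [hco]
    have := mul_pos h1 h2
    linarith
  · intro z hz
    have htay : tay n (fun i => P.coeff i * (i.factorial : ℝ)) 0 z = P.eval z := by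
      unfold tay
      rw [Polynomial.eval_eq_sum_range' hdP]
      simp only [Nat.sub_zero, Nat.zero_add]
      refine Finset.sum_congr rfl (fun i _ => ?_)
      have : (i.factorial : ℝ) ≠ 0 := by exact_mod_cast i.factorial_ne_zero
      field_simp
    rw [htay, hP]
    simp only [Polynomial.eval_add, Polynomial.eval_mul, Polynomial.eval_C]
    rw [hz1 z hz, hz2 z hz]
    have : 0 < ε z * ε z := mul_self_pos.mpr (hε z hz)
    nlinarith [mul_pos hρ0 this]

end Pool.Agent.LKI
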