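import Pool.Agent.LKI.B1

/-!
E2: the Taylor polynomials of a jet at the points of an interval span all polynomials of degree `< n`, unless
the top derivative is constant.

The vector `R s`, `R s i = tay n (fun j => D j s) i (-s)` (`i < n`) is the vector of derivatives at `0` of the Taylor
polynomial `t ↦ tay n (fun j => D j s) 0 (t - s)` of `D` at `s`.

PROOF.  Let `V` be the span of the vectors `p - R s`, `s ∈ (b, b')`, in `Fin n → ℝ`.  It is enough to show
`V = ⊤` (then express `c` as a finite combination; `Submodule.mem_span` / `Finsupp` sums give `m`, `s`, `a`).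
Suppose not.  Then there is `λ ∈ (Fin n → ℝ)`, `λ ≠ 0`, orthogonal to `V`: `∑_i λ i R s i = κ` is constant on `(b, b')`.
Put `a j s = ∑_{i ≤ j} λ i (-s)^(j-i) / (j-i)!` (`j < n`).  Since
`tay n (D · s) i (-s) = ∑_{j = i}^{n-1} D j s (-s)^(j-i) / (j-i)!`, we have `∑_i λ i R s i = ∑_{j<n} D j s a j s`.
`a j` is a polynomial in `s` with `a j' = - a (j-1)` for `j ≥ 1`, `a 0' = 0`.
For `j ≤ n - 2`, `(D j a j)' = D (j+1) a j - D j a (j-1)`; the sum over `j ≤ n-2` telescopes to `D (n-1) a (n-2)`
(`0` if `n = 1`).  So with `w = D (n-1)`, `Ψ = ∑_{j ≤ n-2} D j a j`: `Ψ' = w a (n-2)`, `Ψ + w a (n-1) = κ` on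
`(b, b')`.
At a point `s` with `a (n-1) s ≠ 0`, `w = (κ - Ψ) / a (n-1)` near `s` is differentiable with
`w' a (n-1) = - Ψ' - w a (n-1)' = - w a (n-2) + w a (n-2) = 0` (for `n = 1`: `a 0` constant, `w = κ / a 0`).
So `w' = 0` wherever `a (n-1) ≠ 0`.  The polynomial `a (n-1)` is not zero: its iterated derivatives are
`± a j`, `j ≤ n-1`, and `a j = 0` for all `j` gives `λ j = 0` for all `j` (value at `s = 0`).  So `a (n-1)` has finitely many
zeros; `w` is continuous (Lipschitz), locally constant outside a finite set, hence constant on `(b, b')` and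
on `[b, b']`, a contradiction.
(To see the last step: `w` is continuous on `[b,b']` with right derivative `0` except at finitely many points;
e.g. induct over the finite set, or: the set where `w ≠ w(b)`..., or use
`constant_of_has_deriv_right_zero` on each of the finitely many intervals; or use that `w` is Lipschitz, so it maps
the finite set of zeros to a finite set and `w([b,b'])` is an interval which is at most countable.)
-/

open Set

namespace Pool.Agent.LKI

/-- `a j s = ∑_{i ≤ j} λ i (-s)^(j-i) / (j-i)!`. -/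
private noncomputable def aa (lam : ℕ → ℝ) (j : ℕ) (s : ℝ) : ℝ :=
  ∑ i ∈ Finset.range (j + 1), lam i * ((-s) ^ (j - i) / ((j - i).factorial : ℝ))

private noncomputable def bb (lam : ℕ → ℝ) (j : ℕ) (s : ℝ) : ℝ :=
  if j = 0 then 0 else aa lam (j - 1) s

private theorem aa_deriv (lam : ℕ → ℝ) (j : ℕ) (s : ℝ) :
    HasDerivAt (aa lam j) (-(bb lam j s)) s := by
  rcases j with _ | j
  · have : aa lam 0 = fun _ => lam 0 := by
      funext s; simp [aa]
    rw [this]
    simpa [bb] using hasDerivAt_const s (lam 0)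
  · have e : aa lam (j + 1) = fun s => (∑ i ∈ Finset.range (j + 1),
        lam i * ((-s) ^ (j + 1 - i) / ((j + 1 - i).factorial : ℝ))) + lam (j + 1) := by
      funext s
      unfold aa
      rw [Finset.sum_range_succ]
      simp
    rw [e]
    have hb : -(bb lam (j + 1) s) = (∑ i ∈ Finset.range (j + 1),
        lam i * (-((-s) ^ (j - i) / ((j - i).factorial : ℝ)))) + 0 := by
      simp [bb, aa]
    rw [hb]
    refine HasDerivAt.add (HasDerivAt.fun_sum (fun i hi => ?_)) (hasDerivAt_const _ _)
    have hij : i ≤ j := by have := Finset.mem_range.mp hi; omega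
    obtain ⟨m, hm⟩ : ∃ m, j - i = m := ⟨_, rfl⟩
    have hm1 : j + 1 - i = m + 1 := by omega
    rw [hm, hm1]
    refine HasDerivAt.const_mul _ ?_
    have h1 : HasDerivAt (fun s : ℝ => (-s) ^ (m + 1)) (((m + 1 : ℕ) : ℝ) * (-s) ^ m * (-1)) s := by
      have := (hasDerivAt_neg s).fun_pow (m + 1)
      simpa using this
    have h2 := h1.div_const (((m + 1).factorial : ℕ) : ℝ)
    refine h2.congr_deriv ?_
    have hf : ((m.factorial : ℕ) : ℝ) ≠ 0 := by exact_mod_cast m.factorial_ne_zero
    have hm0 : ((m : ℝ) + 1) ≠ 0 := by positivity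
    rw [Nat.factorial_succ]
    push_cast
    field_simp

private theorem psi_deriv {n : ℕ} {σ b b' : ℝ} {D : ℕ → ℝ → ℝ}
    (hD : IsJet n σ (Icc b b') D) (lam : ℕ → ℝ) {s : ℝ} (hs : s ∈ Ioo b b') :
    ∀ q, q + 1 ≤ n → HasDerivAt (fun t => ∑ j ∈ Finset.range q, D j t * aa lam j t)
      (D q s * bb lam q s) s := by
  intro q
  induction q with
  | zero => intro _; simpa [bb] using hasDerivAt_const s (0 : ℝ)
  | succ q ih =>
    intro hq
    have h1 := ih (by omega)
    have hDq : HasDerivAt (D q) (D (q + 1) s) s :=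
      (hD.hasDeriv q (by omega) s ⟨hs.1.le, hs.2.le⟩).hasDerivAt (Icc_mem_nhds hs.1 hs.2)
    have h2 := hDq.mul (aa_deriv lam q s)
    have h3 := h1.add h2
    have e : (fun t => ∑ j ∈ Finset.range (q + 1), D j t * aa lam j t)
        = (fun t => ∑ j ∈ Finset.range q, D j t * aa lam j t) + (D q * aa lam q) := by
      funext t; simp [Finset.sum_range_succ]
    rw [e]
    refine h3.congr_deriv ?_
    simp [bb]

private theorem aa_finite (lam : ℕ → ℝ) (m i₀ : ℕ) (hi₀ : i₀ ≤ m) (h : lam i₀ ≠ 0) :
    {s : ℝ | aa lam m s = 0}.Finite := by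
  classical
  set P : Polynomial ℝ := ∑ i ∈ Finset.range (m + 1),
    Polynomial.monomial (m - i) (lam i * ((-1) ^ (m - i) / ((m - i).factorial : ℝ))) with hP
  have hev : ∀ s, P.eval s = aa lam m s := by
    intro s
    rw [hP, Polynomial.eval_finsetSum]
    unfold aa
    refine Finset.sum_congr rfl (fun i _ => ?_)
    rw [Polynomial.eval_monomial, neg_pow s]
    ring
  have hne : P ≠ 0 := by
    intro h0
    have hc : P.coeff (m - i₀) = lam i₀ * ((-1) ^ (m - i₀) / ((m - i₀).factorial : ℝ)) := by
      rw [hP, Polynomial.finsetSum_coeff]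
      rw [Finset.sum_eq_single i₀]
      · rw [Polynomial.coeff_monomial, if_pos rfl]
      · intro i hi hne
        rw [Polynomial.coeff_monomial, if_neg]
        have := Finset.mem_range.mp hi
        omega
      · intro hn
        exact absurd (Finset.mem_range.mpr (by omega)) hn
    rw [h0, Polynomial.coeff_zero] at hc
    have hf : (((m - i₀).factorial : ℕ) : ℝ) ≠ 0 := by exact_mod_cast (m - i₀).factorial_ne_zero
    have : lam i₀ * ((-1) ^ (m - i₀) / ((m - i₀).factorial : ℝ)) ≠ 0 := by
      refine mul_ne_zero h (div_ne_zero (pow_ne_zero _ (by norm_num)) hf)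
    exact this hc.symm
  refine (P.roots.toFinset.finite_toSet).subset ?_
  intro s hs
  simp only [Finset.mem_coe, Multiset.mem_toFinset]
  rw [Polynomial.mem_roots hne, Polynomial.IsRoot.def, hev]
  exact hs

theorem span_taylor {n : ℕ} (hn : 1 ≤ n) {σ b b' : ℝ} (hbb : b < b') {D : ℕ → ℝ → ℝ}
    (hD : IsJet n σ (Icc b b') D) (hnc : ¬ ∀ t ∈ Icc b b', D (n - 1) t = D (n - 1) b)
    (p c : ℕ → ℝ) :
    ∃ (m : ℕ) (s a : ℕ → ℝ), (∀ r, r < m → s r ∈ Ioo b b') ∧
      ∀ i, i < n → ∑ r ∈ Finset.range m, a r * (p i - tay n (fun j => D j (s r)) i (-(s r))) = c i := by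
  classical
  set v : ℝ → (Fin n → ℝ) := fun s i => p i - tay n (fun j => D j s) i (-s) with hv
  set V : Submodule ℝ (Fin n → ℝ) := Submodule.span ℝ (v '' Ioo b b') with hV
  have htop : V = ⊤ := by
    by_contra hne
    obtain ⟨f, hf0, hfV⟩ := Submodule.exists_le_ker_of_lt_top V (lt_top_iff_ne_top.mpr hne)
    set lam : ℕ → ℝ := fun i => if h : i < n then f (fun j => if (⟨i, h⟩ : Fin n) = j then 1 else 0)
      else 0 with hlam
    have hfx : ∀ x : Fin n → ℝ, f x = ∑ i : Fin n, x i * lam i := by
      intro x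
      rw [LinearMap.pi_apply_eq_sum_univ f x]
      refine Finset.sum_congr rfl (fun i _ => ?_)
      rw [hlam]
      simp only [smul_eq_mul, i.2, dif_pos, Fin.eta]
    obtain ⟨i₀, hi₀, hl0⟩ : ∃ i₀, i₀ < n ∧ lam i₀ ≠ 0 := by
      by_contra hall
      push Not at hall
      apply hf0
      apply LinearMap.ext
      intro x
      rw [hfx]
      simp only [LinearMap.zero_apply]
      exact Finset.sum_eq_zero (fun i _ => by rw [hall i i.2, mul_zero])
    obtain ⟨m, rfl⟩ : ∃ m, n = m + 1 := ⟨n - 1, by omega⟩
    simp only [Nat.add_sub_cancel] at hnc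
    set κ : ℝ := ∑ i ∈ Finset.range (m + 1), p i * lam i with hκ
    have hrel : ∀ s ∈ Ioo b b', (∑ j ∈ Finset.range m, D j s * aa lam j s) + D m s * aa lam m s
        = κ := by
      intro s hs
      have h1 : f (v s) = 0 := hfV (Submodule.subset_span ⟨s, hs, rfl⟩)
      rw [hfx] at h1
      have h2 : ∑ i ∈ Finset.range (m + 1), (p i - tay (m + 1) (fun j => D j s) i (-s)) * lam i
          = 0 := by
        rw [Finset.sum_range]; exact h1
      simp only [sub_mul] at h2
      rw [Finset.sum_sub_distrib, sub_eq_zero] at h2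
      rw [hκ, h2, ← Finset.sum_range_succ (fun j => D j s * aa lam j s) m]
      have h3 := Finset.sum_range_diag_flip (m + 1)
        (fun i l => lam i * (D (i + l) s * (-s) ^ l / (l.factorial : ℝ)))
      have h4 : ∑ i ∈ Finset.range (m + 1), tay (m + 1) (fun j => D j s) i (-s) * lam i
          = ∑ i ∈ Finset.range (m + 1), ∑ l ∈ Finset.range (m + 1 - i),
            lam i * (D (i + l) s * (-s) ^ l / (l.factorial : ℝ)) := by
        refine Finset.sum_congr rfl (fun i _ => ?_)
        unfold tay
        rw [Finset.sum_mul]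
        refine Finset.sum_congr rfl (fun l _ => ?_)
        ring
      rw [h4, ← h3]
      refine Finset.sum_congr rfl (fun j _ => ?_)
      unfold aa
      rw [Finset.mul_sum]
      refine Finset.sum_congr rfl (fun i hi => ?_)
      have hij : i ≤ j := by have := Finset.mem_range.mp hi; omega
      rw [Nat.add_sub_cancel' hij]
      ring
    have hfin := aa_finite lam m i₀ (by omega) hl0
    have hder : ∀ s ∈ Ioo b b', s ∉ {s : ℝ | aa lam m s = 0} → HasDerivAt (D m) 0 s := by
      intro s hs hA
      simp only [mem_ofPred_eq] at hA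
      have hψ := psi_deriv hD lam hs m le_rfl
      have hAd := aa_deriv lam m s
      have hcont : ContinuousAt (aa lam m) s := hAd.continuousAt
      have hev : D m =ᶠ[nhds s] fun t =>
          (κ - ∑ j ∈ Finset.range m, D j t * aa lam j t) / aa lam m t := by
        filter_upwards [hcont.eventually_ne hA, Ioo_mem_nhds hs.1 hs.2] with t ht htI
        rw [eq_div_iff ht, ← hrel t htI]
        ring
      have h5 : HasDerivAt (fun t => κ - ∑ j ∈ Finset.range m, D j t * aa lam j t)
          (-(D m s * bb lam m s)) s := by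
        simpa using hψ.const_sub κ
      have h6 := h5.div hAd hA
      have h7 := h6.congr_of_eventuallyEq hev
      refine h7.congr_deriv ?_
      rw [← hrel s hs]
      have : (-(D m s * bb lam m s) * aa lam m s - (((∑ j ∈ Finset.range m, D j s * aa lam j s)
          + D m s * aa lam m s) - ∑ j ∈ Finset.range m, D j s * aa lam j s) * -bb lam m s) = 0 := by
        ring
      rw [this, zero_div]
    have hcontD : ContinuousOn (D m) (Icc b b') := by
      have hlip : ∀ s ∈ Icc b b', ∀ t ∈ Icc b b', |D m s - D m t| ≤ σ * |s - t| := by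
        intro s hs t ht
        have := hD.lip s hs t ht
        simpa using this
      have hσ : 0 ≤ σ := by
        have h := hlip b ⟨le_rfl, hbb.le⟩ b' ⟨hbb.le, le_rfl⟩
        have h2 : 0 < |b - b'| := abs_pos.mpr (by linarith)
        have h3 := (abs_nonneg (D m b - D m b')).trans h
        by_contra hneg
        push Not at hneg
        nlinarith
      have : LipschitzOnWith σ.toNNReal (D m) (Icc b b') := by
        refine LipschitzOnWith.of_dist_le_mul (fun x hx y hy => ?_)
        rw [Real.dist_eq, Real.dist_eq, Real.coe_toNNReal _ hσ]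
        exact hlip x hx y hy
      exact this.continuousOn
    apply hnc
    intro t ht
    have hint := MeasureTheory.integral_eq_of_hasDerivAt_off_countable_of_le (D m) (fun _ => (0 : ℝ))
      ht.1 hfin.countable (hcontD.mono (Icc_subset_Icc le_rfl ht.2))
      (fun x hx => hder x ⟨hx.1.1, lt_of_lt_of_le hx.1.2 ht.2⟩ hx.2)
      (by simp)
    simp only [intervalIntegral.integral_zero] at hint
    linarith
  have hc : (fun i : Fin n => c i) ∈ V := by rw [htop]; exact Submodule.mem_top
  rw [hV, Submodule.mem_span_set'] at hc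
  obtain ⟨m, f, g, hfg⟩ := hc
  have hg : ∀ r : Fin m, ∃ s ∈ Ioo b b', v s = (g r : Fin n → ℝ) := fun r => (g r).2
  choose s₀ hs₀ hvs using hg
  refine ⟨m, fun r => if h : r < m then s₀ ⟨r, h⟩ else 0, fun r => if h : r < m then f ⟨r, h⟩ else 0,
    ?_, ?_⟩
  · intro r hr
    simp only [hr, dif_pos]
    exact hs₀ _
  · intro i hi
    have h1 := congrFun hfg ⟨i, hi⟩
    rw [Finset.sum_range]
    simp only [Finset.sum_apply, Pi.smul_apply, smul_eq_mul] at h1
    rw [← h1]
    refine Finset.sum_congr rfl (fun r _ => ?_)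
    rw [← hvs r]
    simp only [r.2, dif_pos, Fin.eta]
    rfl

end Pool.Agent.LKI
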