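import Pool.Agent.LKI.E1
import Pool.Agent.LKI.E2
import Pool.Agent.LKI.E3

/-!
E4: the improvement lemmas.

`S` is `[0, L]` or `[0, ∞)`.

`improve`.  PROOF.  `D i = F1 i - F2 i`, `f = (F1 0 + F2 0) / 2`, `w = D (n-1)`, `b' = b + η`.
(1) On `[0, b]` the jet `D` is polynomial: `D j t = tay n p j t`, `p i = D i 0`, since `w` is constant on `[0, b]`
(downward induction on `j`: both sides have the same derivative and the same value at `0`).
(2) `ε z := f z` on `Z' = Z ∩ {contact points}`: first replace `Z` by the subset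
`Z' = {z ∈ Z | z ∈ [0,b] ∧ |f z| = 1}`; it has `< n` elements, all `≥ 0`.  `poly_dir` with `ε = f` gives `c` with
`0 < s c k` and `f z * tay n c 0 z < 0` for `z ∈ Z'`.
(3) `span_taylor` on `[b, b']` (`D` is a jet there with `σ = 2`) with this `p` and `c` gives `m`, `s_r ∈ (b, b')`, `a_r`
with `∑ a_r (p i - tay n (D · s_r) i (-s_r)) = c i` for `i < n`.
(4) `h j = ∑_r a_r cut n D s_r j`.  For `t ∈ [0, b]` (`t ≤ b < s_r`):
`h 0 t = ∑ a_r (tay n p 0 t - tay n (D · s_r) 0 (t - s_r)) = tay n c 0 t`, because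
`tay n y 0 (t - s) = tay n y' 0 t` with `y' i = tay n y i (-s)` (Taylor expansion of a polynomial of degree
`< n` about another point) and `tay` is linear in the coefficients.  Also `h k 0 = c k` (`k < n`).
(5) `F^ε j = (F1 j + F2 j) / 2 + ε h j` is a jet for small `ε > 0` (`perturb_jet`).  Bound: for `t ≥ b'`, `h 0 t = 0`.  On the
compact set `[0, b']` the contact points `|f t| = 1` are exactly the elements of `Z'` (`hZmem`), where
`f z h 0 z < 0`; by continuity there are `r > 0` and `κ > 0` such that for `t ∈ [0, b']`: either `f t h 0 t < 0` or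
`|f t| ≤ 1 - κ`.  (Otherwise there are `t_i` with `f t_i h 0 t_i ≥ 0`, `|f t_i| → 1`; a limit point contradicts the above;
or: the set `{t ∈ [0,b'] | f t h 0 t ≥ 0}` is compact and `|f| < 1` on it, so `|f| ≤ 1 - κ` on it.)  With
`ε ‖h 0‖ ≤ min(κ, 1)`: in the first case `|f + ε h| ≤ max(|f|, ε |h|) ≤ 1`, in the second `≤ 1 - κ + κ`.
(6) `s F^ε k 0 = s f^(k)(0) + ε s c k > s (F1 k 0 + F2 k 0) / 2`.
-/

open Set

namespace Pool.Agent.LKI

/-- `[0, L]` or `[0, ∞)` -/
def IsDom (S : Set ℝ) : Prop := S = Ici 0 ∨ ∃ L > 0, S = Icc 0 L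

namespace E4

theorem dom_conn {S : Set ℝ} (hS : IsDom S) : S.OrdConnected := by
  rcases hS with rfl | ⟨L, _, rfl⟩
  · exact ordConnected_Ici
  · exact ordConnected_Icc

theorem dom_zero {S : Set ℝ} (hS : IsDom S) : (0 : ℝ) ∈ S := by
  rcases hS with rfl | ⟨L, hL, rfl⟩
  · simp
  · exact ⟨le_rfl, hL.le⟩

theorem dom_nonneg {S : Set ℝ} (hS : IsDom S) {t : ℝ} (ht : t ∈ S) : 0 ≤ t := by
  rcases hS with rfl | ⟨L, hL, rfl⟩
  · exact ht
  · exact ht.1

/-- Taylor expansion about another point. -/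
theorem tay_shift (n : ℕ) (y : ℕ → ℝ) (s : ℝ) : ∀ d j : ℕ, n ≤ j + d → ∀ t : ℝ,
    tay n y j (t + s) = tay n (fun i => tay n y i s) j t := by
  intro d
  induction d with
  | zero =>
    intro j hj t
    have h0 : n - j = 0 := by omega
    simp [tay, h0]
  | succ d ih =>
    intro j hj t
    rcases Nat.lt_or_ge j n with hjn | hjn
    · have ih' := ih (j + 1) (by omega)
      have hd : ∀ x : ℝ, HasDerivAt (fun t => tay n y j (t + s) - tay n (fun i => tay n y i s) j t)
          0 x := by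
        intro x
        have h1 := (tay_hasDeriv n y j (by omega) (x + s)).comp_add_const x s
        have h2 := tay_hasDeriv n (fun i => tay n y i s) j (by omega) x
        have h3 := h1.sub h2
        rw [ih' x, sub_self] at h3
        exact h3
      have hc := is_const_of_deriv_eq_zero (fun x => (hd x).differentiableAt)
        (fun x => (hd x).deriv) t 0
      simp only [zero_add] at hc
      rw [tay_zero n (fun i => tay n y i s) j hjn, sub_self] at hc
      linarith
    · have h0 : n - j = 0 := by omega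
      simp [tay, h0]

/-- On an initial interval on which the top entry is constant a jet is polynomial. -/
theorem jet_poly {n : ℕ} {σ b : ℝ} {D : ℕ → ℝ → ℝ} (hb : 0 ≤ b)
    (hD : IsJet n σ (Icc 0 b) D) (hconst : ∀ t ∈ Icc 0 b, D (n - 1) t = D (n - 1) 0) :
    ∀ d j : ℕ, j + d + 1 = n → ∀ t ∈ Icc 0 b, D j t = tay n (fun i => D i 0) j t := by
  intro d
  induction d with
  | zero =>
    intro j hj t ht
    have h1 : j = n - 1 := by omega
    subst h1
    rw [tay_top n _ (by omega) t, hconst t ht]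
  | succ d ih =>
    intro j hj t ht
    have ih' := ih (j + 1) (by omega)
    have hderiv : ∀ x ∈ Icc 0 b, HasDerivWithinAt
        (fun x => D j x - tay n (fun i => D i 0) j x) 0 (Icc 0 b) x := by
      intro x hx
      have h1 := hD.hasDeriv j (by omega) x hx
      have h2 := (tay_hasDeriv n (fun i => D i 0) j (by omega) x).hasDerivWithinAt (s := Icc 0 b)
      have h3 := h1.sub h2
      rw [ih' x hx, sub_self] at h3
      exact h3
    have hc := constant_of_has_deriv_right_zero (a := 0) (b := b)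
      (fun x hx => (hderiv x hx).continuousWithinAt)
      (fun x hx => by
        have h1 := hderiv x ⟨hx.1, hx.2.le⟩
        refine h1.mono_of_mem_nhdsWithin ?_
        exact Filter.mem_of_superset (Icc_mem_nhdsGE hx.2) (Icc_subset_Icc_left hx.1)) t ht
    rw [tay_zero n (fun i => D i 0) j (by omega), sub_self] at hc
    linarith

theorem abs_add_le_of_neg {x y : ℝ} (h : x * y < 0) (hx : |x| ≤ 1) (hy : |y| ≤ 1) :
    |x + y| ≤ 1 := by
  rw [abs_le] at *
  rcases mul_neg_iff.1 h with ⟨h1, h2⟩ | ⟨h1, h2⟩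
  · constructor <;> linarith [hx.1, hx.2, hy.1, hy.2]
  · constructor <;> linarith [hx.1, hx.2, hy.1, hy.2]

/-- The bound argument: a continuous `f` of modulus at most one and a continuous direction `g` with
`f * g < 0` at the contact points. -/
theorem bound_arg {f g : ℝ → ℝ} {a b : ℝ} (hf : ContinuousOn f (Icc a b))
    (hg : ContinuousOn g (Icc a b)) (h1 : ∀ t ∈ Icc a b, |f t| ≤ 1)
    (h2 : ∀ t ∈ Icc a b, |f t| = 1 → f t * g t < 0) :
    ∃ ε₀ > 0, ∀ ε, 0 < ε → ε ≤ ε₀ → ∀ t ∈ Icc a b, |f t + ε * g t| ≤ 1 := by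
  have hK : IsCompact (Icc a b) := isCompact_Icc
  obtain ⟨M, hM⟩ := hK.exists_bound_of_continuousOn hg
  have hfg : ContinuousOn (fun t => f t * g t) (Icc a b) := hf.mul hg
  set A : Set ℝ := Icc a b ∩ (fun t => f t * g t) ⁻¹' (Ici 0) with hA
  have hAc : IsCompact A := by
    have hcl : IsClosed A := hfg.preimage_isClosed_of_isClosed isClosed_Icc isClosed_Ici
    exact hK.of_isClosed_subset hcl inter_subset_left
  obtain ⟨κ, hκ, hκA⟩ : ∃ κ > 0, ∀ t ∈ A, |f t| ≤ 1 - κ := by
    rcases A.eq_empty_or_nonempty with hAe | hAn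
    · exact ⟨1, one_pos, fun t ht => by rw [hAe] at ht; exact absurd ht (notMem_empty t)⟩
    · obtain ⟨t₀, ht₀, hmax⟩ := hAc.exists_isMaxOn hAn
        ((continuous_abs.comp_continuousOn hf).mono inter_subset_left)
      have hlt : |f t₀| < 1 := by
        rcases lt_or_eq_of_le (h1 t₀ ht₀.1) with h | h
        · exact h
        · exfalso
          have h3 := h2 t₀ ht₀.1 h
          have h4 : 0 ≤ f t₀ * g t₀ := ht₀.2
          linarith
      refine ⟨1 - |f t₀|, by linarith, fun t ht => ?_⟩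
      have : |f t| ≤ |f t₀| := hmax ht
      linarith
  have hM1 : (0 : ℝ) < |M| + 1 := by positivity
  refine ⟨min κ 1 / (|M| + 1), by positivity, fun ε hε hεle t ht => ?_⟩
  have hgM : |g t| ≤ |M| + 1 := by
    have := hM t ht
    rw [Real.norm_eq_abs] at this
    linarith [le_abs_self M]
  have hεg : ε * |g t| ≤ min κ 1 := by
    calc ε * |g t| ≤ (min κ 1 / (|M| + 1)) * (|M| + 1) :=
          mul_le_mul hεle hgM (abs_nonneg _) (by positivity)
      _ = min κ 1 := by field_simp
  have habs : |ε * g t| = ε * |g t| := by rw [abs_mul, abs_of_pos hε]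
  by_cases htA : t ∈ A
  · have h3 := hκA t htA
    have h4 := abs_add_le (f t) (ε * g t)
    have h5 := min_le_left κ 1
    rw [habs] at h4
    linarith
  · have h3 : f t * g t < 0 := by
      by_contra hcon
      exact htA ⟨ht, not_lt.1 hcon⟩
    apply abs_add_le_of_neg _ (h1 t ht) (by rw [habs]; exact hεg.trans (min_le_right _ _))
    have : f t * (ε * g t) = ε * (f t * g t) := by ring
    rw [this]
    exact mul_neg_of_pos_of_neg hε h3

/-- `tay` of a linear combination. -/
theorem tay_lin {n m : ℕ} (a : ℕ → ℝ) (p c : ℕ → ℝ) (q : ℕ → ℕ → ℝ)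
    (h : ∀ i, i < n → ∑ r ∈ Finset.range m, a r * (p i - q r i) = c i) (t : ℝ) :
    ∑ r ∈ Finset.range m, a r * (tay n p 0 t - tay n (q r) 0 t) = tay n c 0 t := by
  unfold tay
  simp only [Nat.sub_zero, zero_add]
  have h1 : ∀ r, a r * (∑ i ∈ Finset.range n, p i * t ^ i / (i.factorial : ℝ) -
      ∑ i ∈ Finset.range n, q r i * t ^ i / (i.factorial : ℝ)) =
      ∑ i ∈ Finset.range n, (a r * (p i - q r i)) * (t ^ i / (i.factorial : ℝ)) := by
    intro r
    rw [← Finset.sum_sub_distrib, Finset.mul_sum]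
    apply Finset.sum_congr rfl
    intro i _
    ring
  simp only [h1]
  rw [Finset.sum_comm]
  apply Finset.sum_congr rfl
  intro i hi
  rw [← Finset.sum_mul, h i (Finset.mem_range.1 hi)]
  ring

end E4

open E4

theorem improve {n k : ℕ} (hk : 1 ≤ k) (hkn : k < n) {S : Set ℝ} (hS : IsDom S)
    {F1 F2 : ℕ → ℝ → ℝ} (h1 : InW n S F1) (h2 : InW n S F2) {b η : ℝ} (hb0 : 0 ≤ b) (hη : 0 < η)
    (hbη : b + η ∈ S)
    (hconst : ∀ t ∈ Icc 0 b, F1 (n - 1) t - F2 (n - 1) t = F1 (n - 1) 0 - F2 (n - 1) 0)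
    (hnc : ¬ ∀ t ∈ Icc b (b + η), F1 (n - 1) t - F2 (n - 1) t = F1 (n - 1) b - F2 (n - 1) b)
    (Z : Finset ℝ) (hZ : Z.card < n)
    (hZmem : ∀ t ∈ Icc 0 (b + η), |(F1 0 t + F2 0 t) / 2| = 1 → t ∈ Z ∧ t ≤ b)
    (s : ℝ) (hs : s = 1 ∨ s = -1) :
    ∃ F, InW n S F ∧ s * ((F1 k 0 + F2 k 0) / 2) < s * F k 0 := by
  classical
  have hn : 1 ≤ n := by omega
  have hconn := dom_conn hS
  have h0S := dom_zero hS
  have hIcc : Icc 0 (b + η) ⊆ S := hconn.out h0S hbη
  have hIccb : Icc 0 b ⊆ S := (Icc_subset_Icc_right (by linarith)).trans hIcc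
  have hIccb' : Icc b (b + η) ⊆ S := (Icc_subset_Icc_left hb0).trans hIcc
  set D : ℕ → ℝ → ℝ := fun i x => F1 i x - F2 i x with hDdef
  have hD : IsJet n 2 S D := by
    have h := jet_comb (a₁ := 1) (a₂ := -1) h1.jet h2.jet
    have e1 : (fun (j : ℕ) (t : ℝ) => 1 * F1 j t + (-1) * F2 j t) = D := by
      funext j t
      simp only [hDdef]
      ring
    have e2 : |(1 : ℝ)| * 1 + |(-1 : ℝ)| * 1 = 2 := by norm_num
    rw [e1, e2] at h
    exact h
  set p : ℕ → ℝ := fun i => D i 0 with hp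
  have hpoly : ∀ t ∈ Icc 0 b, D 0 t = tay n p 0 t := by
    exact jet_poly hb0 (jet_mono hD hIccb) (fun t ht => hconst t ht) (n - 1) 0 (by omega)
  set f : ℝ → ℝ := fun t => (F1 0 t + F2 0 t) / 2 with hf
  set Z' : Finset ℝ := Z.filter (fun z => 0 ≤ z ∧ z ≤ b ∧ |f z| = 1) with hZ'
  obtain ⟨c, hck, hcz⟩ := poly_dir hk hkn Z'
    (fun z hz => (Finset.mem_filter.1 hz).2.1)
    (lt_of_le_of_lt (Finset.card_filter_le _ _) hZ) f
    (fun z hz h => by
      have h3 := (Finset.mem_filter.1 hz).2.2.2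
      rw [h] at h3
      simp at h3) s hs
  obtain ⟨m, sr, a, hsr, hspan⟩ := span_taylor hn (b := b) (b' := b + η) (by linarith)
    (jet_mono hD hIccb') hnc p c
  have hsrS : ∀ r, r < m → sr r ∈ S := fun r hr => hIccb' ⟨(hsr r hr).1.le, (hsr r hr).2.le⟩
  set h : ℕ → ℝ → ℝ := fun j t => ∑ r ∈ Finset.range m, a r * cut n D (sr r) j t with hh
  -- `h 0 = tay n c 0` on `[0, b]`
  have hh0 : ∀ t ∈ Icc 0 b, h 0 t = tay n c 0 t := by
    intro t ht
    have e : ∀ r ∈ Finset.range m, a r * cut n D (sr r) 0 t =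
        a r * (tay n p 0 t - tay n (fun i => tay n (fun j => D j (sr r)) i (-(sr r))) 0 t) := by
      intro r hr
      have hr' := hsr r (Finset.mem_range.1 hr)
      have hle : t ≤ sr r := ht.2.trans hr'.1.le
      have hsh := tay_shift n (fun j => D j (sr r)) (-(sr r)) n 0 (by omega) t
      rw [← hsh, ← hpoly t ht]
      simp only [cut, if_pos hle]
      rw [sub_eq_add_neg t]
    rw [hh]
    simp only
    rw [Finset.sum_congr rfl e]
    exact tay_lin a p c (fun r i => tay n (fun j => D j (sr r)) i (-(sr r))) hspan t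
  have hhk : h k 0 = c k := by
    rw [← hspan k hkn, hh]
    simp only
    apply Finset.sum_congr rfl
    intro r hr
    have hr' := hsr r (Finset.mem_range.1 hr)
    have hle : (0 : ℝ) ≤ sr r := hb0.trans hr'.1.le
    simp only [cut, if_pos hle, zero_sub, hp]
  have hhfar : ∀ t, b + η ≤ t → h 0 t = 0 := by
    intro t ht
    rw [hh]
    simp only
    apply Finset.sum_eq_zero
    intro r hr
    have hr' := hsr r (Finset.mem_range.1 hr)
    have hle : ¬ t ≤ sr r := by
      have := hr'.2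
      linarith
    simp only [cut, if_neg hle, mul_zero]
  -- continuity
  have hcont : ∀ (G : ℕ → ℝ → ℝ) (σ : ℝ), IsJet n σ S G → ContinuousOn (G 0) (Icc 0 (b + η)) := by
    intro G σ hG x hx
    exact ((hG.hasDeriv 0 (by omega) x (hIcc hx)).continuousWithinAt).mono hIcc
  have hfcont : ContinuousOn f (Icc 0 (b + η)) := by
    have c1 := hcont F1 1 h1.jet
    have c2 := hcont F2 1 h2.jet
    exact (c1.add c2).div_const 2
  have hhcont : ContinuousOn (h 0) (Icc 0 (b + η)) := by
    rw [hh]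
    apply continuousOn_finsetSum
    intro r hr
    have c1 := hcont (cut n D (sr r)) 2
      (cut_jet hn (by norm_num) hconn hD (hsrS r (Finset.mem_range.1 hr)))
    exact continuousOn_const.mul c1
  have hfle : ∀ t ∈ S, |f t| ≤ 1 := by
    intro t ht
    have b1 := abs_le.1 (h1.bdd t ht)
    have b2 := abs_le.1 (h2.bdd t ht)
    rw [abs_le]
    simp only [hf]
    constructor <;> linarith [b1.1, b1.2, b2.1, b2.2]
  obtain ⟨ε₀, hε₀, hbd⟩ := bound_arg hfcont hhcont (fun t ht => hfle t (hIcc ht)) (by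
    intro t ht hft
    obtain ⟨hz1, hz2⟩ := hZmem t ht hft
    rw [hh0 t ⟨ht.1, hz2⟩]
    exact hcz t (Finset.mem_filter.2 ⟨hz1, ht.1, hz2, hft⟩))
  set A : ℝ := ∑ r ∈ Finset.range m, |a r| with hA
  have hA0 : 0 ≤ A := Finset.sum_nonneg (fun r _ => abs_nonneg _)
  set ε : ℝ := min ε₀ (1 / (2 * (A + 1))) with hε
  have hεpos : 0 < ε := by
    rw [hε]
    exact lt_min hε₀ (by positivity)
  have hεA : 2 * |ε| * A ≤ 1 := by
    rw [abs_of_pos hεpos]
    have h3 : ε ≤ 1 / (2 * (A + 1)) := min_le_right _ _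
    have h4 : ε * (2 * (A + 1)) ≤ 1 := by
      rw [← le_div_iff₀ (by positivity)]
      exact h3
    nlinarith
  refine ⟨fun j t => (F1 j t + F2 j t) / 2 + ε * h j t, ⟨?_, ?_⟩, ?_⟩
  · exact perturb_jet hn hconn h1.jet h2.jet m sr a hsrS ε hεA
  · intro t ht
    rcases le_total t (b + η) with hle | hle
    · exact hbd ε hεpos (min_le_left _ _) t ⟨dom_nonneg hS ht, hle⟩
    · simp only [hhfar t hle, mul_zero, add_zero]
      exact hfle t ht
  · simp only [hhk]
    have : s * ((F1 k 0 + F2 k 0) / 2 + ε * c k) = s * ((F1 k 0 + F2 k 0) / 2) + ε * (s * c k) := by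
      ring
    rw [this]
    have := mul_pos hεpos hck
    linarith

end Pool.Agent.LKI
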