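import Pool.Agent.LKI.E4
import Pool.Agent.LKI.E4b

/-!
E5: uniqueness of extremal functions.

`half_unique`.  PROOF.  `D j = F1 j - F2 j`, `w = D (n-1)`, `p i = D i 0`.  Suppose `p j ≠ 0` for some `j < n`.
Let `A = {t ≥ 0 : w is constant on [0, t]}`, `0 ∈ A`.
Case 1: `A` is unbounded, i.e. `w` is constant on `[0, ∞)`.  Then `D 0 t = tay n p 0 t` for all `t ≥ 0`, a polynomial
bounded by `2`, hence constant: `p i = 0` for `i ≥ 1`, `D 0 = p 0 =: γ ≠ 0`, `|γ| ≤ 2`.  So the mean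
`f = (F1 + F2)/2` satisfies `|f 0 t| ≤ 1 - |γ| / 2` (`|F1 + F2| = 2 max(|F1|, |F2|) - |F1 - F2|` or
directly).  `f` is in the class (`jet_comb`), `s f k 0 = E > 0`; `improve_scale` gives a contradiction with `hE`.
(`k ≥ 1` so `F1 k 0 = F2 k 0` is consistent.)
Case 2: `b = sup A < ∞`; `w` is constant on `[0, b]` (continuity) and not constant on `[b, b + η]` for every `η > 0`.
`D 0 = tay n p 0` on `[0, b]`, a nonzero polynomial of degree `< n`.  At a contact point `t` of the mean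
(`|f 0 t| = 1`), `F1 0 t = F2 0 t = ± 1`, so `D 0 t = 0`, and if `t > 0` then `F1 1 t = F2 1 t = 0` (interior extremum;
`n ≥ 2`), in particular `D` vanishes there.  Let `Z` be the set of roots in `[0, b]` of the polynomial: `Z.card ≤ n - 1`.
(For `b = 0` the set of contact points in `[0,0]` is contained in `{0}`, take `Z = {0}`, `1 < n`.)
Claim: there is `η > 0` without contact points in `(b, b + η]`.  Otherwise there are zeros of `D 0` decreasing
to `b`; by Rolle (repeatedly) zeros of `D j` decreasing to `b` for every `j ≤ n - 1` (for `j = n-1` by Rolle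
applied to `D (n-2)`), hence `D j b = 0` for all `j < n` by continuity, and the polynomial `tay n p 0` on `[0,b]` has the zero jet
at `b` (`D j b = tay n p j b`), so `p = 0`, contradiction.
Now `improve` gives `F` in the class with `s F k 0 > E`.
-/

open Set

namespace Pool.Agent.LKI

/-- a jet with constant top derivative on `[0,b]` is its Taylor polynomial -/
theorem e5_poly {n : ℕ} {σ : ℝ} {S : Set ℝ} {D : ℕ → ℝ → ℝ} (hD : IsJet n σ S D) {b : ℝ}
    (hS : Icc 0 b ⊆ S) (hc : ∀ t ∈ Icc 0 b, D (n - 1) t = D (n - 1) 0) :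
    ∀ i j, j < n → n - 1 - j = i → ∀ t ∈ Icc 0 b, D j t = tay n (fun i => D i 0) j t := by
  intro i
  induction i with
  | zero =>
    intro j hj hi t ht
    have hj' : j = n - 1 := by omega
    subst hj'
    rw [tay_top n _ (by omega) t]
    exact hc t ht
  | succ i ih =>
    intro j hj hi t ht
    have ih' := ih (j + 1) (by omega) (by omega)
    have hder : ∀ x ∈ Icc 0 b, HasDerivWithinAt
        (fun x => D j x - tay n (fun i => D i 0) j x) 0 (Icc 0 b) x := by
      intro x hx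
      have h1 := (hD.hasDeriv j (by omega) x (hS hx)).mono hS
      have h2 := (tay_hasDeriv n (fun i => D i 0) j (by omega) x).hasDerivWithinAt (s := Icc 0 b)
      have h3 := h1.sub h2
      rw [ih' x hx, sub_self] at h3
      exact h3
    have hcont : ContinuousOn (fun x => D j x - tay n (fun i => D i 0) j x) (Icc 0 b) :=
      fun x hx => (hder x hx).continuousWithinAt
    have hr : ∀ x ∈ Ico 0 b, HasDerivWithinAt
        (fun x => D j x - tay n (fun i => D i 0) j x) 0 (Ici x) x := by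
      intro x hx
      refine (hder x ⟨hx.1, hx.2.le⟩).mono_of_mem_nhdsWithin ?_
      exact Filter.mem_of_superset (Icc_mem_nhdsGE hx.2) (Icc_subset_Icc_left hx.1)
    have h0 := constant_of_has_deriv_right_zero hcont hr t ht
    rw [tay_zero n (fun i => D i 0) j (by omega)] at h0
    simp only [sub_self] at h0
    linarith

/-- the polynomial behind `tay n p 0` -/
noncomputable def e5Pol (n : ℕ) (p : ℕ → ℝ) : Polynomial ℝ :=
  ∑ i ∈ Finset.range n, Polynomial.monomial i (p i / (i.factorial : ℝ))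

theorem e5_eval (n : ℕ) (p : ℕ → ℝ) (t : ℝ) : (e5Pol n p).eval t = tay n p 0 t := by
  unfold e5Pol tay
  rw [Polynomial.eval_finsetSum]
  simp only [Nat.sub_zero, Nat.zero_add, Polynomial.eval_monomial]
  refine Finset.sum_congr rfl fun i _ => ?_
  ring

theorem e5_coeff (n : ℕ) (p : ℕ → ℝ) (j : ℕ) (hj : j < n) :
    (e5Pol n p).coeff j = p j / (j.factorial : ℝ) := by
  unfold e5Pol
  rw [Polynomial.finsetSum_coeff]
  simp only [Polynomial.coeff_monomial]
  rw [Finset.sum_ite_eq' (Finset.range n) j]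
  simp [hj]

theorem e5_degree (n : ℕ) (p : ℕ → ℝ) : (e5Pol n p).degree < n := by
  unfold e5Pol
  refine (Polynomial.degree_sum_le _ _).trans_lt ?_
  refine (Finset.sup_lt_iff (WithBot.bot_lt_coe n)).2 ?_
  intro i hi
  exact (Polynomial.degree_monomial_le _ _).trans_lt
    (WithBot.coe_lt_coe.2 (Finset.mem_range.1 hi))

/-- a nonzero polynomial of degree `< n` has fewer than `n` roots -/
theorem e5_card {n : ℕ} {p : ℕ → ℝ} {j : ℕ} (hj : j < n) (hp : p j ≠ 0) :
    ∃ Z : Finset ℝ, Z.card < n ∧ ∀ t, tay n p 0 t = 0 → t ∈ Z := by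
  have hne : e5Pol n p ≠ 0 := by
    intro h0
    have h1 := e5_coeff n p j hj
    rw [h0, Polynomial.coeff_zero] at h1
    have h2 : (j.factorial : ℝ) ≠ 0 := by exact_mod_cast j.factorial_ne_zero
    exact hp (by
      field_simp at h1
      linarith)
  refine ⟨(e5Pol n p).roots.toFinset, ?_, ?_⟩
  · have h1 := (Multiset.toFinset_card_le (e5Pol n p).roots).trans (Polynomial.card_roots' _)
    have h2 := (Polynomial.natDegree_lt_iff_degree_lt hne).2 (e5_degree n p)
    omega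
  · intro t ht
    rw [Multiset.mem_toFinset, Polynomial.mem_roots hne, Polynomial.IsRoot.def, e5_eval]
    exact ht

theorem e5_cont {n : ℕ} (hn : 1 ≤ n) {σ : ℝ} {S : Set ℝ} {D : ℕ → ℝ → ℝ}
    (hD : IsJet n σ S D) (j : ℕ) (hj : j < n) : ContinuousOn (D j) S := by
  by_cases h : j + 1 < n
  · exact fun x hx => (hD.hasDeriv j h x hx).continuousWithinAt
  · have hj' : j = n - 1 := by omega
    subst hj'
    have : LipschitzOnWith (Real.toNNReal σ) (D (n - 1)) S := by
      refine LipschitzOnWith.of_dist_le_mul fun x hx y hy => ?_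
      rw [Real.dist_eq, Real.dist_eq]
      refine (hD.lip x hx y hy).trans ?_
      gcongr
      exact Real.le_coe_toNNReal σ
    exact this.continuousOn

/-- zeros accumulating at `b` from the right kill the jet at `b` -/
theorem e5_gap {n : ℕ} {σ : ℝ} {b b' : ℝ} {D : ℕ → ℝ → ℝ} (hb : b < b')
    (hD : IsJet n σ (Icc b b') D) {j₀ : ℕ} (hj₀ : j₀ < n) (hne : D j₀ b ≠ 0) :
    ∃ η > 0, b + η ≤ b' ∧ ∀ t ∈ Ioc b (b + η), D 0 t ≠ 0 := by
  by_contra hcon
  have key : ∀ j, j < n → ∀ η > 0, b + η ≤ b' → ∃ t ∈ Ioc b (b + η), D j t = 0 := by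
    intro j
    induction j with
    | zero =>
      intro _ η hη hle
      by_contra h
      refine hcon ⟨η, hη, hle, fun t ht h0 => h ⟨t, ht, h0⟩⟩
    | succ j ih =>
      intro hj η hη hle
      obtain ⟨t1, ht1, h1⟩ := ih (by omega) η hη hle
      obtain ⟨t2, ht2, h2⟩ := ih (by omega) ((t1 - b) / 2) (by linarith [ht1.1])
        (by linarith [ht1.1, ht1.2])
      have h21 : t2 < t1 := by linarith [ht2.2, ht1.1]
      have hsub : Icc t2 t1 ⊆ Icc b b' := Icc_subset_Icc ht2.1.le (ht1.2.trans hle)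
      have hc : ContinuousOn (D j) (Icc t2 t1) :=
        (e5_cont (by omega) hD j (by omega)).mono hsub
      obtain ⟨x, hx, hx0⟩ := exists_hasDerivAt_eq_zero (f := D j) (f' := D (j + 1)) h21 hc
        (by rw [h1, h2]) (fun x hx => (hD.hasDeriv j (by omega) x
          (hsub ⟨hx.1.le, hx.2.le⟩)).hasDerivAt
            (Icc_mem_nhds (lt_of_lt_of_le ht2.1 hx.1.le)
              (lt_of_lt_of_le hx.2 (ht1.2.trans hle))))
      exact ⟨x, ⟨ht2.1.trans hx.1, hx.2.le.trans ht1.2⟩, hx0⟩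
  apply hne
  have hc : ContinuousWithinAt (D j₀) (Icc b b') b :=
    e5_cont (by omega) hD j₀ hj₀ b ⟨le_rfl, hb.le⟩
  by_contra hne'
  rw [Metric.continuousWithinAt_iff] at hc
  obtain ⟨δ, hδ, hd⟩ := hc |D j₀ b| (abs_pos.2 hne')
  obtain ⟨t, ht, h0⟩ := key j₀ hj₀ (min (δ / 2) (b' - b)) (lt_min (by linarith) (by linarith))
    (by linarith [min_le_right (δ / 2) (b' - b)])
  have h1 : t ≤ b' := by linarith [ht.2, min_le_right (δ / 2) (b' - b)]
  have h2 : dist t b < δ := by
    rw [Real.dist_eq, abs_of_pos (by linarith [ht.1])]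
    linarith [ht.2, min_le_left (δ / 2) (b' - b)]
  have h3 := hd ⟨ht.1.le, h1⟩ h2
  rw [h0, Real.dist_eq, zero_sub, abs_neg] at h3
  exact lt_irrefl _ h3

/-- maximal interval of constancy -/
theorem e5_sup {w : ℝ → ℝ} {L : ℝ} (_hL : 0 < L) (hw : ContinuousOn w (Icc 0 L))
    (hnc : ¬ ∀ t ∈ Icc 0 L, w t = w 0) :
    ∃ b, 0 ≤ b ∧ b < L ∧ (∀ t ∈ Icc 0 b, w t = w 0) ∧
      ∀ η > 0, b + η ≤ L → ¬ ∀ t ∈ Icc b (b + η), w t = w b := by
  set A : Set ℝ := {t | t ∈ Icc 0 L ∧ w t ≠ w 0} with hA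
  have hAne : A.Nonempty := by
    by_contra h
    apply hnc
    intro t ht
    by_contra h'
    exact h ⟨t, ht, h'⟩
  have hbdd : BddBelow A := ⟨0, fun t ht => ht.1.1⟩
  have hb0 : 0 ≤ sInf A := le_csInf hAne fun t ht => ht.1.1
  have hbL : sInf A ≤ L := by
    obtain ⟨t, ht⟩ := hAne
    exact (csInf_le hbdd ht).trans ht.1.2
  have hlt : ∀ t, 0 ≤ t → t < sInf A → w t = w 0 := by
    intro t h0 h1
    by_contra h'
    exact absurd (csInf_le hbdd (a := t) ⟨⟨h0, h1.le.trans hbL⟩, h'⟩) (not_le.2 h1)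
  have hb : w (sInf A) = w 0 := by
    rcases hb0.eq_or_lt with h | h
    · rw [← h]
    · have hcl : sInf A ∈ closure (Ico 0 (sInf A)) := by
        rw [closure_Ico h.ne]
        exact ⟨hb0, le_rfl⟩
      have hcw : ContinuousWithinAt w (Ico 0 (sInf A)) (sInf A) :=
        (hw (sInf A) ⟨hb0, hbL⟩).mono fun x hx => ⟨hx.1, hx.2.le.trans hbL⟩
      have : (nhdsWithin (sInf A) (Ico 0 (sInf A))).NeBot := mem_closure_iff_nhdsWithin_neBot.1 hcl
      have h1 : Filter.Tendsto w (nhdsWithin (sInf A) (Ico 0 (sInf A))) (nhds (w 0)) := by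
        refine tendsto_const_nhds.congr' ?_
        filter_upwards [self_mem_nhdsWithin] with x hx
        exact (hlt x hx.1 hx.2).symm
      exact tendsto_nhds_unique hcw h1
  have hle : ∀ t ∈ Icc 0 (sInf A), w t = w 0 := by
    intro t ht
    rcases ht.2.eq_or_lt with h | h
    · rw [h, hb]
    · exact hlt t ht.1 h
  have hno : ∀ η > 0, sInf A + η ≤ L → ¬ ∀ t ∈ Icc (sInf A) (sInf A + η), w t = w (sInf A) := by
    intro η hη _ hc
    have h1 : sInf A + η ≤ sInf A := by
      refine le_csInf hAne fun t ht => ?_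
      by_contra h'
      rw [not_le] at h'
      apply ht.2
      rcases le_total t (sInf A) with h2 | h2
      · exact hle t ⟨ht.1.1, h2⟩
      · rw [hc t ⟨h2, h'.le⟩, hb]
    linarith
  refine ⟨sInf A, hb0, ?_, hle, hno⟩
  rcases hbL.eq_or_lt with h | h
  · exfalso
    rw [h] at hle
    exact hnc hle
  · exact h

/-- at a contact point of the mean the functions agree -/
theorem e5_contact {a b : ℝ} (ha : |a| ≤ 1) (hb : |b| ≤ 1) (h : |(a + b) / 2| = 1) : a = b := by
  rw [abs_le] at ha hb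
  rcases abs_cases ((a + b) / 2) with h1 | h1 <;> linarith [ha.1, ha.2, hb.1, hb.2, h1.1]

/-- difference of two elements of the class -/
theorem e5_diff {n : ℕ} {S : Set ℝ} {F1 F2 : ℕ → ℝ → ℝ} (h1 : InW n S F1) (h2 : InW n S F2) :
    IsJet n 2 S (fun j t => F1 j t - F2 j t) := by
  have h := jet_comb (a₁ := 1) (a₂ := -1) h1.jet h2.jet
  have e1 : (|(1 : ℝ)| * 1 + |(-1 : ℝ)| * 1) = 2 := by
    rw [abs_neg, abs_one]; norm_num
  rw [e1] at h
  have e2 : (fun (j : ℕ) (t : ℝ) => (1 : ℝ) * F1 j t + (-1) * F2 j t) =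
      fun j t => F1 j t - F2 j t := by
    funext j t; ring
  rw [e2] at h
  exact h

/-- the mean of two elements of the class -/
theorem e5_mean {n : ℕ} {S : Set ℝ} {F1 F2 : ℕ → ℝ → ℝ} (h1 : InW n S F1) (h2 : InW n S F2) :
    InW n S (fun j t => (F1 j t + F2 j t) / 2) := by
  have h := jet_comb (a₁ := 1 / 2) (a₂ := 1 / 2) h1.jet h2.jet
  have e1 : (|(1 / 2 : ℝ)| * 1 + |(1 / 2 : ℝ)| * 1) = 1 := by
    rw [abs_of_pos (by norm_num : (0 : ℝ) < 1 / 2)]; norm_num
  rw [e1] at h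
  have e2 : (fun (j : ℕ) (t : ℝ) => (1 / 2 : ℝ) * F1 j t + (1 / 2) * F2 j t) =
      fun j t => (F1 j t + F2 j t) / 2 := by
    funext j t; ring
  rw [e2] at h
  refine ⟨h, fun t ht => ?_⟩
  have a1 := abs_le.1 (h1.bdd t ht)
  have a2 := abs_le.1 (h2.bdd t ht)
  rw [abs_le]
  constructor <;> linarith [a1.1, a1.2, a2.1, a2.2]

/-- the improvement when the difference is not flat at `0` and not polynomial beyond `b` -/
theorem e5_improve {n k : ℕ} (hk : 1 ≤ k) (hkn : k < n) {S : Set ℝ} (hS : IsDom S)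
    {F1 F2 : ℕ → ℝ → ℝ} (h1 : InW n S F1) (h2 : InW n S F2) {b b' : ℝ} (hb0 : 0 ≤ b)
    (hbb : b < b') (hb' : Icc 0 b' ⊆ S)
    (hconst : ∀ t ∈ Icc 0 b, F1 (n - 1) t - F2 (n - 1) t = F1 (n - 1) 0 - F2 (n - 1) 0)
    (hnc : ∀ η > 0, b + η ≤ b' → ¬ ∀ t ∈ Icc b (b + η),
      F1 (n - 1) t - F2 (n - 1) t = F1 (n - 1) b - F2 (n - 1) b)
    {j₀ : ℕ} (hj₀ : j₀ < n) (hne : F1 j₀ 0 - F2 j₀ 0 ≠ 0)
    (s : ℝ) (hs : s = 1 ∨ s = -1) :
    ∃ F, InW n S F ∧ s * ((F1 k 0 + F2 k 0) / 2) < s * F k 0 := by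
  have hD := e5_diff h1 h2
  have hpoly := e5_poly hD (b := b) (fun x hx => hb' ⟨hx.1, hx.2.trans hbb.le⟩) hconst
  obtain ⟨Z, hZc, hZ⟩ := e5_card (n := n) (p := fun i => F1 i 0 - F2 i 0) hj₀ hne
  -- the jet at b is not zero
  have hbne : ∃ j, j < n ∧ F1 j b - F2 j b ≠ 0 := by
    by_contra hcon
    have hall : ∀ j, j < n → F1 j b - F2 j b = 0 := by
      intro j hj
      by_contra h
      exact hcon ⟨j, hj, h⟩
    -- all Taylor values vanish at `b`
    have hv : ∀ j, j < n → tay n (fun i => F1 i 0 - F2 i 0) j b = 0 := by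
      intro j hj
      rw [← hpoly (n - 1 - j) j hj rfl b ⟨hb0, le_rfl⟩]
      exact hall j hj
    -- downward induction: the coefficients vanish
    have hcoef : ∀ i j, j < n → n - 1 - j = i → F1 j 0 - F2 j 0 = 0 := by
      intro i
      induction i using Nat.strong_induction_on with
      | _ i ih =>
        intro j hj hi
        have h3 := hv j hj
        unfold tay at h3
        rw [show n - j = (n - j - 1) + 1 by omega, Finset.sum_range_succ'] at h3
        rw [Finset.sum_eq_zero] at h3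
        · simpa using h3
        · intro m hm
          rw [Finset.mem_range] at hm
          have h4 := ih (n - 1 - (j + (m + 1))) (by omega) (j + (m + 1)) (by omega) rfl
          simp only
          rw [h4]
          ring
    exact hne (hcoef (n - 1 - j₀) j₀ hj₀ rfl)
  obtain ⟨j₁, hj₁, hne₁⟩ := hbne
  obtain ⟨η, hη, hηb, hgap⟩ := e5_gap hbb
    (jet_mono hD (S' := Icc b b') (fun x hx => hb' ⟨hb0.trans hx.1, hx.2⟩)) hj₁ hne₁
  refine improve hk hkn hS h1 h2 hb0 hη (hb' ⟨by linarith, hηb⟩) hconst (hnc η hη hηb) Z hZc ?_ s hs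
  intro t ht habs
  have htS : t ∈ S := hb' ⟨ht.1, ht.2.trans hηb⟩
  have hct := e5_contact (h1.bdd t htS) (h2.bdd t htS) habs
  have htb : t ≤ b := by
    by_contra h
    rw [not_le] at h
    exact hgap t ⟨h, ht.2⟩ (sub_eq_zero.2 hct)
  refine ⟨hZ t ?_, htb⟩
  rw [← hpoly (n - 1 - 0) 0 (by omega) rfl t ⟨ht.1, htb⟩]
  exact sub_eq_zero.2 hct

theorem half_unique {n k : ℕ} (hk : 1 ≤ k) (hkn : k < n) {F1 F2 : ℕ → ℝ → ℝ}
    (h1 : InW n (Ici 0) F1) (h2 : InW n (Ici 0) F2) {E s : ℝ} (hs : s = 1 ∨ s = -1) (hE0 : 0 < E)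
    (hE : ∀ G, InW n (Ici 0) G → s * G k 0 ≤ E) (hF1 : s * F1 k 0 = E) (hF2 : s * F2 k 0 = E) :
    ∀ j, j < n → F1 j 0 = F2 j 0 := by
  intro j₀ hj₀
  by_contra hne0
  have hne : F1 j₀ 0 - F2 j₀ 0 ≠ 0 := fun h => hne0 (sub_eq_zero.1 h)
  have hmean : s * ((F1 k 0 + F2 k 0) / 2) = E := by
    have : s * ((F1 k 0 + F2 k 0) / 2) = (s * F1 k 0 + s * F2 k 0) / 2 := by ring
    rw [this, hF1, hF2]; ring
  have hD := e5_diff h1 h2
  by_cases hall : ∀ t, 0 ≤ t → F1 (n - 1) t - F2 (n - 1) t = F1 (n - 1) 0 - F2 (n - 1) 0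
  · -- the difference is a bounded polynomial
    have hpoly : ∀ t, 0 ≤ t → F1 0 t - F2 0 t = tay n (fun i => F1 i 0 - F2 i 0) 0 t := by
      intro t ht
      exact e5_poly hD (b := t) (fun x hx => hx.1) (fun x hx => hall x hx.1) (n - 1 - 0) 0
        (by omega) rfl t ⟨ht, le_rfl⟩
    set P := e5Pol n (fun i => F1 i 0 - F2 i 0) with hP
    have hbdd : Filter.IsBoundedUnder (· ≤ ·) Filter.atTop fun x => |P.eval x| := by
      refine ⟨2, ?_⟩
      rw [Filter.eventually_map]
      filter_upwards [Filter.eventually_ge_atTop (0 : ℝ)] with x hx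
      rw [hP, e5_eval, ← hpoly x hx]
      have a1 := abs_le.1 (h1.bdd x hx)
      have a2 := abs_le.1 (h2.bdd x hx)
      rw [abs_le]
      constructor <;> linarith [a1.1, a1.2, a2.1, a2.2]
    have hdeg := (Polynomial.isBoundedUnder_abs_atTop_iff P).1 hbdd
    have hPC := Polynomial.eq_C_of_degree_le_zero hdeg
    have hj0 : j₀ = 0 := by
      by_contra hj
      have h3 := e5_coeff n (fun i => F1 i 0 - F2 i 0) j₀ hj₀
      rw [← hP, hPC, Polynomial.coeff_C, if_neg hj] at h3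
      have h2' : (j₀.factorial : ℝ) ≠ 0 := by exact_mod_cast j₀.factorial_ne_zero
      apply hne
      field_simp at h3
      linarith
    subst hj0
    have hconst : ∀ t, 0 ≤ t → F1 0 t - F2 0 t = F1 0 0 - F2 0 0 := by
      intro t ht
      rw [hpoly t ht, hpoly 0 le_rfl, ← e5_eval, ← e5_eval, ← hP, hPC]
      simp
    obtain ⟨F', hF', hlt⟩ := improve_scale (s := s) hkn (e5_mean h1 h2)
      (δ := |F1 0 0 - F2 0 0| / 2) (by positivity)
      (by
        intro t ht
        have h3 := hconst t ht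
        have a1 := abs_le.1 (h1.bdd t ht)
        have a2 := abs_le.1 (h2.bdd t ht)
        rcases abs_cases (F1 0 0 - F2 0 0) with h4 | h4 <;>
          rw [h4.1, abs_le] <;> constructor <;> linarith [a1.1, a1.2, a2.1, a2.2])
      (by
        rw [hmean]; exact hE0)
    rw [hmean] at hlt
    exact absurd (hE F' hF') (not_le.2 hlt)
  · push Not at hall
    obtain ⟨t0, ht0, hne1⟩ := hall
    have ht0' : 0 < t0 := by
      rcases ht0.eq_or_lt with h | h
      · exfalso; rw [← h] at hne1; exact hne1 rfl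
      · exact h
    have hcw : ContinuousOn (fun t => F1 (n - 1) t - F2 (n - 1) t) (Icc 0 t0) :=
      (e5_cont (by omega) hD (n - 1) (by omega)).mono fun x hx => hx.1
    obtain ⟨b, hb0, hbL, hc1, hc2⟩ := e5_sup ht0' hcw
      (fun h => hne1 (h t0 ⟨ht0, le_rfl⟩))
    obtain ⟨F, hF, hlt⟩ := e5_improve hk hkn (Or.inl rfl) h1 h2 hb0 hbL
      (fun x hx => hx.1) hc1 hc2 hj₀ hne s hs
    rw [hmean] at hlt
    exact absurd (hE F hF) (not_le.2 hlt)

end Pool.Agent.LKI
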