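import Pool.Agent.LKI.E4

/-!
F1: the case `k = n - 1`: an explicit modification near the end point.

PROOF of `end_mod`.  Let `ε = -1` if `G (n-1) x ≥ 0` and `ε = 1` otherwise.  Let `y i = G i x` (`i < n`) and
`Q j t = tay n y j (t - x) + ε (t - x)^(n-j) / (n-j)!` (`j < n`), the polynomial of degree `n` with the jet of `G`
at `x` and `n`-th derivative `ε`.  Put `H j t = G j t` for `t ≥ x` and `H j t = Q j t` for `t < x`.  `H` is a jet on `S`
(at `x` both sides have the same values `G j x`, and the same one-sided derivatives `G (j+1) x`), and `H (n-1)` is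
`1`-Lipschitz (on `[0, x]` it is affine with slope `ε`; glue at `x`).
For `t ∈ [0, x]`: `|H 0 t - G 0 t| ≤ 2 (x - t)^n / n! ≤ 2 x^n / n!`: the jet `H - G` is `2`-Lipschitz at the top and vanishes
at `x`, so `|H (n-1-i) t - G (n-1-i) t| ≤ 2 (x - t)^(i+1) / (i+1)!` by induction on `i`.
So `|H 0| ≤ 1 + 2 x^n / n! =: M` on `S`, and `F = H / M` is in the class (`M ≥ 1`).
`H (n-1) 0 = G (n-1) x + ε (0 - x)`, of absolute value `|G (n-1) x| + x`.
-/

open Set

namespace Pool.Agent.LKI

private theorem back_bound {f f' B B' : ℝ → ℝ} {a b : ℝ} (hab : a ≤ b)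
    (hf : ∀ t ∈ Icc a b, HasDerivWithinAt f (f' t) (Icc a b) t)
    (hB : ∀ t, HasDerivAt B (B' t) t)
    (h : ∀ t ∈ Icc a b, |f' t| ≤ -B' t) (hb : |f b| ≤ B b) :
    ∀ t ∈ Icc a b, |f t| ≤ B t := by
  have key : ∀ s : ℝ, (s = 1 ∨ s = -1) → ∀ t ∈ Icc a b, s * f t ≤ B t := by
    intro s hs t ht
    have hder : ∀ u ∈ Icc a b,
        HasDerivWithinAt (fun u => s * f u - B u) (s * f' u - B' u) (Icc a b) u := by
      intro u hu
      exact ((hf u hu).const_mul s).sub (hB u).hasDerivWithinAt
    have hmono : MonotoneOn (fun u => s * f u - B u) (Icc a b) := by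
      apply monotoneOn_of_deriv_nonneg (convex_Icc a b)
      · exact fun u hu => (hder u hu).continuousWithinAt
      · intro u hu
        rw [interior_Icc] at hu
        exact ((hder u (Ioo_subset_Icc_self hu)).hasDerivAt
          (Icc_mem_nhds hu.1 hu.2)).differentiableAt.differentiableWithinAt
      · intro u hu
        rw [interior_Icc] at hu
        have h1 := ((hder u (Ioo_subset_Icc_self hu)).hasDerivAt (Icc_mem_nhds hu.1 hu.2)).deriv
        rw [h1]
        have h2 := h u (Ioo_subset_Icc_self hu)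
        have h3 := abs_le.1 h2
        rcases hs with rfl | rfl
        · linarith [h3.1]
        · linarith [h3.2]
    have h4 := hmono ht (right_mem_Icc.2 hab) ht.2
    simp only at h4
    have h5 := abs_le.1 hb
    rcases hs with rfl | rfl
    · linarith [h5.2]
    · linarith [h5.1]
  intro t ht
  rw [abs_le]
  have h1 := key 1 (Or.inl rfl) t ht
  have h2 := key (-1) (Or.inr rfl) t ht
  constructor <;> linarith

/-- the polynomial with top derivative `ε` -/
private noncomputable def Qf (n : ℕ) (y : ℕ → ℝ) (ε x : ℝ) (j : ℕ) (t : ℝ) : ℝ :=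
  tay n y j (t - x) + ε * (t - x) ^ (n - j) / ((n - j).factorial : ℝ)

private theorem Qf_hasDeriv (n : ℕ) (y : ℕ → ℝ) (ε x : ℝ) (j : ℕ) (hj : j + 1 < n) (t : ℝ) :
    HasDerivAt (Qf n y ε x j) (Qf n y ε x (j + 1) t) t := by
  have h1 : HasDerivAt (fun t => tay n y j (t - x)) (tay n y (j + 1) (t - x)) t := by
    exact HasDerivAt.comp_sub_const t x (tay_hasDeriv n y j (by omega) (t - x))
  obtain ⟨l, hl⟩ : ∃ l, n - j = l + 1 := ⟨n - j - 1, by omega⟩
  have hl' : n - (j + 1) = l := by omega
  have h2 : HasDerivAt (fun t => ε * (t - x) ^ (n - j) / ((n - j).factorial : ℝ))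
      (ε * (t - x) ^ (n - (j + 1)) / ((n - (j + 1)).factorial : ℝ)) t := by
    rw [hl, hl']
    have h3 : HasDerivAt (fun t => (t - x) ^ (l + 1)) (((l : ℝ) + 1) * (t - x) ^ l) t := by
      have := ((hasDerivAt_id' t).sub_const x).fun_pow (l + 1)
      refine this.congr_deriv ?_
      simp
    have h4 := (h3.const_mul ε).div_const (((l + 1).factorial : ℕ) : ℝ)
    refine h4.congr_deriv ?_
    rw [Nat.factorial_succ]
    push_cast
    have : ((l.factorial : ℕ) : ℝ) ≠ 0 := by exact_mod_cast Nat.factorial_ne_zero l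
    have h5 : ((l : ℝ) + 1) ≠ 0 := by positivity
    field_simp
  exact h1.add h2

private theorem Qf_at (n : ℕ) (y : ℕ → ℝ) (ε x : ℝ) (j : ℕ) (hj : j < n) :
    Qf n y ε x j x = y j := by
  unfold Qf
  rw [sub_self, tay_zero n y j hj, zero_pow (by omega : n - j ≠ 0)]
  simp

private theorem Qf_top (n : ℕ) (hn : 1 ≤ n) (y : ℕ → ℝ) (ε x t : ℝ) :
    Qf n y ε x (n - 1) t = y (n - 1) + ε * (t - x) := by
  unfold Qf
  rw [tay_top n y hn, show n - (n - 1) = 1 by omega]
  simp

theorem end_mod {n : ℕ} (hn : 2 ≤ n) {S : Set ℝ} (hS : IsDom S) {G : ℕ → ℝ → ℝ}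
    (hG : InW n S G) {x : ℝ} (hx0 : 0 < x) (hxS : x ∈ S) :
    ∃ F, InW n S F ∧
      (|G (n - 1) x| + x) / (1 + 2 * x ^ n / (n.factorial : ℝ)) ≤ |F (n - 1) 0| := by
  classical
  obtain ⟨ε, hε, hεG⟩ : ∃ ε : ℝ, (ε = 1 ∨ ε = -1) ∧ |G (n - 1) x - ε * x| = |G (n - 1) x| + x := by
    by_cases h : 0 ≤ G (n - 1) x
    · refine ⟨-1, Or.inr rfl, ?_⟩
      rw [abs_of_nonneg h, abs_of_nonneg (by linarith)]
      ring
    · push_neg at h
      refine ⟨1, Or.inl rfl, ?_⟩
      rw [abs_of_neg h, abs_of_neg (by linarith)]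
      ring
  have hεabs : |ε| = 1 := by
    rcases hε with rfl | rfl <;> simp
  set y : ℕ → ℝ := fun i => G i x with hy
  set Q := Qf n y ε x with hQ
  set H : ℕ → ℝ → ℝ := fun j t => if t ≤ x then Q j t else G j t with hH
  have hHle : ∀ j t, t ≤ x → H j t = Q j t := by
    intro j t ht
    simp only [hH]
    rw [if_pos ht]
  have hHge : ∀ j, j < n → ∀ t, x ≤ t → H j t = G j t := by
    intro j hj t ht
    simp only [hH]
    split_ifs with h
    · have : t = x := le_antisymm h ht
      rw [this, hQ, Qf_at n y ε x j hj]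
    · rfl
  have hSsub : Icc 0 x ⊆ S := by
    rcases hS with rfl | ⟨L, hL, rfl⟩
    · exact fun t ht => ht.1
    · exact fun t ht => ⟨ht.1, ht.2.trans hxS.2⟩
  have hS0 : ∀ t ∈ S, 0 ≤ t := by
    rcases hS with rfl | ⟨L, hL, rfl⟩
    · exact fun t ht => ht
    · exact fun t ht => ht.1
  -- derivatives of H
  have hHder : ∀ j, j + 1 < n → ∀ t ∈ S, HasDerivWithinAt (H j) (H (j + 1) t) S t := by
    intro j hj t ht
    have hL : t ≤ x → HasDerivWithinAt (H j) (H (j + 1) t) (S ∩ Iic x) t := by
      intro htx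
      rw [hHle (j + 1) t htx]
      refine ((Qf_hasDeriv n y ε x j hj t).hasDerivWithinAt).congr ?_ ?_
      · intro u hu
        exact hHle j u hu.2
      · exact hHle j t htx
    have hR : x ≤ t → HasDerivWithinAt (H j) (H (j + 1) t) (S ∩ Ici x) t := by
      intro htx
      rw [hHge (j + 1) hj t htx]
      refine ((hG.jet.hasDeriv j hj t ht).mono inter_subset_left).congr ?_ ?_
      · intro u hu
        exact hHge j (by omega) u hu.2
      · exact hHge j (by omega) t htx
    rcases lt_trichotomy t x with h | h | h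
    · refine (hL h.le).mono_of_mem_nhdsWithin ?_
      exact Filter.inter_mem self_mem_nhdsWithin (mem_nhdsWithin_of_mem_nhds (Iic_mem_nhds h))
    · have := (hL h.le).union (hR h.ge)
      rwa [← inter_union_distrib_left, Iic_union_Ici, inter_univ] at this
    · refine (hR h.le).mono_of_mem_nhdsWithin ?_
      exact Filter.inter_mem self_mem_nhdsWithin (mem_nhdsWithin_of_mem_nhds (Ici_mem_nhds h))
  have hQtop : ∀ t, Q (n - 1) t = G (n - 1) x + ε * (t - x) := fun t =>
    Qf_top n (by omega) y ε x t
  -- Lipschitz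
  have hHlip : ∀ s ∈ S, ∀ t ∈ S, |H (n - 1) s - H (n - 1) t| ≤ 1 * |s - t| := by
    have main : ∀ s ∈ S, ∀ t ∈ S, s ≤ t → |H (n - 1) s - H (n - 1) t| ≤ t - s := by
      intro s hs t ht hst
      rcases le_total t x with htx | htx
      · rw [hHle _ t htx, hHle _ s (hst.trans htx), hQtop, hQtop]
        have : G (n - 1) x + ε * (s - x) - (G (n - 1) x + ε * (t - x)) = ε * (s - t) := by ring
        rw [this, abs_mul, hεabs, one_mul, abs_sub_comm, abs_of_nonneg (by linarith)]
      · rcases le_total s x with hsx | hsx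
        · rw [hHle _ s hsx, hHge _ (by omega) t htx, hQtop]
          have h1 := hG.jet.lip x hxS t ht
          have h2 : |x - t| = t - x := by rw [abs_sub_comm, abs_of_nonneg (by linarith)]
          rw [h2, one_mul] at h1
          have h3 : |ε * (s - x)| = x - s := by
            rw [abs_mul, hεabs, one_mul, abs_sub_comm, abs_of_nonneg (by linarith)]
          calc |G (n - 1) x + ε * (s - x) - G (n - 1) t|
              = |ε * (s - x) + (G (n - 1) x - G (n - 1) t)| := by congr 1; ring
            _ ≤ |ε * (s - x)| + |G (n - 1) x - G (n - 1) t| := abs_add_le _ _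
            _ ≤ t - s := by rw [h3]; linarith
        · rw [hHge _ (by omega) s hsx, hHge _ (by omega) t htx]
          have h1 := hG.jet.lip s hs t ht
          rwa [abs_sub_comm s t, abs_of_nonneg (by linarith : 0 ≤ t - s), one_mul] at h1
    intro s hs t ht
    rw [one_mul]
    rcases le_total s t with h | h
    · have := main s hs t ht h
      rwa [abs_sub_comm s t, abs_of_nonneg (by linarith : 0 ≤ t - s)]
    · have := main t ht s hs h
      rw [abs_sub_comm]
      rwa [abs_of_nonneg (by linarith : 0 ≤ s - t)]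
  -- comparison with G on [0, x]
  have hcmp : ∀ i, i < n → ∀ t ∈ Icc 0 x,
      |H (n - 1 - i) t - G (n - 1 - i) t| ≤ 2 * (x - t) ^ (i + 1) / ((i + 1).factorial : ℝ) := by
    intro i
    induction i with
    | zero =>
        intro _ t ht
        have h1 := hHlip t (hSsub ht) x hxS
        have h2 := hG.jet.lip t (hSsub ht) x hxS
        have h3 := hHge (n - 1) (by omega) x le_rfl
        have h4 : |t - x| = x - t := by rw [abs_sub_comm, abs_of_nonneg (by linarith [ht.2])]
        rw [h4, one_mul] at h1 h2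
        simp only [Nat.sub_zero, zero_add, pow_one, Nat.factorial_one, Nat.cast_one, div_one]
        calc |H (n - 1) t - G (n - 1) t|
            = |(H (n - 1) t - H (n - 1) x) - (G (n - 1) t - G (n - 1) x)| := by
              rw [h3]; congr 1; ring
          _ ≤ |H (n - 1) t - H (n - 1) x| + |G (n - 1) t - G (n - 1) x| := abs_sub _ _
          _ ≤ 2 * (x - t) := by linarith
    | succ i ih =>
        intro hi
        have ih' := ih (by omega)
        set j := n - 1 - (i + 1) with hj
        have hj1 : j + 1 = n - 1 - i := by omega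
        have hjn : j + 1 < n := by omega
        refine back_bound (f := fun t => H j t - G j t) (f' := fun t => H (j + 1) t - G (j + 1) t)
          (B := fun t => 2 * (x - t) ^ (i + 1 + 1) / ((i + 1 + 1).factorial : ℝ))
          (B' := fun t => -(2 * (x - t) ^ (i + 1) / ((i + 1).factorial : ℝ))) hx0.le ?_ ?_ ?_ ?_
        · intro t ht
          exact ((hHder j hjn t (hSsub ht)).sub (hG.jet.hasDeriv j hjn t (hSsub ht))).mono hSsub
        · intro t
          have h3 : HasDerivAt (fun t => (x - t) ^ (i + 1 + 1))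
              (-(((i : ℝ) + 1 + 1) * (x - t) ^ (i + 1))) t := by
            have := ((hasDerivAt_id' t).const_sub x).fun_pow (i + 1 + 1)
            refine this.congr_deriv ?_
            simp
          have h4 := (h3.const_mul 2).div_const (((i + 1 + 1).factorial : ℕ) : ℝ)
          refine h4.congr_deriv ?_
          rw [Nat.factorial_succ (i + 1)]
          push_cast
          have : (((i + 1).factorial : ℕ) : ℝ) ≠ 0 := by
            exact_mod_cast Nat.factorial_ne_zero (i + 1)
          have h5 : ((i : ℝ) + 1 + 1) ≠ 0 := by positivity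
          field_simp
        · intro t ht
          rw [neg_neg, hj1]
          exact ih' t ht
        · rw [hHge j (by omega) x le_rfl]
          simp
  have hnf : (0 : ℝ) < (n.factorial : ℝ) := by exact_mod_cast Nat.factorial_pos n
  set M : ℝ := 1 + 2 * x ^ n / (n.factorial : ℝ) with hM
  have hM1 : 1 ≤ M := by
    have : 0 ≤ 2 * x ^ n / (n.factorial : ℝ) := by positivity
    rw [hM]; linarith
  have hM0 : 0 < M := by linarith
  have hHb : ∀ t ∈ S, |H 0 t| ≤ M := by
    intro t ht
    rcases le_total t x with htx | htx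
    · have h1 := hcmp (n - 1) (by omega) t ⟨hS0 t ht, htx⟩
      rw [Nat.sub_self, show n - 1 + 1 = n by omega] at h1
      have h2 := hG.bdd t ht
      have h3 : 2 * (x - t) ^ n / (n.factorial : ℝ) ≤ 2 * x ^ n / (n.factorial : ℝ) := by
        apply div_le_div_of_nonneg_right _ hnf.le
        have h4 : (x - t) ^ n ≤ x ^ n :=
          pow_le_pow_left₀ (by linarith) (by linarith [hS0 t ht]) n
        linarith
      calc |H 0 t| = |(H 0 t - G 0 t) + G 0 t| := by congr 1; ring
        _ ≤ |H 0 t - G 0 t| + |G 0 t| := abs_add_le _ _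
        _ ≤ M := by rw [hM]; linarith
    · rw [hHge 0 (by omega) t htx]
      exact (hG.bdd t ht).trans hM1
  refine ⟨fun j t => H j t / M, ⟨⟨?_, ?_⟩, ?_⟩, ?_⟩
  · intro j hj t ht
    exact (hHder j hj t ht).div_const M
  · intro s hs t ht
    have h1 := hHlip s hs t ht
    have h2 : H (n - 1) s / M - H (n - 1) t / M = (H (n - 1) s - H (n - 1) t) / M := by ring
    rw [h2, abs_div, abs_of_pos hM0]
    refine (div_le_self (abs_nonneg _) hM1).trans h1
  · intro t ht
    rw [abs_div, abs_of_pos hM0, div_le_one hM0]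
    exact hHb t ht
  · rw [abs_div, abs_of_pos hM0, hHle _ 0 hx0.le, hQtop]
    have : G (n - 1) x + ε * (0 - x) = G (n - 1) x - ε * x := by ring
    rw [this, hεG]

end Pool.Agent.LKI
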