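import Pool.Agent.LKI.F1
import Pool.Agent.LKI.E5
import Pool.Agent.LKI.B4

/-!
F2: on the half-line the derivatives are strictly smaller at interior points.

`inW_shift`: translations: if `G` is in the class on `S` and `t + a ∈ S` for `t ∈ S'`, then `t ↦ G j (t + a)` is in the
class on `S'`.

`half_interior`.  PROOF.  `E = (-1)^k T k 0 ≥ 1`.  `t ↦ G j (t + x)` is in the class on `[0, ∞)`, so `|G k x| ≤ E`, for
every `x ≥ 0`.  Suppose `|G k x| = E`, `x > 0`; let `s = ±1` with `s G k x = E` and `F1 j t = G j (t + x)`.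
Case `k + 1 < n`: `s G k` has a maximum over `[0, ∞)` at the interior point `x`, so `G (k+1) x = 0`.  `F1` and
`F2 = s (-1)^k T` are in the class and extremal: `s F1 k 0 = E = s F2 k 0`; `half_unique` gives
`F1 (k+1) 0 = F2 (k+1) 0`, i.e. `0 = |T (k+1) 0| ≥ 1`, contradiction.
Case `k = n - 1`: for `0 < a ≤ x` apply `end_mod` to `t ↦ G j (t + x - a)` at the point `a`:
`(E + a) / (1 + 2 a^n / n!) ≤ E`, i.e. `a ≤ 2 E a^n / n!`, i.e. `n! ≤ 2 E a^(n-1)`; false for small `a` (`n ≥ 2`).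
-/

open Set

namespace Pool.Agent.LKI

theorem inW_shift {n : ℕ} {S S' : Set ℝ} {G : ℕ → ℝ → ℝ} (hG : InW n S G) {a : ℝ}
    (ha : ∀ t ∈ S', t + a ∈ S) : InW n S' (fun j t => G j (t + a)) := by
  refine ⟨⟨fun j hj t ht => ?_, fun u hu t ht => ?_⟩, fun t ht => hG.bdd _ (ha t ht)⟩
  · have h1 := hG.jet.hasDeriv j hj (t + a) (ha t ht)
    have h2 : HasDerivWithinAt (fun u : ℝ => u + a) 1 S' t :=
      ((hasDerivAt_id t).add_const a).hasDerivWithinAt
    have h3 := h1.comp t h2 (fun u hu => ha u hu)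
    rw [mul_one] at h3
    exact h3
  · have h1 := hG.jet.lip (u + a) (ha u hu) (t + a) (ha t ht)
    rw [add_sub_add_right_eq_sub] at h1
    exact h1

theorem inW_neg {n : ℕ} {S : Set ℝ} {G : ℕ → ℝ → ℝ} (hG : InW n S G) {s : ℝ}
    (hs : s = 1 ∨ s = -1) : InW n S (fun j t => s * G j t) := by
  have hs1 : |s| = 1 := by rcases hs with rfl | rfl <;> simp
  refine ⟨⟨fun j hj t ht => (hG.jet.hasDeriv j hj t ht).const_mul s, fun u hu t ht => ?_⟩,
    fun t ht => ?_⟩
  · rw [← mul_sub, abs_mul, hs1, one_mul]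
    exact hG.jet.lip u hu t ht
  · rw [abs_mul, hs1, one_mul]
    exact hG.bdd t ht

/-- reflection of `[0, L]` -/
theorem inW_refl {n : ℕ} {L : ℝ} {G : ℕ → ℝ → ℝ} (hG : InW n (Icc 0 L) G) :
    InW n (Icc 0 L) (fun j t => (-1) ^ j * G j (L - t)) := by
  have hmem : ∀ t ∈ Icc (0 : ℝ) L, L - t ∈ Icc (0 : ℝ) L := fun t ht =>
    ⟨by linarith [ht.2], by linarith [ht.1]⟩
  refine ⟨⟨fun j hj t ht => ?_, fun u hu t ht => ?_⟩, fun t ht => ?_⟩
  · have h1 := hG.jet.hasDeriv j hj (L - t) (hmem t ht)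
    have h2 : HasDerivWithinAt (fun u : ℝ => L - u) (-1) (Icc 0 L) t :=
      ((hasDerivAt_id t).const_sub L).hasDerivWithinAt
    have h3 := (h1.comp t h2 (fun u hu => hmem u hu)).const_mul ((-1 : ℝ) ^ j)
    have h4 : (-1 : ℝ) ^ j * (G (j + 1) (L - t) * -1) = (-1) ^ (j + 1) * G (j + 1) (L - t) := by
      rw [pow_succ]; ring
    rw [h4] at h3
    exact h3
  · rw [← mul_sub, abs_mul, abs_pow, abs_neg, abs_one, one_pow, one_mul]
    have h1 := hG.jet.lip (L - u) (hmem u hu) (L - t) (hmem t ht)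
    rw [sub_sub_sub_cancel_left, abs_sub_comm t u] at h1
    exact h1
  · rw [abs_mul, abs_pow, abs_neg, abs_one, one_pow, one_mul]
    exact hG.bdd _ (hmem t ht)

theorem half_interior {n k : ℕ} (hk : 1 ≤ k) (hkn : k < n) {T : ℕ → ℝ → ℝ} (hT : HalfExt n T)
    {G : ℕ → ℝ → ℝ} (hG : InW n (Ici 0) G) {x : ℝ} (hx : 0 < x) :
    |G k x| < (-1) ^ k * T k 0 := by
  obtain ⟨E, hE⟩ : ∃ E, E = (-1) ^ k * T k 0 := ⟨_, rfl⟩
  rw [← hE]
  have hE1 : 1 ≤ E := by rw [hE]; exact hT.ge_one k hkn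
  have hsh : ∀ a : ℝ, 0 ≤ a → InW n (Ici 0) (fun j t => G j (t + a)) := fun a ha =>
    inW_shift hG (fun t ht => add_nonneg (mem_Ici.mp ht) ha)
  have hle : ∀ y : ℝ, 0 ≤ y → |G k y| ≤ E := by
    intro y hy
    have h1 := hT.ext _ (hsh y hy) k hkn
    simp only [zero_add] at h1
    rw [hE]; exact h1
  by_contra hcon
  have heq : |G k x| = E := le_antisymm (hle x hx.le) (not_lt.mp hcon)
  obtain ⟨s, hs, hsE⟩ : ∃ s : ℝ, (s = 1 ∨ s = -1) ∧ s * G k x = E := by
    rcases abs_cases (G k x) with ⟨h1, _⟩ | ⟨h1, _⟩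
    · exact ⟨1, Or.inl rfl, by rw [one_mul, ← h1, heq]⟩
    · exact ⟨-1, Or.inr rfl, by rw [neg_one_mul, ← h1, heq]⟩
  have hs1 : |s| = 1 := by rcases hs with rfl | rfl <;> simp
  have hss : s * s = 1 := by rcases hs with rfl | rfl <;> norm_num
  by_cases hk1 : k + 1 < n
  · -- interior maximum
    have h1 : HasDerivAt (fun t => s * G k t) (s * G (k + 1) x) x :=
      ((hG.jet.hasDeriv k hk1 x hx.le).const_mul s).hasDerivAt (Ici_mem_nhds hx)
    have h2 : IsLocalMax (fun t => s * G k t) x := by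
      filter_upwards [Ici_mem_nhds hx] with t ht
      rw [hsE]
      calc s * G k t ≤ |s * G k t| := le_abs_self _
        _ = |G k t| := by rw [abs_mul, hs1, one_mul]
        _ ≤ E := hle t ht
    have h3 : s * G (k + 1) x = 0 := h2.hasDerivAt_eq_zero h1
    have h4 : G (k + 1) x = 0 := by
      rcases mul_eq_zero.mp h3 with h | h
      · rw [h] at hs1; simp at hs1
      · exact h
    have hs2 : s * (-1) ^ k = 1 ∨ s * (-1) ^ k = -1 := by
      rcases neg_one_pow_eq_or ℝ k with h | h <;> rcases hs with h' | h' <;> rw [h, h'] <;>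
        norm_num
    have h5 := half_unique hk hkn (hsh x hx.le) (inW_neg hT.inW hs2) hs
      (by linarith : (0 : ℝ) < E)
      (fun G' hG' => by
        calc s * G' k 0 ≤ |s * G' k 0| := le_abs_self _
          _ = |G' k 0| := by rw [abs_mul, hs1, one_mul]
          _ ≤ E := by rw [hE]; exact hT.ext G' hG' k hkn)
      (by simp only [zero_add]; exact hsE)
      (by
        have : s * (s * (-1) ^ k * T k 0) = (s * s) * ((-1) ^ k * T k 0) := by ring
        rw [this, hss, one_mul, hE]) (k + 1) hk1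
    simp only [zero_add] at h5
    rw [h4] at h5
    have h6 := hT.ge_one (k + 1) hk1
    have h7 : T (k + 1) 0 = 0 := by
      rcases mul_eq_zero.mp h5.symm with h | h
      · rcases hs2 with h' | h' <;> rw [h'] at h <;> norm_num at h
      · exact h
    rw [h7, mul_zero] at h6
    linarith
  · have hkn1 : k = n - 1 := by omega
    have hn : 2 ≤ n := by omega
    obtain ⟨a, ha⟩ : ∃ a, a = min x (1 / (4 * E)) := ⟨_, rfl⟩
    have ha0 : 0 < a := by rw [ha]; exact lt_min hx (by positivity)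
    have hax : a ≤ x := by rw [ha]; exact min_le_left _ _
    have haE : a ≤ 1 / (4 * E) := by rw [ha]; exact min_le_right _ _
    have haE2 : E * a ≤ 1 / 4 := by
      have := mul_le_mul_of_nonneg_left haE (by linarith : 0 ≤ E)
      have h2 : E * (1 / (4 * E)) = 1 / 4 := by field_simp
      linarith
    have ha1 : a ≤ 1 := by nlinarith
    obtain ⟨F, hF, hFe⟩ := end_mod hn (Or.inl rfl) (hsh (x - a) (by linarith)) ha0
      (mem_Ici.mpr ha0.le)
    have h1 := hT.ext F hF k hkn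
    rw [← hE] at h1
    have h2 : a + (x - a) = x := by ring
    rw [h2, ← hkn1, heq] at hFe
    have h3 := hFe.trans h1
    have hf : (1 : ℝ) ≤ (n.factorial : ℝ) := by exact_mod_cast Nat.factorial_pos n
    have hd : 0 < 1 + 2 * a ^ n / (n.factorial : ℝ) := by positivity
    rw [div_le_iff₀ hd] at h3
    have h4 : 2 * a ^ n / (n.factorial : ℝ) ≤ 2 * a ^ n := div_le_self (by positivity) hf
    have h5 : a ^ n ≤ a ^ 2 := pow_le_pow_of_le_one ha0.le ha1 hn
    have h6 : E * (2 * a ^ n / (n.factorial : ℝ)) ≤ E * (2 * a ^ 2) :=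
      mul_le_mul_of_nonneg_left (by linarith) (by linarith)
    have h7 : E * (2 * a ^ 2) = 2 * (E * a) * a := by ring
    nlinarith

end Pool.Agent.LKI
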