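import Pool.Agent.LKI.F2

/-!
F3: long intervals.  `E k := (-1)^k T k 0` for the half-line extremal function `T` (`HalfExt n T`).

`far_case`.  Let `G i` be in the class on `[0, L i]`, `L i → ∞` along `U`, `a > 0`, `a ≤ x i ≤ L i / 2` for almost all `i`.
Then `|G i k (x i)| ≥ E k` cannot hold for almost all `i`.
PROOF.  Let `H i j t = G i j (t + x i - a)` on `[0, L i / 2]` (for `t ∈ [0, L i / 2]`, `0 ≤ t + x i - a ≤ L i`; for the
exceptional `i` replace `G i` by the zero jet, or restrict to the good `i` by redefining `Si i = ∅`).  By `W_bound`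
(`L i ≥ 2` for almost all `i`; or bound `jet_bound` directly) and `jet_limit` there is a limit `H` in the class on
`[0, ∞)`, and `|H k a| = lim |G i k (x i)| ≥ E k`, contradicting `half_interior` at `a`.

`near_case`.  Same, but `x i → 0` along `U`, `x i > 0`, `k + 1 < n`, and `|G i k 0| ≤ |G i k (x i)|`.  Impossible.
PROOF.  Let `s i = ±1` with `s i G i k (x i) = |G i k (x i)|`; `s i` is a constant `s` along `U`.  Replace `G i` by
`s G i`, so `G i k (x i) ≥ E k` and `G i k 0 ≤ G i k (x i)`.  Let `H` be the limit on `[0, ∞)`; `H k 0 = lim G i k (x i) ≥ E k`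
(`tendsto_moving`), so `H k 0 = E k` (`HalfExt.ext`).  `half_unique` for `H` and `(-1)^k T` gives
`H (k+1) 0 = (-1)^k T (k+1) 0 = - E (k+1) ≤ -1`.  `G i (k+1)` is `B`-Lipschitz (`jet_lip`, `W_bound`) and
`G i (k+1) 0 → H (k+1) 0 ≤ -1`, so for almost all `i`: `G i (k+1) t ≤ -1/2` for `t ∈ [0, x i]`, hence
`G i k 0 > G i k (x i)`, contradiction.

`top_case`.  For `k = n - 1` and given `B ≥ 1` there is `δ > 0` such that: if `E' ≤ B`, every `F` in the class on `S` has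
`|F (n-1) 0| ≤ E'`, `G` is in the class on `S`, `0 < x ≤ δ`, `x ∈ S`, then `|G (n-1) x| < E'`.
PROOF.  `end_mod`: `|G (n-1) x| + x ≤ E' (1 + 2 x^n / n!)`, and `2 B x^n / n! < x` for `0 < x ≤ δ`
(`x^(n-1) ≤ δ^(n-1) < n! / (2 B)`).
-/

open Set Filter Topology

namespace Pool.Agent.LKI

private theorem ordc_and (p : Prop) {S : Set ℝ} (hS : S.OrdConnected) :
    ({t | p ∧ t ∈ S} : Set ℝ).OrdConnected :=
  ⟨fun _ hx _ hy _ hz => ⟨hx.1, hS.out hx.2 hy.2 hz⟩⟩

theorem far_case {n k : ℕ} (hk : 1 ≤ k) (hkn : k < n) {T : ℕ → ℝ → ℝ} (hT : HalfExt n T)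
    {L x : ℕ → ℝ} {G : ℕ → ℕ → ℝ → ℝ} (hL : Tendsto L U atTop)
    (hG : ∀ i, InW n (Icc 0 (L i)) (G i)) {a : ℝ} (ha : 0 < a)
    (hx : ∀ᶠ i in U, a ≤ x i ∧ x i ≤ L i / 2)
    (hbig : ∀ᶠ i in U, (-1) ^ k * T k 0 ≤ |G i k (x i)|) : False := by
  have hn : 1 ≤ n := by omega
  obtain ⟨B, hB1, hB, -⟩ := W_bound n hn
  set S : ℕ → Set ℝ := fun i =>
    {t | ((a ≤ x i ∧ x i ≤ L i / 2) ∧ 1 ≤ L i) ∧ t ∈ Icc 0 (L i / 2)} with hSdef
  set H : ℕ → ℕ → ℝ → ℝ := fun i j t => G i j (t + (x i - a)) with hHdef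
  have hmem : ∀ i, ∀ t ∈ S i, t + (x i - a) ∈ Icc 0 (L i) := by
    intro i t ht
    obtain ⟨⟨⟨h1, h2⟩, h3⟩, h4, h5⟩ := ht
    constructor <;> linarith
  have hInW : ∀ i, InW n (S i) (H i) := fun i => inW_shift (hG i) (hmem i)
  have hev : ∀ t : ℝ, t ∈ Ici (0 : ℝ) → ∀ᶠ i in U, t ∈ S i := by
    intro t ht
    filter_upwards [hx, hL.eventually_ge_atTop 1, hL.eventually_ge_atTop (2 * t)] with i h1 h2 h3
    exact ⟨⟨h1, h2⟩, ht, by linarith⟩
  obtain ⟨F, hF, hlim⟩ := jet_limit hn (Ici 0) ordConnected_Ici S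
    (fun i => ordc_and _ ordConnected_Icc) hev H (fun i => (hInW i).jet) B
    (fun i j hj t ht => hB (L i) ht.1.2 (G i) (hG i) j hj _ (hmem i t ht))
  have hFW : InW n (Ici 0) F := by
    refine ⟨hF, fun t ht => ?_⟩
    refine le_of_tendsto (hlim 0 (by omega) t ht).abs ?_
    filter_upwards [hev t ht] with i hi
    exact (hInW i).bdd t hi
  have h1 := half_interior hk hkn hT hFW ha
  have h2 : (-1) ^ k * T k 0 ≤ |F k a| := by
    refine ge_of_tendsto (hlim k hkn a ha.le).abs ?_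
    filter_upwards [hbig] with i hi
    have : a + (x i - a) = x i := by ring
    simpa [hHdef, this] using hi
  linarith

private theorem near_pos {n k : ℕ} (hk : 1 ≤ k) (hkn : k + 1 < n) {T : ℕ → ℝ → ℝ}
    (hT : HalfExt n T) {L x : ℕ → ℝ} {G : ℕ → ℕ → ℝ → ℝ} (hL : Tendsto L U atTop)
    (hG : ∀ i, InW n (Icc 0 (L i)) (G i)) (hx0 : ∀ i, 0 < x i) (hx : Tendsto x U (𝓝 0))
    (hbig : ∀ᶠ i in U, (-1) ^ k * T k 0 ≤ G i k (x i))
    (hle : ∀ᶠ i in U, G i k 0 ≤ G i k (x i)) : False := by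
  have hn : 1 ≤ n := by omega
  obtain ⟨B, hB1, hB, -⟩ := W_bound n hn
  set S : ℕ → Set ℝ := fun i => {t | 1 ≤ L i ∧ t ∈ Icc 0 (L i)} with hSdef
  have hSo : ∀ i, (S i).OrdConnected := fun i => ordc_and _ ordConnected_Icc
  have hInW : ∀ i, InW n (S i) (G i) := fun i => (hG i).mono (fun t ht => ht.2)
  have hBS : ∀ i, ∀ j, j < n → ∀ t ∈ S i, |G i j t| ≤ B :=
    fun i j hj t ht => hB (L i) ht.1 (G i) (hG i) j hj t ht.2
  have hev : ∀ t : ℝ, t ∈ Ici (0 : ℝ) → ∀ᶠ i in U, t ∈ S i := by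
    intro t ht
    filter_upwards [hL.eventually_ge_atTop 1, hL.eventually_ge_atTop t] with i h2 h3
    exact ⟨h2, ht, h3⟩
  obtain ⟨F, hF, hlim⟩ := jet_limit hn (Ici 0) ordConnected_Ici S hSo hev G
    (fun i => (hInW i).jet) B hBS
  have hFW : InW n (Ici 0) F := by
    refine ⟨hF, fun t ht => ?_⟩
    refine le_of_tendsto (hlim 0 (by omega) t ht).abs ?_
    filter_upwards [hev t ht] with i hi
    exact (hInW i).bdd t hi
  have hlip : ∀ i, ∀ j, j < n → ∀ s ∈ S i, ∀ t ∈ S i, |G i j s - G i j t| ≤ B * |s - t| :=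
    fun i => jet_lip hn (hSo i) (hInW i).jet hB1 (hBS i)
  have hxS : ∀ᶠ i in U, x i ∈ S i := by
    filter_upwards [hL.eventually_ge_atTop 1,
      hx.eventually (gt_mem_nhds (show (0 : ℝ) < 1 by norm_num))] with i h1 h2
    exact ⟨h1, (hx0 i).le, by linarith⟩
  have h0S : ∀ᶠ i in U, (0 : ℝ) ∈ S i := hev 0 (mem_Ici.2 le_rfl)
  have hmov : Tendsto (fun i => G i k (x i)) U (𝓝 (F k 0)) :=
    tendsto_moving (f := fun i => G i k) (fun i => hlip i k (by omega)) hxS h0S hx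
      (hlim k (by omega) 0 (mem_Ici.2 le_rfl))
  have hge : (-1) ^ k * T k 0 ≤ F k 0 := ge_of_tendsto hmov hbig
  have hle' : F k 0 ≤ (-1) ^ k * T k 0 :=
    (le_abs_self _).trans (hT.ext F hFW k (by omega))
  have hTW : InW n (Ici 0) (fun j t => (-1) ^ k * T j t) :=
    inW_neg hT.inW (neg_one_pow_eq_or ℝ k)
  have huniq := half_unique hk (by omega) hFW hTW (E := (-1) ^ k * T k 0) (s := 1) (Or.inl rfl)
    (lt_of_lt_of_le one_pos (hT.ge_one k (by omega)))
    (fun G hG => by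
      rw [one_mul]
      exact (le_abs_self _).trans (hT.ext G hG k (by omega)))
    (by rw [one_mul]; exact le_antisymm hle' hge) (by rw [one_mul]) (k + 1) hkn
  have hneg : F (k + 1) 0 ≤ -1 := by
    have h := hT.ge_one (k + 1) hkn
    rw [huniq]
    have : (-1 : ℝ) ^ (k + 1) * T (k + 1) 0 = -((-1) ^ k * T (k + 1) 0) := by ring
    linarith
  have hlim1 := hlim (k + 1) hkn 0 (mem_Ici.2 le_rfl)
  have hBpos : 0 < B := lt_of_lt_of_le one_pos hB1
  have hfalse : ∀ᶠ i in U, False := by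
    filter_upwards [hxS, h0S, hle, hlim1.eventually (gt_mem_nhds
      (show F (k + 1) 0 < -(3 / 4) by linarith)),
      hx.eventually (gt_mem_nhds (show (0 : ℝ) < 1 / (4 * B) by positivity))]
      with i h1 h2 h3 h4 h5
    have hxi := hx0 i
    have hxB : B * x i ≤ 1 / 4 := by
      have := mul_le_mul_of_nonneg_left h5.le hBpos.le
      have h6 : B * (1 / (4 * B)) = 1 / 4 := by field_simp
      linarith
    have hder : ∀ t ∈ Icc 0 (x i), HasDerivWithinAt (G i k) (G i (k + 1) t) (Icc 0 (L i)) t :=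
      fun t ht => (hG i).jet.hasDeriv k hkn t ⟨ht.1, ht.2.trans h1.2.2⟩
    obtain ⟨c, hc, hc2⟩ := exists_hasDerivAt_eq_slope (G i k) (G i (k + 1)) hxi
      (fun t ht => ((hder t ht).mono (Icc_subset_Icc le_rfl h1.2.2)).continuousWithinAt)
      (fun t ht => (hder t ⟨ht.1.le, ht.2.le⟩).hasDerivAt
        (Icc_mem_nhds ht.1 (lt_of_lt_of_le ht.2 h1.2.2)))
    have hcS : c ∈ S i := ⟨h1.1, hc.1.le, hc.2.le.trans h1.2.2⟩
    have h7 := hlip i (k + 1) hkn c hcS 0 h2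
    rw [sub_zero, abs_of_pos hc.1] at h7
    have h8 : B * c ≤ 1 / 4 := (mul_le_mul_of_nonneg_left hc.2.le hBpos.le).trans hxB
    have h9 := (abs_le.1 (h7.trans h8)).2
    have h10 : G i (k + 1) c < 0 := by linarith
    have h11 : 0 ≤ (G i k (x i) - G i k 0) / (x i - 0) :=
      div_nonneg (by linarith) (by linarith)
    rw [hc2] at h10
    linarith
  exact hfalse.exists.elim fun _ h => h

theorem near_case {n k : ℕ} (hk : 1 ≤ k) (hkn : k + 1 < n) {T : ℕ → ℝ → ℝ} (hT : HalfExt n T)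
    {L x : ℕ → ℝ} {G : ℕ → ℕ → ℝ → ℝ} (hL : Tendsto L U atTop)
    (hG : ∀ i, InW n (Icc 0 (L i)) (G i)) (hx0 : ∀ i, 0 < x i) (hx : Tendsto x U (𝓝 0))
    (hbig : ∀ᶠ i in U, (-1) ^ k * T k 0 ≤ |G i k (x i)|)
    (hle : ∀ᶠ i in U, |G i k 0| ≤ |G i k (x i)|) : False := by
  have hor : (∀ᶠ i in U, 0 ≤ G i k (x i)) ∨ (∀ᶠ i in U, ¬ 0 ≤ G i k (x i)) :=
    (hyperfilter ℕ).eventually_or.1 (Eventually.of_forall fun i => em _)
  rcases hor with h | h
  · refine near_pos hk hkn hT hL hG hx0 hx ?_ ?_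
    · filter_upwards [hbig, h] with i h1 h2
      rwa [abs_of_nonneg h2] at h1
    · filter_upwards [hle, h] with i h1 h2
      rw [abs_of_nonneg h2] at h1
      exact (le_abs_self _).trans h1
  · refine near_pos (G := fun i j t => (-1) * G i j t) hk hkn hT hL
      (fun i => inW_neg (hG i) (Or.inr rfl)) hx0 hx ?_ ?_
    · filter_upwards [hbig, h] with i h1 h2
      rw [abs_of_neg (not_le.1 h2)] at h1
      linarith
    · filter_upwards [hle, h] with i h1 h2
      rw [abs_of_neg (not_le.1 h2)] at h1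
      have := (neg_le_abs (G i k 0)).trans h1
      linarith

theorem top_case {n : ℕ} (hn : 2 ≤ n) {B : ℝ} (hB : 1 ≤ B) :
    ∃ δ > 0, ∀ (S : Set ℝ) (E' : ℝ), IsDom S → E' ≤ B →
      (∀ F, InW n S F → |F (n - 1) 0| ≤ E') →
      ∀ G, InW n S G → ∀ x, 0 < x → x ≤ δ → x ∈ S → |G (n - 1) x| < E' := by
  have hBpos : 0 < B := lt_of_lt_of_le one_pos hB
  refine ⟨1 / (4 * B), by positivity, fun S E' hS hE' hext G hG x hx0 hxδ hxS => ?_⟩
  obtain ⟨F, hF, hFx⟩ := end_mod hn hS hG hx0 hxS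
  have h1 := hFx.trans (hext F hF)
  have hfac : (1 : ℝ) ≤ (n.factorial : ℝ) := by exact_mod_cast n.factorial_pos
  have hfpos : (0 : ℝ) < (n.factorial : ℝ) := by linarith
  have hden : 0 < 1 + 2 * x ^ n / (n.factorial : ℝ) := by positivity
  rw [div_le_iff₀ hden] at h1
  have hx14 : x ≤ 1 / 4 := hxδ.trans (one_div_le_one_div_of_le (by norm_num) (by linarith))
  have hxB : B * x ≤ 1 / 4 := by
    have := mul_le_mul_of_nonneg_left hxδ hBpos.le
    have h6 : B * (1 / (4 * B)) = 1 / 4 := by field_simp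
    linarith
  have hpow : x ^ n ≤ x ^ 2 := pow_le_pow_of_le_one hx0.le (by linarith) hn
  have hq : x ^ n / (n.factorial : ℝ) ≤ x ^ 2 :=
    (div_le_self (by positivity) hfac).trans hpow
  have hq0 : 0 ≤ x ^ n / (n.factorial : ℝ) := by positivity
  have h2 : E' * (2 * x ^ n / (n.factorial : ℝ)) ≤ x / 2 := by
    calc E' * (2 * x ^ n / (n.factorial : ℝ)) = E' * (2 * (x ^ n / (n.factorial : ℝ))) := by ring
      _ ≤ B * (2 * x ^ 2) := by
        apply mul_le_mul hE' (by linarith) (by positivity) hBpos.le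
      _ = 2 * (B * x) * x := by ring
      _ ≤ 2 * (1 / 4) * x := by
        apply mul_le_mul_of_nonneg_right _ hx0.le
        linarith
      _ = x / 2 := by ring
  have h3 : E' * (1 + 2 * x ^ n / (n.factorial : ℝ)) =
      E' + E' * (2 * x ^ n / (n.factorial : ℝ)) := by ring
  rw [h3] at h1
  linarith

end Pool.Agent.LKI
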