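import Pool.Agent.LKI.Stat
import Pool.Agent.LKI.B1

/-!
G1: the affine change of variables `t = q (1 - x)`, `q^n = σ`, between `[-1, 1]` (class `Cls n σ`) and `[0, 2 q]`
(class `InW n`).

PROOF.  `[-1, 1]` has unique derivatives, and for `f` of class `C^(n-1)` on it, `j + 1 ≤ n - 1`:
`HasDerivWithinAt (D f j) (D f (j+1) x) (Icc (-1) 1) x` (`iteratedDerivWithin_succ`,
`ContDiffOn.differentiableOn_iteratedDerivWithin`).  Compose with the affine map `t ↦ 1 - t / q`, which maps `[0, 2q]` to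
`[-1, 1]` (`HasDerivWithinAt.scomp` / `comp`).  Lipschitz: `(1/q)^(n-1) σ |t - s| / q = |t - s|`.
Conversely put `f x = F 0 (q (1 - x))`, `f_j x = (-q)^j F j (q (1 - x))`; then `f_j` has the derivative `f_(j+1)` within
`[-1, 1]` for `j + 1 < n`, so by induction on `j < n`, `iteratedDerivWithin j f (Icc (-1) 1) = f_j` on `[-1, 1]`
(`iteratedDerivWithin_succ`, `HasDerivWithinAt.derivWithin`, congruence of `derivWithin` on the set), and `f` is
`C^(n-1)` because `f_j`, `j < n - 1`, are differentiable and `f_(n-1)` is continuous (Lipschitz)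
(`contDiffOn_of_differentiableOn_deriv` or `contDiffOn_of_continuousOn_differentiableOn_deriv`).
-/

open Set

namespace Pool.Agent.LKI

private theorem uI : UniqueDiffOn ℝ (Icc (-1 : ℝ) 1) := uniqueDiffOn_Icc (by norm_num)

private theorem cls_deriv {n : ℕ} {σ : ℝ} {f : ℝ → ℝ} (hf : f ∈ Cls n σ) {j : ℕ} (hj : j + 1 < n)
    {x : ℝ} (hx : x ∈ Icc (-1 : ℝ) 1) :
    HasDerivWithinAt (D f j) (D f (j + 1) x) (Icc (-1) 1) x := by
  have h1 : DifferentiableOn ℝ (iteratedDerivWithin j f (Icc (-1) 1)) (Icc (-1) 1) := by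
    refine hf.1.differentiableOn_iteratedDerivWithin ?_ uI
    have : j < n - 1 := by omega
    exact_mod_cast this
  have h2 := (h1 x hx).hasDerivWithinAt
  unfold D
  rw [iteratedDerivWithin_succ]
  exact h2

private theorem chain' {n : ℕ} (hn : 1 ≤ n) {g : ℕ → ℝ → ℝ}
    (hg : ∀ j, j + 1 < n → ∀ x ∈ Icc (-1 : ℝ) 1,
      HasDerivWithinAt (g j) (g (j + 1) x) (Icc (-1) 1) x)
    (hc : ContinuousOn (g (n - 1)) (Icc (-1) 1)) :
    ContDiffOn ℝ ((n - 1 : ℕ) : ℕ∞) (g 0) (Icc (-1) 1) ∧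
      ∀ j, j < n → ∀ x ∈ Icc (-1 : ℝ) 1, D (g 0) j x = g j x := by
  have key : ∀ j, j < n → ∀ x ∈ Icc (-1 : ℝ) 1, D (g 0) j x = g j x := by
    intro j
    induction j with
    | zero =>
      intro _ x _
      simp [D, iteratedDerivWithin_zero]
    | succ j ih =>
      intro hj x hx
      unfold D
      rw [iteratedDerivWithin_succ]
      have h1 : ∀ y ∈ Icc (-1 : ℝ) 1, iteratedDerivWithin j (g 0) (Icc (-1) 1) y = g j y :=
        fun y hy => ih (by omega) y hy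
      rw [derivWithin_congr h1 (h1 x hx)]
      exact (hg j hj x hx).derivWithin (uI x hx)
  refine ⟨?_, key⟩
  refine contDiffOn_of_continuousOn_differentiableOn_deriv ?_ ?_
  · intro m hm
    have hm' : m ≤ n - 1 := by exact_mod_cast hm
    have hcm : ContinuousOn (g m) (Icc (-1) 1) := by
      rcases Nat.lt_or_ge m (n - 1) with h | h
      · exact fun x hx => (hg m (by omega) x hx).continuousWithinAt
      · have : m = n - 1 := by omega
        rw [this]; exact hc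
    exact hcm.congr (fun x hx => key m (by omega) x hx)
  · intro m hm
    have hm' : m < n - 1 := by exact_mod_cast hm
    have hcm : DifferentiableOn ℝ (g m) (Icc (-1) 1) :=
      fun x hx => (hg m (by omega) x hx).differentiableWithinAt
    exact hcm.congr (fun x hx => key m (by omega) x hx)

private theorem chain {n : ℕ} (hn : 1 ≤ n) {f : ℝ → ℝ} (g : ℕ → ℝ → ℝ) (h0 : ∀ x, f x = g 0 x)
    (hg : ∀ j, j + 1 < n → ∀ x ∈ Icc (-1 : ℝ) 1,
      HasDerivWithinAt (g j) (g (j + 1) x) (Icc (-1) 1) x)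
    (hc : ContinuousOn (g (n - 1)) (Icc (-1) 1)) :
    ContDiffOn ℝ ((n - 1 : ℕ) : ℕ∞) f (Icc (-1) 1) ∧
      ∀ j, j < n → ∀ x ∈ Icc (-1 : ℝ) 1, D f j x = g j x := by
  have : f = g 0 := funext h0
  rw [this]
  exact chain' hn hg hc

private theorem lip_cont {g : ℝ → ℝ} {S : Set ℝ} {C : ℝ}
    (h : ∀ x ∈ S, ∀ y ∈ S, |g x - g y| ≤ C * |x - y|) : ContinuousOn g S := by
  intro x hx
  have h1 : Filter.Tendsto (fun y => C * |y - x|) (nhdsWithin x S) (nhds 0) := by
    have : ContinuousWithinAt (fun y => C * |y - x|) S x := by fun_prop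
    have h2 := this.tendsto
    simpa using h2
  have h3 : Filter.Tendsto (fun y => |g y - g x|) (nhdsWithin x S) (nhds 0) := by
    refine squeeze_zero' (Filter.Eventually.of_forall (fun y => abs_nonneg _)) ?_ h1
    filter_upwards [self_mem_nhdsWithin] with y hy
    exact h y hy x hx
  have h4 : Filter.Tendsto (fun y => g y - g x) (nhdsWithin x S) (nhds 0) :=
    (tendsto_zero_iff_abs_tendsto_zero _).2 h3
  have h5 := h4.add_const (g x)
  simpa [ContinuousWithinAt] using h5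

theorem cls_to_W {n : ℕ} (hn : 1 ≤ n) {σ q : ℝ} (hq : 0 < q) (hσ : q ^ n = σ) {f : ℝ → ℝ}
    (hf : f ∈ Cls n σ) :
    InW n (Icc 0 (2 * q)) (fun j t => (-1 / q) ^ j * D f j (1 - t / q)) := by
  have hmaps : ∀ t ∈ Icc (0 : ℝ) (2 * q), 1 - t / q ∈ Icc (-1 : ℝ) 1 := by
    intro t ht
    have h1 : 0 ≤ t / q := div_nonneg ht.1 hq.le
    have h2 : t / q ≤ 2 := by
      rw [div_le_iff₀ hq]; exact ht.2
    constructor <;> linarith
  refine ⟨⟨?_, ?_⟩, ?_⟩
  · intro j hj t ht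
    have h1 := cls_deriv hf hj (hmaps t ht)
    have h2 : HasDerivWithinAt (fun t : ℝ => 1 - t / q) (-1 / q) (Icc 0 (2 * q)) t := by
      have h3 := ((hasDerivAt_id t).div_const q).const_sub 1
      have h4 : -1 / q = -(1 / q) := by ring
      rw [h4]
      exact h3.hasDerivWithinAt
    have h5 := h1.comp t h2 (fun t ht => hmaps t ht)
    have h6 := h5.const_mul ((-1 / q) ^ j)
    refine h6.congr_deriv ?_
    rw [pow_succ]
    ring
  · intro s hs t ht
    have h1 := hf.2.2 _ (hmaps s hs) _ (hmaps t ht)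
    have h2 : (1 - s / q) - (1 - t / q) = -(1 / q) * (s - t) := by ring
    rw [h2, abs_mul, abs_neg, abs_of_pos (by positivity : (0 : ℝ) < 1 / q)] at h1
    rw [← mul_sub, abs_mul, abs_pow, abs_div, abs_neg, abs_one, abs_of_pos hq]
    have h3 : (1 / q) ^ (n - 1) * |D f (n - 1) (1 - s / q) - D f (n - 1) (1 - t / q)| ≤
        (1 / q) ^ (n - 1) * (σ * (1 / q * |s - t|)) :=
      mul_le_mul_of_nonneg_left h1 (by positivity)
    refine h3.trans (le_of_eq ?_)
    have h4 : (1 / q) ^ (n - 1) * (1 / q) = (1 / q) ^ n := by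
      rw [← pow_succ, Nat.sub_add_cancel hn]
    have h5 : (1 / q) ^ n * σ = 1 := by
      rw [← hσ, ← mul_pow, one_div_mul_cancel hq.ne', one_pow]
    calc (1 / q) ^ (n - 1) * (σ * (1 / q * |s - t|))
        = ((1 / q) ^ (n - 1) * (1 / q)) * σ * |s - t| := by ring
      _ = 1 * |s - t| := by rw [h4, h5]
  · intro t ht
    have := hf.2.1 _ (hmaps t ht)
    simpa [D, iteratedDerivWithin_zero] using this

theorem W_to_cls {n : ℕ} (hn : 1 ≤ n) {σ q : ℝ} (hq : 0 < q) (hσ : q ^ n = σ) {F : ℕ → ℝ → ℝ}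
    (hF : InW n (Icc 0 (2 * q)) F) :
    (fun x => F 0 (q * (1 - x))) ∈ Cls n σ ∧
      ∀ j, j < n → ∀ x ∈ Icc (-1 : ℝ) 1,
        D (fun x => F 0 (q * (1 - x))) j x = (-q) ^ j * F j (q * (1 - x)) := by
  have hmaps : ∀ x ∈ Icc (-1 : ℝ) 1, q * (1 - x) ∈ Icc (0 : ℝ) (2 * q) := by
    intro x hx
    constructor
    · exact mul_nonneg hq.le (by linarith [hx.2])
    · nlinarith [hx.1]
  have hqn : q ^ (n - 1) * q = σ := by
    rw [← pow_succ, Nat.sub_add_cancel hn, hσ]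
  have hlip : ∀ x ∈ Icc (-1 : ℝ) 1, ∀ y ∈ Icc (-1 : ℝ) 1,
      |(-q) ^ (n - 1) * F (n - 1) (q * (1 - x)) - (-q) ^ (n - 1) * F (n - 1) (q * (1 - y))| ≤
        σ * |x - y| := by
    intro x hx y hy
    have h1 := hF.jet.lip _ (hmaps x hx) _ (hmaps y hy)
    have h2 : q * (1 - x) - q * (1 - y) = -(q * (x - y)) := by ring
    rw [h2, abs_neg, abs_mul, abs_of_pos hq, one_mul] at h1
    rw [← mul_sub, abs_mul, abs_pow, abs_neg, abs_of_pos hq]
    calc q ^ (n - 1) * |F (n - 1) (q * (1 - x)) - F (n - 1) (q * (1 - y))|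
        ≤ q ^ (n - 1) * (q * |x - y|) := mul_le_mul_of_nonneg_left h1 (by positivity)
      _ = (q ^ (n - 1) * q) * |x - y| := by ring
      _ = σ * |x - y| := by rw [hqn]
  have hg : ∀ j, j + 1 < n → ∀ x ∈ Icc (-1 : ℝ) 1,
      HasDerivWithinAt ((fun (j : ℕ) (x : ℝ) => (-q) ^ j * F j (q * (1 - x))) j)
        ((fun (j : ℕ) (x : ℝ) => (-q) ^ j * F j (q * (1 - x))) (j + 1) x) (Icc (-1) 1) x := by
    intro j hj x hx
    have h1 := hF.jet.hasDeriv j hj _ (hmaps x hx)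
    have h2 : HasDerivWithinAt (fun x : ℝ => q * (1 - x)) (-q) (Icc (-1) 1) x := by
      have h3 := ((hasDerivAt_id x).const_sub 1).const_mul q
      have h4 : -q = q * -1 := by ring
      rw [h4]
      exact h3.hasDerivWithinAt
    have h5 := h1.comp x h2 (fun x hx => hmaps x hx)
    have h6 := h5.const_mul ((-q) ^ j)
    refine h6.congr_deriv ?_
    show _ = (-q) ^ (j + 1) * F (j + 1) (q * (1 - x))
    rw [pow_succ]
    ring
  have h0 : ∀ x, (fun x => F 0 (q * (1 - x))) x =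
      (fun (j : ℕ) (x : ℝ) => (-q) ^ j * F j (q * (1 - x))) 0 x := by
    intro x
    simp
  obtain ⟨c1, c2⟩ := chain hn (fun (j : ℕ) (x : ℝ) => (-q) ^ j * F j (q * (1 - x))) h0 hg
    (lip_cont hlip)
  refine ⟨⟨c1, ?_, ?_⟩, c2⟩
  · intro x hx
    exact hF.bdd _ (hmaps x hx)
  · intro x hx y hy
    rw [c2 (n - 1) (by omega) x hx, c2 (n - 1) (by omega) y hy]
    exact hlip x hx y hy

/-- reflection `x ↦ -x` -/
theorem cls_refl {n : ℕ} (hn : 1 ≤ n) {σ : ℝ} {f : ℝ → ℝ} (hf : f ∈ Cls n σ) :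
    (fun x => f (-x)) ∈ Cls n σ ∧ ∀ j, j < n → ∀ x ∈ Icc (-1 : ℝ) 1,
      D (fun x => f (-x)) j x = (-1) ^ j * D f j (-x) := by
  have hmaps : ∀ x ∈ Icc (-1 : ℝ) 1, -x ∈ Icc (-1 : ℝ) 1 := by
    intro x hx
    constructor <;> linarith [hx.1, hx.2]
  have hlip : ∀ x ∈ Icc (-1 : ℝ) 1, ∀ y ∈ Icc (-1 : ℝ) 1,
      |(-1) ^ (n - 1) * D f (n - 1) (-x) - (-1) ^ (n - 1) * D f (n - 1) (-y)| ≤
        σ * |x - y| := by
    intro x hx y hy
    have h1 := hf.2.2 _ (hmaps x hx) _ (hmaps y hy)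
    have h2 : -x - -y = -(x - y) := by ring
    rw [h2, abs_neg] at h1
    rw [← mul_sub, abs_mul, abs_pow, abs_neg, abs_one, one_pow, one_mul]
    exact h1
  have hg : ∀ j, j + 1 < n → ∀ x ∈ Icc (-1 : ℝ) 1,
      HasDerivWithinAt ((fun (j : ℕ) (x : ℝ) => (-1) ^ j * D f j (-x)) j)
        ((fun (j : ℕ) (x : ℝ) => (-1) ^ j * D f j (-x)) (j + 1) x) (Icc (-1) 1) x := by
    intro j hj x hx
    have h1 := cls_deriv hf hj (hmaps x hx)
    have h2 : HasDerivWithinAt (fun x : ℝ => -x) (-1) (Icc (-1) 1) x :=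
      (hasDerivAt_neg x).hasDerivWithinAt
    have h5 := h1.comp x h2 (fun x hx => hmaps x hx)
    have h6 := h5.const_mul ((-1) ^ j)
    refine h6.congr_deriv ?_
    show _ = (-1) ^ (j + 1) * D f (j + 1) (-x)
    rw [pow_succ]
    ring
  have h0 : ∀ x, (fun x => f (-x)) x =
      (fun (j : ℕ) (x : ℝ) => (-1) ^ j * D f j (-x)) 0 x := by
    intro x
    simp [D, iteratedDerivWithin_zero]
  obtain ⟨c1, c2⟩ := chain hn (fun (j : ℕ) (x : ℝ) => (-1) ^ j * D f j (-x)) h0 hg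
    (lip_cont hlip)
  refine ⟨⟨c1, ?_, ?_⟩, c2⟩
  · intro x hx
    exact hf.2.1 _ (hmaps x hx)
  · intro x hx y hy
    rw [c2 (n - 1) (by omega) x hx, c2 (n - 1) (by omega) y hy]
    exact hlip x hx y hy

/-- If `f = s T` on `[c, 1]`, `c < 1`, then all derivatives agree at `1`. -/
theorem D_congr {n : ℕ} (hn : 1 ≤ n) {σ : ℝ} {f T : ℝ → ℝ} (hf : f ∈ Cls n σ) (hT : T ∈ Cls n σ)
    {c s : ℝ} (hc : -1 ≤ c) (hc1 : c < 1) (h : ∀ x ∈ Icc c 1, f x = s * T x) :
    ∀ j, j < n → D f j 1 = s * D T j 1 := by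
  have key : ∀ j, j < n → ∀ x ∈ Icc c 1, D f j x = s * D T j x := by
    intro j
    induction j with
    | zero =>
      intro _ x hx
      have := h x hx
      simpa [D, iteratedDerivWithin_zero] using this
    | succ j ih =>
      intro hj x hx
      have hsub : Icc c 1 ⊆ Icc (-1 : ℝ) 1 := Icc_subset_Icc_left hc
      have h1 := (cls_deriv hf hj (hsub hx)).mono hsub
      have h2 := ((cls_deriv hT hj (hsub hx)).mono hsub).const_mul s
      have h3 : HasDerivWithinAt (D f j) (s * D T (j + 1) x) (Icc c 1) x :=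
        h2.congr (fun y hy => ih (by omega) y hy) (ih (by omega) x hx)
      have hu : UniqueDiffWithinAt ℝ (Icc c 1) x := uniqueDiffOn_Icc hc1 x hx
      exact hu.eq_deriv _ h1 h3
  intro j hj
  exact key j hj 1 ⟨hc1.le, le_rfl⟩

end Pool.Agent.LKI
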