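import Pool.Agent.LKI.G1

/-!
G2: perfect splines on `[-1, 1]` and on `[0, 2 q]`.

`zol_to_kspline`: `F j t = (-1/q)^j D T j (1 - t/q)`, `ξ' i = q (1 - ξ i)`, `τ' i = q (1 - τ i)`.
Slope: `F (n-1) t - F (n-1) s = (-1/q)^(n-1) (-1)^i σ ((1 - t/q) - (1 - s/q)) = (-1)^(n+i) (t - s)` as `σ = q^n`.
Contact: `F 0 (τ' i) = D T 0 (τ i) = T (τ i)` (`iteratedDerivWithin_zero`).
`kspline_to_zol`: `T x = F 0 (q (1 - x))`, `ξ i = 1 - ξ' i / q`, `τ i = 1 - τ' i / q`, from `W_to_cls`.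
-/

open Set

namespace Pool.Agent.LKI

private theorem g2_mono {P : ℕ} {ξ : ℕ → ℝ} (h : ∀ i, i ≤ P → ξ i ≤ ξ (i + 1)) :
    (∀ i, i ≤ P + 1 → ξ 0 ≤ ξ i) ∧ ∀ i, i ≤ P + 1 → ξ i ≤ ξ (P + 1) := by
  constructor
  · intro i
    induction i with
    | zero => intro _; exact le_rfl
    | succ i ih =>
      intro hi
      exact (ih (by omega)).trans (h i (by omega))
  · intro i hi
    obtain ⟨k, hk⟩ : ∃ k, i + k = P + 1 := ⟨P + 1 - i, by omega⟩
    induction k generalizing i with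
    | zero =>
      have : i = P + 1 := by omega
      rw [this]
    | succ k ih =>
      exact (h i (by omega)).trans (ih (i + 1) (by omega) (by omega))

theorem zol_to_kspline {n : ℕ} (hn : 1 ≤ n) {σ q : ℝ} (hq : 0 < q) (hσ : q ^ n = σ) {T : ℝ → ℝ}
    (hT : IsZolotarev n σ T) :
    ∃ (P : ℕ) (ξ τ : ℕ → ℝ),
      KSpline n (2 * q) (fun j t => (-1 / q) ^ j * D T j (1 - t / q)) P ξ τ := by
  obtain ⟨hTc, r, ξ, τ, h0, hmono, hlast, hslope, hτ0, hτmono, hτlast, hcon⟩ := hT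
  have hqσ : (1 / q) ^ n * σ = 1 := by
    rw [← hσ, ← mul_pow, one_div_mul_cancel hq.ne', one_pow]
  refine ⟨r, fun i => q * (1 - ξ i), fun i => q * (1 - τ i), cls_to_W hn hq hσ hTc,
    ?_, ?_, ?_, ?_, ?_, ?_, ?_, ?_⟩
  · show q * (1 - ξ 0) = 0
    rw [h0]; ring
  · intro i hi
    exact mul_le_mul_of_nonneg_left (by linarith [hmono i hi]) hq.le
  · show q * (1 - ξ (r + 1)) ≤ 2 * q
    nlinarith
  · intro i hi s hs t ht
    have key : ∀ u ∈ Icc (q * (1 - ξ i)) (q * (1 - ξ (i + 1))),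
        1 - u / q ∈ Icc (ξ (i + 1)) (ξ i) := by
      intro u hu
      have h1 : 1 - ξ i ≤ u / q := by
        rw [le_div_iff₀ hq, mul_comm]; exact hu.1
      have h2 : u / q ≤ 1 - ξ (i + 1) := by
        rw [div_le_iff₀ hq, mul_comm]; exact hu.2
      constructor <;> linarith
    have h1 := hslope i hi (1 - s / q) (key s hs) (1 - t / q) (key t ht)
    have h2 : (1 - t / q) - (1 - s / q) = -(1 / q) * (t - s) := by ring
    have h3 : (-1 / q) ^ n = (-1) ^ n * (1 / q) ^ n := by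
      rw [← mul_pow]; congr 1; ring
    have h4 : (-1 / q) ^ (n - 1) * (-(1 / q)) = (-1 / q) ^ n := by
      have h5 : -(1 / q) = -1 / q := by ring
      rw [h5, ← pow_succ, Nat.sub_add_cancel hn]
    show (-1 / q) ^ (n - 1) * D T (n - 1) (1 - t / q) -
      (-1 / q) ^ (n - 1) * D T (n - 1) (1 - s / q) = (-1) ^ (n + i) * (t - s)
    rw [← mul_sub, h1, h2]
    calc (-1 / q) ^ (n - 1) * ((-1) ^ i * σ * (-(1 / q) * (t - s)))
        = ((-1 / q) ^ (n - 1) * (-(1 / q))) * σ * (-1) ^ i * (t - s) := by ring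
      _ = (-1) ^ n * ((1 / q) ^ n * σ) * (-1) ^ i * (t - s) := by rw [h4, h3]; ring
      _ = (-1) ^ (n + i) * (t - s) := by rw [hqσ, pow_add]; ring
  · show 0 ≤ q * (1 - τ 0)
    exact mul_nonneg hq.le (by linarith)
  · intro i hi
    exact mul_lt_mul_of_pos_left (by linarith [hτmono i hi]) hq
  · show q * (1 - τ (r + n - 1)) ≤ q * (1 - ξ (r + 1))
    exact mul_le_mul_of_nonneg_left (by linarith) hq.le
  · intro i hi
    show (-1 / q) ^ 0 * D T 0 (1 - q * (1 - τ i) / q) = (-1) ^ i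
    have h1 : 1 - q * (1 - τ i) / q = τ i := by
      rw [mul_div_cancel_left₀ _ hq.ne']; ring
    rw [h1, pow_zero, one_mul, D, iteratedDerivWithin_zero]
    exact hcon i hi

theorem kspline_to_zol {n : ℕ} (hn : 1 ≤ n) {σ q : ℝ} (hq : 0 < q) (hσ : q ^ n = σ)
    {F : ℕ → ℝ → ℝ} {P : ℕ} {ξ τ : ℕ → ℝ} (hF : KSpline n (2 * q) F P ξ τ) :
    IsZolotarev n σ (fun x => F 0 (q * (1 - x))) := by
  obtain ⟨hcls, hD⟩ := W_to_cls hn hq hσ hF.inW
  obtain ⟨hm0, hmP⟩ := g2_mono hF.ξmono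
  have hback : ∀ u : ℝ, q * (1 - (1 - u / q)) = u := by
    intro u
    have : 1 - (1 - u / q) = u / q := by ring
    rw [this, mul_div_cancel₀ _ hq.ne']
  refine ⟨hcls, P, fun i => 1 - ξ i / q, fun i => 1 - τ i / q, ?_, ?_, ?_, ?_, ?_, ?_, ?_, ?_⟩
  · show 1 - ξ 0 / q = 1
    rw [hF.ξ0]; simp
  · intro i hi
    show 1 - ξ (i + 1) / q ≤ 1 - ξ i / q
    have := div_le_div_of_nonneg_right (hF.ξmono i hi) hq.le
    linarith
  · show -1 ≤ 1 - ξ (P + 1) / q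
    have h1 : ξ (P + 1) / q ≤ 2 := by
      rw [div_le_iff₀ hq]; exact hF.ξlast
    linarith
  · intro i hi x hx y hy
    have hx' : 1 - ξ (i + 1) / q ≤ x ∧ x ≤ 1 - ξ i / q := hx
    have hy' : 1 - ξ (i + 1) / q ≤ y ∧ y ≤ 1 - ξ i / q := hy
    have e1 : 0 ≤ ξ i / q := div_nonneg (by rw [← hF.ξ0]; exact hm0 i (by omega)) hq.le
    have e2 : ξ (i + 1) / q ≤ 2 := by
      rw [div_le_iff₀ hq]; exact (hmP (i + 1) (by omega)).trans hF.ξlast
    have key : ∀ z, 1 - ξ (i + 1) / q ≤ z ∧ z ≤ 1 - ξ i / q →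
        q * (1 - z) ∈ Icc (ξ i) (ξ (i + 1)) := by
      intro z hz
      have a1 : ξ i / q ≤ 1 - z := by linarith
      have a2 : 1 - z ≤ ξ (i + 1) / q := by linarith
      rw [div_le_iff₀ hq] at a1
      rw [le_div_iff₀ hq] at a2
      constructor <;> nlinarith
    have h1 := hF.slope i hi _ (key x hx') _ (key y hy')
    rw [hD (n - 1) (by omega) y ⟨by linarith, by linarith⟩,
      hD (n - 1) (by omega) x ⟨by linarith, by linarith⟩, ← mul_sub, h1]
    have h3 : (-q) ^ (n - 1) * (-q) = (-1) ^ n * σ := by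
      rw [← pow_succ, Nat.sub_add_cancel hn, neg_pow, hσ]
    have h4 : ((-1 : ℝ) ^ n) * (-1) ^ n = 1 := by
      rw [← mul_pow]; norm_num
    calc (-q) ^ (n - 1) * ((-1) ^ (n + i) * (q * (1 - y) - q * (1 - x)))
        = ((-q) ^ (n - 1) * (-q)) * (-1) ^ (n + i) * (y - x) := by ring
      _ = ((-1) ^ n * (-1) ^ n) * (-1) ^ i * σ * (y - x) := by rw [h3, pow_add]; ring
      _ = (-1) ^ i * σ * (y - x) := by rw [h4]; ring
  · show 1 - τ 0 / q ≤ 1
    have := div_nonneg hF.τ0 hq.le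
    linarith
  · intro i hi
    show 1 - τ (i + 1) / q < 1 - τ i / q
    have := div_lt_div_of_pos_right (hF.τmono i hi) hq
    linarith
  · show 1 - ξ (P + 1) / q ≤ 1 - τ (P + n - 1) / q
    have := div_le_div_of_nonneg_right hF.τlast hq.le
    linarith
  · intro i hi
    show F 0 (q * (1 - (1 - τ i / q))) = (-1) ^ i
    rw [hback]
    exact hF.contact i hi

end Pool.Agent.LKI
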