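import Mathlib

/-!
Definitions used in the final statement (problem MP_0732f2_an).
-/

open Set

namespace Pool.Agent.LKI

/-- The `k`-th derivative of `f` on `[-1, 1]` (one-sided at the end points). -/
noncomputable def D (f : ℝ → ℝ) (k : ℕ) (x : ℝ) : ℝ := iteratedDerivWithin k f (Icc (-1) 1) x

/-- The class of functions with `‖f‖ ≤ 1` and `‖f^(n)‖ ≤ σ` on `[-1, 1]`: `f` is `n - 1` times continuously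
differentiable, `|f| ≤ 1`, and `f^(n-1)` is Lipschitz with constant `σ`. -/
def Cls (n : ℕ) (σ : ℝ) : Set (ℝ → ℝ) :=
  {f | ContDiffOn ℝ ((n - 1 : ℕ) : ℕ∞) f (Icc (-1) 1) ∧ (∀ x ∈ Icc (-1 : ℝ) 1, |f x| ≤ 1) ∧
    ∀ x ∈ Icc (-1 : ℝ) 1, ∀ y ∈ Icc (-1 : ℝ) 1, |D f (n - 1) x - D f (n - 1) y| ≤ σ * |x - y|}

/-- The best constant `M_{n,k}(σ)`. -/
noncomputable def M (n k : ℕ) (σ : ℝ) : ℝ :=
  sSup {y | ∃ f ∈ Cls n σ, ∃ x ∈ Icc (-1 : ℝ) 1, y = |D f k x|}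

/-- Zolotarev-Chebyshev perfect splines: members of the class for which there are `r` and points
`-1 ≤ ξ (r+1) ≤ ... ≤ ξ 0 = 1` such that `T^(n) = (-1)^i σ` on `[ξ (i+1), ξ i]`, `i ≤ r`, and which take the values
`(-1)^i` at `r + n` points `1 ≥ τ 0 > ... > τ (r+n-1) ≥ ξ (r+1)`. -/
def IsZolotarev (n : ℕ) (σ : ℝ) (T : ℝ → ℝ) : Prop :=
  T ∈ Cls n σ ∧ ∃ (r : ℕ) (ξ τ : ℕ → ℝ), ξ 0 = 1 ∧ (∀ i, i ≤ r → ξ (i + 1) ≤ ξ i) ∧ -1 ≤ ξ (r + 1) ∧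
    (∀ i, i ≤ r → ∀ x ∈ Icc (ξ (i + 1)) (ξ i), ∀ y ∈ Icc (ξ (i + 1)) (ξ i),
      D T (n - 1) y - D T (n - 1) x = (-1) ^ i * σ * (y - x)) ∧
    τ 0 ≤ 1 ∧ (∀ i, i + 1 < r + n → τ (i + 1) < τ i) ∧ ξ (r + 1) ≤ τ (r + n - 1) ∧
    ∀ i, i < r + n → T (τ i) = (-1) ^ i

end Pool.Agent.LKI
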